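import Pool.Agent.Trunc.Defs

/-!
# [Orient] orientation of a 2-regular graph
-/

namespace Pool.Agent.Trunc

section

variable {V : Type}

private theorem flip_ne (x : V × Bool) : ((x.1, !x.2) : V × Bool) ≠ x := by
  intro h
  have := congrArg Prod.snd h
  simp at this

theorem Orient_proof : Stmt_Orient := by
  classical
  intro V _ _ nb h1 h2 h3
  choose c hc using h3
  have huniq : ∀ (v : V) (b b' : Bool), nb v b = nb v b' → b = b' := by
    intro v b b' h
    cases b <;> cases b'
    · rfl
    · exact absurd h (h1 v)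
    · exact absurd h.symm (h1 v)
    · rfl
  -- the reversal
  let rev : V × Bool → V × Bool := fun x => (nb x.1 x.2, c x.1 x.2)
  have hrev : ∀ x, rev (rev x) = x := by
    intro x
    have e1 : nb (nb x.1 x.2) (c x.1 x.2) = x.1 := hc x.1 x.2
    have e2 : nb (nb (nb x.1 x.2) (c x.1 x.2)) (c (nb x.1 x.2) (c x.1 x.2)) = nb x.1 x.2 :=
      hc (nb x.1 x.2) (c x.1 x.2)
    refine Prod.ext e1 ?_
    apply huniq x.1
    rw [e1] at e2
    exact e2
  let J : V × Bool → V × Bool := fun x => (x.1, !x.2)
  have hJ : ∀ x, J (J x) = x := by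
    intro x
    simp [J]
  let revE : Equiv.Perm (V × Bool) := ⟨rev, rev, hrev, hrev⟩
  let JE : Equiv.Perm (V × Bool) := ⟨J, J, hJ, hJ⟩
  have hJJ : JE * JE = 1 := by
    ext1 x; exact hJ x
  have hRR : revE * revE = 1 := by
    ext1 x; exact hrev x
  let N : Equiv.Perm (V × Bool) := JE * revE
  have hJinv : JE⁻¹ = JE := by
    rw [inv_eq_iff_mul_eq_one]; exact hJJ
  have hRinv : revE⁻¹ = revE := by
    rw [inv_eq_iff_mul_eq_one]; exact hRR
  have hNinv : N⁻¹ = revE * JE := by
    simp only [N, mul_inv_rev, hJinv, hRinv]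
  have hconj : JE * N * JE⁻¹ = N⁻¹ := by
    rw [hNinv, hJinv]
    simp only [N]
    rw [← mul_assoc, hJJ, one_mul]
  have hconjz : ∀ k : ℤ, JE * N ^ k * JE⁻¹ = N ^ (-k) := by
    intro k
    rw [← conj_zpow, hconj, inv_zpow, zpow_neg]
  have hcomm : ∀ (k : ℤ) (x : V × Bool), JE ((N ^ k) x) = (N ^ (-k)) (JE x) := by
    intro k x
    have := congrArg (fun e : Equiv.Perm (V × Bool) => e (JE x)) (hconjz k)
    simpa [Equiv.Perm.mul_apply] using this
  have hJne : ∀ x, JE x ≠ x := fun x => flip_ne x
  have hRne : ∀ x, revE x ≠ x := by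
    intro x h
    exact h2 x.1 x.2 (congrArg Prod.fst h)
  have hnot : ∀ x, ¬ N.SameCycle x (JE x) := by
    rintro x ⟨k, hk⟩
    rcases Int.even_or_odd' k with ⟨j, rfl | rfl⟩
    · apply hJne ((N ^ j) x)
      rw [hcomm, ← hk, ← Equiv.Perm.mul_apply, ← zpow_add]
      congr 2
      ring
    · have h4 : N ((N ^ j) x) = JE ((N ^ j) x) := by
        rw [hcomm, ← hk, ← Equiv.Perm.mul_apply, ← Equiv.Perm.mul_apply, ← zpow_add,
          ← zpow_one_add]
        congr 2
        ring
      apply hRne ((N ^ j) x)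
      apply JE.injective
      exact h4
  -- an injective labelling of the cycles of N
  obtain ⟨n, ⟨e⟩⟩ := Finite.exists_equiv_fin (Quotient (Equiv.Perm.SameCycle.setoid N))
  let lab : V × Bool → Fin n := fun x => e (Quotient.mk _ x)
  have hlab : ∀ x y, lab x = lab y ↔ N.SameCycle x y := by
    intro x y
    constructor
    · intro h
      exact Quotient.exact (e.injective h)
    · intro h
      exact congrArg e (Quotient.sound h)
  let T : V × Bool → Prop := fun x => lab x < lab (JE x)
  have hTN : ∀ x, T x → T (N x) := by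
    intro x hx
    have e1 : lab (N x) = lab x := by
      rw [hlab]
      exact ⟨-1, by simp⟩
    have e2 : lab (JE (N x)) = lab (JE x) := by
      rw [hlab]
      refine ⟨1, ?_⟩
      have := hcomm 1 x
      rw [zpow_one] at this
      rw [this, ← Equiv.Perm.mul_apply, ← zpow_add]
      simp
    show lab (N x) < lab (JE (N x))
    rw [e1, e2]; exact hx
  have hTN' : ∀ x, T x → T (N⁻¹ x) := by
    intro x hx
    have e1 : lab (N⁻¹ x) = lab x := by
      rw [hlab]
      exact ⟨1, by simp⟩
    have e2 : lab (JE (N⁻¹ x)) = lab (JE x) := by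
      rw [hlab]
      refine ⟨-1, ?_⟩
      have := hcomm (-1) x
      rw [zpow_neg_one] at this
      rw [this, ← Equiv.Perm.mul_apply, ← zpow_add]
      simp
    show lab (N⁻¹ x) < lab (JE (N⁻¹ x))
    rw [e1, e2]; exact hx
  have hTJ : ∀ x, T x ∨ T (JE x) := by
    intro x
    have hne : lab x ≠ lab (JE x) := fun h => hnot x ((hlab _ _).1 h)
    rcases lt_or_gt_of_ne hne with h | h
    · exact Or.inl h
    · right
      show lab (JE x) < lab (JE (JE x))
      have : JE (JE x) = x := hJ x
      rw [this]; exact h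
  have hTJ' : ∀ x, T x → ¬ T (JE x) := by
    intro x hx hx'
    have h5 : lab (JE x) < lab (JE (JE x)) := hx'
    have : JE (JE x) = x := hJ x
    rw [this] at h5
    exact absurd hx (not_lt_of_gt h5)
  have hb : ∀ v : V, ∃ b : Bool, T (v, b) := by
    intro v
    rcases hTJ (v, true) with h | h
    · exact ⟨true, h⟩
    · exact ⟨false, h⟩
  choose b hb using hb
  have hbu : ∀ (v : V) (b' : Bool), T (v, b') → b' = b v := by
    intro v b' h
    by_contra hne
    have h6 : (v, b v) = JE (v, b') := by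
      show (v, b v) = (v, !b')
      congr 1
      cases hbv : b v <;> cases b' <;> simp_all
    apply hTJ' (v, b') h
    rw [← h6]; exact hb v
  have hN1 : ∀ v, N (v, b v) = ((N (v, b v)).1, b (N (v, b v)).1) := by
    intro v
    refine Prod.ext rfl ?_
    exact hbu _ _ (hTN _ (hb v))
  have hN2 : ∀ v, N⁻¹ (v, b v) = ((N⁻¹ (v, b v)).1, b (N⁻¹ (v, b v)).1) := by
    intro v
    refine Prod.ext rfl ?_
    exact hbu _ _ (hTN' _ (hb v))
  let σ : Equiv.Perm V :=
    { toFun := fun v => (N (v, b v)).1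
      invFun := fun v => (N⁻¹ (v, b v)).1
      left_inv := by
        intro v
        show (N⁻¹ ((N (v, b v)).1, b (N (v, b v)).1)).1 = v
        rw [← hN1 v]
        simp
      right_inv := by
        intro v
        show (N ((N⁻¹ (v, b v)).1, b (N⁻¹ (v, b v)).1)).1 = v
        rw [← hN2 v]
        simp }
  refine ⟨σ, fun v => ?_⟩
  have hs1 : σ v = nb v (b v) := rfl
  have hs2 : σ.symm v = nb v (!(b v)) := by
    show (N⁻¹ (v, b v)).1 = _
    rw [hNinv]
    rfl
  rw [hs1, hs2]
  cases b v
  · right; exact ⟨rfl, rfl⟩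
  · left; exact ⟨rfl, rfl⟩

end

end Pool.Agent.Trunc
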