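import Pool.Agent.Trunc.FinalO
import Pool.Agent.Trunc.Orient

/-!
# The strong chromatic index of the truncation of every finite simple cubic graph is 6
-/

namespace Pool.Agent.Trunc

theorem main_proof : Stmt_Main := main_of_orient Orient_proof

universe u

theorem strong_index_eq_six {V : Type u} [Fintype V] [Nonempty V] (G : SimpleGraph V)
    [DecidableRel G.Adj] (hG : ∀ v, G.degree v = 3) :
    strongChromaticIndex (truncation G) = 6 :=
  strong_index_of_main main_proof G hG

end Pool.Agent.Trunc
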