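import Pool.Agent.Trunc.Defs

namespace Pool.Agent.Trunc

open Finset

theorem alt_proof : Stmt_Alt := by
  classical
  intro L hL M hM i₀ x₀
  haveI : NeZero L := ⟨by omega⟩
  let S : ℕ → Finset ℕ := fun n => (range n).filter (fun j : ℕ => M (i₀ + (j : ZMod L)))
  let g : ℕ → Bool := fun n => xor x₀ (decide (Odd (S n).card))
  have hS0 : S 0 = ∅ := by simp [S]
  have hstep : ∀ n, (g n ≠ g (n + 1) ↔ M (i₀ + (n : ZMod L))) := by
    intro n
    have h1 : S (n + 1) = if M (i₀ + (n : ZMod L)) then insert n (S n) else S n := by
      simp only [S, range_add_one, filter_insert]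
    have h2 : n ∉ S n := by simp [S]
    by_cases h : M (i₀ + (n : ZMod L))
    · have h3 : (S (n + 1)).card = (S n).card + 1 := by
        rw [h1, if_pos h, card_insert_of_notMem h2]
      simp only [g, h3, h, iff_true]
      have h5 : decide (Odd ((S n).card + 1)) = !decide (Odd (S n).card) := by
        rw [← decide_not]
        exact decide_eq_decide.2 Nat.odd_add_one
      rw [h5]
      cases x₀ <;> cases decide (Odd (S n).card) <;> simp
    · have h3 : (S (n + 1)).card = (S n).card := by
        rw [h1, if_neg h]
      simp only [g, h3, h, iff_false, not_not]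
  have hcard : (S L).card = Nat.card {i // M i} := by
    rw [Nat.card_eq_fintype_card, Fintype.card_subtype]
    refine card_bij (fun j _ => i₀ + (j : ZMod L)) ?_ ?_ ?_
    · intro j hj
      simp only [S, mem_filter] at hj
      simpa using hj.2
    · intro a ha b hb hab
      simp only [S, mem_filter, mem_range] at ha hb
      have := add_left_cancel hab
      have h1 := congrArg ZMod.val this
      rwa [ZMod.val_natCast_of_lt ha.1, ZMod.val_natCast_of_lt hb.1] at h1
    · intro b hb
      refine ⟨(b - i₀).val, ?_, ?_⟩
      · simp only [S, mem_filter, mem_range, ZMod.val_lt, true_and, ZMod.natCast_val,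
          ZMod.cast_id', id_eq, add_sub_cancel]
        simpa using hb
      · simp
  have hgL : g L = x₀ := by
    have h5 : decide (Odd (S L).card) = false := by
      rw [decide_eq_false_iff_not, hcard, Nat.not_odd_iff_even]
      exact hM
    simp only [g, h5, Bool.xor_false]
  have hg0 : g 0 = x₀ := by
    simp [g, hS0]
  refine ⟨fun i => g (i - i₀).val, by simp [hg0], fun i => ?_⟩
  have hi : i₀ + (((i - i₀).val : ℕ) : ZMod L) = i := by simp
  have h1 := hstep (i - i₀).val
  rw [hi] at h1
  rw [← h1]
  have h2 : g (i + 1 - i₀).val = g ((i - i₀).val + 1) := by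
    by_cases hlt : (i - i₀).val + 1 < L
    · have : (i + 1 - i₀).val = (i - i₀).val + 1 := by
        have e : i + 1 - i₀ = (((i - i₀).val + 1 : ℕ) : ZMod L) := by
          push_cast
          rw [ZMod.natCast_val, ZMod.cast_id]
          ring
        rw [e, ZMod.val_natCast_of_lt hlt]
      rw [this]
    · have hval := ZMod.val_lt (i - i₀)
      have e1 : (i - i₀).val + 1 = L := by omega
      have e2 : i + 1 - i₀ = 0 := by
        have e : i + 1 - i₀ = (((i - i₀).val + 1 : ℕ) : ZMod L) := by
          push_cast
          rw [ZMod.natCast_val, ZMod.cast_id]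
          ring
        rw [e, e1, ZMod.natCast_self]
      rw [e1, e2, ZMod.val_zero, hg0, hgL]
  beta_reduce
  rw [h2]

end Pool.Agent.Trunc
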