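import Pool.Agent.Trunc.SkelLib

/-! Arcs with two mixed vertices: common part of CycleKH20 and CycleKH11 (helper13). -/

namespace Pool.Agent.Trunc

/-- the edges `v + 1, …, v + n` have side `X`, the others have side `!X`. -/
def arc {L : ℕ} (v : ZMod L) (n : ℕ) (X : Bool) (i : ZMod L) : Bool :=
  if 1 ≤ (i - v).val ∧ (i - v).val ≤ n then X else !X

theorem val_nat_sub {L : ℕ} (v : ZMod L) {j : ℕ} (hj : j < L) : (v + (j : ZMod L) - v).val = j := by
  rw [add_sub_cancel_left]
  exact ZMod.val_cast_of_lt hj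

theorem arc_in {L : ℕ} (v : ZMod L) {n : ℕ} (X : Bool) (hn : n < L) {j : ℕ} (h1 : 1 ≤ j)
    (h2 : j ≤ n) : arc v n X (v + (j : ZMod L)) = X := by
  rw [arc, val_nat_sub v (by omega), if_pos ⟨h1, h2⟩]

theorem arc_out {L : ℕ} (v : ZMod L) {n : ℕ} (X : Bool) {j : ℕ} (h1 : n < j)
    (h2 : j ≤ L) : arc v n X (v + (j : ZMod L)) = !X := by
  rcases Nat.lt_or_ge j L with h | h
  · rw [arc, val_nat_sub v h, if_neg (by omega)]
  · have : j = L := by omega
    subst this
    rw [ZMod.natCast_self, add_zero, arc, sub_self, ZMod.val_zero, if_neg (by omega)]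

theorem arc_zero {L : ℕ} (v : ZMod L) {n : ℕ} (X : Bool) : arc v n X v = !X := by
  rw [arc, sub_self, ZMod.val_zero, if_neg (by omega)]

theorem natCast_inj_lt {L : ℕ} (v : ZMod L) {j k : ℕ} (hj : j < L) (hk : k < L)
    (h : v + (j : ZMod L) = v + (k : ZMod L)) : j = k := by
  have h1 := val_nat_sub v hj
  rw [h, val_nat_sub v hk] at h1
  exact h1.symm

theorem arc_mixed {L : ℕ} (v : ZMod L) {n : ℕ} (X : Bool) (hn1 : 1 ≤ n) (hn : n < L) (i : ZMod L) :
    arc v n X i ≠ arc v n X (i + 1) ↔ i = v ∨ i = v + (n : ZMod L) := by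
  have hX : (!X) ≠ X := by cases X <;> simp
  obtain ⟨hj, hj2⟩ := zmod_eq_val (by omega) v i
  generalize (i - v).val = j at hj hj2
  subst hj2
  have e : v + (j : ZMod L) + 1 = v + ((j + 1 : ℕ) : ZMod L) := by push_cast; ring
  rw [e]
  constructor
  · intro h
    rcases Nat.eq_zero_or_pos j with h0 | h0
    · left; simp [h0]
    · right
      rcases Nat.lt_trichotomy j n with h1 | h1 | h1
      · exact absurd (by rw [arc_in v X hn h0 h1.le, arc_in v X hn (by omega) h1]) h
      · rw [h1]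
      · exact absurd (by rw [arc_out v X h1 hj.le, arc_out v X (by omega) hj]) h
  · rintro (h | h)
    · have h0 : j = 0 := natCast_inj_lt v hj (by omega) (by simpa using h)
      subst h0
      rw [arc_in v X hn le_rfl (by omega), Nat.cast_zero, add_zero, arc_zero]
      exact hX
    · have h0 : j = n := natCast_inj_lt v hj hn h
      subst h0
      rw [arc_in v X hn hn1 le_rfl, arc_out v X (by omega) hn]
      exact hX.symm

/-- tape `X` (the side of the arc) : constant skeleton -/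
theorem arc_constX (hTwo : Stmt_SkelTwo) {L : ℕ} (v : ZMod L) {n : ℕ} (X : Bool) (hn1 : 1 ≤ n)
    (hn : n < L) (ty : ZMod L → Bool)
    (h : (∃ j : ℕ, 1 ≤ j ∧ j < n ∧ ty (v + (j : ZMod L)) = X) ∨
      ModOK n (ty v == X) (ty (v + (n : ZMod L)) == X)) : ConstSkel X (arc v n X) ty :=
  (hTwo L n hn1 hn v X (arc v n X) ty (fun _ h1 h2 => arc_in v X hn h1 h2)
    (fun _ h1 h2 => arc_out v X h1 h2)).1 h

/-- tape `X` : acting skeleton -/
theorem arc_actX (hTwo : Stmt_SkelTwo) {L : ℕ} (v : ZMod L) {n : ℕ} (X : Bool) (hn1 : 1 ≤ n)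
    (hn : n < L) (ty : ZMod L → Bool) {j : ℕ} (h1 : n < j) (h2 : j < L)
    (h3 : ty (v + (j : ZMod L)) = X) : ActSkel X (arc v n X) ty (v + (j : ZMod L)) :=
  (hTwo L n hn1 hn v X (arc v n X) ty (fun _ h1 h2 => arc_in v X hn h1 h2)
    (fun _ h1 h2 => arc_out v X h1 h2)).2 j h1 h2 h3

/-- the complementary arc -/
theorem arc_compl {L : ℕ} (v : ZMod L) {n : ℕ} (X : Bool) (hn1 : 1 ≤ n) (hn : n < L) :
    arc (v + (n : ZMod L)) (L - n) (!X) = arc v n X := by
  funext i
  obtain ⟨hj, hj2⟩ := zmod_eq_val (by omega) v i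
  generalize (i - v).val = j at hj hj2
  subst hj2
  have hL0 : ((L : ℕ) : ZMod L) = 0 := ZMod.natCast_self L
  rcases Nat.eq_zero_or_pos j with h0 | h0
  · subst h0
    rw [Nat.cast_zero, add_zero, arc_zero]
    have e : v = v + (n : ZMod L) + ((L - n : ℕ) : ZMod L) := by
      rw [add_assoc, ← Nat.cast_add, show n + (L - n) = L by omega, hL0, add_zero]
    conv_lhs => rw [e]
    have e2 : v + (n : ZMod L) + ((L - n : ℕ) : ZMod L) = v := e.symm
    rw [e2]
    conv_lhs => arg 4; rw [e]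
    exact arc_in _ _ (by omega) (by omega) le_rfl
  rcases Nat.lt_or_ge n j with h1 | h1
  · rw [arc_out v X h1 hj.le]
    have e : v + (j : ZMod L) = v + (n : ZMod L) + ((j - n : ℕ) : ZMod L) := by
      rw [add_assoc, ← Nat.cast_add, show n + (j - n) = j by omega]
    rw [e]
    exact arc_in _ _ (by omega) (by omega) (by omega)
  · rw [arc_in v X hn h0 h1]
    have e : v + (j : ZMod L) = v + (n : ZMod L) + ((L - n + j : ℕ) : ZMod L) := by
      rw [add_assoc, ← Nat.cast_add, show n + (L - n + j) = L + j by omega, Nat.cast_add, hL0,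
        zero_add]
    rw [e, arc_out _ _ (by omega) (by omega), Bool.not_not]

theorem arc_constY (hTwo : Stmt_SkelTwo) {L : ℕ} (v : ZMod L) {n : ℕ} (X : Bool) (hn1 : 1 ≤ n)
    (hn : n < L) (ty : ZMod L → Bool)
    (h : (∃ j : ℕ, n < j ∧ j < L ∧ ty (v + (j : ZMod L)) = !X) ∨
      ModOK (L - n) (ty (v + (n : ZMod L)) == !X) (ty v == !X)) :
    ConstSkel (!X) (arc v n X) ty := by
  rw [← arc_compl v X hn1 hn]
  apply arc_constX hTwo _ _ (by omega) (by omega)
  rcases h with ⟨j, h1, h2, h3⟩ | h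
  · left
    refine ⟨j - n, by omega, by omega, ?_⟩
    rw [add_assoc, ← Nat.cast_add, show n + (j - n) = j by omega]
    exact h3
  · right
    have e : v + (n : ZMod L) + ((L - n : ℕ) : ZMod L) = v := by
      rw [add_assoc, ← Nat.cast_add, show n + (L - n) = L by omega, ZMod.natCast_self, add_zero]
    rw [e]
    exact h

theorem arc_actY (hTwo : Stmt_SkelTwo) {L : ℕ} (v : ZMod L) {n : ℕ} (X : Bool) (hn1 : 1 ≤ n)
    (hn : n < L) (ty : ZMod L → Bool) {j : ℕ} (h1 : 1 ≤ j) (h2 : j < n)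
    (h3 : ty (v + (j : ZMod L)) = !X) : ActSkel (!X) (arc v n X) ty (v + (j : ZMod L)) := by
  rw [← arc_compl v X hn1 hn]
  have e : v + (j : ZMod L) = v + (n : ZMod L) + ((L - n + j : ℕ) : ZMod L) := by
    rw [add_assoc, ← Nat.cast_add, show n + (L - n + j) = L + j by omega, Nat.cast_add,
      ZMod.natCast_self, zero_add]
  rw [e]
  apply arc_actX hTwo _ _ (by omega) (by omega) _ (by omega) (by omega)
  rw [← e]
  exact h3

end Pool.Agent.Trunc
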