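import Pool.Agent.Trunc.Defs

/-!
# Assembling vertex states from two tape solutions
-/

namespace Pool.Agent.Trunc

theorem third_ne_left {x y : ZMod 3} (h : x ≠ y) : third x y ≠ x := by
  revert x y; unfold third; decide

theorem third_ne_right {x y : ZMod 3} (h : x ≠ y) : third x y ≠ y := by
  revert x y; unfold third; decide

theorem third_comm (x y : ZMod 3) : third x y = third y x := by
  unfold third; ring

theorem third_third_left (x y : ZMod 3) : third (third x y) x = y := by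
  unfold third; ring

theorem third_third_right (x y : ZMod 3) : third (third x y) y = x := by
  unfold third; ring

/-- Build a state from six different colours. -/
theorem exists_st {c0 c1 c2 t0 t1 t2 : Col} (h : [c0, c1, c2, t0, t1, t2].Nodup) :
    ∃ s : St, s.c 0 = c0 ∧ s.c 1 = c1 ∧ s.c 2 = c2 ∧ s.t 0 = t0 ∧ s.t 1 = t1 ∧ s.t 2 = t2 := by
  simp only [List.nodup_cons, List.mem_cons, List.not_mem_nil, or_false, not_or,
    List.nodup_nil, and_true, not_false_eq_true] at h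
  obtain ⟨⟨h1, h2, h3, h4, h5⟩, ⟨h6, h7, h8, h9⟩, ⟨h10, h11, h12⟩, ⟨h13, h14⟩, h15⟩ := h
  refine ⟨⟨![c0, c1, c2], ![t0, t1, t2], ?_, ?_, ?_⟩, rfl, rfl, rfl, rfl, rfl, rfl⟩
  · intro i j hij
    fin_cases i <;> fin_cases j <;> simp_all
  · intro i j hij
    fin_cases i <;> fin_cases j <;> simp_all
  · intro i j
    fin_cases i <;> fin_cases j <;> simp_all

theorem fin3_ne_one {j : Fin 3} (h : j ≠ 1) : j = 0 ∨ j = 2 := by
  revert j; decide

theorem fin3_ne_two {j : Fin 3} (h : j ≠ 2) : j = 0 ∨ j = 1 := by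
  revert j; decide

/-- The profile of the state at a vertex. -/
def VProfile (a b t : Bool) (μ : ZMod 3) (p q : Bool → ZMod 3 × ZMod 3) (s : St) : Prop :=
  s.c 0 = (t, μ) ∧ s.c 1 = (a, (p a).1) ∧ s.c 2 = (b, (q b).1) ∧
    (¬ (a = b ∧ t = a) →
      (∀ j, j ≠ 1 → ∃ X, s.t j = (X, if a = X then third (p X).1 (p X).2 else (p X).2)) ∧
      (∀ j, j ≠ 2 → ∃ X, s.t j = (X, if b = X then (q X).2 else (q X).1))) ∧
    ((a = b ∧ t = a) →
      (∀ j, j ≠ 1 → ∃ z, s.t j = (!a, z) ∧ z ≠ (p (!a)).1) ∧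
      (∀ j, j ≠ 2 → ∃ z, s.t j = (!a, z) ∧ z ≠ (q (!a)).2)) ∧
    ((a = b ∧ t ≠ a) → Accept t s) ∧ (¬ (a = b ∧ t ≠ a) → Offer t s) ∧
    (a ≠ b → a = (!t) → s.t 1 = (!t, (p (!t)).2) ∧
      s.t 2 = (!t, third (p (!t)).1 (p (!t)).2)) ∧
    (a ≠ b → b = (!t) → s.t 1 = (!t, (q (!t)).2) ∧
      s.t 2 = (!t, third (q (!t)).1 (q (!t)).2))

theorem asm_N (t : Bool) (μ : ZMod 3) (p q : Bool → ZMod 3 × ZMod 3)
    (hp : ∀ X, (p X).1 ≠ (p X).2) 
    (hX : (q t).1 ≠ (p t).1) (hμ : μ = third (p t).1 (q t).1) (hY : q (!t) = p (!t)) :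
    ∃ s : St, VProfile t t t μ p q s := by
  have e1 := third_ne_left hX.symm
  have e2 := third_ne_right hX.symm
  have e3 := third_ne_left (hp (!t))
  have e4 := third_ne_right (hp (!t))
  have hpY := hp (!t)
  obtain ⟨s, h0, h1, h2, h3, h4, h5⟩ := exists_st (c0 := (t, μ)) (c1 := (t, (p t).1))
    (c2 := (t, (q t).1)) (t0 := (!t, third (p (!t)).1 (p (!t)).2)) (t1 := (!t, (p (!t)).1))
    (t2 := (!t, (p (!t)).2)) (by
      subst hμ
      cases t <;> simp_all [Prod.ext_iff] <;> tauto)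
  refine ⟨s, h0, h1, h2, fun h => absurd ⟨rfl, rfl⟩ h, fun _ => ⟨?_, ?_⟩, fun h => absurd rfl h.2,
    fun _ => ?_, fun h => absurd rfl h, fun h => absurd rfl h⟩
  · intro j hj
    rcases fin3_ne_one hj with rfl | rfl
    · exact ⟨_, h3, e3⟩
    · exact ⟨_, h5, hpY.symm⟩
  · intro j hj
    rw [hY]
    rcases fin3_ne_two hj with rfl | rfl
    · exact ⟨_, h3, e4⟩
    · exact ⟨_, h4, hpY⟩
  · refine ⟨by rw [h0], by rw [h4], by rw [h5]⟩

theorem asm_S (t : Bool) (μ : ZMod 3) (p q : Bool → ZMod 3 × ZMod 3)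
    (hp : ∀ X, (p X).1 ≠ (p X).2) 
    (hX : (p t).2 ≠ μ) (hX' : (q t).1 = third (p t).2 μ) (hY : q (!t) = rot (p (!t))) :
    ∃ s : St, VProfile (!t) (!t) t μ p q s := by
  have e1 := third_ne_left hX
  have e2 := third_ne_right hX
  have e3 := third_ne_left (hp (!t))
  have e4 := third_ne_right (hp (!t))
  have hpY := hp (!t)
  have hY1 : (q (!t)).1 = (p (!t)).2 := by rw [hY]; rfl
  have hY2 : (q (!t)).2 = third (p (!t)).1 (p (!t)).2 := by rw [hY]; rfl
  have htn : t ≠ !t := by cases t <;> decide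
  obtain ⟨s, h0, h1, h2, h3, h4, h5⟩ := exists_st (c0 := (t, μ)) (c1 := (!t, (p (!t)).1))
    (c2 := (!t, (p (!t)).2)) (t0 := (!t, third (p (!t)).1 (p (!t)).2)) (t1 := (t, (q t).1))
    (t2 := (t, (p t).2)) (by
      rw [hX']
      cases t <;> simp_all [Prod.ext_iff] <;> tauto)
  refine ⟨s, h0, h1, by rw [h2, hY1], fun _ => ⟨?_, ?_⟩, fun h => absurd h.2 htn,
    fun _ => ?_, fun h => absurd ⟨rfl, htn⟩ h, fun h => absurd rfl h, fun h => absurd rfl h⟩
  · intro j hj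
    rcases fin3_ne_one hj with rfl | rfl
    · exact ⟨!t, by rw [h3]; simp⟩
    · exact ⟨t, by rw [h5]; simp⟩
  · intro j hj
    rcases fin3_ne_two hj with rfl | rfl
    · exact ⟨!t, by rw [h3]; simp [hY2]⟩
    · exact ⟨t, by rw [h4]; simp⟩
  · refine ⟨by rw [h0], by rw [h4], by rw [h5]⟩

/-- left edge of side `t`, right edge of side `!t` -/
theorem asm_XY (t : Bool) (μ : ZMod 3) (p q : Bool → ZMod 3 × ZMod 3)
    (hp : ∀ X, (p X).1 ≠ (p X).2) (hq : ∀ X, (q X).1 ≠ (q X).2)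
    (hX : (q t).1 = third (p t).1 (p t).2) (hμ : μ = (p t).2)
    (hY : (p (!t)).2 = third (q (!t)).1 (q (!t)).2) :
    ∃ s : St, VProfile t (!t) t μ p q s := by
  have e1 := third_ne_left (hp t)
  have e2 := third_ne_right (hp t)
  have hpX := hp t
  have e3 := third_ne_left (hq (!t))
  have e4 := third_ne_right (hq (!t))
  have hqY := hq (!t)
  have htn : t ≠ !t := by cases t <;> decide
  obtain ⟨s, h0, h1, h2, h3, h4, h5⟩ := exists_st (c0 := (t, μ)) (c1 := (t, (p t).1))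
    (c2 := (!t, (q (!t)).1)) (t0 := (t, third (p t).1 (p t).2)) (t1 := (!t, (q (!t)).2))
    (t2 := (!t, third (q (!t)).1 (q (!t)).2)) (by
      subst hμ
      cases t <;> simp_all [Prod.ext_iff] <;> tauto)
  refine ⟨s, h0, h1, h2, fun _ => ⟨?_, ?_⟩, fun h => absurd h.1 htn,
    fun h => absurd h.1 htn, fun _ => ?_, fun _ h => absurd h htn, fun _ _ => ⟨h4, h5⟩⟩
  · intro j hj
    rcases fin3_ne_one hj with rfl | rfl
    · exact ⟨t, by rw [h3]; simp⟩
    · exact ⟨!t, by rw [h5]; simp [hY]⟩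
  · intro j hj
    rcases fin3_ne_two hj with rfl | rfl
    · exact ⟨t, by rw [h3]; simp [hX]⟩
    · exact ⟨!t, by rw [h4]; simp⟩
  · refine ⟨by rw [h0], by rw [h4], by rw [h5]⟩

/-- left edge of side `!t`, right edge of side `t` -/
theorem asm_YX (t : Bool) (μ : ZMod 3) (p q : Bool → ZMod 3 × ZMod 3)
    (hp : ∀ X, (p X).1 ≠ (p X).2) (hq : ∀ X, (q X).1 ≠ (q X).2)
    (hX : (q t).2 = (p t).2) (hμ : μ = third (q t).1 (q t).2)
    (hY : (q (!t)).1 = (p (!t)).2) :
    ∃ s : St, VProfile (!t) t t μ p q s := by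
  have e1 := third_ne_left (hq t)
  have e2 := third_ne_right (hq t)
  have hqX := hq t
  have e3 := third_ne_left (hp (!t))
  have e4 := third_ne_right (hp (!t))
  have hpY := hp (!t)
  have htn : t ≠ !t := by cases t <;> decide
  obtain ⟨s, h0, h1, h2, h3, h4, h5⟩ := exists_st (c0 := (t, μ)) (c1 := (!t, (p (!t)).1))
    (c2 := (t, (q t).1)) (t0 := (t, (q t).2)) (t1 := (!t, (p (!t)).2))
    (t2 := (!t, third (p (!t)).1 (p (!t)).2)) (by
      subst hμ
      cases t <;> simp_all [Prod.ext_iff] <;> tauto)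
  refine ⟨s, h0, h1, h2, fun _ => ⟨?_, ?_⟩, fun h => absurd h.1.symm htn,
    fun h => absurd h.1.symm htn, fun _ => ?_, fun _ _ => ⟨h4, h5⟩, fun _ h => absurd h htn⟩
  · intro j hj
    rcases fin3_ne_one hj with rfl | rfl
    · exact ⟨t, by rw [h3]; simp [hX]⟩
    · exact ⟨!t, by rw [h5]; simp⟩
  · intro j hj
    rcases fin3_ne_two hj with rfl | rfl
    · exact ⟨t, by rw [h3]; simp⟩
    · exact ⟨!t, by rw [h4]; simp [hY]⟩
  · refine ⟨by rw [h0], by rw [h4], by rw [h5]⟩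

theorem asm_vertex (a b t : Bool) (μ : ZMod 3) (p q : Bool → ZMod 3 × ZMod 3)
    (hp : ∀ X, (p X).1 ≠ (p X).2) (hq : ∀ X, (q X).1 ≠ (q X).2)
    (hV : ∀ X, VStep (a == X) (b == X) (t == X) μ (p X) (q X)) :
    ∃ s : St, VProfile a b t μ p q s := by
  have hT := hV true
  have hF := hV false
  cases a <;> cases b <;> cases t <;> simp only [VStep, beq_self_eq_true,
    show (true == false) = false from rfl, show (false == true) = false from rfl] at hT hF
  · exact asm_N false μ p q hp hF.1 hF.2 hT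
  · exact asm_S true μ p q hp hT.1 hT.2 hF
  · exact asm_XY false μ p q hp hq hF.1 hF.2 hT
  · exact asm_YX true μ p q hp hq hT.1 hT.2 hF
  · exact asm_YX false μ p q hp hq hF.1 hF.2 hT
  · exact asm_XY true μ p q hp hq hT.1 hT.2 hF
  · exact asm_S false μ p q hp hF.1 hF.2 hT
  · exact asm_N true μ p q hp hT.1 hT.2 hF

theorem assemble_proof : Stmt_Assemble := by
  intro L hL f ty μ p hp hN
  have hv : ∀ i, ∃ s : St, VProfile (f i) (f (i + 1)) (ty i) (μ i) (fun X => p X i)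
      (fun X => p X (i + 1)) s := fun i =>
    asm_vertex _ _ _ _ _ _ (fun X => (hp X i).1) (fun X => (hp X (i + 1)).1) (fun X => (hp X i).2)
  choose s hs using hv
  refine ⟨s, fun i => ⟨?_, ?_⟩, fun i => (hs i).1, fun i h => (hs i).2.2.2.2.2.1 ⟨h.1, h.2⟩,
    fun i h => (hs i).2.2.2.2.2.2.1 (fun h' => h ⟨h'.1, h'.2⟩), fun i => (hs i).2.2.2.2.2.2.2.1,
    fun i => (hs i).2.2.2.2.2.2.2.2⟩
  · rw [(hs i).2.2.1, (hs (i + 1)).2.1]
  · intro j k hj hk
    obtain ⟨-, -, -, hA, hB, -⟩ := hs i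
    obtain ⟨-, -, -, hA', hB', -⟩ := hs (i + 1)
    by_cases h1 : f i = f (i + 1) ∧ ty i = f i
    · have h2 : ¬ (f (i + 1) = f (i + 1 + 1) ∧ ty (i + 1) = f (i + 1)) := fun h2 =>
        hN i ⟨⟨h1.1, h1.2⟩, ⟨h2.1, h2.2⟩⟩
      obtain ⟨z, hz, hz'⟩ := (hB h1).2 j hj
      obtain ⟨X, hX⟩ := (hA' h2).1 k hk
      rw [hz, hX]
      intro he
      obtain ⟨h3, h4⟩ := Prod.ext_iff.1 he
      simp only at h3 h4
      subst h3
      rw [if_neg (by rw [h1.1]; cases f (i + 1) <;> simp)] at h4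
      exact hz' h4
    · by_cases h2 : f (i + 1) = f (i + 1 + 1) ∧ ty (i + 1) = f (i + 1)
      · obtain ⟨z, hz, hz'⟩ := (hB' h2).1 k hk
        obtain ⟨X, hX⟩ := (hA h1).2 j hj
        rw [hz, hX]
        intro he
        obtain ⟨h3, h4⟩ := Prod.ext_iff.1 he
        simp only at h3 h4
        subst h3
        rw [if_neg (by cases f (i + 1) <;> simp)] at h4
        exact hz' h4.symm
      · obtain ⟨X, hX⟩ := (hA h1).2 j hj
        obtain ⟨X', hX'⟩ := (hA' h2).1 k hk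
        rw [hX, hX']
        intro he
        obtain ⟨h3, h4⟩ := Prod.ext_iff.1 he
        simp only at h3 h4
        subst h3
        have hne := (hp X (i + 1)).1
        split_ifs at h4 with h5
        · exact third_ne_right hne h4.symm
        · exact hne h4

end Pool.Agent.Trunc
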