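import Pool.Agent.Trunc.Defs

/-!
# The cycle lemma and the root lemma from their cases
-/

namespace Pool.Agent.Trunc

open Finset

theorem even_card_moved {L : ℕ} [NeZero L] (ch : ZMod L → ZMod L) (hch : ∀ i, ch (ch i) = i) :
    ∃ h, Nat.card {i // ch i ≠ i} = 2 * h := by
  classical
  have h1 : (((univ.filter (fun i => ch i ≠ i)).card : ℕ) : ZMod 2) = 0 := by
    have h2 : ∑ i ∈ univ.filter (fun i => ch i ≠ i), (1 : ZMod 2) = 0 := by
      refine Finset.sum_involution (fun i _ => ch i) ?_ ?_ ?_ ?_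
      · intro i _
        decide
      · intro i hi _
        exact (mem_filter.1 hi).2
      · intro i hi
        rw [mem_filter]
        exact ⟨mem_univ _, by rw [hch]; exact ((mem_filter.1 hi).2).symm⟩
      · intro i _
        exact hch i
    simpa using h2
  have h3 : Even (univ.filter (fun i => ch i ≠ i)).card := (ZMod.natCast_eq_zero_iff_even).1 h1
  obtain ⟨h, hh⟩ := h3
  refine ⟨h, ?_⟩
  rw [Nat.card_eq_fintype_card, Fintype.card_subtype, hh]
  ring

theorem card_moved_add_fixed {L : ℕ} [NeZero L] (ch : ZMod L → ZMod L) :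
    Nat.card {i // ch i ≠ i} + Nat.card {i // ch i = i} = L := by
  classical
  rw [Nat.card_eq_fintype_card, Nat.card_eq_fintype_card, Fintype.card_subtype,
    Fintype.card_subtype, add_comm, Finset.card_filter_add_card_filter_not, Finset.card_univ,
    ZMod.card]

theorem cycle_of (h10 : Stmt_CycleKH 1 0) (h20 : Stmt_CycleKH 2 0) (h30 : Stmt_CycleKH 3 0)
    (h11 : Stmt_CycleKH 1 1) (h21 : Stmt_CycleKH 2 1) (h12 : Stmt_CycleKH 1 2)
    (hB : Stmt_CycleBig) : Stmt_Cycle := by
  intro L hL ch K Z hch hadj hK hK' hZ τK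
  have : NeZero L := ⟨by omega⟩
  have hyp : CycleHyp L ch K Z := ⟨hL, hch, hadj, hK, hZ⟩
  obtain ⟨h, hh⟩ := even_card_moved ch hch
  have hk : 1 ≤ Nat.card {i // K i} := by
    obtain ⟨i, hi⟩ := hK'
    have : Nonempty {i // K i} := ⟨⟨i, hi⟩⟩
    exact Nat.card_pos
  by_cases hbig : 8 ≤ 2 * Nat.card {i // K i} + Nat.card {i // ch i ≠ i}
  · exact hB L ch K Z hyp hK' hbig τK
  · generalize hkk : Nat.card {i // K i} = k at *
    have hcases : (k = 1 ∧ h = 0) ∨ (k = 2 ∧ h = 0) ∨ (k = 3 ∧ h = 0) ∨ (k = 1 ∧ h = 1) ∨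
        (k = 2 ∧ h = 1) ∨ (k = 1 ∧ h = 2) := by omega
    rcases hcases with ⟨rfl, rfl⟩ | ⟨rfl, rfl⟩ | ⟨rfl, rfl⟩ | ⟨rfl, rfl⟩ | ⟨rfl, rfl⟩ |
      ⟨rfl, rfl⟩
    · exact h10 L ch K Z hyp hkk hh τK
    · exact h20 L ch K Z hyp hkk hh τK
    · exact h30 L ch K Z hyp hkk hh τK
    · exact h11 L ch K Z hyp hkk hh τK
    · exact h21 L ch K Z hyp hkk hh τK
    · exact h12 L ch K Z hyp hkk hh τK

theorem root_of (h03 : Stmt_RootHS 0 3) (h04 : Stmt_RootHS 0 4) (h12 : Stmt_RootHS 1 2)
    (h13 : Stmt_RootHS 1 3) (h22 : Stmt_RootHS 2 2) (h20 : Stmt_RootHS 2 0)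
    (h30 : Stmt_RootHS 3 0) (hB : Stmt_RootBig) (hH : Stmt_RootHam) : Stmt_Root := by
  intro L hL ch hch hadj hne
  have : NeZero L := ⟨by omega⟩
  obtain ⟨h, hh⟩ := even_card_moved ch hch
  have hsum := card_moved_add_fixed ch
  have hs1 : Nat.card {i // ch i = i} ≠ 1 := by
    intro h1
    apply hne
    obtain ⟨hsub, ⟨⟨b, hb⟩⟩⟩ := Nat.card_eq_one_iff_unique.1 h1
    refine ⟨b, hb, fun c hc => ?_⟩
    exact congrArg Subtype.val (Subsingleton.elim (⟨c, hc⟩ : {i // ch i = i}) ⟨b, hb⟩)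
  generalize hs : Nat.card {i // ch i = i} = s at *
  have hyp : RootHyp L ch h s := ⟨hL, hch, hadj, hh, hs⟩
  have hLs : 2 * h + s = L := by omega
  -- the large cases
  by_cases hbig : ∃ u, Even (h + u) ∧ 4 ≤ h + u ∧ (u < s ∨ (u = 0 ∧ s = 0))
  · obtain ⟨u, h1, h2, h3⟩ := hbig
    exact hB L h s u ch hyp h1 h2 h3
  · have hbig' : ∀ u, Even (h + u) → 4 ≤ h + u → ¬ (u < s ∨ (u = 0 ∧ s = 0)) :=
      fun u h1 h2 h3 => hbig ⟨u, h1, h2, h3⟩
    by_cases hham : s = 0 ∧ Odd h ∧ 5 ≤ h
    · obtain ⟨rfl, h1, h2⟩ := hham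
      exact hH L h ch hyp h1 h2
    · have hcases : (h = 0 ∧ s = 3) ∨ (h = 0 ∧ s = 4) ∨ (h = 1 ∧ s = 2) ∨ (h = 1 ∧ s = 3) ∨
          (h = 2 ∧ s = 2) ∨ (h = 2 ∧ s = 0) ∨ (h = 3 ∧ s = 0) := by
        rcases Nat.even_or_odd h with he | ho
        · -- h even
          by_cases h4 : 4 ≤ h
          · exfalso
            have := hbig' 0 (by simpa using he) (by omega)
            apply this
            rcases Nat.eq_zero_or_pos s with h0 | h0
            · exact Or.inr ⟨rfl, h0⟩
            · exact Or.inl h0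
          · have h02 : h = 0 ∨ h = 2 := by
              obtain ⟨k, hk⟩ := he
              omega
            rcases h02 with rfl | rfl
            · have := hbig' 4 (by decide) (by omega)
              omega
            · have := hbig' 2 (by decide) (by omega)
              omega
        · by_cases h5 : 5 ≤ h
          · exfalso
            rcases Nat.eq_zero_or_pos s with h0 | h0
            · exact hham ⟨h0, ho, h5⟩
            · have := hbig' 1 (by
                obtain ⟨k, hk⟩ := ho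
                exact ⟨k + 1, by omega⟩) (by omega)
              omega
          · have h13' : h = 1 ∨ h = 3 := by
              obtain ⟨k, hk⟩ := ho
              omega
            rcases h13' with rfl | rfl
            · have := hbig' 3 (by decide) (by omega)
              omega
            · have := hbig' 1 (by decide) (by omega)
              omega
      rcases hcases with ⟨rfl, rfl⟩ | ⟨rfl, rfl⟩ | ⟨rfl, rfl⟩ | ⟨rfl, rfl⟩ | ⟨rfl, rfl⟩ |
        ⟨rfl, rfl⟩ | ⟨rfl, rfl⟩
      · exact h03 L ch hyp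
      · exact h04 L ch hyp
      · exact h12 L ch hyp
      · exact h13 L ch hyp
      · exact h22 L ch hyp
      · exact h20 L ch hyp
      · exact h30 L ch hyp

end Pool.Agent.Trunc
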