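import Mathlib

/-!
# Petersen's theorem (bridgeless cubic graphs have perfect matchings), via Tutte

`matching_of_bridgeless`: `G` bridgeless, every vertex outside `U` has degree 3 and the degrees
of the vertices of `U` add up to at most 2.  Then `G` minus `U` has a perfect matching, given as a
partner function.
-/

namespace Pool.Agent.Trunc

open Finset SimpleGraph

variable {V : Type*}

/-- the darts leaving `C` -/
noncomputable def outDarts [Fintype V] (G : SimpleGraph V) (C : Finset V) : Finset (V × V) := by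
  classical
  exact univ.filter (fun p : V × V => p.1 ∈ C ∧ p.2 ∉ C ∧ G.Adj p.1 p.2)

theorem mem_outDarts [Fintype V] {G : SimpleGraph V} {C : Finset V} {p : V × V} :
    p ∈ outDarts G C ↔ p.1 ∈ C ∧ p.2 ∉ C ∧ G.Adj p.1 p.2 := by
  classical
  simp [outDarts]

/-- the darts inside `C` -/
noncomputable def inDarts [Fintype V] (G : SimpleGraph V) (C : Finset V) : Finset (V × V) := by
  classical
  exact univ.filter (fun p : V × V => p.1 ∈ C ∧ p.2 ∈ C ∧ G.Adj p.1 p.2)

theorem mem_inDarts [Fintype V] {G : SimpleGraph V} {C : Finset V} {p : V × V} :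
    p ∈ inDarts G C ↔ p.1 ∈ C ∧ p.2 ∈ C ∧ G.Adj p.1 p.2 := by
  classical
  simp [inDarts]

theorem even_inDarts [Fintype V] (G : SimpleGraph V) (C : Finset V) :
    Even (inDarts G C).card := by
  classical
  have h : ((inDarts G C).card : ZMod 2) = 0 := by
    have h1 : ∑ p ∈ inDarts G C, (1 : ZMod 2) = 0 := by
      refine Finset.sum_involution (fun p _ => (p.2, p.1)) ?_ ?_ ?_ ?_
      · intro p _
        decide
      · intro p hp _ h
        rw [mem_inDarts] at hp
        have : p.2 = p.1 := congrArg Prod.fst h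
        exact G.ne_of_adj hp.2.2 this.symm
      · intro p hp
        rw [mem_inDarts] at hp ⊢
        exact ⟨hp.2.1, hp.1, hp.2.2.symm⟩
      · intro p _
        rfl
    simpa using h1
  exact (ZMod.natCast_eq_zero_iff_even).1 h

theorem sum_degree_eq [Fintype V] (G : SimpleGraph V) [DecidableRel G.Adj] (C : Finset V) :
    ∑ v ∈ C, G.degree v = (outDarts G C).card + (inDarts G C).card := by
  classical
  have hdisj : Disjoint (outDarts G C) (inDarts G C) := by
    rw [Finset.disjoint_left]
    intro p hp hq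
    rw [mem_outDarts] at hp
    rw [mem_inDarts] at hq
    exact hp.2.1 hq.2.1
  rw [← Finset.card_union_of_disjoint hdisj]
  have hU : outDarts G C ∪ inDarts G C
      = (C.sigma (fun v => G.neighborFinset v)).image (fun x : (_ : V) × V => (x.1, x.2)) := by
    ext p
    rw [Finset.mem_union, mem_outDarts, mem_inDarts, Finset.mem_image]
    constructor
    · rintro (h | h)
      · exact ⟨⟨p.1, p.2⟩, by simp [h.1, h.2.2], rfl⟩
      · exact ⟨⟨p.1, p.2⟩, by simp [h.1, h.2.2], rfl⟩
    · rintro ⟨x, hx, rfl⟩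
      simp only [Finset.mem_sigma, SimpleGraph.mem_neighborFinset] at hx
      by_cases h2 : x.2 ∈ C
      · exact Or.inr ⟨hx.1, h2, hx.2⟩
      · exact Or.inl ⟨hx.1, h2, hx.2⟩
  rw [hU, Finset.card_image_of_injective, Finset.card_sigma]
  · simp
  · rintro ⟨a, b⟩ ⟨c, d⟩ h
    simp only [Prod.mk.injEq] at h
    obtain ⟨rfl, rfl⟩ := h
    rfl

theorem mem_of_reachable_closed {H : SimpleGraph V} {C : Set V}
    (hC : ∀ a ∈ C, ∀ b, H.Adj a b → b ∈ C) {x z : V} (hx : x ∈ C) (h : H.Reachable x z) :
    z ∈ C := by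
  obtain ⟨w⟩ := h
  induction w with
  | nil => exact hx
  | cons hab _ ih => exact ih (hC _ hx _ hab)

theorem outDarts_card_ne_one [Fintype V] (G : SimpleGraph V)
    (hb : ∀ e ∈ G.edgeSet, ¬ G.IsBridge e) (C : Finset V) : (outDarts G C).card ≠ 1 := by
  classical
  intro h
  obtain ⟨⟨x, y⟩, hxy⟩ := Finset.card_eq_one.1 h
  have hmem : (x, y) ∈ outDarts G C := by rw [hxy]; simp
  rw [mem_outDarts] at hmem
  obtain ⟨hx, hy, hadj⟩ := hmem
  simp only at hx hy hadj
  refine hb s(x, y) hadj ?_
  rw [SimpleGraph.isBridge_iff]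
  intro hreach
  refine hy (mem_of_reachable_closed (C := (C : Set V)) ?_ hx hreach)
  intro a ha b hab
  by_contra hb'
  rw [SimpleGraph.deleteEdges_adj] at hab
  have hm : (a, b) ∈ outDarts G C := by
    rw [mem_outDarts]
    exact ⟨ha, hb', hab.1⟩
  rw [hxy, Finset.mem_singleton, Prod.mk.injEq] at hm
  obtain ⟨rfl, rfl⟩ := hm
  exact hab.2 (by simp)

theorem three_le_outDarts [Fintype V] (G : SimpleGraph V) [DecidableRel G.Adj]
    (hb : ∀ e ∈ G.edgeSet, ¬ G.IsBridge e) (C : Finset V) (h3 : ∀ v ∈ C, G.degree v = 3)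
    (hodd : Odd C.card) : 3 ≤ (outDarts G C).card := by
  have h1 := sum_degree_eq G C
  rw [Finset.sum_congr rfl h3, Finset.sum_const, smul_eq_mul] at h1
  have h2 := even_inDarts G C
  have h4 := outDarts_card_ne_one G hb C
  obtain ⟨a, ha⟩ := hodd
  obtain ⟨b, hb'⟩ := h2
  omega

/-- Petersen's theorem with a small exceptional set, as a partner function. -/
theorem matching_of_bridgeless [Fintype V] (G : SimpleGraph V) [DecidableRel G.Adj]
    (hb : ∀ e ∈ G.edgeSet, ¬ G.IsBridge e) (U : Finset V)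
    (hU : ∑ u ∈ U, G.degree u ≤ 2) (h3 : ∀ v, v ∉ U → G.degree v = 3) :
    ∃ m : V → V, ∀ v, v ∉ U → m v ∉ U ∧ G.Adj v (m v) ∧ m (m v) = v := by
  classical
  have key : ∃ M : (G.induce {v | v ∉ U}).Subgraph, M.IsPerfectMatching := by
    rw [SimpleGraph.tutte]
    intro T hT
    unfold SimpleGraph.IsTutteViolator at hT
    set H := G.induce {v | v ∉ U} with hH
    set K := ((⊤ : H.Subgraph).deleteVerts T).coe with hK
    -- the vertex set of a component
    let S : K.ConnectedComponent → Finset V := fun c =>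
      univ.filter (fun v => ∃ (h : v ∈ {v | v ∉ U})
        (h' : (⟨v, h⟩ : {v | v ∉ U}) ∈ ((⊤ : H.Subgraph).deleteVerts T).verts),
          K.connectedComponentMk ⟨⟨v, h⟩, h'⟩ = c)
    have hS : ∀ c v, v ∈ S c ↔ ∃ (h : v ∈ {v | v ∉ U})
        (h' : (⟨v, h⟩ : {v | v ∉ U}) ∈ ((⊤ : H.Subgraph).deleteVerts T).verts),
          K.connectedComponentMk ⟨⟨v, h⟩, h'⟩ = c := by
      intro c v
      simp only [S, Finset.mem_filter, Finset.mem_univ, true_and]
    have hScard : ∀ c : K.ConnectedComponent, (S c).card = c.supp.ncard := by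
      intro c
      have : (S c : Set V) = (fun x : ↥((⊤ : H.Subgraph).deleteVerts T).verts => x.1.1) '' c.supp := by
        ext v
        rw [Finset.mem_coe, hS]
        constructor
        · rintro ⟨h, h', hc⟩
          exact ⟨⟨⟨v, h⟩, h'⟩, hc, rfl⟩
        · rintro ⟨⟨⟨w, h⟩, h'⟩, hc, rfl⟩
          exact ⟨h, h', hc⟩
      rw [← Set.ncard_coe_finset, this, Set.ncard_image_of_injective]
      intro x y hxy
      exact Subtype.ext (Subtype.ext hxy)
    -- target set of the outgoing darts
    let T' : Finset V := univ.filter (fun v => ∃ h : v ∈ {v | v ∉ U}, (⟨v, h⟩ : {v | v ∉ U}) ∈ T)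
    have hT' : ∀ v, v ∈ T' ↔ ∃ h : v ∈ {v | v ∉ U}, (⟨v, h⟩ : {v | v ∉ U}) ∈ T := by
      intro v
      simp only [T', Finset.mem_filter, Finset.mem_univ, true_and]
    have hT'card : T'.card = T.ncard := by
      have : (T' : Set V) = Subtype.val '' T := by
        ext v
        rw [Finset.mem_coe, hT']
        constructor
        · rintro ⟨h, h'⟩
          exact ⟨⟨v, h⟩, h', rfl⟩
        · rintro ⟨⟨w, h⟩, h', rfl⟩
          exact ⟨h, h'⟩
      rw [← Set.ncard_coe_finset, this, Set.ncard_image_of_injective _ Subtype.val_injective]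
    have hout : ∀ c, ∀ p ∈ outDarts G (S c), p.2 ∈ T' ∪ U := by
      rintro c ⟨a, b⟩ hp
      rw [mem_outDarts] at hp
      obtain ⟨ha, hb', hab⟩ := hp
      simp only at ha hb' hab
      by_contra hcon
      rw [Finset.mem_union, not_or] at hcon
      obtain ⟨hbT, hbU⟩ := hcon
      apply hb'
      rw [hS] at ha ⊢
      obtain ⟨h, h', hc⟩ := ha
      have hb1 : b ∈ {v | v ∉ U} := hbU
      have hb2 : (⟨b, hb1⟩ : {v | v ∉ U}) ∈ ((⊤ : H.Subgraph).deleteVerts T).verts := by
        rw [SimpleGraph.Subgraph.deleteVerts_verts]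
        refine ⟨trivial, ?_⟩
        intro hcc
        exact hbT ((hT' b).2 ⟨hb1, hcc⟩)
      refine ⟨hb1, hb2, ?_⟩
      rw [← hc]
      rw [SimpleGraph.ConnectedComponent.eq]
      refine SimpleGraph.Adj.reachable ?_
      rw [hK, SimpleGraph.Subgraph.coe_adj, SimpleGraph.Subgraph.deleteVerts_adj]
      refine ⟨trivial, ?_, trivial, ?_, ?_⟩
      · rw [SimpleGraph.Subgraph.deleteVerts_verts] at hb2
        exact hb2.2
      · rw [SimpleGraph.Subgraph.deleteVerts_verts] at h'
        exact h'.2
      · rw [SimpleGraph.Subgraph.top_adj, hH, SimpleGraph.comap_adj]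
        exact hab.symm
    -- count
    have hfin : (K.oddComponents).Finite := Set.toFinite _
    let OC : Finset K.ConnectedComponent := hfin.toFinset
    have hOC : ∀ c, c ∈ OC ↔ Odd c.supp.ncard := by
      intro c
      simp [OC]
    have hOCcard : OC.card = K.oddComponents.ncard := by
      rw [Set.ncard_eq_toFinset_card _ hfin]
    have h1 : 3 * OC.card ≤ ∑ c ∈ OC, (outDarts G (S c)).card := by
      rw [mul_comm, ← smul_eq_mul, ← Finset.sum_const]
      refine Finset.sum_le_sum ?_
      intro c hc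
      refine three_le_outDarts G hb _ ?_ ?_
      · intro v hv
        rw [hS] at hv
        obtain ⟨h, -, -⟩ := hv
        exact h3 v h
      · rw [hScard]
        exact (hOC c).1 hc
    have hdisj : ∀ c ∈ OC, ∀ c' ∈ OC, c ≠ c' →
        Disjoint (outDarts G (S c)) (outDarts G (S c')) := by
      intro c _ c' _ hne
      rw [Finset.disjoint_left]
      intro p hp hp'
      rw [mem_outDarts] at hp hp'
      have hp1 := hp.1
      have hp2 := hp'.1
      rw [hS] at hp1 hp2
      obtain ⟨h, h', hc⟩ := hp1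
      obtain ⟨k, k', hc'⟩ := hp2
      exact hne (hc.symm.trans hc')
    have h2 : ∑ c ∈ OC, (outDarts G (S c)).card = (OC.biUnion (fun c => outDarts G (S c))).card :=
      (Finset.card_biUnion hdisj).symm
    have h4 : (OC.biUnion (fun c => outDarts G (S c))).card ≤ ∑ v ∈ T' ∪ U, G.degree v := by
      rw [sum_degree_eq, ← Finset.card_union_of_disjoint]
      · refine Finset.card_le_card_of_injOn (fun p => (p.2, p.1)) ?_ ?_
        · intro p hp
          rw [Finset.mem_coe, Finset.mem_biUnion] at hp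
          obtain ⟨c, -, hp⟩ := hp
          have h5 := hout c p hp
          rw [mem_outDarts] at hp
          rw [Finset.mem_coe, Finset.mem_union, mem_outDarts, mem_inDarts]
          by_cases h6 : p.1 ∈ T' ∪ U
          · exact Or.inr ⟨h5, h6, hp.2.2.symm⟩
          · exact Or.inl ⟨h5, h6, hp.2.2.symm⟩
        · intro p _ q _ hpq
          simp only [Prod.mk.injEq] at hpq
          exact Prod.ext hpq.2 hpq.1
      · rw [Finset.disjoint_left]
        intro p hp hq
        rw [mem_outDarts] at hp
        rw [mem_inDarts] at hq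
        exact hp.2.1 hq.2.1
    have h5 : ∑ v ∈ T' ∪ U, G.degree v ≤ 3 * T'.card + 2 := by
      have hd : Disjoint T' U := by
        rw [Finset.disjoint_left]
        intro v hv hv'
        rw [hT'] at hv
        obtain ⟨h, -⟩ := hv
        exact h hv'
      rw [Finset.sum_union hd]
      have h6 : ∑ v ∈ T', G.degree v = 3 * T'.card := by
        rw [Finset.sum_congr rfl (g := fun _ => 3), Finset.sum_const, smul_eq_mul, mul_comm]
        intro v hv
        rw [hT'] at hv
        obtain ⟨h, -⟩ := hv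
        exact h3 v h
      omega
    rw [← hOCcard, ← hT'card] at hT
    omega
  obtain ⟨M, hM⟩ := key
  rw [SimpleGraph.Subgraph.isPerfectMatching_iff] at hM
  choose f hf hf' using hM
  refine ⟨fun v => if h : v ∉ U then (f ⟨v, h⟩).1 else v, ?_⟩
  intro v hv
  have hadj := hf ⟨v, hv⟩
  have hff : f (f ⟨v, hv⟩) = ⟨v, hv⟩ := (hf' (f ⟨v, hv⟩) ⟨v, hv⟩ hadj.symm).symm
  have hnot : (f ⟨v, hv⟩).1 ∉ U := (f ⟨v, hv⟩).2
  refine ⟨?_, ?_, ?_⟩
  · simp only [hv, not_false_eq_true, dite_true]
    exact hnot
  · simp only [hv, not_false_eq_true, dite_true]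
    have := M.adj_sub hadj
    rw [SimpleGraph.comap_adj] at this
    exact this
  · simp only [hv, not_false_eq_true, dite_true]
    rw [dif_pos hnot]
    exact congrArg Subtype.val hff

end Pool.Agent.Trunc
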