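import Pool.Agent.Trunc.Defs

/-! Constructor for states, and small facts on `ZMod 3` (helper13). -/

namespace Pool.Agent.Trunc

theorem exists_St (c0 c1 c2 t0 t1 t2 : Col) (h : [c0, c1, c2, t0, t1, t2].Nodup) :
    ∃ s : St, s.c 0 = c0 ∧ s.c 1 = c1 ∧ s.c 2 = c2 ∧ s.t 0 = t0 ∧ s.t 1 = t1 ∧ s.t 2 = t2 := by
  simp only [List.nodup_cons, List.mem_cons, List.not_mem_nil, or_false, not_or,
    List.nodup_nil, and_true, not_false_eq_true] at h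
  obtain ⟨⟨h1, h2, h3, h4, h5⟩, ⟨h6, h7, h8, h9⟩, ⟨h10, h11, h12⟩, ⟨h13, h14⟩, h15⟩ := h
  refine ⟨⟨![c0, c1, c2], ![t0, t1, t2], ?_, ?_, ?_⟩, rfl, rfl, rfl, rfl, rfl, rfl⟩
  · intro i j hij
    fin_cases i <;> fin_cases j <;> simp_all
  · intro i j hij
    fin_cases i <;> fin_cases j <;> simp_all
  · intro i j
    fin_cases i <;> fin_cases j <;> simp_all

theorem fedge_iff (s s' : St) : FEdge s s' ↔ s.c 2 = s'.c 1 ∧ s.t 0 ≠ s'.t 0 ∧ s.t 0 ≠ s'.t 2 ∧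
    s.t 1 ≠ s'.t 0 ∧ s.t 1 ≠ s'.t 2 := by
  unfold FEdge EdgeOK
  constructor
  · rintro ⟨h1, h2⟩
    exact ⟨h1, h2 0 0 (by decide) (by decide), h2 0 2 (by decide) (by decide),
      h2 1 0 (by decide) (by decide), h2 1 2 (by decide) (by decide)⟩
  · rintro ⟨h1, h2, h3, h4, h5⟩
    refine ⟨h1, ?_⟩
    intro a b ha hb
    fin_cases a <;> fin_cases b <;> simp_all

theorem medge_iff (s s' : St) : MEdge s s' ↔ s.c 0 = s'.c 0 ∧ s.t 1 ≠ s'.t 1 ∧ s.t 1 ≠ s'.t 2 ∧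
    s.t 2 ≠ s'.t 1 ∧ s.t 2 ≠ s'.t 2 := by
  unfold MEdge EdgeOK
  constructor
  · rintro ⟨h1, h2⟩
    exact ⟨h1, h2 1 1 (by decide) (by decide), h2 1 2 (by decide) (by decide),
      h2 2 1 (by decide) (by decide), h2 2 2 (by decide) (by decide)⟩
  · rintro ⟨h1, h2, h3, h4, h5⟩
    refine ⟨h1, ?_⟩
    intro a b ha hb
    fin_cases a <;> fin_cases b <;> simp_all

end Pool.Agent.Trunc
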