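import Pool.Agent.Trunc.Defs
import Pool.Agent.Trunc.Petersen
import Pool.Agent.Trunc.StMk

/-!
# [Core] from the cyclic/matching formulation `Stmt_CoreCM` (with Petersen's theorem and `Orient`)
-/

set_option autoImplicit false

namespace Pool.Agent.Trunc

open Finset

theorem EdgeOK.symm' {s s' : St} {i j : Fin 3} (h : EdgeOK s i s' j) : EdgeOK s' j s i :=
  ⟨h.1.symm, fun a b ha hb hab => h.2 b a hb ha hab.symm⟩

theorem perm_closed_symm {V : Type} [DecidableEq V] (σ : Equiv.Perm V) (W : Finset V)
    (hW : ∀ v ∈ W, σ v ∈ W) : ∀ v ∈ W, σ.symm v ∈ W := by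
  classical
  have h1 : W.image σ ⊆ W := by
    intro x hx
    obtain ⟨y, hy, rfl⟩ := Finset.mem_image.1 hx
    exact hW y hy
  have h2 : W.image σ = W := Finset.eq_of_subset_of_card_le h1
    (by rw [Finset.card_image_of_injective _ σ.injective])
  intro v hv
  rw [← h2] at hv
  obtain ⟨y, hy, rfl⟩ := Finset.mem_image.1 hv
  rwa [Equiv.symm_apply_apply]

theorem Core_proof (h1 : Stmt_CoreCM) (h2 : Stmt_Orient) : Stmt_Core := by
  classical
  intro V _ _ G _ U hU hU2 hU3 hcut
  -- no bridges
  have hb : ∀ e ∈ G.edgeSet, ¬ G.IsBridge e := by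
    intro e
    induction e using Sym2.ind with
    | _ x y =>
      intro he hbr
      rw [SimpleGraph.isBridge_iff] at hbr
      let W : Finset V := univ.filter (fun z => (G.deleteEdges {s(x, y)}).Reachable x z)
      have hmW : ∀ z, z ∈ W ↔ (G.deleteEdges {s(x, y)}).Reachable x z := by
        intro z
        simp [W]
      have hx : x ∈ W := (hmW x).2 (SimpleGraph.Reachable.refl _)
      have hy : y ∉ W := fun h => hbr ((hmW y).1 h)
      have h3 := hcut W ⟨x, hx⟩ (fun h => hy (by rw [h]; exact Finset.mem_univ _))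
      have h4 : (univ.filter (fun p : V × V => p.1 ∈ W ∧ p.2 ∉ W ∧ G.Adj p.1 p.2))
          ⊆ {(x, y)} := by
        rintro ⟨a, b⟩ hp
        rw [Finset.mem_filter] at hp
        obtain ⟨-, ha, hb', hab⟩ := hp
        simp only at ha hb' hab
        have h5 : s(a, b) = s(x, y) := by
          by_contra hne
          apply hb'
          rw [hmW] at ha ⊢
          refine ha.trans (SimpleGraph.Adj.reachable ?_)
          rw [SimpleGraph.deleteEdges_adj]
          exact ⟨hab, by simpa using hne⟩
        rw [Sym2.eq_iff] at h5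
        rcases h5 with ⟨rfl, rfl⟩ | ⟨rfl, rfl⟩
        · simp
        · exact absurd ha hy
      have h5 := Finset.card_le_card h4
      rw [Finset.card_singleton] at h5
      omega
  -- the matching
  obtain ⟨m, hm⟩ := matching_of_bridgeless G hb U
    (by rw [Finset.sum_congr rfl hU2, Finset.sum_const, smul_eq_mul]; omega) hU3
  let m' : V → V := fun v => if v ∈ U then v else m v
  have hm'U : ∀ v, v ∈ U → m' v = v := fun v hv => by simp [m', hv]
  have hm'n : ∀ v, v ∉ U → m' v = m v := fun v hv => by simp [m', hv]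
  have hmm : ∀ v, m' (m' v) = v := by
    intro v
    by_cases hv : v ∈ U
    · rw [hm'U v hv, hm'U v hv]
    · rw [hm'n v hv, hm'n _ (hm v hv).1]
      exact (hm v hv).2.2
  have hfixU : ∀ v, m' v = v → v ∈ U := by
    intro v hv
    by_contra hv'
    rw [hm'n v hv'] at hv
    have := (hm v hv').2.1
    rw [hv] at this
    exact G.loopless.irrefl v this
  have hadjm : ∀ v, m' v ≠ v → G.Adj v (m' v) := by
    intro v hv
    have hv' : v ∉ U := fun h => hv (hm'U v h)
    rw [hm'n v hv']
    exact (hm v hv').2.1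
  -- the other two neighbours
  have hcard : ∀ v, ((G.neighborFinset v).erase (m' v)).card = 2 := by
    intro v
    by_cases hv : v ∈ U
    · rw [hm'U v hv, Finset.erase_eq_of_notMem, SimpleGraph.card_neighborFinset_eq_degree]
      · exact hU2 v hv
      · simp
    · rw [Finset.card_erase_of_mem, SimpleGraph.card_neighborFinset_eq_degree, hU3 v hv]
      rw [SimpleGraph.mem_neighborFinset, hm'n v hv]
      exact (hm v hv).2.1
  have hex : ∀ v, ∃ x y, x ≠ y ∧ (G.neighborFinset v).erase (m' v) = {x, y} := fun v =>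
    Finset.card_eq_two.1 (hcard v)
  choose n0 n1 hne hpair using hex
  let nb : V → Bool → V := fun v b => if b then n1 v else n0 v
  have hnb : ∀ v w, (G.Adj v w ∧ w ≠ m' v) ↔ ∃ b, nb v b = w := by
    intro v w
    have h3 : w ∈ (G.neighborFinset v).erase (m' v) ↔ w = n0 v ∨ w = n1 v := by
      rw [hpair v]
      simp
    rw [Finset.mem_erase, SimpleGraph.mem_neighborFinset] at h3
    constructor
    · rintro ⟨h4, h5⟩
      rcases h3.1 ⟨h5, h4⟩ with h | h
      · exact ⟨false, by simp [nb, h]⟩
      · exact ⟨true, by simp [nb, h]⟩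
    · rintro ⟨b, hb⟩
      have h4 : w = n0 v ∨ w = n1 v := by
        cases b
        · left; simpa [nb] using hb.symm
        · right; simpa [nb] using hb.symm
      exact ⟨(h3.2 h4).2, (h3.2 h4).1⟩
  obtain ⟨σ, hσ⟩ := h2 V nb (fun v => by simpa [nb] using hne v)
    (fun v b hvb => by
      have := ((hnb v (nb v b)).2 ⟨b, rfl⟩).1
      rw [hvb] at this
      exact G.loopless.irrefl v this)
    (fun v b => by
      have h3 := (hnb v (nb v b)).2 ⟨b, rfl⟩
      refine (hnb (nb v b) v).1 ⟨h3.1.symm, ?_⟩
      intro h4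
      apply h3.2
      have h5 := congrArg m' h4
      rw [hmm] at h5
      exact h5.symm)
  have hσ1 : ∀ v, G.Adj v (σ v) ∧ σ v ≠ m' v := by
    intro v
    rcases hσ v with ⟨h, -⟩ | ⟨h, -⟩
    · exact (hnb v _).2 ⟨true, h.symm⟩
    · exact (hnb v _).2 ⟨false, h.symm⟩
  have hσ2 : ∀ v, σ v ≠ σ.symm v := by
    intro v
    have h3 := hne v
    rcases hσ v with ⟨h, h'⟩ | ⟨h, h'⟩
    · rw [h, h']
      simpa [nb] using h3.symm
    · rw [h, h']
      simpa [nb] using h3
  have hall : ∀ v w, G.Adj v w → w = m' v ∨ w = σ v ∨ w = σ.symm v := by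
    intro v w hvw
    by_cases hw : w = m' v
    · exact Or.inl hw
    · right
      obtain ⟨b, hb⟩ := (hnb v w).1 ⟨hvw, hw⟩
      rcases hσ v with ⟨h, h'⟩ | ⟨h, h'⟩ <;> cases b
      · exact Or.inr (by rw [h', hb])
      · exact Or.inl (by rw [h, hb])
      · exact Or.inl (by rw [h, hb])
      · exact Or.inr (by rw [h', hb])
  have hσσ : ∀ v, σ (σ v) ≠ v := by
    intro v h
    apply hσ2 (σ v)
    rw [h, Equiv.symm_apply_apply]
  obtain ⟨s, hs1, hs2⟩ := h1 V σ m' hmm (fun v h => G.ne_of_adj (hσ1 v).1 h.symm) hσσ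
    (fun v h => (hσ1 v).2 h.symm)
    (fun v w hv hw => by
      rcases Finset.card_le_one.1 hU v (hfixU v hv) w (hfixU w hw) with h
      exact h)
    (by
      intro W hW hWne hWu
      refine le_trans (hcut W hWne hWu) ?_
      refine Finset.card_le_card_of_injOn Prod.fst ?_ ?_
      · rintro ⟨a, b⟩ hp
        rw [Finset.mem_coe, Finset.mem_filter] at hp
        obtain ⟨-, ha, hb', hab⟩ := hp
        simp only at ha hb' hab
        rw [Finset.mem_coe, Finset.mem_filter]
        refine ⟨ha, ?_⟩
        rcases hall a b hab with h | h | h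
        · rwa [← h]
        · exact absurd (hW a ha) (by rwa [← h])
        · exact absurd (perm_closed_symm σ W hW a ha) (by rwa [← h])
      · rintro ⟨a, b⟩ hp ⟨a', b'⟩ hp' haa
        rw [Finset.mem_coe, Finset.mem_filter] at hp hp'
        obtain ⟨-, ha, hb1, hab⟩ := hp
        obtain ⟨-, ha', hb2, hab'⟩ := hp'
        simp only at ha hb1 hab ha' hb2 hab' haa
        subst haa
        have key : ∀ c, G.Adj a c → c ∉ W → c = m' a := by
          intro c hac hc
          rcases hall a c hac with h | h | h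
          · exact h
          · exact absurd (hW a ha) (by rwa [← h])
          · exact absurd (perm_closed_symm σ W hW a ha) (by rwa [← h])
        rw [key b hab hb1, key b' hab' hb2])
  refine ⟨fun v w => if w = m' v then 0 else if w = σ v then 2 else 1, s, ?_, ?_⟩
  · intro v w w' hw hw' hsl
    simp only at hsl
    rcases hall v w hw with h | h | h <;> rcases hall v w' hw' with h' | h' | h'
    · rw [h, h']
    · exfalso
      rw [h, h'] at hsl
      simp [(hσ1 v).2] at hsl
    · exfalso
      have h3 : w' ≠ m' v := by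
        rintro rfl
        obtain ⟨b, hb⟩ : ∃ b, nb v b = σ.symm v := by
          rcases hσ v with ⟨-, h4⟩ | ⟨-, h4⟩
          · exact ⟨_, h4.symm⟩
          · exact ⟨_, h4.symm⟩
        exact ((hnb v (σ.symm v)).2 ⟨b, hb⟩).2 h'.symm
      have h4 : w' ≠ σ v := by
        rw [h']
        exact (hσ2 v).symm
      rw [if_pos h, if_neg h3, if_neg h4] at hsl
      exact absurd hsl (by decide)
    · exfalso
      rw [h, h'] at hsl
      simp [(hσ1 v).2] at hsl
    · rw [h, h']
    · exfalso
      have h3 : w' ≠ m' v := by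
        rintro rfl
        obtain ⟨b, hb⟩ : ∃ b, nb v b = σ.symm v := by
          rcases hσ v with ⟨-, h4⟩ | ⟨-, h4⟩
          · exact ⟨_, h4.symm⟩
          · exact ⟨_, h4.symm⟩
        exact ((hnb v (σ.symm v)).2 ⟨b, hb⟩).2 h'.symm
      have h4 : w' ≠ σ v := by
        rw [h']
        exact (hσ2 v).symm
      have h5 : w ≠ m' v := by
        rw [h]
        exact (hσ1 v).2
      rw [if_neg h5, if_pos h, if_neg h3, if_neg h4] at hsl
      exact absurd hsl (by decide)
    · exfalso
      have h3 : w ≠ m' v := by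
        rintro rfl
        obtain ⟨b, hb⟩ : ∃ b, nb v b = σ.symm v := by
          rcases hσ v with ⟨-, h4⟩ | ⟨-, h4⟩
          · exact ⟨_, h4.symm⟩
          · exact ⟨_, h4.symm⟩
        exact ((hnb v (σ.symm v)).2 ⟨b, hb⟩).2 h.symm
      have h4 : w ≠ σ v := by
        rw [h]
        exact (hσ2 v).symm
      rw [if_neg h3, if_neg h4, if_pos h'] at hsl
      exact absurd hsl (by decide)
    · exfalso
      have h3 : w ≠ m' v := by
        rintro rfl
        obtain ⟨b, hb⟩ : ∃ b, nb v b = σ.symm v := by
          rcases hσ v with ⟨-, h4⟩ | ⟨-, h4⟩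
          · exact ⟨_, h4.symm⟩
          · exact ⟨_, h4.symm⟩
        exact ((hnb v (σ.symm v)).2 ⟨b, hb⟩).2 h.symm
      have h4 : w ≠ σ v := by
        rw [h]
        exact (hσ2 v).symm
      have h5 : w' ≠ m' v := by
        rw [h']
        exact (hσ1 v).2
      rw [if_neg h3, if_neg h4, if_neg h5, if_pos h'] at hsl
      exact absurd hsl (by decide)
    · rw [h, h']
  · -- the two slots
    have key1 : ∀ v, m' v ≠ v → EdgeOK (s v) 0 (s (m' v)) 0 := fun v hv => hs2 v hv
    have key2 : ∀ v, EdgeOK (s v) 2 (s (σ v)) 1 := fun v => hs1 v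
    have hsymm_ne : ∀ v, σ.symm v ≠ m' v := by
      intro v hh
      obtain ⟨b, hb⟩ : ∃ b, nb v b = σ.symm v := by
        rcases hσ v with ⟨-, h4⟩ | ⟨-, h4⟩
        · exact ⟨_, h4.symm⟩
        · exact ⟨_, h4.symm⟩
      exact ((hnb v (σ.symm v)).2 ⟨b, hb⟩).2 hh
    intro v w hvw
    simp only
    rcases hall v w hvw with h | h | h
    · subst h
      have h3 : m' v ≠ v := (G.ne_of_adj hvw).symm
      rw [if_pos rfl, if_pos (hmm v).symm]
      exact key1 v h3
    · subst h
      have e1 : σ v ≠ m' v := (hσ1 v).2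
      have e2 : v ≠ m' (σ v) := by
        intro h4
        apply e1
        rw [h4, hmm, ← h4]
      have e3 : v ≠ σ (σ v) := (hσσ v).symm
      rw [if_neg e1, if_pos rfl, if_neg e2, if_neg e3]
      exact key2 v
    · have hv : v = σ w := by rw [h, Equiv.apply_symm_apply]
      have e1 : w ≠ m' v := by
        rw [h]
        exact hsymm_ne v
      have e2 : w ≠ σ v := by
        rw [h]
        exact (hσ2 v).symm
      have e3 : v ≠ m' w := by
        intro h4
        apply e1
        rw [h4, hmm]
      rw [if_neg e1, if_neg e2, if_neg e3, if_pos hv]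
      have := (key2 w).symm'
      rwa [← hv] at this

end Pool.Agent.Trunc
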