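import Pool.Agent.Trunc.Defs
import Pool.Agent.Trunc.StMk

/-!
# [CoreCM] assembly from `Root`, `Pos`, `CoreQ`, `CoreR`
-/

set_option autoImplicit false

namespace Pool.Agent.Trunc

open Finset

theorem EdgeOK.symmC {s s' : St} {i j : Fin 3} (h : EdgeOK s i s' j) : EdgeOK s' j s i :=
  ⟨h.1.symm, fun a b ha hb hab => h.2 b a hb ha hab.symm⟩

theorem nonempty_St : Nonempty St := by
  obtain ⟨s, -⟩ := exists_St (false, 0) (false, 1) (false, 2) (true, 0) (true, 1) (true, 2)
    (by decide)
  exact ⟨s⟩

/-- Accept and offer with the same colour. -/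
theorem medge_of_accept_offer {τ : Bool} {s s' : St} (h : Accept τ s) (h' : Offer τ s')
    (h0 : s.c 0 = s'.c 0) : MEdge s s' := by
  rw [medge_iff]
  obtain ⟨-, h1, h2⟩ := h
  obtain ⟨-, h3, h4⟩ := h'
  refine ⟨h0, ?_, ?_, ?_, ?_⟩
  · intro hh
    rw [hh, h3] at h1
    cases τ <;> simp at h1
  · intro hh
    rw [hh, h4] at h1
    cases τ <;> simp at h1
  · intro hh
    rw [hh, h3] at h2
    cases τ <;> simp at h2
  · intro hh
    rw [hh, h4] at h2
    cases τ <;> simp at h2

theorem medge_congr {s s' s'' : St} (h : MEdge s s') (h0 : s''.c 0 = s'.c 0)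
    (h1 : s''.t 1 = s'.t 1) (h2 : s''.t 2 = s'.t 2) : MEdge s s'' := by
  rw [medge_iff] at h ⊢
  rw [h0, h1, h2]
  exact h

theorem CoreCM_proof (hR : Stmt_Root) (hP : Stmt_Pos) (hQ : Stmt_CoreQ) (hC : Stmt_CoreR) :
    Stmt_CoreCM := by
  classical
  intro V _ _ σ m hmm hσ hσσ hmσ huniq hcut
  obtain ⟨s0⟩ := nonempty_St
  by_cases hVn : Nonempty V
  swap
  · exact ⟨fun _ => s0, fun v => absurd ⟨v⟩ hVn, fun v => absurd ⟨v⟩ hVn⟩
  have hcut' : ∀ W : Finset V, (∀ v ∈ W, σ v ∈ W) → W.Nonempty → W ≠ univ → ∃ v ∈ W, m v ∉ W := by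
    intro W h1 h2 h3
    have h4 := hcut W h1 h2 h3
    obtain ⟨v, hv⟩ : (W.filter (fun v => m v ∉ W)).Nonempty := by
      rw [← Finset.card_pos]
      omega
    rw [Finset.mem_filter] at hv
    exact ⟨v, hv⟩
  by_cases hfix : ∃ u, m u = u
  · obtain ⟨u, hu⟩ := hfix
    obtain ⟨τX, hτ⟩ := hQ V σ m hmm hσ hσσ hmσ univ (fun v _ => Finset.mem_univ _)
      (fun _ => False) (fun _ => False) (fun v _ h => h.elim) ⟨u, u, fun v h => h.elim⟩
      (by
        intro W₁ _ h2 h3
        by_cases h4 : W₁ = univ
        · exact ⟨u, by rw [h4]; exact Finset.mem_univ _, not_false, Or.inr hu⟩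
        · obtain ⟨v, hv, hv'⟩ := hcut' W₁ h2 h3 h4
          exact ⟨v, hv, not_false, Or.inl hv'⟩) (fun _ => true)
    obtain ⟨s, hs1, hs2, -, -⟩ := hτ (fun _ => s0) (fun v _ h => h.elim)
    exact ⟨s, fun v => hs1 v (Finset.mem_univ _), fun v hv =>
      hs2 v (Finset.mem_univ _) (Finset.mem_univ _) hv⟩
  · have hnf : ∀ v, m v ≠ v := fun v hv => hfix ⟨v, hv⟩
    obtain ⟨r, hr⟩ := hC V σ m hmm hcut'
    obtain ⟨L, pos, hL, hinj, -, hstep, hsame⟩ := hP V σ hσ hσσ r
    -- the index function
    let idx : V → ZMod L := fun w => if h : ∃ i, pos i = w then h.choose else 0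
    have hidx : ∀ i, idx (pos i) = i := by
      intro i
      have h : ∃ j, pos j = pos i := ⟨i, rfl⟩
      have h1 : idx (pos i) = h.choose := by
        simp only [idx]
        rw [dif_pos h]
      rw [h1]
      exact hinj h.choose_spec
    have hpidx : ∀ w, σ.SameCycle r w → pos (idx w) = w := by
      intro w hw
      obtain ⟨i, rfl⟩ := (hsame w).1 hw
      rw [hidx]
    -- the chord involution
    let ch : ZMod L → ZMod L := fun i => if h : σ.SameCycle r (m (pos i)) then idx (m (pos i)) else i
    have hch1 : ∀ i, σ.SameCycle r (m (pos i)) → pos (ch i) = m (pos i) := by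
      intro i h
      simp only [ch]
      rw [dif_pos h, hpidx _ h]
    have hch2 : ∀ i, ¬ σ.SameCycle r (m (pos i)) → ch i = i := by
      intro i h
      simp only [ch]
      rw [dif_neg h]
    have hposr : ∀ i, σ.SameCycle r (pos i) := fun i => (hsame _).2 ⟨i, rfl⟩
    have hch3 : ∀ i, ch i = i ↔ ¬ σ.SameCycle r (m (pos i)) := by
      intro i
      constructor
      · intro h h'
        have h1 := hch1 i h'
        rw [h] at h1
        exact hnf _ h1.symm
      · exact hch2 i
    have hchch : ∀ i, ch (ch i) = i := by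
      intro i
      by_cases h : σ.SameCycle r (m (pos i))
      · have h1 := hch1 i h
        have h2 : m (pos (ch i)) = pos i := by rw [h1, hmm]
        have h3 : σ.SameCycle r (m (pos (ch i))) := by
          rw [h2]
          exact hposr i
        have h4 := hch1 (ch i) h3
        rw [h2] at h4
        exact hinj h4
      · rw [hch2 i h, hch2 i h]
    have hch4 : ∀ i, ch i ≠ i + 1 := by
      intro i hi
      by_cases h : σ.SameCycle r (m (pos i))
      · have h1 := hch1 i h
        rw [hi, hstep] at h1
        exact hmσ _ h1.symm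
      · rw [hch2 i h] at hi
        have h1 : (1 : ZMod L) = 0 := by
          have := congrArg (fun x => x - i) hi
          simpa using this.symm
        have h2 : Fact (1 < L) := ⟨by omega⟩
        exact one_ne_zero h1
    let R : Finset V := univ.filter (fun v => σ.SameCycle r v)
    have hmR : ∀ v, v ∈ R ↔ σ.SameCycle r v := by
      intro v
      simp [R]
    have hRcl : ∀ v ∈ R, σ v ∈ R := by
      intro v hv
      rw [hmR] at hv ⊢
      exact Equiv.Perm.sameCycle_apply_right.2 hv
    have hch5 : ¬ ∃! i, ch i = i := by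
      rintro ⟨i, hi, hi'⟩
      simp only at hi hi'
      have h1 := (hch3 i).1 hi
      have h2 : R ≠ univ := by
        intro h
        apply h1
        rw [← hmR, h]
        exact Finset.mem_univ _
      have h3 := hcut R hRcl ⟨r, (hmR r).2 (Equiv.Perm.SameCycle.refl _ _)⟩ h2
      have h4 : R.filter (fun v => m v ∉ R) ⊆ {pos i} := by
        intro v hv
        rw [Finset.mem_filter, hmR, hmR] at hv
        obtain ⟨hv1, hv2⟩ := hv
        have h5 := hpidx v hv1
        have h6 : ch (idx v) = idx v := by
          rw [hch3, h5]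
          exact hv2
        rw [Finset.mem_singleton, ← h5, hi' _ h6]
      have h5 := Finset.card_le_card h4
      rw [Finset.card_singleton] at h5
      omega
    obtain ⟨U, small, τS, hU1, hU2, hU3, hU4⟩ := hR L hL ch hchch hch4 hch5
    -- CoreQ on the rest
    let W : Finset V := univ.filter (fun v => ¬ σ.SameCycle r v)
    have hmW : ∀ v, v ∈ W ↔ ¬ σ.SameCycle r v := by
      intro v
      simp [W]
    have hWcl : ∀ v ∈ W, σ v ∈ W := by
      intro v hv
      rw [hmW] at hv ⊢
      rwa [Equiv.Perm.sameCycle_apply_right]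
    let X : V → Prop := fun v => ∃ i, U i ∧ m (pos i) = v
    obtain ⟨τX, hτX⟩ := hQ V σ m hmm hσ hσσ hmσ W hWcl X (fun v => small ∧ X v)
      (by
        rintro v hv ⟨i, hi, rfl⟩
        rw [hmm, hmW, not_not]
        exact hposr i)
      (by
        by_cases hs : small
        · obtain ⟨a, b, hab⟩ := hU3 hs
          refine ⟨m (pos a), m (pos b), ?_⟩
          rintro v ⟨-, i, hi, rfl⟩
          rcases hab i hi with rfl | rfl
          · exact Or.inl rfl
          · exact Or.inr rfl
        · obtain ⟨v⟩ := hVn
          exact ⟨v, v, fun w hw => absurd hw.1 hs⟩)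
      (by
        intro W₁ hW₁ hcl hne
        by_cases hcase : ∃ v, v ∉ W₁ ∧ ¬ σ.SameCycle r v
        · obtain ⟨v, hv, hv1, hv2⟩ := hr W₁ hcl hne (fun v hv => (hmW v).1 (hW₁ hv)) hcase
          refine ⟨v, hv, ?_, Or.inl hv1⟩
          rintro ⟨i, -, rfl⟩
          apply hv2
          rw [hmm]
          exact hposr i
        · push Not at hcase
          have hW₁eq : W₁ = W := by
            refine Finset.Subset.antisymm hW₁ ?_
            intro v hv
            by_contra hv'
            exact (hmW v).1 hv (hcase v hv')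
          obtain ⟨w, hw, hw'⟩ := hcut' W₁ hcl hne (by
            intro h
            have : r ∈ W₁ := by rw [h]; exact Finset.mem_univ _
            exact (hmW r).1 (hW₁ this) (Equiv.Perm.SameCycle.refl _ _))
          rw [hW₁eq, hmW, not_not] at hw'
          rw [hW₁eq, hmW] at hw
          have h5 := hpidx _ hw'
          have h6 : ch (idx (m w)) = idx (m w) := by
            rw [hch3, h5, hmm]
            exact hw
          obtain ⟨i, hi, hiU⟩ := hU2 ⟨_, h6⟩
          refine ⟨m (pos i), ?_, ?_, Or.inl ?_⟩
          · rw [hW₁eq, hmW]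
            exact (hch3 i).1 hi
          · rintro ⟨j, hj, hj'⟩
            have h7 : pos j = pos i := by
              rw [← hmm (pos j), hj', hmm]
            rw [hinj h7] at hj
            exact hiU hj
          · rw [hmm, hW₁eq, hmW, not_not]
            exact hposr i)
      (fun v => τS (idx (m v)))
    obtain ⟨oU, hoU, hU5⟩ := hU4 (fun i => τX (m (pos i)))
    obtain ⟨s1, hs1F, hs1M, hs1O, hs1X⟩ := hτX (fun v => oU (idx (m v)))
      (by
        rintro v hv ⟨i, hi, rfl⟩
        rw [hmm, hidx]
        exact hoU i hi)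
    obtain ⟨s2, hs2F, hs2O, hs2M, hs2U⟩ := hU5 (fun i => s1 (m (pos i)))
      (by
        intro i hi hiU
        have h1 : m (pos i) ∈ W := by
          rw [hmW]
          exact (hch3 i).1 hi
        have h2 := hs1O (m (pos i)) h1
          (by
            rintro ⟨j, hj, hj'⟩
            have h7 : pos j = pos i := by
              rw [← hmm (pos j), hj', hmm]
            rw [hinj h7] at hj
            exact hiU hj)
          (Or.inl (by
            rw [hmm, hmW, not_not]
            exact hposr i))
        simp only [hmm, hidx] at h2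
        exact h2)
    -- the glued colouring
    let s : V → St := fun v => if σ.SameCycle r v then s2 (idx v) else s1 v
    have hsR : ∀ i, s (pos i) = s2 i := by
      intro i
      simp only [s]
      rw [if_pos (hposr i), hidx]
    have hsW : ∀ v, ¬ σ.SameCycle r v → s v = s1 v := by
      intro v hv
      simp only [s]
      rw [if_neg hv]
    -- edges between the root and the rest
    have hcross : ∀ i, ¬ σ.SameCycle r (m (pos i)) → MEdge (s2 i) (s1 (m (pos i))) := by
      intro i hi
      have hi' := (hch3 i).2 hi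
      by_cases hiU : U i
      · have h1 : m (pos i) ∈ W := (hmW _).2 hi
        have h2 := hs1X (m (pos i)) h1 ⟨i, hiU, rfl⟩
        simp only [hmm, hidx] at h2
        obtain ⟨h3, h4⟩ := h2
        obtain ⟨h5, h6, h7⟩ := hs2U i hiU
        refine EdgeOK.symmC ?_
        by_cases hsm : small
        · have h8 := h4 ⟨hsm, i, hiU, rfl⟩
          refine medge_of_accept_offer h8 h5 ?_
          rw [h6]
          exact h3.1
        · obtain ⟨h8, h9⟩ := h7 hsm
          exact medge_congr h3 h6 h8 h9
      · exact hs2O i hi' hiU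
    refine ⟨s, ?_, ?_⟩
    · intro v
      by_cases hv : σ.SameCycle r v
      · obtain ⟨i, rfl⟩ := (hsame v).1 hv
        rw [← hstep, hsR, hsR]
        exact hs2F i
      · have hv' : ¬ σ.SameCycle r (σ v) := by
          rwa [Equiv.Perm.sameCycle_apply_right]
        rw [hsW v hv, hsW _ hv']
        exact hs1F v ((hmW v).2 hv)
    · intro v _
      by_cases hv : σ.SameCycle r v
      · obtain ⟨i, rfl⟩ := (hsame v).1 hv
        by_cases hmv : σ.SameCycle r (m (pos i))
        · have h1 := hch1 i hmv
          rw [← h1, hsR, hsR]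
          refine hs2M i ?_
          intro h
          exact (hch3 i).1 h hmv
        · rw [hsR, hsW _ hmv]
          exact hcross i hmv
      · by_cases hmv : σ.SameCycle r (m v)
        · obtain ⟨i, hi⟩ := (hsame _).1 hmv
          have h1 : v = m (pos i) := by rw [hi, hmm]
          rw [← hi, hsR, hsW v hv]
          have h2 := hcross i (by rwa [← h1])
          rw [← h1] at h2
          exact EdgeOK.symmC h2
        · rw [hsW v hv, hsW _ hmv]
          exact hs1M v ((hmW v).2 hv) ((hmW _).2 hmv) (hnf v)

end Pool.Agent.Trunc
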