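import Pool.Agent.Trunc.Defs

/-!
# Strong chromatic index of truncations of cubic graphs: the induction over unions of cycles
-/

namespace Pool.Agent.Trunc

open Finset

/-- the condition on an edge is symmetric -/
lemma EdgeOK.swap' {s s' : St} {i j : Fin 3} (h : EdgeOK s i s' j) : EdgeOK s' j s i :=
  ⟨h.1.symm, fun a b ha hb he => h.2 b a hb ha he.symm⟩

theorem CoreQ_proof (hCycle : Stmt_Cycle) (hPos : Stmt_Pos) : Stmt_CoreQ := by
  classical
  intro V _ _ σ m hm hσ1 hσ2 hmσ W
  induction W using Finset.strongInduction with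
  | H W ih =>
  intro hW X Z hX hZ hH τK
  by_cases hne : W.Nonempty
  swap
  · rw [Finset.not_nonempty_iff_eq_empty] at hne
    subst hne
    refine ⟨fun _ => false, fun o ho => ⟨o, ?_, ?_, ?_, ?_⟩⟩ <;> intro v hv <;> simp at hv
  obtain ⟨v₀, hv₀, hXv₀, hmv₀⟩ := hH W (Finset.Subset.refl _) hW hne
  obtain ⟨L, pos, hL, hinj, hpos0, hpos1, -⟩ := hPos V σ hσ1 hσ2 v₀
  have : NeZero L := ⟨by omega⟩
  have h10 : (1 : ZMod L) ≠ 0 := by
    intro h
    have h' : ((1 : ℕ) : ZMod L) = 0 := by simpa using h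
    rw [ZMod.natCast_eq_zero_iff] at h'
    have := Nat.le_of_dvd (by norm_num) h'
    omega
  -- the cycle
  set C : V → Prop := fun v => ∃ i, pos i = v with hC
  have hCpos : ∀ i, C (pos i) := fun i => ⟨i, rfl⟩
  set inv : V → ZMod L := Function.invFun pos with hinv
  have hinvpos : ∀ i, inv (pos i) = i := Function.leftInverse_invFun hinj
  have hCW : ∀ i, pos i ∈ W := by
    have key : ∀ k : ℕ, pos (k : ZMod L) ∈ W := by
      intro k
      induction k with
      | zero => simpa [hpos0] using hv₀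
      | succ k ihk => rw [Nat.cast_succ, hpos1]; exact hW _ ihk
    intro i
    have := key i.val
    rwa [ZMod.natCast_zmod_val] at this
  have hCσ : ∀ v, ¬ C v → ¬ C (σ v) := by
    rintro v hv ⟨j, hj⟩
    apply hv
    refine ⟨j - 1, ?_⟩
    apply σ.injective
    rw [← hpos1, sub_add_cancel, hj]
  -- chords
  set ch : ZMod L → ZMod L := fun i => if C (m (pos i)) then inv (m (pos i)) else i with hch
  have hch1 : ∀ i j, m (pos i) = pos j → ch i = j := by
    intro i j h
    simp only [hch]
    rw [h, if_pos (hCpos j), hinvpos]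
  have hch2 : ∀ i, ¬ C (m (pos i)) → ch i = i := by
    intro i h
    simp only [hch]
    rw [if_neg h]
  have hchch : ∀ i, ch (ch i) = i := by
    intro i
    by_cases h : C (m (pos i))
    · obtain ⟨j, hj⟩ := h
      rw [hch1 i j hj.symm]
      apply hch1
      rw [hj, hm]
    · rw [hch2 i h, hch2 i h]
  have hch3 : ∀ i, ch i ≠ i + 1 := by
    intro i h
    by_cases hc : C (m (pos i))
    · obtain ⟨j, hj⟩ := hc
      rw [hch1 i j hj.symm] at h
      apply hmσ (pos i)
      rw [← hpos1, ← h, hj]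
    · rw [hch2 i hc] at h
      exact h10 (by simpa using h.symm)
  set K : ZMod L → Prop := fun i => ¬ X (pos i) ∧ (m (pos i) ∉ W ∨ m (pos i) = pos i) with hK
  have hKch : ∀ i, K i → ch i = i := by
    rintro i ⟨-, h | h⟩
    · apply hch2
      rintro ⟨j, hj⟩
      exact h (hj ▸ hCW j)
    · exact hch1 i i h
  have hKex : ∃ i, K i := ⟨0, by
    simp only [hK]
    rw [hpos0]
    exact ⟨hXv₀, hmv₀⟩⟩
  have hZc : ∃ a b, ∀ i, Z (pos i) → i = a ∨ i = b := by
    obtain ⟨a, b, hab⟩ := hZ
    refine ⟨inv a, inv b, fun i hi => ?_⟩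
    rcases hab _ hi with h | h
    · left; rw [← h, hinvpos]
    · right; rw [← h, hinvpos]
  obtain ⟨τS, hτS⟩ := hCycle L hL ch K (fun i => Z (pos i)) hchch hch3 hKch hKex hZc
    (fun i => τK (pos i))
  -- the rest
  set W' : Finset V := W.filter (fun v => ¬ C v) with hW'
  have hmemW' : ∀ v, v ∈ W' ↔ v ∈ W ∧ ¬ C v := fun v => by rw [hW', Finset.mem_filter]
  have hW'W : W' ⊆ W := Finset.filter_subset _ _
  have hss : W' ⊂ W := by
    refine ⟨hW'W, fun h => ?_⟩
    exact ((hmemW' v₀).mp (h hv₀)).2 ⟨0, hpos0⟩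
  have hW'c : ∀ v ∈ W', σ v ∈ W' := by
    intro v hv
    rw [hmemW'] at hv ⊢
    exact ⟨hW v hv.1, hCσ v hv.2⟩
  obtain ⟨τX', hτX'⟩ := ih W' hss hW'c X Z
    (fun v hv hXv h => hX v (hW'W hv) hXv (hW'W h)) hZ
    (fun W₁ h1 => hH W₁ (h1.trans hW'W))
    (fun v => if C (m v) then τS (inv (m v)) else τK v)
  refine ⟨fun v => if C v then τS (inv v) else τX' v, fun o ho => ?_⟩
  replace ho : ∀ v ∈ W, X v → Offer (if C v then τS (inv v) else τX' v) (o v) := ho
  obtain ⟨s', hs1, hs2, hs3, hs4⟩ := hτX' o (by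
    intro v hv hXv
    have h := ho v (hW'W hv) hXv
    rwa [if_neg ((hmemW' v).mp hv).2] at h)
  -- an S-letter without `X` gets its offer from the rest
  have hinner : ∀ i, ch i = i → ¬ K i → ¬ X (pos i) → m (pos i) ∈ W' ∧ m (pos i) ≠ pos i := by
    intro i hi hKi hXi
    simp only [hK, not_and, not_or, not_not] at hKi
    obtain ⟨h1, h2⟩ := hKi hXi
    refine ⟨(hmemW' _).mpr ⟨h1, ?_⟩, h2⟩
    rintro ⟨j, hj⟩
    rw [hch1 i j hj.symm] at hi
    exact h2 (by rw [← hj, hi])
  obtain ⟨sC, hC1, hC2, hC3, hC4⟩ := hτS (fun i => if X (pos i) then o (pos i) else s' (m (pos i)))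
    (by
      intro i hi hKi
      by_cases hXi : X (pos i)
      · simp only [if_pos hXi]
        have h := ho _ (hCW i) hXi
        rwa [if_pos (hCpos i), hinvpos] at h
      · simp only [if_neg hXi]
        obtain ⟨h1, h2⟩ := hinner i hi hKi hXi
        have h := hs3 (m (pos i)) h1 (fun hx => hX _ (hW'W h1) hx (by rw [hm]; exact hCW i))
          (Or.inl (fun hmem => by
            rw [hm, hmemW'] at hmem
            exact hmem.2 (hCpos i)))
        rwa [hm, if_pos (hCpos i), hinvpos] at h)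
  -- the edge from the cycle to the rest
  have hcross : ∀ i, m (pos i) ∈ W' → MEdge (sC i) (s' (m (pos i))) := by
    intro i hi
    have hi' := (hmemW' _).mp hi
    have hchi : ch i = i := hch2 i hi'.2
    have hXi : ¬ X (pos i) := fun hx => hX _ (hCW i) hx hi'.1
    have hKi : ¬ K i := by
      rintro ⟨-, h | h⟩
      · exact h hi'.1
      · apply hi'.2
        rw [h]
        exact hCpos i
    have h := (hC3 i hchi hKi).1
    simpa only [if_neg hXi] using h
  refine ⟨fun v => if C v then sC (inv v) else s' v, ?_, ?_, ?_, ?_⟩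
  · intro v hv
    by_cases hCv : C v
    · obtain ⟨i, rfl⟩ := hCv
      have e : σ (pos i) = pos (i + 1) := (hpos1 i).symm
      simp only [e]
      rw [if_pos (hCpos i), if_pos (hCpos (i + 1)), hinvpos, hinvpos]
      exact hC1 i
    · simp only
      rw [if_neg hCv, if_neg (hCσ v hCv)]
      exact hs1 v ((hmemW' v).mpr ⟨hv, hCv⟩)
  · intro v hv hmv hne'
    by_cases hCv : C v
    · obtain ⟨i, rfl⟩ := hCv
      by_cases hCm : C (m (pos i))
      · obtain ⟨j, hj⟩ := hCm
        have hchi := hch1 i j hj.symm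
        have hne2 : ch i ≠ i := by
          rw [hchi]
          rintro rfl
          exact hne' hj.symm
        have h := hC4 i hne2
        simp only
        rw [← hj, if_pos (hCpos i), if_pos (hCpos j), hinvpos, hinvpos, ← hchi]
        exact h
      · simp only
        rw [if_pos (hCpos i), if_neg hCm, hinvpos]
        exact hcross i ((hmemW' _).mpr ⟨hmv, hCm⟩)
    · by_cases hCm : C (m v)
      · obtain ⟨j, hj⟩ := hCm
        have hv' : v = m (pos j) := by rw [hj, hm]
        have h := hcross j (hv' ▸ (hmemW' v).mpr ⟨hv, hCv⟩)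
        simp only
        rw [if_neg hCv, ← hj, if_pos (hCpos j), hinvpos]
        rw [← hv'] at h
        exact h.swap'
      · simp only
        rw [if_neg hCv, if_neg hCm]
        exact hs2 v ((hmemW' v).mpr ⟨hv, hCv⟩) ((hmemW' _).mpr ⟨hmv, hCm⟩) hne'
  · intro v hv hXv hv2
    by_cases hCv : C v
    · obtain ⟨i, rfl⟩ := hCv
      simp only
      rw [if_pos (hCpos i), hinvpos]
      exact hC2 i ⟨hXv, hv2⟩
    · simp only
      rw [if_neg hCv]
      have hCm : ¬ C (m v) := by
        rcases hv2 with h | h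
        · rintro ⟨j, hj⟩
          exact h (hj ▸ hCW j)
        · rw [h]; exact hCv
      have h := hs3 v ((hmemW' v).mpr ⟨hv, hCv⟩) hXv
        (hv2.imp (fun h h' => h (hW'W h')) (fun h => h))
      rwa [if_neg hCm] at h
  · intro v hv hXv
    by_cases hCv : C v
    · obtain ⟨i, rfl⟩ := hCv
      simp only
      rw [if_pos (hCpos i), hinvpos, if_pos (hCpos i)]
      have hCm : ¬ C (m (pos i)) := by
        rintro ⟨j, hj⟩
        exact hX _ hv hXv (hj ▸ hCW j)
      have hKi : ¬ K i := fun h => h.1 hXv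
      have h := hC3 i (hch2 i hCm) hKi
      simp only [if_pos hXv] at h
      exact h
    · simp only
      rw [if_neg hCv, if_neg hCv]
      exact hs4 v ((hmemW' v).mpr ⟨hv, hCv⟩) hXv

end Pool.Agent.Trunc
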