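import Pool.Agent.Trunc.Defs

/-! Module CoreR: a connected graph has a non-cut vertex. -/

set_option autoImplicit false

namespace Pool.Agent.Trunc

open Finset

private def Bad {V : Type} (σ : Equiv.Perm V) (m : V → V) (r : V) (W : Finset V) : Prop :=
  (∀ v, v ∈ W → σ v ∈ W) ∧ W.Nonempty ∧ (∀ v ∈ W, ¬ σ.SameCycle r v) ∧
    (∃ v, v ∉ W ∧ ¬ σ.SameCycle r v) ∧ ∀ v ∈ W, m v ∈ W ∨ σ.SameCycle r (m v)

private theorem compl_closed {V : Type} [Fintype V] [DecidableEq V] (σ : Equiv.Perm V)
    (W : Finset V) (h : ∀ v, v ∈ W → σ v ∈ W) : ∀ v, v ∉ W → σ v ∉ W := by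
  have hinj : W.image σ = W := by
    apply Finset.eq_of_subset_of_card_le
    · intro x hx
      obtain ⟨v, hv, rfl⟩ := Finset.mem_image.1 hx
      exact h v hv
    · rw [Finset.card_image_of_injective _ σ.injective]
  intro v hv hσ
  rw [← hinj] at hσ
  obtain ⟨w, hw, hwv⟩ := Finset.mem_image.1 hσ
  exact hv (σ.injective hwv ▸ hw)

private theorem sameCycle_mem {V : Type} [Fintype V] [DecidableEq V] (σ : Equiv.Perm V)
    (W : Finset V) (h : ∀ v, v ∈ W → σ v ∈ W) {r v : V} (hr : r ∈ W) (hs : σ.SameCycle r v) :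
    v ∈ W := by
  obtain ⟨n, hn⟩ := hs.exists_nat_pow_eq
  subst hn
  induction n with
  | zero => simpa using hr
  | succ n ih =>
    rw [pow_succ', Equiv.Perm.mul_apply]
    exact h _ (ih ⟨n, by simp⟩)

theorem coreR_proof : Stmt_CoreR := by
  intro V _ _ _ σ m hm hconn
  by_contra hcon
  push Not at hcon
  have hbad : ∀ r : V, ∃ W : Finset V, Bad σ m r W := by
    intro r
    obtain ⟨W, h1, h2, h3, h4, h5⟩ := hcon r
    refine ⟨W, h1, h2, h3, h4, fun v hv => ?_⟩
    by_cases h : m v ∈ W
    · exact Or.inl h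
    · exact Or.inr (h5 v hv h)
  have key : ∀ n : ℕ, ∃ (r : V) (W : Finset V), Bad σ m r W ∧ n ≤ W.card := by
    intro n
    induction n with
    | zero =>
      obtain ⟨r⟩ : Nonempty V := inferInstance
      obtain ⟨W, hW⟩ := hbad r
      exact ⟨r, W, hW, Nat.zero_le _⟩
    | succ n ih =>
      obtain ⟨r, W, ⟨hW1, hW2, hW3, ⟨r', hr'W, hr'r⟩, hW5⟩, hn⟩ := ih
      obtain ⟨W', hB1, hB2, hB3, ⟨y, hyW, hyr⟩, hB5⟩ := hbad r'
      classical
      -- the other part
      set Y : Finset V := univ.filter (fun v => v ∉ W' ∧ ¬ σ.SameCycle r' v) with hY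
      have hYbad : Bad σ m r' Y := by
        refine ⟨fun v hv => ?_, ⟨y, by simp [hY, hyW, hyr]⟩, fun v hv => ?_, ?_, fun v hv => ?_⟩
        · simp only [hY, mem_filter, mem_univ, true_and] at hv ⊢
          exact ⟨compl_closed σ W' hB1 v hv.1, fun h => hv.2 (by simpa using h)⟩
        · simp only [hY, mem_filter, mem_univ, true_and] at hv
          exact hv.2
        · obtain ⟨w, hw⟩ := hB2
          exact ⟨w, by simp [hY, hw], hB3 w hw⟩
        · simp only [hY, mem_filter, mem_univ, true_and] at hv ⊢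
          by_cases h : σ.SameCycle r' (m v)
          · exact Or.inr h
          · refine Or.inl ⟨fun hmv => ?_, h⟩
            rcases hB5 _ hmv with h1 | h1
            · rw [hm] at h1; exact hv.1 h1
            · rw [hm] at h1; exact hv.2 h1
      -- one part `A` contains `r`, the other is `B`
      have hAB : ∃ A B : Finset V, Bad σ m r' A ∧ Bad σ m r' B ∧ r ∈ A ∧
          (∀ v ∈ A, v ∉ B) ∧ (∀ v, ¬ σ.SameCycle r' v → v ∈ A ∨ v ∈ B) := by
        by_cases hrW : r ∈ W'
        · refine ⟨W', Y, ⟨hB1, hB2, hB3, ⟨y, hyW, hyr⟩, hB5⟩, hYbad, hrW, ?_, ?_⟩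
          · intro v hv; simp [hY, hv]
          · intro v hv
            by_cases h : v ∈ W'
            · exact Or.inl h
            · exact Or.inr (by simp [hY, h, hv])
        · refine ⟨Y, W', hYbad, ⟨hB1, hB2, hB3, ⟨y, hyW, hyr⟩, hB5⟩, ?_, ?_, ?_⟩
          · simp only [hY, mem_filter, mem_univ, true_and]
            exact ⟨hrW, fun h => hr'r h.symm⟩
          · intro v hv
            simp only [hY, mem_filter, mem_univ, true_and] at hv
            exact hv.1
          · intro v hv
            by_cases h : v ∈ W'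
            · exact Or.inr h
            · exact Or.inl (by simp [hY, h, hv])
      obtain ⟨A, B, hA, hB, hrA, hdis, hcov⟩ := hAB
      have hCr : ∀ v, σ.SameCycle r v → v ∈ A := fun v hv => sameCycle_mem σ A hA.1 hrA hv
      have hWr' : ∀ v ∈ W, ¬ σ.SameCycle r' v := by
        intro v hv hs
        exact hr'W (sameCycle_mem σ W hW1 hv hs.symm)
      have hWA : ∀ v ∈ W, v ∈ A := by
        by_contra hne
        push Not at hne
        obtain ⟨x, hxW, hxA⟩ := hne
        have hxB : x ∈ B := (hcov x (hWr' x hxW)).resolve_left hxA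
        obtain ⟨v, hv, hmv⟩ := hconn (W ∩ B)
          (fun v hv => by
            rw [mem_inter] at hv ⊢
            exact ⟨hW1 v hv.1, hB.1 v hv.2⟩)
          ⟨x, by simp [hxW, hxB]⟩
          (fun h => hr'W (by
            have : r' ∈ W ∩ B := by rw [h]; exact mem_univ _
            exact (mem_inter.1 this).1))
        rw [mem_inter] at hv
        apply hmv
        rw [mem_inter]
        rcases hW5 v hv.1 with h1 | h1
        · refine ⟨h1, ?_⟩
          rcases hB.2.2.2.2 v hv.2 with h2 | h2
          · exact h2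
          · exact absurd h2 (hWr' _ h1)
        · exfalso
          rcases hB.2.2.2.2 v hv.2 with h2 | h2
          · exact hdis _ (hCr _ h1) h2
          · exact hr'r (h1.trans h2.symm)
      refine ⟨r', A, hA, ?_⟩
      have hrW : r ∉ W := fun h => hW3 r h (Equiv.Perm.SameCycle.refl _ _)
      have : insert r W ⊆ A := by
        intro v hv
        rcases mem_insert.1 hv with h | h
        · rw [h]; exact hrA
        · exact hWA v h
      have := card_le_card this
      rw [card_insert_of_notMem hrW] at this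
      omega
  obtain ⟨r, W, _, hn⟩ := key (Fintype.card V + 1)
  have := card_le_univ W
  omega

end Pool.Agent.Trunc
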