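import Pool.Agent.Trunc.RootPure

namespace Pool.Agent.Trunc

open Finset

theorem card_lower_ends {L : ℕ} [NeZero L] (ch : ZMod L → ZMod L) (hinv : ∀ i, ch (ch i) = i) :
    2 * (univ.filter (fun i : ZMod L => i.val < (ch i).val)).card =
      (univ.filter (fun i : ZMod L => ch i ≠ i)).card := by
  classical
  have h1 : (univ.filter (fun i : ZMod L => ch i ≠ i)) =
      (univ.filter (fun i : ZMod L => i.val < (ch i).val)) ∪
        (univ.filter (fun i : ZMod L => i.val < (ch i).val)).image ch := by
    ext i
    simp only [mem_filter, mem_univ, true_and, mem_union, mem_image]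
    constructor
    · intro h
      rcases lt_or_ge i.val (ch i).val with hlt | hge
      · exact Or.inl hlt
      · refine Or.inr ⟨ch i, ?_, hinv i⟩
        rw [hinv]
        rcases Nat.lt_or_ge (ch i).val i.val with h' | h'
        · exact h'
        · exact absurd (ZMod.val_injective L (Nat.le_antisymm hge h')) h
    · rintro (h | ⟨j, hj, rfl⟩)
      · intro h'; rw [h'] at h; exact lt_irrefl _ h
      · rw [hinv]; intro h'; rw [← h'] at hj; exact lt_irrefl _ hj
  have h2 : Disjoint (univ.filter (fun i : ZMod L => i.val < (ch i).val))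
      ((univ.filter (fun i : ZMod L => i.val < (ch i).val)).image ch) := by
    rw [Finset.disjoint_left]
    intro i hi hi'
    simp only [mem_filter, mem_univ, true_and, mem_image] at hi hi'
    obtain ⟨j, hj, rfl⟩ := hi'
    rw [hinv] at hi
    exact lt_asymm hi hj
  have hinj : Function.Injective ch := fun a b hab => by rw [← hinv a, hab, hinv b]
  rw [h1, card_union_of_disjoint h2, card_image_of_injective _ hinj]
  ring

/-- `RootBig`. -/
theorem rootBig_of (hPure : Stmt_Pure) (hAlt : Stmt_Alt) (hBig : Stmt_SkelBig) :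
    Stmt_RootBig := by
  classical
  intro L h s u ch hyp heven h4 hus
  obtain ⟨hL, hinv, hadj, hcB, hcA⟩ := hyp
  have : NeZero L := ⟨by omega⟩
  have hB : (univ.filter (fun i : ZMod L => ch i ≠ i)).card = 2 * h := by
    rw [← hcB, Nat.card_eq_fintype_card, Fintype.card_subtype]
  have hA : (univ.filter (fun i : ZMod L => ch i = i)).card = s := by
    rw [← hcA, Nat.card_eq_fintype_card, Fintype.card_subtype]
  have hP : (univ.filter (fun i : ZMod L => i.val < (ch i).val)).card = h := by
    have := card_lower_ends ch hinv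
    omega
  obtain ⟨A, hAs, hAu⟩ := Finset.exists_subset_card_eq
    (show u ≤ (univ.filter (fun i : ZMod L => ch i = i)).card by omega)
  have hAch : ∀ i, i ∈ A → ch i = i := fun i hi => (mem_filter.mp (hAs hi)).2
  have hcM : Nat.card {i : ZMod L // i ∈ A ∨ i.val < (ch i).val} = h + u := by
    rw [Nat.card_eq_fintype_card, Fintype.card_subtype]
    have e1 : (univ.filter (fun i : ZMod L => i ∈ A ∨ i.val < (ch i).val)) =
        A ∪ (univ.filter (fun i : ZMod L => i.val < (ch i).val)) := by
      ext i; simp
    rw [e1, card_union_of_disjoint, hAu, hP, add_comm]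
    rw [Finset.disjoint_left]
    intro i hi hi'
    rw [mem_filter, hAch i hi] at hi'
    exact lt_irrefl _ hi'.2
  obtain ⟨f, -, hf⟩ := hAlt L (by omega) (fun i => i ∈ A ∨ i.val < (ch i).val)
    (by rw [hcM]; exact heven) 0 true
  have hcf : 4 ≤ Nat.card {i : ZMod L // f i ≠ f (i + 1)} := by
    have : Nat.card {i : ZMod L // f i ≠ f (i + 1)} =
        Nat.card {i : ZMod L // i ∈ A ∨ i.val < (ch i).val} :=
      Nat.card_congr (Equiv.subtypeEquivRight hf)
    rw [this, hcM]; exact h4
  have hC : ∀ ty X, ConstSkel X f ty := fun ty X => hBig L (by omega) f ty hcf X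
  have hnotS : ∀ (ty : ZMod L → Bool) i, i ∈ A ∨ i.val < (ch i).val → ¬ IsS f ty i :=
    fun ty i hi h => ((hf i).mpr hi) h.1
  have hS : ∀ (ty : ZMod L → Bool) i, ¬ (i ∈ A ∨ i.val < (ch i).val) → ty i = !f i →
      IsS f ty i := by
    intro ty i hi h
    refine ⟨?_, ?_⟩
    · by_contra hne
      exact hi ((hf i).mp hne)
    · rw [h]; cases f i <;> decide
  refine root_of_pure hPure (by omega) hinv (fun i => i ∈ A) False (fun i => !f i) f
    (fun τU i => if i ∈ A then τU i else if i.val < (ch i).val then !f (ch i) else !f i)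
    hAch ?_ False.elim ?_ ?_ ?_ ?_ ?_ ?_
  · rintro ⟨i, hi⟩
    rcases hus with hus | ⟨hu0, hs0⟩
    · by_contra hcon
      push Not at hcon
      have : (univ.filter (fun i : ZMod L => ch i = i)) ⊆ A := by
        intro j hj
        exact hcon j (mem_filter.mp hj).2
      have := Finset.card_le_card this
      omega
    · exfalso
      rw [hs0, Finset.card_eq_zero] at hA
      have : i ∈ univ.filter (fun i : ZMod L => ch i = i) := by simp [hi]
      rw [hA] at this
      simp at this
  · intro τU i hi
    exact ⟨by simp [hi], (hf i).mpr (Or.inl hi)⟩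
  · intro τU i hi hnU
    have hlt : ¬ (i.val < (ch i).val) := by rw [hi]; exact lt_irrefl _
    refine ⟨hS _ i (by rintro (h | h); exacts [hnU h, hlt h]) ?_, ?_⟩
    · simp [hnU, hlt]
    · simp [hnU, hlt]
  · intro τU i hi
    have hnA : i ∉ A := fun h => hi (hAch i h)
    have hnA' : ch i ∉ A := fun h => hi (by have := hAch _ h; rw [hinv] at this; exact this.symm)
    have hne : i.val ≠ (ch i).val := fun h => hi (ZMod.val_injective L h).symm
    rcases lt_or_gt_of_ne hne with hlt | hgt
    · have hlt' : ¬ ((ch i).val < i.val) := lt_asymm hlt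
      refine ⟨by simp [hnA, hnA', hlt, hinv, hlt'], ?_⟩
      constructor
      · intro h; exact absurd h (hnotS _ i (Or.inr hlt))
      · intro h
        exfalso
        apply h
        refine hS _ _ ?_ (by simp [hnA', hinv, hlt'])
        rintro (h' | h')
        · exact hnA' h'
        · rw [hinv] at h'; exact hlt' h'
    · have hgt' : ¬ (i.val < (ch i).val) := lt_asymm hgt
      refine ⟨by simp [hnA, hnA', hinv, hgt, hgt'], ?_⟩
      constructor
      · intro _
        exact hnotS _ _ (Or.inr (by rw [hinv]; exact hgt))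
      · intro _
        refine hS _ _ ?_ (by simp [hnA, hgt'])
        rintro (h' | h')
        · exact hnA h'
        · exact hgt' h'
  · intro τU i hN
    have hNo : ∀ j, ¬ IsN f (fun i => if i ∈ A then τU i else
        if i.val < (ch i).val then !f (ch i) else !f i) j := by
      rintro j ⟨e1, e2⟩
      have hj : ¬ (j ∈ A ∨ j.val < (ch j).val) := fun h => (hf j).mpr h e1
      push Not at hj
      have hj2 : ¬ (j.val < (ch j).val) := not_lt.mpr hj.2
      simp only [hj.1, if_false, hj2] at e2
      revert e2; cases f j <;> decide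
    exact hNo i hN.1
  · intro τU X
    exact Or.inl (hC _ X)
  · intro τU i hi
    exact ⟨hC _ _, fun _ => hC _ _⟩

end Pool.Agent.Trunc
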