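import Pool.Agent.Trunc.CyclePure
import Pool.Agent.Trunc.RootBig

/-! Module CycleBig (helper13). -/

namespace Pool.Agent.Trunc

open Finset

theorem cycleBig_of (hP : Stmt_Pure) (hAlt : Stmt_Alt) (hBig : Stmt_SkelBig) : Stmt_CycleBig := by
  classical
  intro L ch K Z hyp hK' h8 τK
  obtain ⟨hL, hch, hadj, hK, hZ⟩ := hyp
  have : NeZero L := ⟨by omega⟩
  have h10 : (1 : ZMod L) ≠ 0 := by
    intro h
    have h1 : ((1 : ℕ) : ZMod L) = ((0 : ℕ) : ZMod L) := by simpa using h
    have h2 := (ZMod.natCast_eq_natCast_iff' 1 0 L).1 h1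
    rw [Nat.mod_eq_of_lt (by omega), Nat.mod_eq_of_lt (by omega)] at h2
    exact absurd h2 (by decide)
  have hcard : 2 * (univ.filter (fun i : ZMod L => i.val < (ch i).val)).card =
      Nat.card {i // ch i ≠ i} := by
    rw [card_lower_ends ch hch, Nat.card_eq_fintype_card, Fintype.card_subtype]
  have hcK : Nat.card {i // K i} = (univ.filter (fun i : ZMod L => K i)).card := by
    rw [Nat.card_eq_fintype_card, Fintype.card_subtype]
  let O : ZMod L → Prop := fun i => K i ∨ i.val < (ch i).val
  have hO : Nat.card {i // O i} = (univ.filter (fun i : ZMod L => K i)).card +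
      (univ.filter (fun i : ZMod L => i.val < (ch i).val)).card := by
    rw [Nat.card_eq_fintype_card, Fintype.card_subtype, ← card_union_of_disjoint]
    · congr 1
      ext i
      simp [O]
    · rw [Finset.disjoint_left]
      intro i hi hi'
      simp only [mem_filter, mem_univ, true_and] at hi hi'
      rw [hK i hi] at hi'
      exact lt_irrefl _ hi'
  have hO4 : 4 ≤ Nat.card {i // O i} := by omega
  have hKO : ∀ i, K i → O i := fun i hi => Or.inl hi
  have hSO : ∀ i, ch i = i → ¬ K i → ¬ O i := by
    rintro i hi hKi (h | h)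
    · exact hKi h
    · rw [hi] at h
      exact lt_irrefl _ h
  have hCO : ∀ i, ch i ≠ i → (O i ↔ ¬ O (ch i)) := by
    intro i hi
    have hKi : ¬ K i := fun h => hi (hK i h)
    have hKci : ¬ K (ch i) := fun h => hi (by have := hK _ h; rw [hch] at this; exact this.symm)
    have hne : i.val ≠ (ch i).val := fun h => hi (ZMod.val_injective L h).symm
    simp only [O, hKi, hKci, false_or, hch]
    omega
  rcases Nat.even_or_odd (Nat.card {i // O i}) with he | ho
  · obtain ⟨f, -, hf⟩ := hAlt L (by omega) O he 0 true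
    have hcf : 4 ≤ Nat.card {i : ZMod L // f i ≠ f (i + 1)} := by
      have : Nat.card {i : ZMod L // f i ≠ f (i + 1)} = Nat.card {i : ZMod L // O i} :=
        Nat.card_congr (Equiv.subtypeEquivRight hf)
      rw [this]; exact hO4
    refine cycleGood_build hP (by omega) hch hK f O (fun i hi => (hf i).1 hi) hKO hSO hCO ?_ ?_ ?_
      (fun X => Or.inl (hBig L (by omega) f _ hcf X))
    · intro i hi h
      exact absurd h ((hf i).2 (hKO i hi))
    · intro i _ hi h
      exact absurd h ((hf i).2 hi)
    · intro i hi h _ _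
      exact absurd h ((hf i).2 hi)
  · obtain ⟨N, hN⟩ := hK'
    have hM : Nat.card {i // O i ∧ i ≠ N} + 1 = Nat.card {i // O i} := by
      rw [Nat.card_eq_fintype_card, Fintype.card_subtype, Nat.card_eq_fintype_card,
        Fintype.card_subtype]
      have h1 : (univ.filter (fun i : ZMod L => O i ∧ i ≠ N)) =
          (univ.filter (fun i : ZMod L => O i)).erase N := by
        ext i
        simp [and_comm]
      rw [h1]
      exact Finset.card_erase_add_one (by simp [hKO N hN])
    have he : Even (Nat.card {i // O i ∧ i ≠ N}) := by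
      obtain ⟨k, hk⟩ := ho
      exact ⟨k, by omega⟩
    have hM4 : 4 ≤ Nat.card {i // O i ∧ i ≠ N} := by
      obtain ⟨k, hk⟩ := ho
      omega
    obtain ⟨f, hfN, hf⟩ := hAlt L (by omega) (fun i => O i ∧ i ≠ N) he N (τK N)
    have hcf : 4 ≤ Nat.card {i : ZMod L // f i ≠ f (i + 1)} := by
      have : Nat.card {i : ZMod L // f i ≠ f (i + 1)} = Nat.card {i : ZMod L // O i ∧ i ≠ N} :=
        Nat.card_congr (Equiv.subtypeEquivRight hf)
      rw [this]; exact hM4
    have hnon : ∀ i, O i → f i = f (i + 1) → i = N := by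
      intro i hi h
      by_contra hne
      exact (hf i).2 ⟨hi, hne⟩ h
    refine cycleGood_build hP (by omega) hch hK f O (fun i hi => ((hf i).1 hi).1) hKO hSO hCO
      ?_ ?_ ?_ (fun X => Or.inl (hBig L (by omega) f _ hcf X))
    · intro i hi h
      rw [hnon i (hKO i hi) h, hfN]
    · intro i hi hOi h
      rw [hnon i hOi h] at hi
      exact absurd (hK N hN) hi
    · intro i hi h hi' h'
      have h1 := hnon i hi h
      have h2 := hnon _ hi' h'
      rw [h1] at h2
      exact h10 (by simpa using h2)

end Pool.Agent.Trunc
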