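import Pool.Agent.Trunc.PThree

/-!
# Modules CycleKH 1 0 and CycleKH 3 0
-/

namespace Pool.Agent.Trunc

theorem ch_eq_id {L : ℕ} [NeZero L] {ch : ZMod L → ZMod L}
    (h : Nat.card {i // ch i ≠ i} = 2 * 0) : ch = id := by
  classical
  funext i
  by_contra hi
  have h1 : Nonempty {i // ch i ≠ i} := ⟨⟨i, hi⟩⟩
  have h2 : 0 < Nat.card {i // ch i ≠ i} := Nat.card_pos
  omega

theorem CycleKH10_proof (hPure : Stmt_Pure) (hZero : Stmt_SkelZero) (hOne : Stmt_TOne)
    (hSym : Stmt_Sym) : Stmt_CycleKH 1 0 := by
  classical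
  intro L ch K Z hyp hcard hch τK
  obtain ⟨hL, hinv, hne, hKch, hZ⟩ := hyp
  have : NeZero L := ⟨by omega⟩
  have hid := ch_eq_id hch
  obtain ⟨⟨i₀, hi₀⟩, hu⟩ := (Nat.card_eq_one_iff_exists).1 hcard
  have hK : ∀ i, K i ↔ i = i₀ := by
    intro i
    constructor
    · intro h
      exact congrArg Subtype.val (hu ⟨i, h⟩)
    · rintro rfl
      exact hi₀
  by_cases h3 : L % 3 = 1
  · refine (hSym L ch K Z τK).1 i₀ ?_
    have e1 : (fun i => ch (i + i₀) - i₀) = id := by
      funext i
      rw [hid]
      simp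
    have e2 : (fun i => K (i + i₀)) = (fun i => i = 0) := by
      funext i
      rw [hK]
      simp
    rw [e1, e2]
    obtain ⟨a, b, hab⟩ := hZ
    refine hOne L (by omega) h3 _ ⟨a - i₀, b - i₀, fun i hi => ?_⟩ _
    rcases hab _ hi with h | h
    · left; rw [← h]; ring
    · right; rw [← h]; ring
  · have h10 : (1 : ZMod L) ≠ 0 := by
      intro h
      have h5 := congrArg ZMod.val h
      have : Fact (1 < L) := ⟨by omega⟩
      rw [ZMod.val_one, ZMod.val_zero] at h5
      exact absurd h5 (by norm_num)
    set X : Bool := τK i₀ with hX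
    have hXX : (!X) ≠ X := by cases X <;> simp
    set f : ZMod L → Bool := fun _ => X with hf
    set ty : ZMod L → Bool := fun i => if i = i₀ then X else !X with hty
    have ty0 : ty i₀ = X := by simp [hty]
    have ty1 : ∀ i, i ≠ i₀ → ty i = !X := fun i hi => by simp [hty, hi]
    have hS : ∀ i, IsS f ty i ↔ i ≠ i₀ := by
      intro i
      constructor
      · rintro ⟨-, h⟩ rfl
        exact h ty0
      · intro h
        refine ⟨rfl, ?_⟩
        rw [ty1 i h]
        exact hXX
    obtain ⟨z1, z2, z3⟩ := hZero L (by omega) X f ty (fun _ => rfl)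
    refine cycleGood_of_pure hPure (by omega) hinv f ty ?_ ?_ ?_ ?_ ?_
    · intro i hi
      rw [(hK i).1 hi]
      exact ⟨ty0, fun h => (hS _).1 h rfl⟩
    · intro i _ hi
      rw [hS]
      exact fun h => hi ((hK i).2 h)
    · intro i hi
      exact absurd (by rw [hid]; rfl) hi
    · rintro i ⟨⟨-, ha⟩, ⟨-, hb⟩⟩
      have e1 : i = i₀ := by
        by_contra h
        rw [ty1 i h] at ha
        exact hXX ha
      have e2 : i + 1 = i₀ := by
        by_contra h
        rw [ty1 _ h] at hb
        exact hXX hb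
      rw [e1] at e2
      exact h10 (by simpa using e2)
    · intro Y
      by_cases hY : Y = X
      · left
        rw [hY]
        exact z2 h3 ⟨i₀, ty0⟩
      · right
        rw [Bool.eq_not.2 hY]
        have hne1 : i₀ + 1 ≠ i₀ := fun h => h10 (by simpa using h)
        exact ⟨i₀ + 1, by rw [hid]; rfl, z3 _ (ty1 _ hne1)⟩

/-- the case `L = 3`, where the two K-letters `1` and `2` have equal types. -/
theorem cycleKH30_three (hPure : Stmt_Pure) (hTwo : Stmt_SkelTwo) (K Z : ZMod 3 → Prop)
    (hK : ∀ i, K i) (τK : ZMod 3 → Bool) (h12 : τK 1 = τK 2) : CycleGood 3 id K Z τK := by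
  classical
  set X : Bool := τK 0 with hX
  have hXX : (!X) ≠ X := by cases X <;> simp
  set f : ZMod 3 → Bool := fun i => if i = 2 then !X else X with hf
  have f0 : f 0 = X := by simp only [hf]; rw [if_neg (by decide)]
  have f1 : f 1 = X := by simp only [hf]; rw [if_neg (by decide)]
  have f2 : f 2 = !X := by simp only [hf]; rfl
  have three : ∀ i : ZMod 3, i = 0 ∨ i = 1 ∨ i = 2 := by decide
  have e01 : (0 : ZMod 3) + 1 = 1 := by decide
  have e11 : (1 : ZMod 3) + 1 = 2 := by decide
  have e21 : (2 : ZMod 3) + 1 = 0 := by decide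
  have notS : ∀ i, ¬ IsS f τK i := by
    intro i
    rcases three i with rfl | rfl | rfl
    · rintro ⟨-, h⟩
      exact h (by rw [f0])
    · rintro ⟨h, -⟩
      rw [e11, f1, f2] at h
      exact hXX h.symm
    · rintro ⟨h, -⟩
      rw [e21, f2, f0] at h
      exact hXX h
  refine cycleGood_of_pure hPure (by norm_num) (fun _ => rfl) f τK (fun i _ => ⟨rfl, notS i⟩)
    (fun i _ h => absurd (hK i) h) (fun i h => absurd rfl h) ?_ ?_
  · rintro i ⟨⟨ha, -⟩, ⟨hb, -⟩⟩
    rcases three i with rfl | rfl | rfl
    · rw [e01, e11, f1, f2] at hb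
      exact hXX hb.symm
    · rw [e11, f1, f2] at ha
      exact hXX ha.symm
    · rw [e21, f2, f0] at ha
      exact hXX ha
  · intro Y
    left
    by_cases hY : Y = X
    · rw [hY]
      refine (hTwo 3 2 (by norm_num) (by norm_num) 2 X f τK ?_ ?_).1 (Or.inl ⟨1, le_rfl, by norm_num, ?_⟩)
      · intro j hj1 hj2
        have : j = 1 ∨ j = 2 := by omega
        rcases this with rfl | rfl
        · exact f0
        · exact f1
      · intro j hj1 hj2
        have : j = 3 := by omega
        subst this
        exact f2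
      · exact hX.symm
    · rw [Bool.eq_not.2 hY]
      refine (hTwo 3 1 (by norm_num) (by norm_num) 1 (!X) f τK ?_ ?_).1 (Or.inr ?_)
      · intro j hj1 hj2
        have : j = 1 := by omega
        subst this
        exact f2
      · intro j hj1 hj2
        rw [Bool.not_not]
        have : j = 2 ∨ j = 3 := by omega
        rcases this with rfl | rfl
        · exact f0
        · exact f1
      · have e : (1 : ZMod 3) + ((1 : ℕ) : ZMod 3) = 2 := by decide
        rw [e, h12]
        cases (τK 2 == !X) <;> simp [ModOK]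

theorem CycleKH30_proof (hPure : Stmt_Pure) (hTwo : Stmt_SkelTwo) (hSym : Stmt_Sym) :
    Stmt_CycleKH 3 0 := by
  classical
  intro L ch K Z hyp hcard hch τK
  have hyp' := hyp
  obtain ⟨hL, hinv, hne, hKch, hZ⟩ := hyp
  have : NeZero L := ⟨by omega⟩
  have hid := ch_eq_id hch
  have hcL : Nat.card (ZMod L) = L := Nat.card_zmod L
  by_cases hall : ∀ i, K i
  · -- L = 3
    have h3 : L = 3 := by
      rw [← hcL, ← hcard]
      exact (Nat.card_congr (Equiv.subtypeUnivEquiv hall)).symm
    subst h3
    rw [hid]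
    -- choose the rotation
    have key : ∃ r : ZMod 3, τK (1 + r) = τK (2 + r) := by
      rcases h0 : τK 0 with _ | _ <;> rcases h1 : τK 1 with _ | _ <;> rcases h2 : τK 2 with _ | _
      · exact ⟨0, by rw [show (1 : ZMod 3) + 0 = 1 by decide, show (2 : ZMod 3) + 0 = 2 by decide, h1, h2]⟩
      · exact ⟨2, by rw [show (1 : ZMod 3) + 2 = 0 by decide, show (2 : ZMod 3) + 2 = 1 by decide, h0, h1]⟩
      · exact ⟨1, by rw [show (1 : ZMod 3) + 1 = 2 by decide, show (2 : ZMod 3) + 1 = 0 by decide, h0, h2]⟩
      · exact ⟨0, by rw [show (1 : ZMod 3) + 0 = 1 by decide, show (2 : ZMod 3) + 0 = 2 by decide, h1, h2]⟩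
      · exact ⟨0, by rw [show (1 : ZMod 3) + 0 = 1 by decide, show (2 : ZMod 3) + 0 = 2 by decide, h1, h2]⟩
      · exact ⟨1, by rw [show (1 : ZMod 3) + 1 = 2 by decide, show (2 : ZMod 3) + 1 = 0 by decide, h0, h2]⟩
      · exact ⟨2, by rw [show (1 : ZMod 3) + 2 = 0 by decide, show (2 : ZMod 3) + 2 = 1 by decide, h0, h1]⟩
      · exact ⟨0, by rw [show (1 : ZMod 3) + 0 = 1 by decide, show (2 : ZMod 3) + 0 = 2 by decide, h1, h2]⟩
    obtain ⟨r, hr⟩ := key
    refine (hSym 3 id K Z τK).1 r ?_
    have e1 : (fun i : ZMod 3 => id (i + r) - r) = id := by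
      funext i
      simp
    rw [e1]
    exact cycleKH30_three hPure hTwo _ _ (fun i => hall _) _ hr
  · push Not at hall
    obtain ⟨r, hr⟩ := hall
    refine (hSym L ch K Z τK).1 r ?_
    have e1 : (fun i : ZMod L => ch (i + r) - r) = id := by
      funext i
      rw [hid]
      simp
    rw [e1]
    -- the three K-letters
    set K' : ZMod L → Prop := fun i => K (i + r) with hK'
    have hK0 : ¬ K' 0 := by simpa [hK'] using hr
    have hcard' : Nat.card {i // K' i} = 3 := by
      rw [← hcard]
      refine Nat.card_congr (Equiv.subtypeEquiv (Equiv.addRight r) ?_)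
      intro i
      exact Iff.rfl
    have hfs : (Finset.univ.filter (fun i : ZMod L => K' i)).card = 3 := by
      rw [← hcard', Nat.card_eq_fintype_card, Fintype.card_subtype]
    -- sort by val
    have hfs2 : ((Finset.univ.filter (fun i : ZMod L => K' i)).image ZMod.val).card = 3 := by
      rw [Finset.card_image_of_injective _ (ZMod.val_injective L), hfs]
    obtain ⟨x, y, z, hxy, hxz, hyz, hxyz⟩ := Finset.card_eq_three.1 hfs
    have hxv : x.val ≠ y.val := fun h => hxy (ZMod.val_injective L h)
    have hxv' : x.val ≠ z.val := fun h => hxz (ZMod.val_injective L h)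
    have hyv : y.val ≠ z.val := fun h => hyz (ZMod.val_injective L h)
    have mem : ∀ i, K' i ↔ (i = x ∨ i = y ∨ i = z) := by
      intro i
      have : i ∈ Finset.univ.filter (fun i : ZMod L => K' i) ↔ i ∈ ({x, y, z} : Finset (ZMod L)) := by
        rw [hxyz]
      simpa using this
    have hyp2 : CycleHyp L id K' (fun i => Z (i + r)) := by
      refine ⟨hL, fun _ => rfl, fun i h => ?_, fun _ _ => rfl, ?_⟩
      · have h10 : (1 : ZMod L) ≠ 0 := by
          intro h
          have h5 := congrArg ZMod.val h
          have : Fact (1 < L) := ⟨by omega⟩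
          rw [ZMod.val_one, ZMod.val_zero] at h5
          exact absurd h5 (by norm_num)
        exact h10 (by simpa using h)
      · obtain ⟨a, b, hab⟩ := hZ
        refine ⟨a - r, b - r, fun i hi => ?_⟩
        rcases hab _ hi with h | h
        · left; rw [← h]; ring
        · right; rw [← h]; ring
    have pos : ∀ i, K' i → 0 < i.val := by
      intro i hi
      rcases Nat.eq_zero_or_pos i.val with h | h
      · rw [ZMod.val_eq_zero] at h
        rw [h] at hi
        exact absurd hi hK0
      · exact h
    -- the main use of PThree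
    have main : ∀ a b c : ZMod L, K' a → K' b → K' c → (∀ i, K' i → i = a ∨ i = b ∨ i = c) →
        a.val < b.val → b.val < c.val →
        CycleGood L id K' (fun i => Z (i + r)) (fun i => τK (i + r)) := by
      intro a b c ha hb hc habc hab hbc
      exact pThree_of hPure hTwo L id K' _ hyp2 a b c (pos b hb) hbc (pos a ha) (Or.inl hab) ha rfl
        hK0 habc (Or.inl hb) (Or.inl hc) (fun i hi => absurd rfl hi) _
    have kx := (mem x).2 (Or.inl rfl)
    have ky := (mem y).2 (Or.inr (Or.inl rfl))
    have kz := (mem z).2 (Or.inr (Or.inr rfl))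
    rcases lt_or_gt_of_ne hxv with h1 | h1 <;> rcases lt_or_gt_of_ne hxv' with h2 | h2 <;>
      rcases lt_or_gt_of_ne hyv with h3 | h3
    · exact main x y z kx ky kz (fun i hi => by have := (mem i).1 hi; tauto) h1 h3
    · exact main x z y kx kz ky (fun i hi => by have := (mem i).1 hi; tauto) h2 h3
    · omega
    · exact main z x y kz kx ky (fun i hi => by have := (mem i).1 hi; tauto) h2 h1
    · exact main y x z ky kx kz (fun i hi => by have := (mem i).1 hi; tauto) h1 h2
    · omega
    · exact main y z x ky kz kx (fun i hi => by have := (mem i).1 hi; tauto) h3 h2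
    · exact main z y x kz ky kx (fun i hi => by have := (mem i).1 hi; tauto) h3 h1

end Pool.Agent.Trunc
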