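import Pool.Agent.Trunc.CyclePure
import Pool.Agent.Trunc.ArcLib

/-! Module CycleKH 1 1 (helper13). -/

namespace Pool.Agent.Trunc

/-- K at `v`, chord between `v + a` and `v + b`, `1 ≤ a`, `a + 2 ≤ b < L`. -/
theorem kh11_aux (hP : Stmt_Pure) (hTwo : Stmt_SkelTwo) {L a b : ℕ} (ha1 : 1 ≤ a)
    (hab : a + 2 ≤ b) (hb : b < L) (v : ZMod L) (ch : ZMod L → ZMod L) (K Z : ZMod L → Prop)
    (τK : ZMod L → Bool) (hinv : ∀ i, ch (ch i) = i)
    (hK : ∀ i, K i ↔ i = v)
    (hch : ∀ i, ch i ≠ i ↔ i = v + (a : ZMod L) ∨ i = v + (b : ZMod L)) (X : Bool)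
    (hX : 2 ≤ a ∨ ModOK (L - a) false (τK v == !X)) :
    CycleGood L ch K Z τK := by
  have haL : a < L := by omega
  have hKch : ∀ i, K i → ch i = i := by
    intro i hi
    by_contra h
    rw [hK] at hi
    subst hi
    rcases (hch _).1 h with h | h
    · have := natCast_inj_lt i (show 0 < L by omega) haL (by simpa using h)
      omega
    · have := natCast_inj_lt i (show 0 < L by omega) hb (by simpa using h)
      omega
  have hva : ch (v + (a : ZMod L)) = v + (b : ZMod L) := by
    have h1 : ch (v + (a : ZMod L)) ≠ v + (a : ZMod L) := (hch _).2 (Or.inl rfl)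
    have h2 : ch (ch (v + (a : ZMod L))) ≠ ch (v + (a : ZMod L)) := by
      rw [hinv]; exact h1.symm
    rcases (hch _).1 h2 with h | h
    · exact absurd h h1
    · exact h
  have hvb : ch (v + (b : ZMod L)) = v + (a : ZMod L) := by
    rw [← hva, hinv]
  have hKne : ∀ j : ℕ, j < L → j ≠ 0 → ¬ K (v + (j : ZMod L)) := by
    intro j hj h0 h
    exact h0 (natCast_inj_lt v hj (by omega) (by simpa using (hK _).1 h))
  have hO : ∀ j : ℕ, j < L → j ≠ 0 → j ≠ a →
      ¬ (v + (j : ZMod L) = v ∨ v + (j : ZMod L) = v + (a : ZMod L)) := by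
    rintro j hj h0 h1 (h | h)
    · exact h0 (natCast_inj_lt v hj (by omega) (by simpa using h))
    · exact h1 (natCast_inj_lt v hj haL h)
  have hfix : ∀ j : ℕ, j < L → j ≠ a → j ≠ b → ch (v + (j : ZMod L)) = v + (j : ZMod L) := by
    intro j hj h0 h1
    by_contra h
    rcases (hch _).1 h with h | h
    · exact h0 (natCast_inj_lt v hj haL h)
    · exact h1 (natCast_inj_lt v hj hb h)
  have hty0 : tyOf ch K (fun i => i = v ∨ i = v + (a : ZMod L)) τK (arc v a X) v = τK v :=
    tyOf_K ((hK v).2 rfl)
  have htya : tyOf ch K (fun i => i = v ∨ i = v + (a : ZMod L)) τK (arc v a X)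
      (v + (a : ZMod L)) = X := by
    rw [tyOf_O (hKne a haL (by omega)) (Or.inr rfl), hva, arc_out v X (by omega) hb.le,
      Bool.not_not]
  refine cycleGood_build hP (by omega) hinv hKch (arc v a X)
    (fun i => i = v ∨ i = v + (a : ZMod L)) ?_ (fun i h => Or.inl ((hK i).1 h)) ?_ ?_ ?_ ?_ ?_ ?_
  · intro i hi
    exact (arc_mixed v X ha1 haL i).1 hi
  · rintro i hi hKi (h | h)
    · exact hKi ((hK i).2 h)
    · exact (hch i).2 (Or.inl h) hi
  · intro i hi
    rcases (hch i).1 hi with rfl | rfl
    · rw [hva]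
      exact iff_of_true (Or.inr rfl) (hO b hb (by omega) (by omega))
    · rw [hvb]
      refine iff_of_false (hO b hb (by omega) (by omega)) ?_
      rw [not_not]
      exact Or.inr rfl
  · intro i hi h
    exact absurd h ((arc_mixed v X ha1 haL i).2 (Or.inl ((hK i).1 hi)))
  · intro i _ hi h
    exact absurd h ((arc_mixed v X ha1 haL i).2 hi)
  · intro i hi h _ _
    exact absurd h ((arc_mixed v X ha1 haL i).2 hi)
  · intro Y
    by_cases hY : Y = X
    · rw [hY]
      right
      refine ⟨v + ((a + 1 : ℕ) : ZMod L), hfix _ (by omega) (by omega) (by omega),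
        arc_actX hTwo v X ha1 haL _ (by omega) (by omega) ?_⟩
      rw [tyOf_S (hKne (a + 1) (by omega) (by omega)) (hO (a + 1) (by omega) (by omega) (by omega)),
        arc_out v X (by omega) (by omega), Bool.not_not]
    · rw [Bool.eq_not.2 hY]
      rcases hX with h | h
      · right
        refine ⟨v + ((1 : ℕ) : ZMod L), hfix 1 (by omega) (by omega) (by omega),
          arc_actY hTwo v X ha1 haL _ le_rfl (by omega) ?_⟩
        rw [tyOf_S (hKne 1 (by omega) (by omega)) (hO 1 (by omega) (by omega) (by omega)),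
          arc_in v X haL le_rfl (by omega)]
      · left
        apply arc_constY hTwo v X ha1 haL
        right
        rw [hty0, htya]
        have : (X == !X) = false := by cases X <;> rfl
        rw [this]
        exact h

theorem cycleKH11_of (hP : Stmt_Pure) (hTwo : Stmt_SkelTwo) : Stmt_CycleKH 1 1 := by
  classical
  intro L ch K Z hyp hcard hc τK
  obtain ⟨hL, hinv, hne, hKch, hZ⟩ := hyp
  have : NeZero L := ⟨by omega⟩
  obtain ⟨⟨v, hv⟩, hu⟩ := (Nat.card_eq_one_iff_exists).1 hcard
  have hK : ∀ i, K i ↔ i = v := by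
    intro i
    constructor
    · intro h
      exact congrArg Subtype.val (hu ⟨i, h⟩)
    · rintro rfl
      exact hv
  have hfs : (Finset.univ.filter (fun i : ZMod L => ch i ≠ i)).card = 2 := by
    rw [Nat.card_eq_fintype_card, Fintype.card_subtype] at hc
    exact hc
  obtain ⟨x, y, hxy, hxyK⟩ := Finset.card_eq_two.1 hfs
  have mem : ∀ i, ch i ≠ i ↔ (i = x ∨ i = y) := by
    intro i
    have : i ∈ Finset.univ.filter (fun i : ZMod L => ch i ≠ i) ↔
        i ∈ ({x, y} : Finset (ZMod L)) := by
      rw [hxyK]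
    simpa using this
  have main : ∀ a b : ℕ, a < b → b < L →
      (∀ i, ch i ≠ i ↔ (i = v + (a : ZMod L) ∨ i = v + (b : ZMod L))) →
      CycleGood L ch K Z τK := by
    intro a b hab hb hch
    have hxm : ch (v + (a : ZMod L)) ≠ v + (a : ZMod L) := (hch _).2 (Or.inl rfl)
    have ha0 : a ≠ 0 := by
      rintro rfl
      rw [Nat.cast_zero, add_zero] at hxm
      exact hxm (hKch v hv)
    have hva : ch (v + (a : ZMod L)) = v + (b : ZMod L) := by
      have h2 : ch (ch (v + (a : ZMod L))) ≠ ch (v + (a : ZMod L)) := by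
        rw [hinv]; exact hxm.symm
      rcases (hch _).1 h2 with h | h
      · exact absurd h hxm
      · exact h
    have hab2 : a + 2 ≤ b := by
      rcases Nat.lt_or_ge (a + 1) b with h | h
      · exact h
      · exfalso
        have : b = a + 1 := by omega
        apply hne (v + (a : ZMod L))
        rw [hva, this]
        push_cast
        ring
    by_cases h2 : 2 ≤ a
    · exact kh11_aux hP hTwo (by omega) hab2 hb v ch K Z τK hinv hK hch true (Or.inl h2)
    · have ha1 : a = 1 := by omega
      by_cases h3 : (L - a) % 3 = 2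
      · refine kh11_aux hP hTwo (by omega) hab2 hb v ch K Z τK hinv hK hch (!τK v) (Or.inr ?_)
        have : (τK v == !!τK v) = true := by cases τK v <;> rfl
        rw [this]
        show (L - a) % 3 ≠ 1
        omega
      · refine kh11_aux hP hTwo (by omega) hab2 hb v ch K Z τK hinv hK hch (τK v) (Or.inr ?_)
        have : (τK v == !τK v) = false := by cases τK v <;> rfl
        rw [this]
        exact h3
  obtain ⟨ha, ha2⟩ := zmod_eq_val (by omega : 1 ≤ L) v x
  obtain ⟨hb, hb2⟩ := zmod_eq_val (by omega : 1 ≤ L) v y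
  generalize (x - v).val = a at ha ha2
  generalize (y - v).val = b at hb hb2
  have hab : a ≠ b := by
    rintro rfl
    exact hxy (ha2.symm.trans hb2)
  rcases lt_or_gt_of_ne hab with h | h
  · exact main a b h hb (by rw [ha2, hb2]; exact mem)
  · exact main b a h ha (by rw [ha2, hb2]; exact fun i => (mem i).trans or_comm)

end Pool.Agent.Trunc
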