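import Pool.Agent.Trunc.KHLib

/-! Module CycleKH 1 2 (helper87). -/

namespace Pool.Agent.Trunc.KH

theorem zmod5_cases (i : ZMod 5) : i = 0 ∨ i = 1 ∨ i = 2 ∨ i = 3 ∨ i = 4 := by
  revert i; decide

/-- `L = 5`, K-letter `0`, chords `{1, 3}`, `{2, 4}`. -/
theorem five (hP : Stmt_Pure) (h2 : Stmt_SkelTwo) (ch : ZMod 5 → ZMod 5) (K Z : ZMod 5 → Prop)
    (h1 : ∀ i, ch (ch i) = i) (c0 : ch 0 = 0) (c1 : ch 1 = 3) (c2 : ch 2 = 4) (c3 : ch 3 = 1)
    (c4 : ch 4 = 2) (hK : ∀ i, K i ↔ i = 0) (τK : ZMod 5 → Bool) :
    CycleGood 5 ch K Z τK := by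
  obtain ⟨a, ha⟩ : ∃ a, τK 0 = a := ⟨_, rfl⟩
  refine pure_good hP 5 (by norm_num) ch K Z τK ![a, a, !a, a, a] ![a, !a, !a, !a, !a] h1
    ?_ ?_ ?_ ?_ ?_
  · intro i hi
    rw [hK] at hi
    subst hi
    rw [ha]; exact ⟨rfl, by unfold IsS; cases a <;> decide⟩
  · intro i hi hi2
    rw [hK] at hi2
    rcases zmod5_cases i with rfl | rfl | rfl | rfl | rfl
    · exact absurd rfl hi2
    · rw [c1] at hi; exact absurd hi (by decide)
    · rw [c2] at hi; exact absurd hi (by decide)
    · rw [c3] at hi; exact absurd hi (by decide)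
    · rw [c4] at hi; exact absurd hi (by decide)
  · intro i hi
    rcases zmod5_cases i with rfl | rfl | rfl | rfl | rfl
    · exact absurd c0 hi
    · rw [c1]; unfold IsS; cases a <;> decide
    · rw [c2]; unfold IsS; cases a <;> decide
    · rw [c3]; unfold IsS; cases a <;> decide
    · rw [c4]; unfold IsS; cases a <;> decide
  · intro i
    unfold IsN
    rcases zmod5_cases i with rfl | rfl | rfl | rfl | rfl <;> cases a <;> decide
  · intro X
    left
    by_cases hX : X = a
    · subst hX
      refine (h2 5 4 (by norm_num) (by norm_num) 2 X _ _ ?_ ?_).1 (Or.inl ⟨3, ?_⟩)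
      · intro j hj1 hj2
        interval_cases j <;> cases X <;> decide
      · intro j hj1 hj2
        interval_cases j <;> cases X <;> decide
      · cases X <;> decide
    · have hX' : X = !a := by cases X <;> cases a <;> simp_all
      subst hX'
      refine (h2 5 1 (by norm_num) (by norm_num) 1 (!a) _ _ ?_ ?_).1 (Or.inr ?_)
      · intro j hj1 hj2
        interval_cases j <;> cases a <;> decide
      · intro j hj1 hj2
        interval_cases j <;> cases a <;> decide
      · cases a <;> exact (by norm_num : (1 : ℕ) % 3 ≠ 0)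

theorem five_pattern (ch : ZMod 5 → ZMod 5) (h1 : ∀ i, ch (ch i) = i) (h3 : ∀ i, ch i ≠ i + 1)
    (c0 : ch 0 = 0) (hne : ∀ i, i ≠ 0 → ch i ≠ i) :
    ch 1 = 3 ∧ ch 2 = 4 ∧ ch 3 = 1 ∧ ch 4 = 2 := by
  have inj : ∀ i j, ch i = ch j → i = j := fun i j h => by rw [← h1 i, h, h1]
  have a1 : ch 1 = 3 := by
    rcases zmod5_cases (ch 1) with h | h | h | h | h
    · exact absurd (inj 1 0 (by rw [h, c0])) (by decide)
    · exact absurd h (hne 1 (by decide))
    · exact absurd h (h3 1)
    · exact h
    · exfalso
      have h4 : ch 4 = 1 := by rw [← h, h1]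
      rcases zmod5_cases (ch 2) with g | g | g | g | g
      · exact absurd (inj 2 0 (by rw [g, c0])) (by decide)
      · exact absurd (inj 2 4 (by rw [g, h4])) (by decide)
      · exact absurd g (hne 2 (by decide))
      · exact absurd g (h3 2)
      · exact absurd (inj 2 1 (by rw [g, h])) (by decide)
  have a3 : ch 3 = 1 := by rw [← a1, h1]
  have a2 : ch 2 = 4 := by
    rcases zmod5_cases (ch 2) with g | g | g | g | g
    · exact absurd (inj 2 0 (by rw [g, c0])) (by decide)
    · exact absurd (inj 2 3 (by rw [g, a3])) (by decide)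
    · exact absurd g (hne 2 (by decide))
    · exact absurd g (h3 2)
    · exact g
  exact ⟨a1, a2, a3, by rw [← a2, h1]⟩

theorem sub_val {L : ℕ} [NeZero L] (x r : ZMod L) (h : r.val ≤ x.val) :
    (x - r).val = x.val - r.val := ZMod.val_sub h

/-- `d < a < e`: rotate. -/
theorem caseC (hT : Stmt_PThree) (hS : Stmt_Sym) (L : ℕ) (ch : ZMod L → ZMod L)
    (K Z : ZMod L → Prop) (h : CycleHyp L ch K Z) (a c d e f : ZMod L) (ha : K a)
    (hK : ∀ i, K i → i = a) (hcd : ch c = d) (hdc : ch d = c) (hef : ch e = f) (hfe : ch f = e)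
    (o1 : c.val < d.val) (o2 : d.val < a.val) (o3 : a.val < e.val) (o4 : e.val < f.val)
    (hch : ∀ i, ch i ≠ i → i = c ∨ i = d ∨ i = e ∨ i = f) (τK : ZMod L → Bool) :
    CycleGood L ch K Z τK := by
  obtain ⟨hL, h1, h3, h4, -⟩ := id h
  have : NeZero L := ⟨by omega⟩
  have : Fact (1 < L) := ⟨by omega⟩
  have hflt := ZMod.val_lt f
  have hr : (c + 1).val = c.val + 1 := by
    rw [ZMod.val_add_of_lt]
    · rw [ZMod.val_one]
    · rw [ZMod.val_one]; omega
  have hdr : d.val ≠ (c + 1).val := fun hh => by
    have := ZMod.val_injective L hh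
    exact h3 c (by rw [hcd, this])
  have hvne : ∀ x y : ZMod L, x.val ≠ y.val → x ≠ y := fun x y h h2 => h (by rw [h2])
  set r := c + 1 with hrdef
  have hd2 : r.val < d.val := by omega
  have hrr : ch r = r := by
    by_contra hcon
    rcases hch r hcon with h | h | h | h
    · exact hvne r c (by omega) h
    · exact hvne r d (by omega) h
    · exact hvne r e (by omega) h
    · exact hvne r f (by omega) h
  have hrK : ¬ K r := fun h => hvne r a (by omega) (hK r h)
  refine (hS L ch K Z τK).1 r ?_
  have va : (a - r).val = a.val - r.val := sub_val a r (by omega)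
  have ve : (e - r).val = e.val - r.val := sub_val e r (by omega)
  have vc : (c - r).val = L - 1 := by
    have : c - r = -1 := by rw [hrdef]; ring
    rw [this, ZMod.neg_val, if_neg one_ne_zero, ZMod.val_one]
  have helt := ZMod.val_lt e
  refine hT L _ _ _ (hyp_rot h r) (a - r) (e - r) (c - r) (by omega) (by omega) (by omega)
    (Or.inl (by omega)) ?_ ?_ ?_ ?_ ?_ ?_ ?_ _
  · show K (a - r + r); rw [sub_add_cancel]; exact ha
  · show ch (0 + r) - r = 0
    rw [zero_add, hrr, sub_self]
  · show ¬ K (0 + r)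
    rw [zero_add]; exact hrK
  · intro i hi
    left
    rw [← hK _ hi, add_sub_cancel_right]
  · right
    show ch (e - r + r) - r ≠ e - r
    rw [sub_add_cancel, hef]
    exact fun hh => hvne e f (by omega) (sub_left_injective hh).symm
  · right
    show ch (c - r + r) - r ≠ c - r
    rw [sub_add_cancel, hcd]
    exact fun hh => hvne c d (by omega) (sub_left_injective hh).symm
  · intro i hi
    show (i = e - r ∨ i = c - r) ↔ ¬ (ch (i + r) - r = e - r ∨ ch (i + r) - r = c - r)
    have hi' : ch (i + r) ≠ i + r := fun h => hi (by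
      show ch (i + r) - r = i
      rw [h, add_sub_cancel_right])
    rw [sub_left_inj, sub_left_inj, eq_sub_iff_add_eq, eq_sub_iff_add_eq]
    have n1 : c ≠ e := hvne _ _ (by omega)
    have n2 : d ≠ e := hvne _ _ (by omega)
    have n3 : d ≠ c := hvne _ _ (by omega)
    have n4 : f ≠ e := hvne _ _ (by omega)
    have n5 : f ≠ c := hvne _ _ (by omega)
    rcases hch _ hi' with g | g | g | g
    · rw [g, hcd]; simp [n2, n3]
    · rw [g, hdc]; simp [n2, n3]
    · rw [g, hef]; simp [n4, n5]
    · rw [g, hfe]; simp [n4, n5]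

/-- `0` is a chordless S-letter. -/
theorem big12 (hT : Stmt_PThree) (hS : Stmt_Sym) (L : ℕ) (ch : ZMod L → ZMod L)
    (K Z : ZMod L → Prop) (h : CycleHyp L ch K Z) (h0 : ch 0 = 0) (hk0 : ¬ K 0)
    (a c d e f : ZMod L) (ha : K a)
    (hK : ∀ i, K i → i = a) (hcd : ch c = d) (hdc : ch d = c) (hef : ch e = f) (hfe : ch f = e)
    (o1 : c.val < d.val) (o2 : e.val < f.val) (n1 : c ≠ e) (n2 : c ≠ f)
    (hch : ∀ i, ch i ≠ i → i = c ∨ i = d ∨ i = e ∨ i = f) (τK : ZMod L → Bool) :
    CycleGood L ch K Z τK := by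
  obtain ⟨hL, h1, h3, h4, -⟩ := id h
  have : NeZero L := ⟨by omega⟩
  have pos : ∀ x : ZMod L, x ≠ 0 → 0 < x.val := fun x hx => by
    rcases Nat.eq_zero_or_pos x.val with h | h
    · exact absurd ((ZMod.val_eq_zero x).1 h) hx
    · exact h
  have hvne : ∀ x y : ZMod L, x.val ≠ y.val → x ≠ y := fun x y h h2 => h (by rw [h2])
  have hne : ∀ x y : ZMod L, x ≠ y → x.val ≠ y.val := fun x y h h2 =>
    h (ZMod.val_injective L h2)
  have ncd : c ≠ d := hvne _ _ (by omega)
  have nef : e ≠ f := hvne _ _ (by omega)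
  have n3 : d ≠ e := fun hh => n2 (by rw [← hdc, hh, hef])
  have n4 : d ≠ f := fun hh => n1 (by rw [← hdc, hh, hfe])
  have cc : ch c ≠ c := by rw [hcd]; exact ncd.symm
  have cd : ch d ≠ d := by rw [hdc]; exact ncd
  have ce : ch e ≠ e := by rw [hef]; exact nef.symm
  have cf : ch f ≠ f := by rw [hfe]; exact nef
  have nea : ∀ x, ch x ≠ x → x.val ≠ a.val := fun x hx => hne _ _ (fun hh => by
    subst hh
    exact hx (h4 x ha))
  have ac := nea c cc
  have ad := nea d cd
  have ae := nea e ce
  have af := nea f cf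
  have z : ∀ x, ch x ≠ x → 0 < x.val := fun x hx => pos x (fun hh => hx (by rw [hh, h0]))
  have zc := z c cc
  have ze := z e ce
  have za := pos a (fun hh => hk0 (hh ▸ ha))
  -- the application of PThree
  have key : ∀ x x' y y' : ZMod L, ch x = x' → ch x' = x → ch y = y' → ch y' = y →
      x ≠ x' → y ≠ y' → x ≠ y → x ≠ y' → x' ≠ y →
      (∀ i, ch i ≠ i → i = x ∨ i = x' ∨ i = y ∨ i = y') → x.val < y.val → 0 < x.val →
      (a.val < x.val ∨ y.val < a.val) → CycleGood L ch K Z τK := by
    intro x x' y y' e1 e2 e3 e4 m1 m2 m3 m4 m5 hall o hx0 ho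
    refine hT L ch K Z h a x y hx0 o za ho ha h0 hk0 (fun i hi => Or.inl (hK i hi))
      (Or.inr (by rw [e1]; exact m1.symm)) (Or.inr (by rw [e3]; exact m2.symm)) ?_ τK
    intro i hi
    rcases hall i hi with g | g | g | g
    · rw [g, e1]; simp [m1.symm, m5]
    · rw [g, e2]; simp [m1.symm, m5]
    · rw [g, e3]; simp [m2.symm, m4.symm]
    · rw [g, e4]; simp [m2.symm, m4.symm]
  by_cases hA : a.val < d.val ∧ a.val < f.val
  · obtain ⟨A1, A2⟩ := hA
    rcases lt_or_gt_of_ne (hne d f n4) with o | o
    · exact key d c f e hdc hcd hfe hef ncd.symm nef.symm n4 n3 n2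
        (fun i hi => by rcases hch i hi with g | g | g | g <;> simp [g]) o (by omega) (Or.inl A1)
    · exact key f e d c hfe hef hdc hcd nef.symm ncd.symm n4.symm n2.symm n3.symm
        (fun i hi => by rcases hch i hi with g | g | g | g <;> simp [g]) o (by omega) (Or.inl A2)
  by_cases hB : c.val < a.val ∧ e.val < a.val
  · obtain ⟨B1, B2⟩ := hB
    rcases lt_or_gt_of_ne (hne c e n1) with o | o
    · exact key c d e f hcd hdc hef hfe ncd nef n1 n2 n3
        (fun i hi => by rcases hch i hi with g | g | g | g <;> simp [g]) o (by omega) (Or.inr B2)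
    · exact key e f c d hef hfe hcd hdc nef ncd n1.symm n3.symm n2.symm
        (fun i hi => by rcases hch i hi with g | g | g | g <;> simp [g]) o (by omega) (Or.inr B1)
  · rcases lt_or_gt_of_ne ad with g | g
    · exact caseC hT hS L ch K Z h a c d e f ha hK hcd hdc hef hfe o1 g (by omega) o2 hch τK
    · exact caseC hT hS L ch K Z h a e f c d ha hK hef hfe hcd hdc o2 (by omega) (by omega) o1
        (fun i hi => by rcases hch i hi with g | g | g | g <;> simp [g]) τK

end Pool.Agent.Trunc.KH

namespace Pool.Agent.Trunc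

open KH

theorem cycleKH12_proof (hP : Stmt_Pure) (h2 : Stmt_SkelTwo) (hT : Stmt_PThree) (hS : Stmt_Sym) :
    Stmt_CycleKH 1 2 := by
  intro L ch K Z h hK2 hch2 τK
  obtain ⟨hL, h1, h3, h4, hZ⟩ := id h
  have : NeZero L := ⟨by omega⟩
  obtain ⟨a, ha, hK⟩ := exists_one hK2
  obtain ⟨c, e, hc, he, n1, n2, hch⟩ := two_chords h1 hch2
  have hc2 : ch (ch c) ≠ ch c := by rw [h1]; exact hc.symm
  have he2 : ch (ch e) ≠ ch e := by rw [h1]; exact he.symm
  have ne : ∀ y : ZMod L, ch y ≠ y → a ≠ y := fun y hy hxy => by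
    subst hxy
    exact hy (h4 a ha)
  have n3 : ch e ≠ c := fun h => n2 (by rw [← h, h1])
  have n4 : ch e ≠ ch c := fun h => n1 (by rw [← h1 e, h, h1])
  by_cases hL6 : 6 ≤ L
  · obtain ⟨r, hr⟩ := exists_out [a, c, ch c, e, ch e]
      (by simp only [List.length_cons, List.length_nil]; omega)
    simp only [List.mem_cons, List.not_mem_nil, or_false, not_or] at hr
    obtain ⟨r1, r2, r3, r4, r5⟩ := hr
    have hrK : ¬ K r := fun h => r1 (hK r h)
    have hrc : ch r = r := by
      by_contra hcon
      rcases hch r hcon with h | h | h | h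
      · exact r2 h
      · exact r3 h
      · exact r4 h
      · exact r5 h
    refine (hS L ch K Z τK).1 r ?_
    have hyp := hyp_rot h r
    have q0 : ch (0 + r) - r = 0 := by rw [zero_add, hrc, sub_self]
    have q1 : ¬ K (0 + r) := by rw [zero_add]; exact hrK
    have hord : ∀ x y : ZMod L, x ≠ y → (x - r).val < (y - r).val ∨ (y - r).val < (x - r).val := by
      intro x y hxy
      apply lt_or_gt_of_ne
      intro h
      exact hxy (sub_left_injective (ZMod.val_injective L h))
    have key : ∀ x y : ZMod L, y ≠ x → y ≠ ch x →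
        (∀ i, ch i ≠ i → i = x ∨ i = ch x ∨ i = y ∨ i = ch y) →
        (x - r).val < (ch x - r).val → (y - r).val < (ch y - r).val →
        CycleGood L (fun i => ch (i + r) - r) (fun i => K (i + r)) (fun i => Z (i + r))
          (fun i => τK (i + r)) := by
      intro x y m1 m2 hall o1 o2
      have rw1 : ∀ z, ch (z - r + r) - r = ch z - r := fun z => by rw [sub_add_cancel]
      refine big12 hT hS L _ _ _ hyp q0 q1 (a - r) (x - r) (ch x - r) (y - r) (ch y - r)
        ?_ ?_ (rw1 x) ?_ (rw1 y) ?_ o1 o2 ?_ ?_ ?_ _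
      · show K (a - r + r); rw [sub_add_cancel]; exact ha
      · intro i hi
        rw [← hK _ hi, add_sub_cancel_right]
      · show ch (ch x - r + r) - r = x - r
        rw [rw1, h1]
      · show ch (ch y - r + r) - r = y - r
        rw [rw1, h1]
      · exact fun hh => m1 (sub_left_injective hh).symm
      · intro hh
        have := sub_left_injective hh
        exact m2 (by rw [this, h1])
      · intro i hi
        have hi' : ch (i + r) ≠ i + r := fun h => hi (by
          show ch (i + r) - r = i
          rw [h, add_sub_cancel_right])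
        rcases hall _ hi' with g | g | g | g
        · left; rw [← g, add_sub_cancel_right]
        · right; left; rw [← g, add_sub_cancel_right]
        · right; right; left; rw [← g, add_sub_cancel_right]
        · right; right; right; rw [← g, add_sub_cancel_right]
    rcases hord c (ch c) hc.symm with o1 | o1 <;> rcases hord e (ch e) he.symm with o2 | o2
    · exact key c e n1 n2 hch o1 o2
    · refine key c (ch e) n3 n4 ?_ o1 (by rw [h1]; exact o2)
      intro i hi
      rw [h1]
      rcases hch i hi with g | g | g | g <;> simp [g]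
    · refine key (ch c) e n2 (by rw [h1]; exact n1) ?_ (by rw [h1]; exact o1) o2
      intro i hi
      rw [h1]
      rcases hch i hi with g | g | g | g <;> simp [g]
    · refine key (ch c) (ch e) n4 (by rw [h1]; exact n3) ?_ (by rw [h1]; exact o1)
        (by rw [h1]; exact o2)
      intro i hi
      rw [h1, h1]
      rcases hch i hi with g | g | g | g <;> simp [g]
  · have hall5 : ∀ i, i = a ∨ i = c ∨ i = ch c ∨ i = e ∨ i = ch e := by
      have hnd : ([a, c, ch c, e, ch e] : List (ZMod L)).Nodup := by
        simp only [List.nodup_cons, List.mem_cons, List.not_mem_nil, or_false, not_or,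
          List.nodup_nil, not_false_eq_true, and_true]
        exact ⟨⟨ne c hc, ne _ hc2, ne e he, ne _ he2⟩, ⟨hc.symm, n1.symm, n3.symm⟩,
          ⟨n2.symm, n4.symm⟩, he.symm⟩
      have hT5 : ([a, c, ch c, e, ch e] : List (ZMod L)).toFinset = Finset.univ := by
        apply Finset.eq_univ_of_card
        rw [List.toFinset_card_of_nodup hnd, ZMod.card]
        have h5 := Finset.card_le_univ ([a, c, ch c, e, ch e] : List (ZMod L)).toFinset
        rw [List.toFinset_card_of_nodup hnd, ZMod.card] at h5
        simp only [List.length_cons, List.length_nil] at h5 ⊢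
        omega
      intro i
      have hi : i ∈ ([a, c, ch c, e, ch e] : List (ZMod L)).toFinset := by
        rw [hT5]; exact Finset.mem_univ i
      simpa using hi
    have hL5 : L = 5 := by
      have hnd : ([a, c, ch c, e, ch e] : List (ZMod L)).Nodup := by
        simp only [List.nodup_cons, List.mem_cons, List.not_mem_nil, or_false, not_or,
          List.nodup_nil, not_false_eq_true, and_true]
        exact ⟨⟨ne c hc, ne _ hc2, ne e he, ne _ he2⟩, ⟨hc.symm, n1.symm, n3.symm⟩,
          ⟨n2.symm, n4.symm⟩, he.symm⟩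
      have h5 := Finset.card_le_univ ([a, c, ch c, e, ch e] : List (ZMod L)).toFinset
      rw [List.toFinset_card_of_nodup hnd, ZMod.card] at h5
      simp only [List.length_cons, List.length_nil] at h5
      omega
    subst hL5
    refine (hS 5 ch K Z τK).1 a ?_
    have hyp := hyp_rot h a
    have q0 : ch (0 + a) - a = 0 := by rw [zero_add, h4 a ha, sub_self]
    have hchne : ∀ i, i ≠ a → ch i ≠ i := by
      intro i hi
      rcases hall5 i with g | g | g | g | g
      · exact absurd g hi
      · rw [g]; exact hc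
      · rw [g]; exact hc2
      · rw [g]; exact he
      · rw [g]; exact he2
    obtain ⟨p1, p2, p3, p4⟩ := five_pattern (fun i => ch (i + a) - a) hyp.2.1 hyp.2.2.1 q0
      (fun i hi hh => by
        have hh' : ch (i + a) - a = i := hh
        rw [sub_eq_iff_eq_add] at hh'
        exact hchne (i + a) (fun g => hi (by
          have := congrArg (· - a) g
          simpa using this)) hh')
    exact five hP h2 _ _ _ hyp.2.1 q0 p1 p2 p3 p4 (fun i => ⟨fun hi => by
      have := hK _ hi
      have := congrArg (· - a) this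
      simpa using this, fun hi => by rw [hi, zero_add]; exact ha⟩) _

end Pool.Agent.Trunc
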