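import Pool.Agent.Trunc.CyclePure
import Pool.Agent.Trunc.ArcLib

/-! Module CycleKH 2 0 (helper13). -/

namespace Pool.Agent.Trunc

theorem kh20_aux (hP : Stmt_Pure) (hTwo : Stmt_SkelTwo) {L n : ℕ} (hL : 3 ≤ L) (hn1 : 1 ≤ n)
    (hn : n < L) (v : ZMod L) (K Z : ZMod L → Prop) (τK : ZMod L → Bool)
    (hK : ∀ i, K i ↔ i = v ∨ i = v + (n : ZMod L)) (X : Bool)
    (hX1 : n + 2 ≤ L ∨ ModOK n (τK v == X) (τK (v + (n : ZMod L)) == X))
    (hX2 : 2 ≤ n ∨ ModOK (L - n) (τK (v + (n : ZMod L)) == !X) (τK v == !X)) :
    CycleGood L id K Z τK := by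
  have hty0 : tyOf id K K τK (arc v n X) v = τK v := tyOf_K ((hK v).2 (Or.inl rfl))
  have htyn : tyOf id K K τK (arc v n X) (v + (n : ZMod L)) = τK (v + (n : ZMod L)) :=
    tyOf_K ((hK _).2 (Or.inr rfl))
  have hnK : ∀ j : ℕ, j < L → j ≠ 0 → j ≠ n → ¬ K (v + (j : ZMod L)) := by
    intro j hj h0 h1 h
    rcases (hK _).1 h with h | h
    · exact h0 (natCast_inj_lt v hj (by omega) (by simpa using h))
    · exact h1 (natCast_inj_lt v hj hn h)
  refine cycleGood_build hP (by omega) (fun _ => rfl) (fun _ _ => rfl) (arc v n X) K ?_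
    (fun _ h => h) (fun _ _ h => h) (fun i h => absurd rfl h) ?_ (fun i h => absurd rfl h) ?_ ?_
  · intro i hi
    exact (hK i).2 ((arc_mixed v X hn1 hn i).1 hi)
  · intro i hi h
    exact absurd h ((arc_mixed v X hn1 hn i).2 ((hK i).1 hi))
  · intro i hi h _ _
    exact absurd h ((arc_mixed v X hn1 hn i).2 ((hK i).1 hi))
  · intro Y
    by_cases hY : Y = X
    · rw [hY]
      rcases hX1 with h | h
      · right
        refine ⟨v + ((n + 1 : ℕ) : ZMod L), rfl, arc_actX hTwo v X hn1 hn _ (by omega) (by omega) ?_⟩
        have h1 := hnK (n + 1) (by omega) (by omega) (by omega)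
        rw [tyOf_S h1 h1, arc_out v X (by omega) (by omega), Bool.not_not]
      · left
        apply arc_constX hTwo v X hn1 hn
        right
        rw [hty0, htyn]
        exact h
    · rw [Bool.eq_not.2 hY]
      rcases hX2 with h | h
      · right
        refine ⟨v + ((1 : ℕ) : ZMod L), rfl, arc_actY hTwo v X hn1 hn _ le_rfl (by omega) ?_⟩
        have h1 := hnK 1 (by omega) (by omega) (by omega)
        rw [tyOf_S h1 h1, arc_in v X (by omega) (by omega) (by omega)]
      · left
        apply arc_constY hTwo v X hn1 hn
        right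
        rw [hty0, htyn]
        exact h

theorem cycleKH20_of (hP : Stmt_Pure) (hTwo : Stmt_SkelTwo) (hTT : Stmt_TTwo) (hSym : Stmt_Sym) :
    Stmt_CycleKH 2 0 := by
  classical
  intro L ch K Z hyp hcard hc τK
  obtain ⟨hL, hinv, hne, hKch, hZ⟩ := hyp
  have : NeZero L := ⟨by omega⟩
  have hid : ch = id := by
    funext i
    by_contra hi
    have h1 : Nonempty {i // ch i ≠ i} := ⟨⟨i, hi⟩⟩
    have h2 : 0 < Nat.card {i // ch i ≠ i} := Nat.card_pos
    omega
  rw [hid]
  have hfs : (Finset.univ.filter (fun i : ZMod L => K i)).card = 2 := by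
    rw [← hcard, Nat.card_eq_fintype_card, Fintype.card_subtype]
  obtain ⟨x, y, hxy, hxyK⟩ := Finset.card_eq_two.1 hfs
  have mem : ∀ i, K i ↔ (i = x ∨ i = y) := by
    intro i
    have : i ∈ Finset.univ.filter (fun i : ZMod L => K i) ↔ i ∈ ({x, y} : Finset (ZMod L)) := by
      rw [hxyK]
    simpa using this
  -- the case of adjacent K-letters `v - 1`, `v`... `v`, `v + 1`
  have adj : ∀ v : ZMod L, (∀ i, K i ↔ i = v ∨ i = v + ((1 : ℕ) : ZMod L)) →
      CycleGood L id K Z τK := by
    intro v hv
    by_cases ht : τK v = τK (v + ((1 : ℕ) : ZMod L))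
    · -- equal types
      by_cases h3 : (L - 1) % 3 = 0
      · refine kh20_aux hP hTwo hL le_rfl (by omega) v K Z τK hv (τK v) (Or.inl (by omega))
          (Or.inr ?_)
        rw [← ht]
        have : (τK v == !τK v) = false := by cases τK v <;> rfl
        rw [this]
        show (L - 1) % 3 ≠ 2
        omega
      · refine kh20_aux hP hTwo hL le_rfl (by omega) v K Z τK hv (!τK v) (Or.inl (by omega))
          (Or.inr ?_)
        rw [← ht]
        have : (τK v == !!τK v) = true := by cases τK v <;> rfl
        rw [this]
        show (L - 1) % 3 ≠ 0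
        omega
    · by_cases h3 : (L - 1) % 3 = 1
      · -- TTwo, with `0 ↔ v + 1` and `-1 ↔ v`
        refine (hSym L id K Z τK).1 (v + 1) ?_
        have e1 : (fun i : ZMod L => id (i + (v + 1)) - (v + 1)) = id := by
          funext i
          simp
        have e2 : (fun i => K (i + (v + 1))) = (fun i => i = 0 ∨ i = -1) := by
          funext i
          rw [hv, Nat.cast_one]
          apply propext
          constructor
          · rintro (h | h)
            · right
              have h5 : i + 1 = 0 := by
                have h6 : v + (i + 1) = v + 0 := by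
                  rw [add_zero]
                  calc v + (i + 1) = i + (v + 1) := by ring
                    _ = v := h
                exact add_left_cancel h6
              exact eq_neg_of_add_eq_zero_left h5
            · left
              have : i + (v + 1) = 0 + (v + 1) := by rw [h, zero_add]
              exact add_right_cancel this
          · rintro (h | h)
            · right; rw [h, zero_add]
            · left; rw [h]; ring
        rw [e1, e2]
        obtain ⟨a, b, hab⟩ := hZ
        refine hTT L (by omega) (by omega) _ ⟨a - (v + 1), b - (v + 1), fun i hi => ?_⟩ _ ?_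
        · rcases hab _ hi with h | h
          · left; rw [← h]; ring
          · right; rw [← h]; ring
        · have e3 : (-1 : ZMod L) + (v + 1) = v := by ring
          rw [e3, zero_add]
          intro h
          apply ht
          rw [Nat.cast_one, h]
      · refine kh20_aux hP hTwo hL le_rfl (by omega) v K Z τK hv (τK v) (Or.inl (by omega))
          (Or.inr ?_)
        have h1 : (τK v == !τK v) = false := by cases τK v <;> rfl
        have h2 : (τK (v + ((1 : ℕ) : ZMod L)) == !τK v) = true := by
          revert ht
          cases τK v <;> cases τK (v + ((1 : ℕ) : ZMod L)) <;> simp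
        rw [h1, h2]
        show (L - 1) % 3 ≠ 1
        exact h3
  -- write `y = x + n`
  obtain ⟨hn, hn2⟩ := zmod_eq_val (by omega : 1 ≤ L) x y
  generalize (y - x).val = n at hn hn2
  have hn1 : n ≠ 0 := by
    rintro rfl
    exact hxy (by simpa using hn2)
  rcases Nat.eq_or_lt_of_le (Nat.one_le_iff_ne_zero.2 hn1) with h1 | h1
  · subst h1
    exact adj x (by rw [hn2]; exact mem)
  · rcases Nat.lt_or_ge (n + 1) L with h2 | h2
    · exact kh20_aux hP hTwo hL (by omega) hn x K Z τK (by rw [hn2]; exact mem) true
        (Or.inl (by omega)) (Or.inl (by omega))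
    · -- `x = y + 1`
      apply adj y
      intro i
      have e : y + ((1 : ℕ) : ZMod L) = x := by
        rw [← hn2, add_assoc, ← Nat.cast_add, show n + 1 = L by omega, ZMod.natCast_self, add_zero]
      rw [e, mem, or_comm]

end Pool.Agent.Trunc
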