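import Pool.Agent.Trunc.KHLib

/-! Module CycleKH 2 1 (helper87). -/

namespace Pool.Agent.Trunc.KH

theorem zmod4_cases (i : ZMod 4) : i = 0 ∨ i = 1 ∨ i = 2 ∨ i = 3 := by
  revert i; decide

/-- `L = 4`, K-letters `0, 2`, chord `{1, 3}`. -/
theorem four (hP : Stmt_Pure) (h2 : Stmt_SkelTwo) (ch : ZMod 4 → ZMod 4) (K Z : ZMod 4 → Prop)
    (h1 : ∀ i, ch (ch i) = i) (c0 : ch 0 = 0) (c1 : ch 1 = 3) (c2 : ch 2 = 2) (c3 : ch 3 = 1)
    (k0 : K 0) (k1 : ¬ K 1) (k2 : K 2) (k3 : ¬ K 3) (τK : ZMod 4 → Bool) :
    CycleGood 4 ch K Z τK := by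
  by_cases hτ : τK 0 = τK 2
  · -- equal types
    obtain ⟨a, ha⟩ : ∃ a, τK 0 = a := ⟨_, rfl⟩
    have ha2 : τK 2 = a := by rw [← hτ, ha]
    refine pure_good hP 4 (by norm_num) ch K Z τK ![a, !a, !a, a] ![a, !a, a, !a] h1 ?_ ?_ ?_ ?_ ?_
    · intro i hi
      rcases zmod4_cases i with rfl | rfl | rfl | rfl
      · rw [ha]; exact ⟨rfl, by unfold IsS; cases a <;> decide⟩
      · exact absurd hi k1
      · rw [ha2]; exact ⟨rfl, by unfold IsS; cases a <;> decide⟩
      · exact absurd hi k3
    · intro i hi hi2
      rcases zmod4_cases i with rfl | rfl | rfl | rfl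
      · exact absurd k0 hi2
      · rw [c1] at hi; exact absurd hi (by decide)
      · exact absurd k2 hi2
      · rw [c3] at hi; exact absurd hi (by decide)
    · intro i hi
      rcases zmod4_cases i with rfl | rfl | rfl | rfl
      · exact absurd c0 hi
      · rw [c1]; unfold IsS; cases a <;> decide
      · exact absurd c2 hi
      · rw [c3]; unfold IsS; cases a <;> decide
    · intro i
      unfold IsN
      rcases zmod4_cases i with rfl | rfl | rfl | rfl <;> cases a <;> decide
    · intro X
      left
      by_cases hX : X = a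
      · subst hX
        refine (h2 4 2 (by norm_num) (by norm_num) 2 X _ _ ?_ ?_).1 (Or.inr ?_)
        · intro j hj1 hj2
          interval_cases j <;> cases X <;> decide
        · intro j hj1 hj2
          interval_cases j <;> cases X <;> decide
        · cases X <;> exact (by norm_num : (2 : ℕ) % 3 ≠ 0)
      · have hX' : X = !a := by cases X <;> cases a <;> simp_all
        subst hX'
        refine (h2 4 2 (by norm_num) (by norm_num) 0 (!a) _ _ ?_ ?_).1 (Or.inl ⟨1, ?_⟩)
        · intro j hj1 hj2
          interval_cases j <;> cases a <;> decide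
        · intro j hj1 hj2
          interval_cases j <;> cases a <;> decide
        · cases a <;> decide
  · obtain ⟨a, ha⟩ : ∃ a, τK 0 = a := ⟨_, rfl⟩
    have ha2 : τK 2 = !a := by
      rw [← ha]; revert hτ; cases τK 0 <;> cases τK 2 <;> simp
    refine pure_good hP 4 (by norm_num) ch K Z τK ![a, a, !a, a] ![a, !a, !a, !a] h1
      ?_ ?_ ?_ ?_ ?_
    · intro i hi
      rcases zmod4_cases i with rfl | rfl | rfl | rfl
      · rw [ha]; exact ⟨rfl, by unfold IsS; cases a <;> decide⟩
      · exact absurd hi k1
      · rw [ha2]; exact ⟨rfl, by unfold IsS; cases a <;> decide⟩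
      · exact absurd hi k3
    · intro i hi hi2
      rcases zmod4_cases i with rfl | rfl | rfl | rfl
      · exact absurd k0 hi2
      · rw [c1] at hi; exact absurd hi (by decide)
      · exact absurd k2 hi2
      · rw [c3] at hi; exact absurd hi (by decide)
    · intro i hi
      rcases zmod4_cases i with rfl | rfl | rfl | rfl
      · exact absurd c0 hi
      · rw [c1]; unfold IsS; cases a <;> decide
      · exact absurd c2 hi
      · rw [c3]; unfold IsS; cases a <;> decide
    · intro i
      unfold IsN
      rcases zmod4_cases i with rfl | rfl | rfl | rfl <;> cases a <;> decide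
    · intro X
      left
      by_cases hX : X = a
      · subst hX
        refine (h2 4 3 (by norm_num) (by norm_num) 2 X _ _ ?_ ?_).1 (Or.inl ⟨2, ?_⟩)
        · intro j hj1 hj2
          interval_cases j <;> cases X <;> decide
        · intro j hj1 hj2
          interval_cases j <;> cases X <;> decide
        · cases X <;> decide
      · have hX' : X = !a := by cases X <;> cases a <;> simp_all
        subst hX'
        refine (h2 4 1 (by norm_num) (by norm_num) 1 (!a) _ _ ?_ ?_).1 (Or.inr ?_)
        · intro j hj1 hj2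
          interval_cases j <;> cases a <;> decide
        · intro j hj1 hj2
          interval_cases j <;> cases a <;> decide
        · cases a <;> exact (by norm_num : (1 : ℕ) % 3 ≠ 0)

/-- `0` is a chordless S-letter. -/
theorem big21 (hT : Stmt_PThree) (L : ℕ) (ch : ZMod L → ZMod L) (K Z : ZMod L → Prop)
    (h : CycleHyp L ch K Z) (h0 : ch 0 = 0) (hk0 : ¬ K 0) (a b c : ZMod L) (hab : a.val < b.val)
    (ha : K a) (hb : K b) (hK : ∀ i, K i → i = a ∨ i = b) (hcc : c.val < (ch c).val)
    (hch : ∀ i, ch i ≠ i → i = c ∨ i = ch c) (τK : ZMod L → Bool) : CycleGood L ch K Z τK := by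
  obtain ⟨hL, h1, -, h4, -⟩ := id h
  have : NeZero L := ⟨by omega⟩
  have pos : ∀ x : ZMod L, x ≠ 0 → 0 < x.val := fun x hx => by
    rcases Nat.eq_zero_or_pos x.val with h | h
    · exact absurd ((ZMod.val_eq_zero x).1 h) hx
    · exact h
  have hc : ch c ≠ c := fun h => by rw [h] at hcc; omega
  have hc2 : ch (ch c) ≠ ch c := by rw [h1]; exact hc.symm
  have ne : ∀ x y : ZMod L, K x → ch y ≠ y → x.val ≠ y.val := fun x y hx hy hxy => by
    have := ZMod.val_injective L hxy
    subst this
    exact hy (h4 x hx)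
  have ha0 := pos a (fun h => hk0 (h ▸ ha))
  have hb0 := pos b (fun h => hk0 (h ▸ hb))
  have hd0 : 0 < (ch c).val := by omega
  have hvne : ∀ x y : ZMod L, x.val ≠ y.val → x ≠ y := fun x y h h2 => h (by rw [h2])
  set d := ch c with hd
  have hdc : ch d = c := h1 c
  have n1 := ne a c ha hc
  have n2 := ne a d ha hc2
  have n3 := ne b c hb hc
  have n4 := ne b d hb hc2
  by_cases had : a.val < d.val
  · -- N = a, M = {b, d}
    rcases lt_or_gt_of_ne n4 with hbd | hbd
    · refine hT L ch K Z h a b d hb0 hbd ha0 (Or.inl hab) ha h0 hk0 ?_ (Or.inl hb) (Or.inr hc2) ?_ τK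
      · intro i hi
        rcases hK i hi with h | h
        · exact Or.inl h
        · exact Or.inr (Or.inl h)
      · intro i hi
        have e1 : b ≠ c := hvne _ _ n3
        have e2 : b ≠ d := hvne _ _ n4
        have e3 : c ≠ d := hvne _ _ (by omega)
        rcases hch i hi with rfl | rfl
        · rw [← hd]; simp [e1.symm, e3]
        · rw [hdc]; simp [e1.symm, e3]
    · refine hT L ch K Z h a d b hd0 hbd ha0 (Or.inl had) ha h0 hk0 ?_ (Or.inr hc2) (Or.inl hb) ?_ τK
      · intro i hi
        rcases hK i hi with h | h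
        · exact Or.inl h
        · exact Or.inr (Or.inr h)
      · intro i hi
        have e1 : b ≠ c := hvne _ _ n3
        have e2 : b ≠ d := hvne _ _ n4
        have e3 : c ≠ d := hvne _ _ (by omega)
        rcases hch i hi with rfl | rfl
        · rw [← hd]; simp [e1.symm, e3]
        · rw [hdc]; simp [e1.symm, e3]
  · have hda : d.val < a.val := by omega
    refine hT L ch K Z h b d a hd0 hda hb0 (Or.inr hab) hb h0 hk0 ?_ (Or.inr hc2) (Or.inl ha) ?_ τK
    · intro i hi
      rcases hK i hi with h | h
      · exact Or.inr (Or.inr h)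
      · exact Or.inl h
    · intro i hi
      have e1 : a ≠ c := hvne _ _ n1
      have e2 : a ≠ d := hvne _ _ n2
      have e3 : c ≠ d := hvne _ _ (by omega)
      rcases hch i hi with rfl | rfl
      · rw [← hd]; simp [e1.symm, e3]
      · rw [hdc]; simp [e1.symm, e3]

end Pool.Agent.Trunc.KH

namespace Pool.Agent.Trunc

open KH

theorem cycleKH21_proof (hP : Stmt_Pure) (h2 : Stmt_SkelTwo) (hT : Stmt_PThree) (hS : Stmt_Sym) :
    Stmt_CycleKH 2 1 := by
  intro L ch K Z h hK2 hch2 τK
  obtain ⟨hL, h1, h3, h4, hZ⟩ := id h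
  have : NeZero L := ⟨by omega⟩
  obtain ⟨a, b, hab, ha, hb, hK⟩ := exists_two hK2
  obtain ⟨c, hc, hch⟩ := one_chord h1 hch2
  have hc2 : ch (ch c) ≠ ch c := by rw [h1]; exact hc.symm
  have ne : ∀ x y : ZMod L, K x → ch y ≠ y → x ≠ y := fun x y hx hy hxy => by
    subst hxy
    exact hy (h4 x hx)
  by_cases hL5 : 5 ≤ L
  · obtain ⟨r, hr⟩ := exists_out [a, b, c, ch c] (by simp only [List.length_cons, List.length_nil]; omega)
    simp only [List.mem_cons, List.not_mem_nil, or_false, not_or] at hr
    obtain ⟨r1, r2, r3, r4⟩ := hr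
    have hrK : ¬ K r := fun h => by
      rcases hK r h with h | h
      · exact r1 h
      · exact r2 h
    have hrc : ch r = r := by
      by_contra hcon
      rcases hch r hcon with h | h
      · exact r3 h
      · exact r4 h
    refine (hS L ch K Z τK).1 r ?_
    have hyp := hyp_rot h r
    have q0 : ch (0 + r) - r = 0 := by rw [zero_add, hrc, sub_self]
    have q1 : ¬ K (0 + r) := by rw [zero_add]; exact hrK
    -- WLOG orders
    have key : ∀ x y z : ZMod L, x ≠ y → K x → K y → (∀ i, K i → i = x ∨ i = y) → ch z ≠ z →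
        (∀ i, ch i ≠ i → i = z ∨ i = ch z) → (x - r).val < (y - r).val →
        (z - r).val < (ch z - r).val →
        CycleGood L (fun i => ch (i + r) - r) (fun i => K (i + r)) (fun i => Z (i + r))
          (fun i => τK (i + r)) := by
      intro x y z hxy hx hy hKxy hz hchz o1 o2
      have e : ch (z - r + r) - r = ch z - r := by rw [sub_add_cancel]
      refine big21 hT L _ _ _ hyp q0 q1 (x - r) (y - r) (z - r) o1 ?_ ?_ ?_ ?_ ?_ _
      · show K (x - r + r); rw [sub_add_cancel]; exact hx
      · show K (y - r + r); rw [sub_add_cancel]; exact hy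
      · intro i hi
        rcases hKxy _ hi with h | h
        · left; rw [← h, add_sub_cancel_right]
        · right; rw [← h, add_sub_cancel_right]
      · show (z - r).val < (ch (z - r + r) - r).val
        rw [e]; exact o2
      · intro i hi
        have hi' : ch (i + r) ≠ i + r := fun h => hi (by
          show ch (i + r) - r = i
          rw [h, add_sub_cancel_right])
        show i = z - r ∨ i = ch (z - r + r) - r
        rw [e]
        rcases hchz _ hi' with h | h
        · left; rw [← h, add_sub_cancel_right]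
        · right; rw [← h, add_sub_cancel_right]
    have hord : ∀ x y : ZMod L, x ≠ y → (x - r).val < (y - r).val ∨ (y - r).val < (x - r).val := by
      intro x y hxy
      apply lt_or_gt_of_ne
      intro h
      exact hxy (sub_left_injective (ZMod.val_injective L h))
    have hchs : ∀ i, ch i ≠ i → i = ch c ∨ i = ch (ch c) := fun i hi => by
      rw [h1]; exact (hch i hi).symm
    rcases hord a b hab with o1 | o1
    · rcases hord c (ch c) hc.symm with o2 | o2
      · exact key a b c hab ha hb hK hc hch o1 o2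
      · exact key a b (ch c) hab ha hb hK hc2 hchs o1 (by rw [h1]; exact o2)
    · rcases hord c (ch c) hc.symm with o2 | o2
      · exact key b a c hab.symm hb ha (fun i hi => (hK i hi).symm) hc hch o1 o2
      · exact key b a (ch c) hab.symm hb ha (fun i hi => (hK i hi).symm) hc2 hchs o1
          (by rw [h1]; exact o2)
  · -- L = 4
    have hL4 : L = 4 := by
      have hfour : ([a, b, c, ch c] : List (ZMod L)).toFinset.card = 4 := by
        rw [List.toFinset_card_of_nodup]
        · rfl
        · simp only [List.nodup_cons, List.mem_cons, List.not_mem_nil, or_false, not_or,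
            List.nodup_nil, not_false_eq_true, and_true]
          exact ⟨⟨hab, ne a c ha hc, ne a _ ha hc2⟩, ⟨ne b c hb hc, ne b _ hb hc2⟩, hc.symm⟩
      have h5 := Finset.card_le_univ ([a, b, c, ch c] : List (ZMod L)).toFinset
      rw [hfour, ZMod.card] at h5
      omega
    subst hL4
    have hcc : ch c = c + 2 := by
      have aux : ∀ x c : ZMod 4, x ≠ c → x ≠ c + 1 → c ≠ x + 1 → x = c + 2 := by decide
      refine aux _ _ hc (h3 c) ?_
      have := h3 (ch c)
      rwa [h1] at this
    have hav : (a = c + 1 ∧ b = c + 3) ∨ (a = c + 3 ∧ b = c + 1) := by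
      have aux : ∀ a b c : ZMod 4, a ≠ b → a ≠ c → a ≠ c + 2 → b ≠ c → b ≠ c + 2 →
        (a = c + 1 ∧ b = c + 3) ∨ (a = c + 3 ∧ b = c + 1) := by decide
      exact aux a b c hab (ne a c ha hc) (hcc ▸ ne a _ ha hc2) (ne b c hb hc)
        (hcc ▸ ne b _ hb hc2)
    have hk1 : K (c + 1) := by
      rcases hav with ⟨h, -⟩ | ⟨-, h⟩
      · rw [← h]; exact ha
      · rw [← h]; exact hb
    have hk3 : K (c + 3) := by
      rcases hav with ⟨-, h⟩ | ⟨h, -⟩
      · rw [← h]; exact hb
      · rw [← h]; exact ha
    refine (hS 4 ch K Z τK).1 (c + 1) ?_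
    have hyp := hyp_rot h (c + 1)
    have e0 : (0 : ZMod 4) + (c + 1) = c + 1 := by ring
    have e1 : (1 : ZMod 4) + (c + 1) = c + 2 := by ring
    have e2 : (2 : ZMod 4) + (c + 1) = c + 3 := by ring
    have e3 : (3 : ZMod 4) + (c + 1) = c :=
      (by decide : ∀ c : ZMod 4, (3 : ZMod 4) + (c + 1) = c) c
    refine four hP h2 _ _ _ hyp.2.1 ?_ ?_ ?_ ?_ ?_ ?_ ?_ ?_ _
    · show ch (0 + (c + 1)) - (c + 1) = 0
      rw [e0, h4 _ hk1, sub_self]
    · show ch (1 + (c + 1)) - (c + 1) = 3
      rw [e1, ← hcc, h1]
      exact (by decide : ∀ c : ZMod 4, c - (c + 1) = 3) c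
    · show ch (2 + (c + 1)) - (c + 1) = 2
      rw [e2, h4 _ hk3]
      ring
    · show ch (3 + (c + 1)) - (c + 1) = 1
      rw [e3, hcc]
      ring
    · show K (0 + (c + 1))
      rw [e0]; exact hk1
    · show ¬ K (1 + (c + 1))
      rw [e1, ← hcc]; exact fun h => hc2 (h4 _ h)
    · show K (2 + (c + 1))
      rw [e2]; exact hk3
    · show ¬ K (3 + (c + 1))
      rw [e3]; exact fun h => hc (h4 _ h)

end Pool.Agent.Trunc
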