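import Pool.Agent.Trunc.Defs

/-!
# The pure scheme for the cycle lemma (helper13)

`cyclePure_good`: direct translation of `Stmt_Pure`.
`cycleGood_build`: the same, with the types computed from the sides `f` and the set `O` of
offering vertices (`tyOf`).
-/

namespace Pool.Agent.Trunc

theorem cyclePure_good (hP : Stmt_Pure) {L : ℕ} (hL : 1 ≤ L) {ch : ZMod L → ZMod L}
    {K Z : ZMod L → Prop} {τK : ZMod L → Bool} (hch : ∀ i, ch (ch i) = i)
    (f ty : ZMod L → Bool) (hKty : ∀ i, K i → ty i = τK i ∧ ¬ IsS f ty i)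
    (hS : ∀ i, ch i = i → ¬ K i → IsS f ty i)
    (hC : ∀ i, ch i ≠ i → ty (ch i) = ty i ∧ (IsS f ty i ↔ ¬ IsS f ty (ch i)))
    (hN : ∀ i, ¬ (IsN f ty i ∧ IsN f ty (i + 1)))
    (hX : ∀ X, ConstSkel X f ty ∨ ∃ w, ch w = w ∧ ActSkel X f ty w) :
    CycleGood L ch K Z τK := by
  obtain ⟨s₀, _, h⟩ := hP L hL f ty ch hch hC hN hX
  refine ⟨ty, fun o ho => ?_⟩
  obtain ⟨s, h1, h2, h3, h4, h5, _, _⟩ :=
    h o (fun i hi hS' => ho i hi (fun hk => (hKty i hk).2 hS'))
  refine ⟨s, h1, fun i hi => ?_, fun i hi hk => ⟨h4 i hi (hS i hi hk), fun _ => h2 i (hS i hi hk)⟩,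
    h5⟩
  rw [← (hKty i hi).1]
  exact h3 i (hKty i hi).2

open Classical in
/-- the types of the vertices in the pure scheme: K-letters have their prescribed type, an
S-letter or S-end of a chord has the type opposite to its side, an O-end of a chord has the type of
the S-end. -/
noncomputable def tyOf {L : ℕ} (ch : ZMod L → ZMod L) (K O : ZMod L → Prop) (τK f : ZMod L → Bool)
    (i : ZMod L) : Bool :=
  if K i then τK i else if O i then !f (ch i) else !f i

theorem tyOf_K {L : ℕ} {ch : ZMod L → ZMod L} {K O : ZMod L → Prop} {τK f : ZMod L → Bool}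
    {i : ZMod L} (h : K i) : tyOf ch K O τK f i = τK i := by
  rw [tyOf, if_pos h]

theorem tyOf_O {L : ℕ} {ch : ZMod L → ZMod L} {K O : ZMod L → Prop} {τK f : ZMod L → Bool}
    {i : ZMod L} (h : ¬ K i) (h' : O i) : tyOf ch K O τK f i = !f (ch i) := by
  rw [tyOf, if_neg h, if_pos h']

theorem tyOf_S {L : ℕ} {ch : ZMod L → ZMod L} {K O : ZMod L → Prop} {τK f : ZMod L → Bool}
    {i : ZMod L} (h : ¬ K i) (h' : ¬ O i) : tyOf ch K O τK f i = !f i := by
  rw [tyOf, if_neg h, if_neg h']

/-- The pure scheme.  `O` = offering vertices: all K-letters and exactly one end of every chord;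
every mixed vertex is in `O`; a nonmixed K-letter has type equal to its side, a nonmixed O-end of a
chord is on the side opposite to the side of the other end; no two nonmixed vertices of `O` are
adjacent. -/
theorem cycleGood_build (hP : Stmt_Pure) {L : ℕ} (hL : 1 ≤ L) {ch : ZMod L → ZMod L}
    {K Z : ZMod L → Prop} {τK : ZMod L → Bool} (hch : ∀ i, ch (ch i) = i)
    (hK : ∀ i, K i → ch i = i)
    (f : ZMod L → Bool) (O : ZMod L → Prop)
    (hmix : ∀ i, f i ≠ f (i + 1) → O i) (hKO : ∀ i, K i → O i)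
    (hSO : ∀ i, ch i = i → ¬ K i → ¬ O i) (hCO : ∀ i, ch i ≠ i → (O i ↔ ¬ O (ch i)))
    (hNK : ∀ i, K i → f i = f (i + 1) → τK i = f i)
    (hNC : ∀ i, ch i ≠ i → O i → f i = f (i + 1) → f (ch i) = !f i)
    (hNN : ∀ i, O i → f i = f (i + 1) → O (i + 1) → f (i + 1) = f (i + 1 + 1) → False)
    (hX : ∀ X, ConstSkel X f (tyOf ch K O τK f) ∨
      ∃ w, ch w = w ∧ ActSkel X f (tyOf ch K O τK f) w) :
    CycleGood L ch K Z τK := by
  have hS' : ∀ i, IsS f (tyOf ch K O τK f) i ↔ ¬ O i := by
    intro i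
    constructor
    · rintro ⟨h1, h2⟩ hO
      by_cases hKi : K i
      · rw [tyOf_K hKi] at h2
        exact h2 (hNK i hKi h1)
      · rw [tyOf_O hKi hO] at h2
        by_cases hci : ch i = i
        · exact hSO i hci hKi hO
        · rw [hNC i hci hO h1] at h2
          simp at h2
    · intro hO
      have hKi : ¬ K i := fun h => hO (hKO i h)
      refine ⟨by by_contra h; exact hO (hmix i h), ?_⟩
      rw [tyOf_S hKi hO]
      simp
  have hNO : ∀ i, IsN f (tyOf ch K O τK f) i → O i := by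
    intro i h
    by_contra hO
    exact ((hS' i).2 hO).2 h.2
  refine cyclePure_good hP hL hch f (tyOf ch K O τK f) ?_ ?_ ?_ ?_ hX
  · intro i hKi
    refine ⟨tyOf_K hKi, ?_⟩
    rw [hS', not_not]
    exact hKO i hKi
  · intro i hi hKi
    rw [hS']
    exact hSO i hi hKi
  · intro i hi
    have hKi : ¬ K i := fun h => hi (hK i h)
    have hKci : ¬ K (ch i) := fun h => hi (by have := hK _ h; rw [hch] at this; exact this.symm)
    refine ⟨?_, ?_⟩
    · by_cases hO : O i
      · have hO' := (hCO i hi).1 hO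
        rw [tyOf_O hKi hO, tyOf_S hKci hO']
      · have hO' : O (ch i) := by
          by_contra h
          exact hO ((hCO i hi).2 h)
        rw [tyOf_S hKi hO, tyOf_O hKci hO', hch]
    · rw [hS', hS', not_iff_not]
      constructor
      · intro hO
        exact (hCO i hi).1 hO
      · intro hO
        exact (hCO i hi).2 hO
  · rintro i ⟨h1, h2⟩
    exact hNN i (hNO i h1) h1.1 (hNO _ h2) h2.1

end Pool.Agent.Trunc
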