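import Pool.Agent.Trunc.GraphDefs

/-!
# Strong chromatic index of truncations of cubic graphs: definitions and module statements

See `/team-store/MP_40dd6f_PROOF.md` for the proof, module by module.
-/

namespace Pool.Agent.Trunc

open Finset

/-! ## Vertex states -/

/-- Six colours, split into two sides. -/
abbrev Col := Bool × ZMod 3

/-- The state of a vertex of a subcubic graph: the colours `c i` of its three darts and, for each
slot `i`, the colour `t i` of the triangle edge opposite to the dart `i`.  All six are different.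
In a cubic graph with a perfect matching and an oriented complementary 2-factor the slots are
`0` = matching dart, `1` = left (backward) cycle dart, `2` = right (forward) cycle dart. -/
@[ext] structure St where
  c : Fin 3 → Col
  t : Fin 3 → Col
  inj_c : Function.Injective c
  inj_t : Function.Injective t
  ne : ∀ i j, c i ≠ t j

/-- The condition on an edge that uses the slot `i` of the state `s` and the slot `j` of `s'`. -/
def EdgeOK (s : St) (i : Fin 3) (s' : St) (j : Fin 3) : Prop :=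
  s.c i = s'.c j ∧ ∀ a b, a ≠ i → b ≠ j → s.t a ≠ s'.t b

/-- Cycle edge from `s` to its successor `s'`. -/
def FEdge (s s' : St) : Prop := EdgeOK s 2 s' 1

/-- Matching edge. -/
def MEdge (s s' : St) : Prop := EdgeOK s 0 s' 0

/-- The state offers type `τ` along its matching dart: `c_m` of side `τ`, both `t_l, t_r` of the
other side. -/
def Offer (τ : Bool) (s : St) : Prop :=
  (s.c 0).1 = τ ∧ (s.t 1).1 = !τ ∧ (s.t 2).1 = !τ

/-- The pure accepting state of type `τ`: `c_m, t_l, t_r` are all of side `τ`. -/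
def Accept (τ : Bool) (s : St) : Prop :=
  (s.c 0).1 = τ ∧ (s.t 1).1 = τ ∧ (s.t 2).1 = τ

/-- Recolouring a state. -/
def St.map (π : Equiv.Perm Col) (s : St) : St where
  c i := π (s.c i)
  t i := π (s.t i)
  inj_c := π.injective.comp s.inj_c
  inj_t := π.injective.comp s.inj_t
  ne i j h := s.ne i j (π.injective h)

/-- A graph (of maximum degree at most 3) is colourable if vertex states can be chosen so that all
edges are fine, for an assignment of slots to the darts. -/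
def Colourable {V : Type*} (G : SimpleGraph V) : Prop :=
  ∃ (sl : V → V → Fin 3) (s : V → St),
    (∀ v w w', G.Adj v w → G.Adj v w' → sl v w = sl v w' → w = w') ∧
    ∀ v w, G.Adj v w → EdgeOK (s v) (sl v w) (s w) (sl w v)

/-! ## Global modules -/

/-- [Main] every finite graph of maximum degree at most 3 is colourable. -/
def Stmt_Main : Prop :=
  ∀ (V : Type) [Fintype V] [DecidableEq V] (G : SimpleGraph V) [DecidableRel G.Adj],
    (∀ v, G.degree v ≤ 3) → Colourable G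

/-- [Core] 2-edge-connected graphs all of whose vertices have degree 3, except possibly one of
degree 2. -/
def Stmt_Core : Prop :=
  ∀ (V : Type) [Fintype V] [DecidableEq V] (G : SimpleGraph V) [DecidableRel G.Adj]
    (U : Finset V), U.card ≤ 1 → (∀ v ∈ U, G.degree v = 2) → (∀ v, v ∉ U → G.degree v = 3) →
    (∀ W : Finset V, W.Nonempty → W ≠ univ →
      2 ≤ (univ.filter (fun p : V × V => p.1 ∈ W ∧ p.2 ∉ W ∧ G.Adj p.1 p.2)).card) →
    Colourable G

/-- [Orient] a 2-regular simple graph, given by its two neighbour functions, can be oriented into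
a permutation. -/
def Stmt_Orient : Prop :=
  ∀ (V : Type) [Fintype V] [DecidableEq V] (nb : V → Bool → V),
    (∀ v, nb v false ≠ nb v true) → (∀ v b, nb v b ≠ v) → (∀ v b, ∃ b', nb (nb v b) b' = v) →
    ∃ σ : Equiv.Perm V, ∀ v,
      (σ v = nb v true ∧ σ.symm v = nb v false) ∨ (σ v = nb v false ∧ σ.symm v = nb v true)

/-- [CoreCM] the core in terms of a cyclic orientation `σ` of the 2-factor and the partner
function `m` of the matching (`m v = v` for the at most one vertex of degree 2). -/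
def Stmt_CoreCM : Prop :=
  ∀ (V : Type) [Fintype V] [DecidableEq V] (σ : Equiv.Perm V) (m : V → V),
    (∀ v, m (m v) = v) → (∀ v, σ v ≠ v) → (∀ v, σ (σ v) ≠ v) → (∀ v, m v ≠ σ v) →
    (∀ v w, m v = v → m w = w → v = w) →
    (∀ W : Finset V, (∀ v ∈ W, σ v ∈ W) → W.Nonempty → W ≠ univ →
      2 ≤ (W.filter (fun v => m v ∉ W)).card) →
    ∃ s : V → St, (∀ v, FEdge (s v) (s (σ v))) ∧ (∀ v, m v ≠ v → MEdge (s v) (s (m v)))

/-! ## The cycle lemma and the root lemma

A cycle of the 2-factor is `ZMod L`, `L ≥ 3`; `ch` is the involution of the chords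
(`ch i = i`: no chord at `i`). -/

/-- Local solvability of a cycle.  `K i`: the vertex `i` has to offer the type `τK i` (prescribed).
The other chordless vertices are S-letters: they choose their type `τS i` and must accept every
offer.  `Z i`: this S-letter must be accepted by a pure state. -/
def CycleGood (L : ℕ) (ch : ZMod L → ZMod L) (K Z : ZMod L → Prop) (τK : ZMod L → Bool) : Prop :=
  ∃ τS : ZMod L → Bool, ∀ o : ZMod L → St,
    (∀ i, ch i = i → ¬ K i → Offer (τS i) (o i)) →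
    ∃ s : ZMod L → St, (∀ i, FEdge (s i) (s (i + 1))) ∧
      (∀ i, K i → Offer (τK i) (s i)) ∧
      (∀ i, ch i = i → ¬ K i → MEdge (s i) (o i) ∧ (Z i → Accept (τS i) (s i))) ∧
      (∀ i, ch i ≠ i → MEdge (s i) (s (ch i)))

/-- [Cycle] the cycle lemma: every cycle with at least one K-letter is good. -/
def Stmt_Cycle : Prop :=
  ∀ (L : ℕ), 3 ≤ L → ∀ (ch : ZMod L → ZMod L) (K Z : ZMod L → Prop),
    (∀ i, ch (ch i) = i) → (∀ i, ch i ≠ i + 1) → (∀ i, K i → ch i = i) → (∃ i, K i) →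
    (∃ a b, ∀ i, Z i → i = a ∨ i = b) →
    ∀ τK : ZMod L → Bool, CycleGood L ch K Z τK

/-- Local solvability of the root cycle.  `U` is a set of chordless vertices that offer states
(of a type prescribed afterwards) which do not depend on the offers received by the remaining
chordless vertices (S-letters, at least one if there is a chordless vertex at all); if `U` has at
most two elements only the colour `c_m` of the offer has to be constant. -/
def RootGood (L : ℕ) (ch : ZMod L → ZMod L) : Prop :=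
  ∃ (U : ZMod L → Prop) (small : Prop) (τS : ZMod L → Bool),
    (∀ i, U i → ch i = i) ∧ ((∃ i, ch i = i) → ∃ i, ch i = i ∧ ¬ U i) ∧
    (small → ∃ a b, ∀ i, U i → i = a ∨ i = b) ∧
    ∀ τU : ZMod L → Bool, ∃ oU : ZMod L → St, (∀ i, U i → Offer (τU i) (oU i)) ∧
      ∀ o : ZMod L → St, (∀ i, ch i = i → ¬ U i → Offer (τS i) (o i)) →
        ∃ s : ZMod L → St, (∀ i, FEdge (s i) (s (i + 1))) ∧
          (∀ i, ch i = i → ¬ U i → MEdge (s i) (o i)) ∧
          (∀ i, ch i ≠ i → MEdge (s i) (s (ch i))) ∧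
          (∀ i, U i → Offer (τU i) (s i) ∧ (s i).c 0 = (oU i).c 0 ∧
            (¬ small → (s i).t 1 = (oU i).t 1 ∧ (s i).t 2 = (oU i).t 2))

/-- [Root] the root lemma.  The last hypothesis: the number of chordless vertices is not 1. -/
def Stmt_Root : Prop :=
  ∀ (L : ℕ), 3 ≤ L → ∀ (ch : ZMod L → ZMod L),
    (∀ i, ch (ch i) = i) → (∀ i, ch i ≠ i + 1) → (¬ ∃! i, ch i = i) → RootGood L ch

/-! ## Tapes -/

/-- The third element of `ZMod 3`. -/
def third (x y : ZMod 3) : ZMod 3 := -(x + y)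

/-- Rotation of a pair. -/
def rot (p : ZMod 3 × ZMod 3) : ZMod 3 × ZMod 3 := (p.2, third p.1 p.2)

/-- One vertex of the tape `X`.  `a`: the left edge has side `X`; `b`: the right edge has side `X`;
`t`: the type of the vertex is `X`; `μ`: the colour index of the matching dart.
The pair attached to an edge of side `X` is (colour, `X`-component of `P` of its left vertex); the
pair attached to an edge of the other side is (`X`-component of `P` of its left vertex,
`X`-component of `P` of its right vertex). -/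
def VStep (a b t : Bool) (μ : ZMod 3) (p q : ZMod 3 × ZMod 3) : Prop :=
  match a, b, t with
  | true, true, false => q = rot p
  | true, true, true => q.1 ≠ p.1 ∧ μ = third p.1 q.1
  | false, false, true => p.2 ≠ μ ∧ q.1 = third p.2 μ
  | false, false, false => q = p
  | true, false, true => q.1 = third p.1 p.2 ∧ μ = p.2
  | true, false, false => q.1 = p.2
  | false, true, true => q.2 = p.2 ∧ μ = third q.1 q.2
  | false, true, false => p.2 = third q.1 q.2

/-- Skeleton step: as `VStep`, but input vertices are passed and outputs are ignored. -/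
def PassStep (a b t : Bool) (p q : ZMod 3 × ZMod 3) : Prop :=
  match a, b, t with
  | true, true, false => q = rot p
  | true, true, true => q.1 ≠ p.1
  | false, false, _ => q = p
  | true, false, true => q.1 = third p.1 p.2
  | true, false, false => q.1 = p.2
  | false, true, true => q.2 = p.2
  | false, true, false => p.2 = third q.1 q.2

section Tape

variable {L : ℕ}

/-- A solution of the tape `X`.  `f i` is the side of the edge between `i - 1` and `i` (the left
edge of the vertex `i`). -/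
def TapeSol (X : Bool) (f ty : ZMod L → Bool) (μ : ZMod L → ZMod 3)
    (p : ZMod L → ZMod 3 × ZMod 3) : Prop :=
  ∀ i, (p i).1 ≠ (p i).2 ∧
    VStep (f i == X) (f (i + 1) == X) (ty i == X) (μ i) (p i) (p (i + 1))

/-- Skeleton in which every input vertex is either passed or already acts (as in `VStep`). -/
def Skel (X : Bool) (f ty : ZMod L → Bool) (μ : ZMod L → ZMod 3)
    (p : ZMod L → ZMod 3 × ZMod 3) : Prop :=
  ∀ i, (p i).1 ≠ (p i).2 ∧
    (VStep (f i == X) (f (i + 1) == X) (ty i == X) (μ i) (p i) (p (i + 1)) ∨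
      (f i ≠ X ∧ f (i + 1) ≠ X ∧ p (i + 1) = p i))

/-- The vertex is an S-vertex of the pure scheme. -/
def IsS (f ty : ZMod L → Bool) (i : ZMod L) : Prop := f i = f (i + 1) ∧ ty i ≠ f i

/-- The vertex is a nonmixed offering vertex. -/
def IsN (f ty : ZMod L → Bool) (i : ZMod L) : Prop := f i = f (i + 1) ∧ ty i = f i

/-- constant skeleton of the tape `X` -/
def ConstSkel (X : Bool) (f ty : ZMod L → Bool) : Prop :=
  (∃ i, f i = X) ∧ ∃ p : ZMod L → ZMod 3 × ZMod 3, ∀ i, (p i).1 ≠ (p i).2 ∧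
    PassStep (f i == X) (f (i + 1) == X) (ty i == X) (p i) (p (i + 1))

/-- skeleton of the tape `X` that uses the input of the S-vertex `w` (whose type is `X`) -/
def ActSkel (X : Bool) (f ty : ZMod L → Bool) (w : ZMod L) : Prop :=
  f w ≠ X ∧ f (w + 1) ≠ X ∧ ty w = X ∧ ∀ b : ZMod 3, ∃ p : ZMod L → ZMod 3 × ZMod 3,
    (∀ i, (p i).1 ≠ (p i).2) ∧ ((p w).2 ≠ b ∧ (p (w + 1)).1 = third (p w).2 b) ∧
    ∀ i, i ≠ w → PassStep (f i == X) (f (i + 1) == X) (ty i == X) (p i) (p (i + 1))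

end Tape

/-- [Fill] from a skeleton to a tape solution. -/
def Stmt_Fill : Prop :=
  ∀ (L : ℕ), 1 ≤ L → ∀ (X : Bool) (f ty : ZMod L → Bool) (μ : ZMod L → ZMod 3)
    (p : ZMod L → ZMod 3 × ZMod 3), Skel X f ty μ p →
    ((∃ i, f i = X) ∨ (∃ i, f i ≠ X ∧ f (i + 1) ≠ X ∧ ty i = X ∧ (p i).2 ≠ μ i ∧
      (p (i + 1)).1 = third (p i).2 (μ i))) →
    ∃ p' : ZMod L → ZMod 3 × ZMod 3, TapeSol X f ty μ p' ∧ ∀ i, f i = X → p' i = p i

/-- [Assemble] two tape solutions give vertex states.  The last clause describes `t_l, t_r` at the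
mixed vertices. -/
def Stmt_Assemble : Prop :=
  ∀ (L : ℕ), 1 ≤ L → ∀ (f ty : ZMod L → Bool) (μ : ZMod L → ZMod 3)
    (p : Bool → ZMod L → ZMod 3 × ZMod 3), (∀ X, TapeSol X f ty μ (p X)) →
    (∀ i, ¬ (IsN f ty i ∧ IsN f ty (i + 1))) →
    ∃ s : ZMod L → St, (∀ i, FEdge (s i) (s (i + 1))) ∧ (∀ i, (s i).c 0 = (ty i, μ i)) ∧
      (∀ i, IsS f ty i → Accept (ty i) (s i)) ∧ (∀ i, ¬ IsS f ty i → Offer (ty i) (s i)) ∧
      (∀ i, f i ≠ f (i + 1) → f i = (!ty i) →
        (s i).t 1 = (!ty i, (p (!ty i) i).2) ∧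
        (s i).t 2 = (!ty i, third (p (!ty i) i).1 (p (!ty i) i).2)) ∧
      (∀ i, f i ≠ f (i + 1) → f (i + 1) = (!ty i) →
        (s i).t 1 = (!ty i, (p (!ty i) (i + 1)).2) ∧
        (s i).t 2 = (!ty i, third (p (!ty i) (i + 1)).1 (p (!ty i) (i + 1)).2))

/-- [Pure] the pure scheme: if each tape has a constant skeleton, or one that acts at a chordless
S-vertex, then the cycle is solvable, with constant offers on the tapes that have a constant
skeleton. -/
def Stmt_Pure : Prop :=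
  ∀ (L : ℕ), 1 ≤ L → ∀ (f ty : ZMod L → Bool) (ch : ZMod L → ZMod L),
    (∀ i, ch (ch i) = i) → (∀ i, ch i ≠ i → ty (ch i) = ty i ∧ (IsS f ty i ↔ ¬ IsS f ty (ch i))) →
    (∀ i, ¬ (IsN f ty i ∧ IsN f ty (i + 1))) →
    (∀ X, ConstSkel X f ty ∨ ∃ w, ch w = w ∧ ActSkel X f ty w) →
    ∃ s₀ : ZMod L → St, (∀ i, ¬ IsS f ty i → Offer (ty i) (s₀ i)) ∧
    ∀ o : ZMod L → St, (∀ i, ch i = i → IsS f ty i → Offer (ty i) (o i)) →
      ∃ s : ZMod L → St, (∀ i, FEdge (s i) (s (i + 1))) ∧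
        (∀ i, IsS f ty i → Accept (ty i) (s i)) ∧ (∀ i, ¬ IsS f ty i → Offer (ty i) (s i)) ∧
        (∀ i, ch i = i → IsS f ty i → MEdge (s i) (o i)) ∧
        (∀ i, ch i ≠ i → MEdge (s i) (s (ch i))) ∧
        (∀ i, ¬ IsS f ty i → ConstSkel (ty i) f ty → (s i).c 0 = (s₀ i).c 0) ∧
        (∀ i, f i ≠ f (i + 1) → ConstSkel (!ty i) f ty →
          (s i).t 1 = (s₀ i).t 1 ∧ (s i).t 2 = (s₀ i).t 2)

/-- [Alt] side assignments with a prescribed even set of mixed vertices. -/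
def Stmt_Alt : Prop :=
  ∀ (L : ℕ), 1 ≤ L → ∀ (M : ZMod L → Prop), Even (Nat.card {i // M i}) →
    ∀ (i₀ : ZMod L) (x₀ : Bool), ∃ f : ZMod L → Bool, f i₀ = x₀ ∧
      ∀ i, (f i ≠ f (i + 1) ↔ M i)

/-- [SkelBig] with at least four mixed vertices both tapes have a constant skeleton. -/
def Stmt_SkelBig : Prop :=
  ∀ (L : ℕ), 1 ≤ L → ∀ (f ty : ZMod L → Bool), 4 ≤ Nat.card {i : ZMod L // f i ≠ f (i + 1)} →
    ∀ X, ConstSkel X f ty

/-- The congruence condition for a run of `n` edges of side `X`; `a`: the entry vertex has type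
`X`; `b`: the exit vertex has type `X`. -/
def ModOK (n : ℕ) (a b : Bool) : Prop :=
  match a, b with
  | true, true => n % 3 ≠ 0
  | false, false => n % 3 ≠ 2
  | _, _ => n % 3 ≠ 1

/-- [SkelTwo] exactly two mixed vertices `v` and `v + n`, the edges between `v` and `v + n` have
side `X`, all others have the other side. -/
def Stmt_SkelTwo : Prop :=
  ∀ (L n : ℕ), 1 ≤ n → n < L → ∀ (v : ZMod L) (X : Bool) (f ty : ZMod L → Bool),
    (∀ j : ℕ, 1 ≤ j → j ≤ n → f (v + (j : ZMod L)) = X) →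
    (∀ j : ℕ, n < j → j ≤ L → f (v + (j : ZMod L)) = !X) →
    (((∃ j : ℕ, 1 ≤ j ∧ j < n ∧ ty (v + (j : ZMod L)) = X) ∨
      ModOK n (ty v == X) (ty (v + (n : ZMod L)) == X)) → ConstSkel X f ty) ∧
    (∀ j : ℕ, n < j → j < L → ty (v + (j : ZMod L)) = X → ActSkel X f ty (v + (j : ZMod L)))

/-- [SkelZero] no mixed vertices: all edges have side `X`. -/
def Stmt_SkelZero : Prop :=
  ∀ (L : ℕ), 1 ≤ L → ∀ (X : Bool) (f ty : ZMod L → Bool), (∀ i, f i = X) →
    ((L % 3 = 0 → (∀ i, ty i ≠ X) → ConstSkel X f ty) ∧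
     (L % 3 ≠ 1 → (∃ i, ty i = X) → ConstSkel X f ty) ∧
     (∀ w, ty w = (!X) → ActSkel (!X) f ty w))

/-- [SRun] a run of `n` accepting vertices of type `τ` between two given states. -/
def Stmt_SRun : Prop :=
  ∀ (τ : Bool) (n : ℕ) (b : ℕ → ZMod 3) (a : ZMod 3 × ZMod 3) (x y : ZMod 3) (sL sR : St),
    a.1 ≠ a.2 → x ≠ y →
    sL.c 2 = (!τ, a.1) →
    ((sL.t 0 = (!τ, a.2) ∧ sL.t 1 = (τ, x)) ∨ (sL.t 1 = (!τ, a.2) ∧ sL.t 0 = (τ, x))) →
    sR.c 1 = (!τ, (rot^[n] a).1) →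
    ((sR.t 0 = (!τ, third (rot^[n] a).1 (rot^[n] a).2) ∧ sR.t 2 = (τ, y)) ∨
      (sR.t 2 = (!τ, third (rot^[n] a).1 (rot^[n] a).2) ∧ sR.t 0 = (τ, y))) →
    ∃ s : ℕ → St, s 0 = sL ∧ s (n + 1) = sR ∧ (∀ i, i ≤ n → FEdge (s i) (s (i + 1))) ∧
      ∀ i, 1 ≤ i → i ≤ n → Accept τ (s i) ∧ (s i).c 0 = (τ, b i)

/-- [TOne] the exceptional case of one K-letter, `L ≡ 1 (mod 3)`. -/
def Stmt_TOne : Prop :=
  ∀ (L : ℕ), 4 ≤ L → L % 3 = 1 → ∀ (Z : ZMod L → Prop), (∃ a b, ∀ i, Z i → i = a ∨ i = b) →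
    ∀ τK : ZMod L → Bool, CycleGood L id (fun i => i = 0) Z τK

/-- [TTwo] the exceptional case of two adjacent K-letters of different types, `L ≡ 2 (mod 3)`. -/
def Stmt_TTwo : Prop :=
  ∀ (L : ℕ), 5 ≤ L → L % 3 = 2 → ∀ (Z : ZMod L → Prop), (∃ a b, ∀ i, Z i → i = a ∨ i = b) →
    ∀ τK : ZMod L → Bool, τK 0 ≠ τK (-1) → CycleGood L id (fun i => i = 0 ∨ i = -1) Z τK

/-- [Sym] rotation and reflection invariance of `CycleGood` and `RootGood`. -/
def Stmt_Sym : Prop :=
  ∀ (L : ℕ) (ch : ZMod L → ZMod L) (K Z : ZMod L → Prop) (τK : ZMod L → Bool),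
    (∀ r : ZMod L, CycleGood L (fun i => ch (i + r) - r) (fun i => K (i + r))
      (fun i => Z (i + r)) (fun i => τK (i + r)) → CycleGood L ch K Z τK) ∧
    (CycleGood L (fun i => - ch (-i)) (fun i => K (-i)) (fun i => Z (-i)) (fun i => τK (-i)) →
      CycleGood L ch K Z τK) ∧
    (∀ r : ZMod L, RootGood L (fun i => ch (i + r) - r) → RootGood L ch) ∧
    (RootGood L (fun i => - ch (-i)) → RootGood L ch)

/-! ## Case modules for the cycle lemma and the root lemma -/

/-- The basic hypotheses of the cycle lemma. -/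
def CycleHyp (L : ℕ) (ch : ZMod L → ZMod L) (K Z : ZMod L → Prop) : Prop :=
  3 ≤ L ∧ (∀ i, ch (ch i) = i) ∧ (∀ i, ch i ≠ i + 1) ∧ (∀ i, K i → ch i = i) ∧
    (∃ a b, ∀ i, Z i → i = a ∨ i = b)

/-- [PThree] one nonmixed K-letter `N`, two mixed vertices `M₁`, `M₂`, and the chordless
S-letter `0`, not separated from `N` by `M₁, M₂`. -/
def Stmt_PThree : Prop :=
  ∀ (L : ℕ) (ch : ZMod L → ZMod L) (K Z : ZMod L → Prop), CycleHyp L ch K Z →
    ∀ N M₁ M₂ : ZMod L, 0 < M₁.val → M₁.val < M₂.val → 0 < N.val →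
    (N.val < M₁.val ∨ M₂.val < N.val) → K N → ch 0 = 0 → ¬ K 0 →
    (∀ i, K i → i = N ∨ i = M₁ ∨ i = M₂) → (K M₁ ∨ ch M₁ ≠ M₁) → (K M₂ ∨ ch M₂ ≠ M₂) →
    (∀ i, ch i ≠ i → ((i = M₁ ∨ i = M₂) ↔ ¬ (ch i = M₁ ∨ ch i = M₂))) →
    ∀ τK : ZMod L → Bool, CycleGood L ch K Z τK

/-- [CycleKH k h] `k` K-letters and `h` chords; needed for
`(k, h) = (1,0), (2,0), (3,0), (1,1), (2,1), (1,2)`. -/
def Stmt_CycleKH (k h : ℕ) : Prop :=
  ∀ (L : ℕ) (ch : ZMod L → ZMod L) (K Z : ZMod L → Prop), CycleHyp L ch K Z →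
    Nat.card {i // K i} = k → Nat.card {i // ch i ≠ i} = 2 * h →
    ∀ τK : ZMod L → Bool, CycleGood L ch K Z τK

/-- [CycleBig] at least one K-letter, `k + h ≥ 4`. -/
def Stmt_CycleBig : Prop :=
  ∀ (L : ℕ) (ch : ZMod L → ZMod L) (K Z : ZMod L → Prop), CycleHyp L ch K Z → (∃ i, K i) →
    8 ≤ 2 * Nat.card {i // K i} + Nat.card {i // ch i ≠ i} →
    ∀ τK : ZMod L → Bool, CycleGood L ch K Z τK

/-- The basic hypotheses of the root lemma, with `h` chords and `s` chordless vertices. -/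
def RootHyp (L : ℕ) (ch : ZMod L → ZMod L) (h s : ℕ) : Prop :=
  3 ≤ L ∧ (∀ i, ch (ch i) = i) ∧ (∀ i, ch i ≠ i + 1) ∧ Nat.card {i // ch i ≠ i} = 2 * h ∧
    Nat.card {i // ch i = i} = s

/-- [RootHS h s] needed for `(h, s) = (0,3), (0,4), (1,2), (1,3), (2,2), (2,0), (3,0)`. -/
def Stmt_RootHS (h s : ℕ) : Prop :=
  ∀ (L : ℕ) (ch : ZMod L → ZMod L), RootHyp L ch h s → RootGood L ch

/-- [RootBig] `u` offering vertices with `h + u ≥ 4` even (and at least one S-letter left). -/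
def Stmt_RootBig : Prop :=
  ∀ (L h s u : ℕ) (ch : ZMod L → ZMod L), RootHyp L ch h s → Even (h + u) → 4 ≤ h + u →
    (u < s ∨ (u = 0 ∧ s = 0)) → RootGood L ch

/-- [RootHam] no chordless vertices, an odd number `h ≥ 5` of chords. -/
def Stmt_RootHam : Prop :=
  ∀ (L h : ℕ) (ch : ZMod L → ZMod L), RootHyp L ch h 0 → Odd h → 5 ≤ h → RootGood L ch

/-! ## Pieces of the global part -/

/-- [TGU] from states to a strong edge colouring of the truncation. -/
def Stmt_TGU.{u} : Prop :=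
  ∀ (V : Type u) [Fintype V] [DecidableEq V] (G : SimpleGraph V) [DecidableRel G.Adj],
    (∀ v, G.degree v = 3) → Colourable G →
    ∃ c : (truncation G).edgeSet → Fin 6, IsStrongEdgeColoring (truncation G) c

/-- [TGL] the lower bound. -/
def Stmt_TGL.{u} : Prop :=
  ∀ (V : Type u) [Fintype V] [DecidableEq V] [Nonempty V] (G : SimpleGraph V)
    [DecidableRel G.Adj], (∀ v, G.degree v = 3) → ∀ (k : ℕ)
    (c : (truncation G).edgeSet → Fin k), IsStrongEdgeColoring (truncation G) c → 6 ≤ k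

/-- [Join] gluing along at most one edge. -/
def Stmt_Join : Prop :=
  ∀ (V : Type) [Fintype V] [DecidableEq V] (G : SimpleGraph V) [DecidableRel G.Adj],
    (∀ v, G.degree v ≤ 3) → ∀ W : Set V,
    (∀ a b a' b' : V, a ∈ W → b ∉ W → G.Adj a b → a' ∈ W → b' ∉ W → G.Adj a' b' →
      a = a' ∧ b = b') →
    Colourable (G.induce W) → Colourable (G.induce Wᶜ) → Colourable G

/-- [Insert] inserting two adjacent vertices of degree at most 2. -/
def Stmt_Insert : Prop :=
  ∀ (V : Type) [Fintype V] [DecidableEq V] (G : SimpleGraph V) [DecidableRel G.Adj],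
    (∀ v, G.degree v ≤ 3) → ∀ u v : V, G.Adj u v → G.degree u ≤ 2 → G.degree v ≤ 2 →
    Colourable (G.induce ({u, v}ᶜ : Set V)) → Colourable G

/-- [Pos] parametrisation of a cycle of `σ`. -/
def Stmt_Pos : Prop :=
  ∀ (V : Type) [Fintype V] [DecidableEq V] (σ : Equiv.Perm V),
    (∀ v, σ v ≠ v) → (∀ v, σ (σ v) ≠ v) → ∀ v₀ : V,
    ∃ (L : ℕ) (pos : ZMod L → V), 3 ≤ L ∧ Function.Injective pos ∧ pos 0 = v₀ ∧
      (∀ i, pos (i + 1) = σ (pos i)) ∧ ∀ w, σ.SameCycle v₀ w ↔ ∃ i, pos i = w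

/-- [CoreQ] the induction over unions of cycles (see PROOF 5b). -/
def Stmt_CoreQ : Prop :=
  ∀ (V : Type) [Fintype V] [DecidableEq V] (σ : Equiv.Perm V) (m : V → V),
    (∀ v, m (m v) = v) → (∀ v, σ v ≠ v) → (∀ v, σ (σ v) ≠ v) → (∀ v, m v ≠ σ v) →
    ∀ W : Finset V, (∀ v ∈ W, σ v ∈ W) → ∀ X Z : V → Prop,
    (∀ v ∈ W, X v → m v ∉ W) → (∃ a b, ∀ v, Z v → v = a ∨ v = b) →
    (∀ W₁ ⊆ W, (∀ v ∈ W₁, σ v ∈ W₁) → W₁.Nonempty →
      ∃ v ∈ W₁, ¬ X v ∧ (m v ∉ W₁ ∨ m v = v)) →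
    ∀ τK : V → Bool, ∃ τX : V → Bool, ∀ o : V → St,
      (∀ v ∈ W, X v → Offer (τX v) (o v)) →
      ∃ s : V → St, (∀ v ∈ W, FEdge (s v) (s (σ v))) ∧
        (∀ v ∈ W, m v ∈ W → m v ≠ v → MEdge (s v) (s (m v))) ∧
        (∀ v ∈ W, ¬ X v → (m v ∉ W ∨ m v = v) → Offer (τK v) (s v)) ∧
        (∀ v ∈ W, X v → MEdge (s v) (o v) ∧ (Z v → Accept (τX v) (s v)))

/-- [CoreR] existence of a non-cut root cycle (see PROOF 5d). -/
def Stmt_CoreR : Prop :=
  ∀ (V : Type) [Fintype V] [DecidableEq V] [Nonempty V] (σ : Equiv.Perm V) (m : V → V),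
    (∀ v, m (m v) = v) →
    (∀ W : Finset V, (∀ v ∈ W, σ v ∈ W) → W.Nonempty → W ≠ univ → ∃ v ∈ W, m v ∉ W) →
    ∃ r : V, ∀ W : Finset V, (∀ v ∈ W, σ v ∈ W) → W.Nonempty →
      (∀ v ∈ W, ¬ σ.SameCycle r v) → (∃ v, v ∉ W ∧ ¬ σ.SameCycle r v) →
      ∃ v ∈ W, m v ∉ W ∧ ¬ σ.SameCycle r (m v)

end Pool.Agent.Trunc
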