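import Pool.Agent.Trunc.Defs

/-!
# [Fill]: from a skeleton to a tape solution
-/

namespace Pool.Agent.Trunc

namespace Fill

theorem bcase (b : Bool) : b = false ∨ b = true := by cases b <;> simp

/-- Linear skeleton step. -/
def LSk (a b t : Bool) (μ : ZMod 3) (p q : ZMod 3 × ZMod 3) : Prop :=
  VStep a b t μ p q ∨ (a = false ∧ b = false ∧ q = p)

theorem choice (x y b : ZMod 3) (h : x ≠ y) : ∃ l, l ≠ x ∧ l ≠ b ∧ third l b ≠ y := by
  revert x y b
  decide

theorem third_ne (y b : ZMod 3) (h : y ≠ b) : third y b ≠ y := by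
  revert y b
  decide

/-- The linear version. -/
theorem linear (n : ℕ) : ∀ (F T : ℕ → Bool) (μ : ℕ → ZMod 3) (p : ℕ → ZMod 3 × ZMod 3)
    (x : ZMod 3), (∀ i, i ≤ n → (p i).1 ≠ (p i).2) →
    (∀ i, i < n → LSk (F i) (F (i + 1)) (T i) (μ i) (p i) (p (i + 1))) →
    (F 0 = false → x ≠ (p 0).2) →
    ∃ q : ℕ → ZMod 3 × ZMod 3, (∀ i, i ≤ n → (q i).1 ≠ (q i).2) ∧
      (∀ i, i < n → VStep (F i) (F (i + 1)) (T i) (μ i) (q i) (q (i + 1))) ∧
      (∀ i, i ≤ n → F i = true → q i = p i) ∧ (F 0 = false → (q 0).1 = x) ∧
      (F n = false → (q n).2 = (p n).2) := by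
  induction n with
  | zero =>
    intro F T μ p x hp _ hx
    by_cases hF : F 0 = true
    · exact ⟨p, fun i hi => hp i hi, fun i hi => absurd hi (by omega), fun i _ _ => rfl,
        fun h => absurd h (by simp [hF]), fun _ => rfl⟩
    · have hF' : F 0 = false := by simpa using hF
      refine ⟨fun _ => (x, (p 0).2), fun i _ => hx hF', fun i hi => absurd hi (by omega), ?_,
        fun _ => rfl, fun _ => rfl⟩
      intro i hi hFi
      have : i = 0 := by omega
      subst this
      exact absurd hFi hF
  | succ n ih =>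
    intro F T μ p x hp hsk hx
    -- the induction hypothesis for the shifted data
    have key : ∀ x' : ZMod 3, (F 1 = false → x' ≠ (p 1).2) →
        ∀ q0 : (ℕ → ZMod 3 × ZMod 3) → ZMod 3 × ZMod 3,
        (∀ q : ℕ → ZMod 3 × ZMod 3, (q 0).1 ≠ (q 0).2 → (F 1 = true → q 0 = p 1) →
          (F 1 = false → (q 0).1 = x') →
          (q0 q).1 ≠ (q0 q).2 ∧ VStep (F 0) (F 1) (T 0) (μ 0) (q0 q) (q 0) ∧
            (F 0 = true → q0 q = p 0) ∧ (F 0 = false → (q0 q).1 = x)) →
        ∃ q : ℕ → ZMod 3 × ZMod 3, (∀ i, i ≤ n + 1 → (q i).1 ≠ (q i).2) ∧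
          (∀ i, i < n + 1 → VStep (F i) (F (i + 1)) (T i) (μ i) (q i) (q (i + 1))) ∧
          (∀ i, i ≤ n + 1 → F i = true → q i = p i) ∧ (F 0 = false → (q 0).1 = x) ∧
          (F (n + 1) = false → (q (n + 1)).2 = (p (n + 1)).2) := by
      intro x' hx' q0 hq0
      obtain ⟨q, h1, h2, h3, h4, h5⟩ := ih (fun i => F (i + 1)) (fun i => T (i + 1))
        (fun i => μ (i + 1)) (fun i => p (i + 1)) x' (fun i hi => hp (i + 1) (by omega))
        (fun i hi => hsk (i + 1) (by omega)) hx'
      obtain ⟨g1, g2, g3, g4⟩ := hq0 q (h1 0 (by omega)) (h3 0 (by omega)) h4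
      refine ⟨fun i => match i with | 0 => q0 q | (j + 1) => q j, ?_, ?_, ?_, ?_, ?_⟩
      · intro i hi
        cases i with
        | zero => exact g1
        | succ j => exact h1 j (by omega)
      · intro i hi
        cases i with
        | zero => exact g2
        | succ j => exact h2 j (by omega)
      · intro i hi hF
        cases i with
        | zero => exact g3 hF
        | succ j => exact h3 j (by omega) hF
      · exact g4
      · exact h5
    have hs := hsk 0 (by omega)
    have hp0 := hp 0 (by omega)
    have hp1 := hp 1 (by omega)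
    simp only [Nat.zero_add] at hs
    rcases bcase (F 0) with hF0 | hF0
    · -- `F 0 = false`
      have hx0 := hx hF0
      rcases bcase (F 1) with hF1 | hF1
      · -- both edges are of the other side
        rw [hF0, hF1] at hs
        by_cases hT : T 0 = true
        · rw [hT] at hs
          rcases hs with hs | ⟨-, -, hs⟩
          · -- acting
            simp only [VStep] at hs
            refine key (p 1).1 (fun _ => hp1) (fun _ => (x, (p 0).2)) ?_
            intro q hq _ hq1
            refine ⟨hx0, ?_, fun h => by simp [hF0] at h, fun _ => rfl⟩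
            rw [hF0, hF1, hT]
            simp only [VStep]
            exact ⟨hs.1, by rw [hq1 hF1, hs.2]⟩
          · -- passing
            obtain ⟨l, hl1, hl2, hl3⟩ := choice x (p 0).2 (μ 0) hx0
            refine key (third l (μ 0)) (fun _ => by rw [hs]; exact hl3) (fun _ => (x, l)) ?_
            intro q hq _ hq1
            refine ⟨hl1.symm, ?_, fun h => by simp [hF0] at h, fun _ => rfl⟩
            rw [hF0, hF1, hT]
            simp only [VStep]
            exact ⟨hl2, hq1 hF1⟩
        · have hT' : T 0 = false := by simpa using hT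
          rw [hT'] at hs
          have hs' : p 1 = p 0 := by
            rcases hs with hs | ⟨-, -, hs⟩
            · simpa only [VStep] using hs
            · exact hs
          refine key x (fun _ => by rw [hs']; exact hx0) (fun q => q 0) ?_
          intro q hq _ hq1
          refine ⟨hq, ?_, fun h => by simp [hF0] at h, fun _ => hq1 hF1⟩
          rw [hF0, hF1, hT']
          simp only [VStep]
      · -- entry
        rw [hF0, hF1] at hs
        refine key (p 1).1 (fun _ => hp1) (fun _ => (x, (p 0).2)) ?_
        intro q hq hq1 _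
        refine ⟨hx0, ?_, fun h => by simp [hF0] at h, fun _ => rfl⟩
        rw [hq1 hF1, hF0, hF1]
        rcases hs with hs | ⟨-, hs, -⟩
        · rcases bcase (T 0) with hT | hT
          · rw [hT] at hs ⊢
            simpa only [VStep] using hs
          · rw [hT] at hs ⊢
            simpa only [VStep] using hs
        · simp at hs
    · -- `F 0 = true`
      refine key (p 1).1 (fun _ => hp1) (fun _ => p 0) ?_
      intro q hq hq1 hq2
      refine ⟨hp0, ?_, fun _ => rfl, fun h => by simp [hF0] at h⟩
      rcases hs with hs | ⟨hs, -, -⟩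
      · rcases bcase (F 1) with hF1 | hF1
        · rw [hF0, hF1] at hs ⊢
          rcases bcase (T 0) with hT | hT
          · rw [hT] at hs ⊢
            simp only [VStep] at hs ⊢
            rw [hq2 hF1, hs]
          · rw [hT] at hs ⊢
            simp only [VStep] at hs ⊢
            rw [hq2 hF1]
            exact hs
        · rw [hF0, hF1] at hs ⊢
          rw [hq1 hF1]
          exact hs
      · rw [hF0] at hs
        simp at hs

end Fill

open Fill in
theorem fill_proof : Stmt_Fill := by
  intro L hL X f ty μ p hsk hcase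
  have : NeZero L := ⟨by omega⟩
  -- closing up
  have close : ∀ (i0 : ZMod L) (q : ℕ → ZMod 3 × ZMod 3),
      (∀ k, k < L → (q k).1 ≠ (q k).2) →
      (∀ k, k + 1 < L → VStep (f (i0 + (k : ℕ)) == X) (f (i0 + ((k + 1 : ℕ) : ZMod L)) == X)
        (ty (i0 + (k : ℕ)) == X) (μ (i0 + (k : ℕ))) (q k) (q (k + 1))) →
      VStep (f (i0 - 1) == X) (f i0 == X) (ty (i0 - 1) == X) (μ (i0 - 1)) (q (L - 1)) (q 0) →
      (∀ k, k < L → f (i0 + (k : ℕ)) = X → q k = p (i0 + (k : ℕ))) →
      ∃ p' : ZMod L → ZMod 3 × ZMod 3, TapeSol X f ty μ p' ∧ ∀ i, f i = X → p' i = p i := by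
    intro i0 q h1 h2 h3 h4
    have hcast : ∀ i : ZMod L, i0 + (((i - i0).val : ℕ) : ZMod L) = i := by
      intro i
      rw [ZMod.natCast_zmod_val]
      ring
    refine ⟨fun i => q (i - i0).val, ?_, ?_⟩
    · intro i
      refine ⟨h1 _ (ZMod.val_lt _), ?_⟩
      by_cases hk : (i - i0).val + 1 < L
      · have hval : (i + 1 - i0).val = (i - i0).val + 1 := by
          have : i + 1 - i0 = (((i - i0).val + 1 : ℕ) : ZMod L) := by
            push_cast
            rw [ZMod.natCast_zmod_val]
            ring
          rw [this, ZMod.val_natCast, Nat.mod_eq_of_lt hk]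
        have := h2 _ hk
        rw [hcast i] at this
        have hc2 : i0 + (((i - i0).val + 1 : ℕ) : ZMod L) = i + 1 := by
          push_cast
          rw [ZMod.natCast_zmod_val]
          ring
        rw [hc2] at this
        simp only [hval]
        exact this
      · have hlt := ZMod.val_lt (i - i0)
        have hval1 : (i - i0).val = L - 1 := by omega
        have hL1 : ((L - 1 : ℕ) : ZMod L) = -1 := by
          rw [Nat.cast_sub hL]
          simp
        have hi : i = i0 - 1 := by
          have := hcast i
          rw [hval1, hL1] at this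
          rw [← this]
          ring
        have hval2 : (i + 1 - i0).val = 0 := by
          rw [hi]
          simp
        simp only [hval1, hval2]
        rw [hi]
        simpa using h3
    · intro i hi
      have := h4 (i - i0).val (ZMod.val_lt _)
      rw [hcast i] at this
      exact this hi
  have hlsk : ∀ (i0 : ZMod L) (k : ℕ),
      LSk (f (i0 + (k : ℕ)) == X) (f (i0 + ((k + 1 : ℕ) : ZMod L)) == X)
        (ty (i0 + (k : ℕ)) == X) (μ (i0 + (k : ℕ))) (p (i0 + (k : ℕ)))
        (p (i0 + ((k + 1 : ℕ) : ZMod L))) := by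
    intro i0 k
    have h := (hsk (i0 + (k : ℕ))).2
    have hc : i0 + ((k + 1 : ℕ) : ZMod L) = i0 + (k : ℕ) + 1 := by
      push_cast
      ring
    rw [hc]
    rcases h with h | ⟨h1, h2, h3⟩
    · exact Or.inl h
    · refine Or.inr ⟨?_, ?_, h3⟩
      · simpa using h1
      · simpa using h2
  rcases hcase with ⟨i0, hi0⟩ | ⟨w, hw1, hw2, hw3, hw4, hw5⟩
  · -- start at an edge of side `X`
    obtain ⟨q, h1, h2, h3, h4, h5⟩ := linear L (fun k => f (i0 + (k : ℕ)) == X)
      (fun k => ty (i0 + (k : ℕ)) == X) (fun k => μ (i0 + (k : ℕ))) (fun k => p (i0 + (k : ℕ))) 0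
      (fun k _ => (hsk _).1) (fun k _ => hlsk i0 k) (fun h => by simp [hi0] at h)
    have hq0 : q 0 = p i0 := by
      have := h3 0 (by omega) (by simp [hi0])
      simpa using this
    have hqL : q L = p i0 := by
      have := h3 L le_rfl (by simp [hi0])
      simpa using this
    refine close i0 q (fun k hk => h1 k (by omega)) (fun k hk => h2 k (by omega)) ?_
      (fun k hk hf => h3 k (by omega) (by simp [hf]))
    have h := h2 (L - 1) (by omega)
    have hL1 : ((L - 1 : ℕ) : ZMod L) = -1 := by
      rw [Nat.cast_sub hL]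
      simp
    have hL2 : L - 1 + 1 = L := by omega
    rw [hL2] at h
    simp only [hL1, CharP.cast_eq_zero, add_zero] at h
    rw [hqL, ← hq0] at h
    simpa [sub_eq_add_neg] using h
  · -- start behind the acting vertex
    have hL1 : ((L - 1 : ℕ) : ZMod L) = -1 := by
      rw [Nat.cast_sub hL]
      simp
    obtain ⟨q, h1, h2, h3, h4, h5⟩ := linear (L - 1) (fun k => f (w + 1 + (k : ℕ)) == X)
      (fun k => ty (w + 1 + (k : ℕ)) == X) (fun k => μ (w + 1 + (k : ℕ)))
      (fun k => p (w + 1 + (k : ℕ))) (p (w + 1)).1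
      (fun k _ => (hsk _).1) (fun k _ => hlsk (w + 1) k) (fun _ => by simpa using (hsk (w + 1)).1)
    refine close (w + 1) q (fun k hk => h1 k (by omega)) (fun k hk => h2 k (by omega)) ?_
      (fun k hk hf => h3 k (by omega) (by simp [hf]))
    have hq0 : (q 0).1 = (p (w + 1)).1 := h4 (by simpa using hw2)
    have hqL : (q (L - 1)).2 = (p w).2 := by
      have hE : w + 1 + ((L - 1 : ℕ) : ZMod L) = w := by rw [hL1]; ring
      have := h5 (by rw [hE]; simpa using hw1)
      rw [hE] at this
      exact this
    have e1 : (f (w + 1 - 1) == X) = false := by simpa using hw1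
    have e2 : (f (w + 1) == X) = false := by simpa using hw2
    have e3 : (ty (w + 1 - 1) == X) = true := by simpa using hw3
    rw [e1, e2, e3]
    simp only [VStep, add_sub_cancel_right]
    rw [hqL, hq0]
    exact ⟨hw4, hw5⟩

end Pool.Agent.Trunc
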