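import Pool.Agent.Trunc.Defs

/-! Module TGL: the lower bound `6 ≤ χ'_s(T(G))`. -/

set_option autoImplicit false

namespace Pool.Agent.Trunc

open Finset

theorem TGL_proof : Stmt_TGL := by
  intro V _ _ _ G _ hdeg k c hc
  obtain ⟨v⟩ : Nonempty V := inferInstance
  have h3 : (G.neighborFinset v).card = 3 := by
    rw [SimpleGraph.card_neighborFinset_eq_degree]; exact hdeg v
  have e : Fin 3 ≃ G.neighborFinset v := (Finset.equivFinOfCardEq h3).symm
  have hadj : ∀ i, G.Adj v (e i : V) := fun i => by
    have := (e i).2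
    rwa [SimpleGraph.mem_neighborFinset] at this
  let d : Fin 3 → G.Dart := fun i => ⟨(v, (e i : V)), hadj i⟩
  have hd1 : ∀ i, (d i).fst = v := fun i => rfl
  have hd2 : ∀ i, (d i).snd = (e i : V) := fun i => rfl
  have hdinj : Function.Injective d := by
    intro i j hij
    have : (e i : V) = (e j : V) := by rw [← hd2, ← hd2, hij]
    exact e.injective (Subtype.ext this)
  have hdv : ∀ i, (d i).snd ≠ v := fun i h => (G.ne_of_adj (hadj i)) (by rw [← hd2, h])
  have hT : ∀ i j, i ≠ j → (truncation G).Adj (d i) (d j) := fun i j h =>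
    ⟨fun h' => h (hdinj h'), Or.inl rfl⟩
  have hP : ∀ i, (truncation G).Adj (d i) (d i).symm := fun i =>
    ⟨fun h => hdv i (by
      have h2 : (d i).fst = (d i).symm.fst := congrArg (fun x : G.Dart => x.fst) h
      exact h2.symm), Or.inr (by simp)⟩
  let E : Fin 3 ⊕ Fin 3 → (truncation G).edgeSet := Sum.elim
    (fun i => ⟨s(d i, (d i).symm), by rw [SimpleGraph.mem_edgeSet]; exact hP i⟩)
    (fun i => ⟨s(d (i + 1), d (i + 2)), by
      rw [SimpleGraph.mem_edgeSet]; exact hT _ _ (by revert i; decide)⟩)
  have hE1 : ∀ i, (E (Sum.inl i) : Sym2 G.Dart) = s(d i, (d i).symm) := fun i => rfl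
  have hE2 : ∀ i, (E (Sum.inr i) : Sym2 G.Dart) = s(d (i + 1), d (i + 2)) := fun i => rfl
  have hmem : ∀ a, ∃ i, d i ∈ (E a : Sym2 G.Dart) := by
    rintro (i | i)
    · exact ⟨i, by rw [hE1]; simp⟩
    · exact ⟨i + 1, by rw [hE2]; simp⟩
  have hsne : ∀ i j, (d i).symm ≠ d j := fun i j h => hdv i (by
    have h2 : (d i).symm.fst = (d j).fst := congrArg (fun x : G.Dart => x.fst) h
    exact h2)
  have hEinj : Function.Injective E := by
    rintro (i | i) (j | j) hij
    · have h := congrArg (Subtype.val) hij
      rw [hE1, hE1, Sym2.eq_iff] at h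
      rcases h with ⟨h, _⟩ | ⟨h, h'⟩
      · rw [hdinj h]
      · exact absurd h' (hsne _ _)
    · have h := congrArg (Subtype.val) hij
      rw [hE1, hE2, Sym2.eq_iff] at h
      rcases h with ⟨h, h'⟩ | ⟨h, h'⟩
      · exact absurd h' (hsne _ _)
      · exact absurd h' (hsne _ _)
    · have h := congrArg (Subtype.val) hij
      rw [hE1, hE2, Sym2.eq_iff] at h
      rcases h with ⟨h, h'⟩ | ⟨h, h'⟩
      · exact absurd h'.symm (hsne _ _)
      · exact absurd h.symm (hsne _ _)
    · have h := congrArg (Subtype.val) hij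
      rw [hE2, hE2, Sym2.eq_iff] at h
      have : i = j := by
        rcases h with ⟨h, h'⟩ | ⟨h, h'⟩
        · have := hdinj h
          exact add_right_cancel this
        · have h1 := hdinj h
          have h2 := hdinj h'
          exfalso
          revert h1 h2
          clear h h' hij
          revert i j
          decide
      rw [this]
  have hcE : Function.Injective (fun a => c (E a)) := by
    intro a b hab
    by_contra hne
    obtain ⟨i, hi⟩ := hmem a
    obtain ⟨j, hj⟩ := hmem b
    refine hc (E a) (E b) (fun h => hne (hEinj h)) ⟨d i, hi, d j, hj, ?_⟩ hab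
    by_cases hij : i = j
    · exact Or.inl (by rw [hij])
    · exact Or.inr (hT i j hij)
  have := Fintype.card_le_of_injective _ hcE
  simpa using this

end Pool.Agent.Trunc
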