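import Pool.Agent.Trunc.Defs

/-! Module TGU: from vertex states to a strong edge colouring of the truncation. -/

set_option autoImplicit false

namespace Pool.Agent.Trunc

open Finset

/-- the third slot -/
private def th3 (a b : Fin 3) : Fin 3 := -(a + b)

private theorem th3_comm : ∀ a b : Fin 3, th3 a b = th3 b a := by unfold th3; decide
private theorem th3_ne_left : ∀ a b : Fin 3, a ≠ b → th3 a b ≠ a := by unfold th3; decide
private theorem th3_ne_right : ∀ a b : Fin 3, a ≠ b → th3 a b ≠ b := by unfold th3; decide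
private theorem th3_inj : ∀ a b c d : Fin 3, a ≠ b → c ≠ d → th3 a b = th3 c d →
    (a = c ∧ b = d) ∨ (a = d ∧ b = c) := by unfold th3; decide

theorem TGU_proof : Stmt_TGU := by
  classical
  intro V _ _ G _ _ ⟨sl, s, hsl, hok⟩
  let sd : G.Dart → Fin 3 := fun d => sl d.fst d.snd
  have hsd : ∀ d e : G.Dart, d.fst = e.fst → sd d = sd e → d = e := by
    rintro ⟨⟨a, b⟩, hab⟩ ⟨⟨a', b'⟩, hab'⟩ h1 h2
    obtain rfl : a = a' := h1
    obtain rfl : b = b' := hsl a b b' hab hab' h2
    rfl
  let g : G.Dart → G.Dart → Col := fun d e =>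
    if d.fst = e.fst then (s d.fst).t (th3 (sd d) (sd e)) else (s d.fst).c (sd d)
  have hEO : ∀ d : G.Dart, EdgeOK (s d.fst) (sd d) (s d.symm.fst) (sd d.symm) := fun d =>
    hok d.fst d.snd d.adj
  have hfs : ∀ d : G.Dart, d.fst ≠ d.symm.fst := fun d => G.ne_of_adj d.adj
  have hgT : ∀ d e : G.Dart, d.fst = e.fst → g d e = (s d.fst).t (th3 (sd d) (sd e)) :=
    fun d e h => if_pos h
  have hgP : ∀ d : G.Dart, g d d.symm = (s d.fst).c (sd d) := fun d => if_neg (hfs d)
  have hgsymm : ∀ d e : G.Dart, (truncation G).Adj d e → g d e = g e d := by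
    rintro d e ⟨hne, h | h⟩
    · rw [hgT d e h, hgT e d h.symm, th3_comm, h]
    · subst h
      have h1 := hgP d.symm
      rw [SimpleGraph.Dart.symm_symm] at h1
      rw [hgP, h1]
      exact (hEO d).1
  -- the main estimate
  have main : ∀ d d' e e' : G.Dart, (truncation G).Adj d d' → (truncation G).Adj e e' →
      (d = e ∨ (truncation G).Adj d e) → s(d, d') ≠ s(e, e') → g d d' ≠ g e e' := by
    intro d d' e e' hd he hde hne
    have same : ∀ d d' d'' : G.Dart, (truncation G).Adj d d' → (truncation G).Adj d d'' →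
        d' ≠ d'' → g d d' ≠ g d d'' := by
      rintro d d' d'' ⟨hn1, h1 | h1⟩ ⟨hn2, h2 | h2⟩ hn
      · rw [hgT _ _ h1, hgT _ _ h2]
        intro heq
        have h3 := (s d.fst).inj_t heq
        have n1 : sd d ≠ sd d' := fun h => hn1 (hsd _ _ h1 h)
        have n2 : sd d ≠ sd d'' := fun h => hn2 (hsd _ _ h2 h)
        rcases th3_inj _ _ _ _ n1 n2 h3 with ⟨_, h4⟩ | ⟨h4, _⟩
        · exact hn (hsd _ _ (h1.symm.trans h2) h4)
        · exact n2 h4
      · have h2' : d'' = d.symm := h2
        subst h2'
        rw [hgT _ _ h1, hgP]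
        exact fun h => (s d.fst).ne _ _ h.symm
      · have h1' : d' = d.symm := h1
        subst h1'
        rw [hgT _ _ h2, hgP]
        exact fun h => (s d.fst).ne _ _ h
      · exfalso
        apply hn
        have h1' : d' = d.symm := h1
        have h2' : d'' = d.symm := h2
        rw [h1', h2']
    rcases hde with hde | ⟨hne', hde | hde⟩
    · subst hde
      exact same d d' e' hd he (fun h => hne (by rw [h]))
    · -- both at the same vertex
      obtain ⟨hn1, h1⟩ := hd
      obtain ⟨hn2, h2⟩ := he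
      have nde : sd d ≠ sd e := fun h => hne' (hsd _ _ hde h)
      rcases h1 with h1 | h1 <;> rcases h2 with h2 | h2
      · rw [hgT _ _ h1, hgT _ _ h2, ← hde]
        intro heq
        have h3 := (s d.fst).inj_t heq
        have n1 : sd d ≠ sd d' := fun h => hn1 (hsd _ _ h1 h)
        have n2 : sd e ≠ sd e' := fun h => hn2 (hsd _ _ h2 h)
        rcases th3_inj _ _ _ _ n1 n2 h3 with ⟨h4, h5⟩ | ⟨h4, h5⟩
        · exact nde h4
        · apply hne
          have a1 : d = e' := hsd _ _ (hde.trans h2) h4
          have a2 : d' = e := hsd _ _ (h1.symm.trans hde) h5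
          rw [a1, a2, Sym2.eq_swap]
      · have h2' : e' = e.symm := h2
        subst h2'
        rw [hgT _ _ h1, hgP, ← hde]
        exact fun h => (s d.fst).ne _ _ h.symm
      · have h1' : d' = d.symm := h1
        subst h1'
        rw [hgT _ _ h2, hgP, ← hde]
        exact fun h => (s d.fst).ne _ _ h
      · have h1' : d' = d.symm := h1
        have h2' : e' = e.symm := h2
        subst h1' h2'
        rw [hgP, hgP, ← hde]
        exact fun h => nde ((s d.fst).inj_c h)
    · -- e = d.symm
      subst hde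
      obtain ⟨hn1, h1⟩ := hd
      obtain ⟨hn2, h2⟩ := he
      have hE := hEO d
      rcases h1 with h1 | h1 <;> rcases h2 with h2 | h2
      · rw [hgT _ _ h1, hgT _ _ h2]
        exact hE.2 _ _ (th3_ne_left _ _ (fun h => hn1 (hsd _ _ h1 h)))
          (th3_ne_left _ _ (fun h => hn2 (hsd _ _ h2 h)))
      · have h2' : e' = d := by rw [h2, SimpleGraph.Dart.symm_symm]
        subst h2'
        have h3 := hgP e'.symm
        rw [SimpleGraph.Dart.symm_symm] at h3
        rw [hgT _ _ h1, h3, ← hE.1]
        exact fun h => (s e'.fst).ne _ _ h.symm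
      · subst h1
        rw [hgT _ _ h2, hgP, hE.1]
        exact fun h => (s d.symm.fst).ne _ _ h
      · exfalso
        apply hne
        have h2' : e' = d := by rw [h2, SimpleGraph.Dart.symm_symm]
        rw [h1, h2', Sym2.eq_swap]
  -- the colouring
  let eqv : Col ≃ Fin 6 := Fintype.equivFinOfCardEq (by simp [Col, ZMod.card])
  refine ⟨fun E => eqv (g (Quot.out (E : Sym2 G.Dart)).1 (Quot.out (E : Sym2 G.Dart)).2), ?_⟩
  have hval : ∀ (E : (truncation G).edgeSet) (x y : G.Dart), (E : Sym2 G.Dart) = s(x, y) →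
      g (Quot.out (E : Sym2 G.Dart)).1 (Quot.out (E : Sym2 G.Dart)).2 = g x y := by
    intro E x y hE
    have hadj : (truncation G).Adj x y := by
      have := E.2; rw [hE, SimpleGraph.mem_edgeSet] at this; exact this
    have hq : s((Quot.out (E : Sym2 G.Dart)).1, (Quot.out (E : Sym2 G.Dart)).2) = s(x, y) := by
      rw [← hE]; exact Quot.out_eq _
    rcases Sym2.eq_iff.1 hq with ⟨h1, h2⟩ | ⟨h1, h2⟩
    · rw [h1, h2]
    · rw [h1, h2]; exact (hgsymm x y hadj).symm
  intro E F hEF ⟨x, hx, y, hy, hxy⟩ heq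
  have heq' := eqv.injective heq
  obtain ⟨x', hx'⟩ := hx
  obtain ⟨y', hy'⟩ := hy
  rw [hval E x x' hx', hval F y y' hy'] at heq'
  have a1 : (truncation G).Adj x x' := by
    have := E.2; rw [hx', SimpleGraph.mem_edgeSet] at this; exact this
  have a2 : (truncation G).Adj y y' := by
    have := F.2; rw [hy', SimpleGraph.mem_edgeSet] at this; exact this
  exact main x x' y y' a1 a2 hxy (fun h => hEF (Subtype.ext (by rw [hx', hy', h]))) heq'

end Pool.Agent.Trunc
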