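import Pool.Agent.Trunc.Defs
import Pool.Agent.Trunc.TGU
import Pool.Agent.Trunc.TGL

/-!
# The theorem for graphs in any universe, from `Stmt_Main`
-/

namespace Pool.Agent.Trunc

universe u

theorem colourable_of_equiv {V : Type u} {W : Type*} (e : V ≃ W) (G : SimpleGraph V)
    (h : Colourable (G.comap e.symm)) : Colourable G := by
  obtain ⟨sl, s, h1, h2⟩ := h
  refine ⟨fun v w => sl (e v) (e w), fun v => s (e v), fun v w w' hw hw' he => ?_,
    fun v w hvw => ?_⟩
  · exact e.injective (h1 (e v) (e w) (e w') (by simpa using hw) (by simpa using hw') he)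
  · exact h2 (e v) (e w) (by simpa using hvw)

theorem colourable_of_main (hM : Stmt_Main) {V : Type u} [Fintype V] [DecidableEq V]
    (G : SimpleGraph V) [DecidableRel G.Adj] (hG : ∀ v, G.degree v ≤ 3) : Colourable G := by
  classical
  let e := Fintype.equivFin V
  refine colourable_of_equiv e G (hM (Fin (Fintype.card V)) (G.comap e.symm) (fun v => ?_))
  have h := hG (e.symm v)
  rw [← SimpleGraph.card_neighborFinset_eq_degree] at h ⊢
  refine le_trans (Finset.card_le_card_of_injOn e.symm ?_ ?_) h
  · intro w hw
    simpa using hw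
  · intro w _ w' _ hww
    exact e.symm.injective hww

theorem strong_index_of_main (hM : Stmt_Main) {V : Type u} [Fintype V] [Nonempty V]
    (G : SimpleGraph V) [DecidableRel G.Adj] (hG : ∀ v, G.degree v = 3) :
    strongChromaticIndex (truncation G) = 6 := by
  classical
  have hcol : Colourable G := colourable_of_main hM G (fun v => (hG v).le)
  apply le_antisymm
  · exact Nat.sInf_le (TGU_proof V G hG hcol)
  · refine le_csInf ⟨6, TGU_proof V G hG hcol⟩ ?_
    rintro k ⟨c, hc⟩
    exact TGL_proof V G hG k c hc

end Pool.Agent.Trunc
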