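import Pool.Agent.Trunc.Join

/-!
Module Insert: inserting two adjacent vertices of degree at most 2.
-/

namespace Pool.Agent.Trunc.InsertAux

open Finset Pool.Agent.Trunc

/-- codes of the first inserted state -/
def codeF : List ℕ :=
    [44790, 44790, 44790, 44790, 44790, 44790, 44790, 44790, 44785, 44785, 44785, 38305, 44790,
    44785, 44790, 44785, 44785, 44785, 44790, 44785, 44785, 44790, 38305, 44785, 44790, 44785,
    44785, 38305, 44790, 44785, 44790, 38305, 44785, 44785, 44785, 44790, 44790, 44790, 44785,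
    44785, 44785, 38305, 44790, 44790, 44790, 44790, 44790, 44790, 44785, 44790, 44790, 44785,
    44785, 44785, 44785, 44790, 44785, 44790, 38305, 44785, 44785, 44790, 44785, 38305, 44790,
    44785, 38305, 44790, 44785, 44785, 44785, 44790, 44790, 42445, 44790, 42445, 42445, 42445,
    42445, 44790, 44790, 42445, 42445, 42445, 44790, 44790, 44790, 44790, 44790, 44790, 42445,
    42445, 44790, 44790, 42445, 42445, 42445, 42445, 44790, 42445, 44790, 42445, 42445, 42445,
    44790, 42445, 42445, 44790, 44790, 44785, 44785, 44790, 44785, 44785, 44785, 44790, 44785,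
    44790, 44785, 44785, 44785, 44785, 44790, 44790, 44785, 44785, 44790, 44790, 44790, 44790,
    44790, 44790, 44785, 44785, 44785, 44790, 44790, 44785, 44785, 44785, 44785, 44790, 44785,
    44790, 44790, 44785, 44785, 44785, 44790, 44785, 44785, 44790, 44785, 44785, 44790, 44785,
    44785, 44785, 44790, 44785, 44790, 44785, 44785, 44785, 44785, 44790, 44790, 44785, 44790,
    44790, 44790, 44790, 44790, 44790, 44785, 44785, 44785, 44785, 44790, 44790, 44790, 38305,
    44785, 44785, 44785, 44790, 38305, 44790, 44785, 44785, 44785, 44790, 44785, 44785, 44790,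
    44785, 44785, 44790, 44785, 44785, 44785, 44790, 38305, 44790, 44785, 44785, 44785, 38305,
    44790, 44790, 44790, 44790, 44790, 44790, 44790, 44790]

/-- codes of the second inserted state -/
def codeG : List ℕ :=
    [44790, 44790, 44790, 44790, 44790, 44790, 44790, 44790, 14055, 14055, 12760, 12545, 44790,
    14055, 44790, 44295, 43000, 44295, 44790, 14055, 44295, 44790, 37815, 44295, 44790, 12760,
    43000, 37815, 44790, 43000, 44790, 12545, 44295, 44295, 43000, 44790, 44790, 44790, 6315,
    6315, 5020, 4805, 44790, 44790, 44790, 44790, 44790, 44790, 6315, 44790, 44790, 44115,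
    42820, 44115, 6315, 44790, 44115, 44790, 37635, 44115, 5020, 44790, 42820, 37635, 44790,
    42820, 4805, 44790, 44115, 44115, 42820, 44790, 44790, 14130, 44790, 44370, 6790, 44370,
    14130, 44790, 44790, 14130, 14350, 44155, 44790, 44790, 44790, 44790, 44790, 44790, 44370,
    14130, 44790, 44790, 40270, 44370, 6790, 14350, 44790, 40270, 44790, 40270, 44370, 44155,
    44790, 44370, 40270, 44790, 44790, 14160, 44400, 44790, 6820, 44400, 14160, 44790, 14160,
    44790, 14380, 44185, 44400, 14160, 44790, 44790, 40300, 44400, 44790, 44790, 44790, 44790,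
    44790, 44790, 6820, 14380, 40300, 44790, 44790, 40300, 44400, 44185, 44400, 44790, 40300,
    44790, 44790, 12900, 43140, 6855, 44790, 43140, 12900, 44790, 12900, 14415, 44790, 42925,
    43140, 12900, 44790, 40335, 44790, 43140, 6855, 14415, 40335, 44790, 44790, 40335, 44790,
    44790, 44790, 44790, 44790, 44790, 43140, 42925, 43140, 40335, 44790, 44790, 44790, 12720,
    5595, 5595, 4300, 44790, 12720, 44790, 13155, 13155, 11860, 44790, 5595, 13155, 44790,
    13155, 11860, 44790, 5595, 13155, 13155, 44790, 32595, 44790, 4300, 11860, 11860, 32595,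
    44790, 44790, 44790, 44790, 44790, 44790, 44790, 44790]

/-- base 6 digits -/
def dig (n : ℕ) (i : Fin 6) : Fin 6 := ⟨n / 6 ^ i.val % 6, Nat.mod_lt _ (by norm_num)⟩

/-- The conditions on the two inserted states in terms of colour indices.  The positions
`0, 1, 2` are the darts and `3, 4, 5` the triangle edges. -/
def Good (q a b : Fin 6) (f g : Fin 6 → Fin 6) : Prop :=
  (∀ i j, f i = f j → i = j) ∧ (∀ i j, g i = g j → i = j) ∧
  f 1 = 0 ∧ f 3 ≠ 1 ∧ f 3 ≠ 2 ∧ f 5 ≠ 1 ∧ f 5 ≠ 2 ∧
  f 2 = g 1 ∧ f 3 ≠ g 3 ∧ f 3 ≠ g 5 ∧ f 4 ≠ g 3 ∧ f 4 ≠ g 5 ∧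
  g 2 = q ∧ g 3 ≠ a ∧ g 3 ≠ b ∧ g 4 ≠ a ∧ g 4 ≠ b

instance (q a b : Fin 6) (f g : Fin 6 → Fin 6) : Decidable (Good q a b f g) := by
  unfold Good; infer_instance

lemma good_table : ∀ q a b : Fin 6, q ≠ a → q ≠ b → a ≠ b →
    Good q a b (dig (codeF.getD (36 * q.val + 6 * a.val + b.val) 0))
      (dig (codeG.getD (36 * q.val + 6 * a.val + b.val) 0)) := by
  decide +kernel

/-- the state with colour indices `f` -/
def mkSt (e : Fin 6 ≃ Col) (f : Fin 6 → Fin 6) (hf : ∀ i j, f i = f j → i = j) : St where
  c i := e (f ⟨i.val, by omega⟩)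
  t i := e (f ⟨i.val + 3, by omega⟩)
  inj_c i j h := by
    have := hf _ _ (e.injective h)
    exact Fin.ext (by simpa using congrArg Fin.val this)
  inj_t i j h := by
    have := hf _ _ (e.injective h)
    exact Fin.ext (by simpa using congrArg Fin.val this)
  ne i j h := by
    have := hf _ _ (e.injective h)
    have h2 := congrArg Fin.val this
    simp at h2
    omega

/-- the two slots different from a given one -/
lemma two_slots (i : Fin 3) : ∃ j k : Fin 3, j ≠ i ∧ k ≠ i ∧ j ≠ k ∧ ∀ l, l ≠ i → l = j ∨ l = k := by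
  revert i
  decide

lemma good_exists (q a b : Fin 6) (h1 : q ≠ a) (h2 : q ≠ b) (h3 : a ≠ b) :
    ∃ f g, Good q a b f g := ⟨_, _, good_table q a b h1 h2 h3⟩

lemma fin3_ne_one : ∀ l : Fin 3, l ≠ 1 → l = 0 ∨ l = 2 := by decide
lemma fin3_ne_two : ∀ l : Fin 3, l ≠ 2 → l = 0 ∨ l = 1 := by decide

/-- State lemma: two states can be joined by a path with two inner vertices. -/
lemma path_lemma (x y : St) (i j : Fin 3) : ∃ a b : St,
    EdgeOK x i a 1 ∧ EdgeOK a 2 b 1 ∧ EdgeOK b 2 y j := by
  classical
  obtain ⟨i1, i2, hi1, hi2, hi12, hi⟩ := two_slots i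
  obtain ⟨j1, j2, hj1, hj2, hj12, hj⟩ := two_slots j
  -- a bijection sending `0, 1, 2` to the data of `x`
  obtain ⟨e, he0, he1, he2⟩ : ∃ e : Fin 6 ≃ Col, e 0 = x.c i ∧ e 1 = x.t i1 ∧ e 2 = x.t i2 := by
    let g : Fin 6 → Fin 3 ⊕ Fin 3 := ![Sum.inl i, Sum.inr i1, Sum.inr i2, Sum.inr i, Sum.inl i1,
      Sum.inl i2]
    have hg : Function.Bijective g := by
      rw [Fintype.bijective_iff_injective_and_card]
      refine ⟨?_, by decide⟩
      intro a b hab
      have h3 := hi12.symm
      have h1 := hi1.symm
      have h2 := hi2.symm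
      fin_cases a <;> fin_cases b <;> simp_all [g]
    refine ⟨(Equiv.ofBijective g hg).trans (JoinAux.stEquiv x), ?_, ?_, ?_⟩ <;> rfl
  have hq : ∃ q, e q = y.c j := ⟨e.symm (y.c j), by simp⟩
  have ha : ∃ a, e a = y.t j1 := ⟨e.symm (y.t j1), by simp⟩
  have hb : ∃ b, e b = y.t j2 := ⟨e.symm (y.t j2), by simp⟩
  obtain ⟨q, hq⟩ := hq
  obtain ⟨a, ha⟩ := ha
  obtain ⟨b, hb⟩ := hb
  have hqa : q ≠ a := by
    rintro rfl
    exact y.ne _ _ (hq.symm.trans ha)
  have hqb : q ≠ b := by
    rintro rfl
    exact y.ne _ _ (hq.symm.trans hb)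
  have hab : a ≠ b := by
    rintro rfl
    exact hj12 (y.inj_t (ha.symm.trans hb))
  obtain ⟨f, g, hf, hg, h1, h2, h3, h4, h5, h6, h7, h8, h9, h10, h11, h12, h13, h14, h15⟩ :=
    good_exists q a b hqa hqb hab
  refine ⟨mkSt e f hf, mkSt e g hg, ?_, ?_, ?_⟩
  · refine ⟨?_, ?_⟩
    · change x.c i = e (f 1)
      rw [h1, he0]
    · intro k l hk hl
      have hl' := fin3_ne_one l hl
      rcases hi k hk with rfl | rfl <;> rcases hl' with rfl | rfl
      · change x.t k ≠ e (f 3)
        rw [← he1]
        exact fun h => h2 (e.injective h).symm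
      · change x.t k ≠ e (f 5)
        rw [← he1]
        exact fun h => h4 (e.injective h).symm
      · change x.t k ≠ e (f 3)
        rw [← he2]
        exact fun h => h3 (e.injective h).symm
      · change x.t k ≠ e (f 5)
        rw [← he2]
        exact fun h => h5 (e.injective h).symm
  · refine ⟨?_, ?_⟩
    · change e (f 2) = e (g 1)
      rw [h6]
    · intro k l hk hl
      have hk' := fin3_ne_two k hk
      have hl' := fin3_ne_one l hl
      rcases hk' with rfl | rfl <;> rcases hl' with rfl | rfl
      · exact fun h => h7 (e.injective h)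
      · exact fun h => h8 (e.injective h)
      · exact fun h => h9 (e.injective h)
      · exact fun h => h10 (e.injective h)
  · refine ⟨?_, ?_⟩
    · change e (g 2) = y.c j
      rw [h11, hq]
    · intro k l hk hl
      have hk' := fin3_ne_two k hk
      rcases hk' with rfl | rfl <;> rcases hj l hl with rfl | rfl
      · change e (g 3) ≠ y.t l
        rw [← ha]
        exact fun h => h12 (e.injective h)
      · change e (g 3) ≠ y.t l
        rw [← hb]
        exact fun h => h13 (e.injective h)
      · change e (g 4) ≠ y.t l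
        rw [← ha]
        exact fun h => h14 (e.injective h)
      · change e (g 4) ≠ y.t l
        rw [← hb]
        exact fun h => h15 (e.injective h)

/-- Extend an injective slot assignment by one neighbour. -/
lemma extend_one {V : Type*} [Fintype V] [DecidableEq V] (G : SimpleGraph V)
    [DecidableRel G.Adj] (w : V) (hw : G.degree w ≤ 3) (P : V → Prop) (b : V) (hb : ¬ P b)
    (f : V → Fin 3) (hf : ∀ x y, P x → P y → G.Adj w x → G.Adj w y → f x = f y → x = y) :
    ∃ f' : V → Fin 3, (∀ x, x ≠ b → f' x = f x) ∧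
      ∀ x y, (P x ∨ x = b) → (P y ∨ y = b) → G.Adj w x → G.Adj w y → f' x = f' y → x = y := by
  classical
  by_cases hwb : G.Adj w b
  · obtain ⟨i, hi⟩ := JoinAux.exists_free_slot G w hw P b hb hwb f
    refine ⟨Function.update f b i, fun x hx => Function.update_of_ne hx _ _, ?_⟩
    intro x y hx hy ax ay e
    by_cases hxb : x = b <;> by_cases hyb : y = b
    · rw [hxb, hyb]
    · subst hxb
      rw [Function.update_self, Function.update_of_ne hyb] at e
      exact absurd e.symm (hi y (hy.resolve_right hyb) ay)
    · subst hyb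
      rw [Function.update_self, Function.update_of_ne hxb] at e
      exact absurd e (hi x (hx.resolve_right hxb) ax)
    · rw [Function.update_of_ne hxb, Function.update_of_ne hyb] at e
      exact hf x y (hx.resolve_right hxb) (hy.resolve_right hyb) ax ay e
  · refine ⟨f, fun _ _ => rfl, ?_⟩
    intro x y hx hy ax ay e
    have hxb : x ≠ b := fun h => hwb (h ▸ ax)
    have hyb : y ≠ b := fun h => hwb (h ▸ ay)
    exact hf x y (hx.resolve_right hxb) (hy.resolve_right hyb) ax ay e

/-- A vertex of degree at most 2 with a neighbour `v` has at most one other neighbour. -/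
lemma other_unique {V : Type*} [Fintype V] [DecidableEq V] (G : SimpleGraph V)
    [DecidableRel G.Adj] (u v : V) (huv : G.Adj u v) (hu : G.degree u ≤ 2) (x y : V)
    (hx : x ≠ v) (hy : y ≠ v) (ax : G.Adj u x) (ay : G.Adj u y) : x = y := by
  classical
  by_contra hxy
  have h1 : ({v, x, y} : Finset V) ⊆ G.neighborFinset u := by
    intro z hz
    simp only [mem_insert, mem_singleton] at hz
    rw [SimpleGraph.mem_neighborFinset]
    rcases hz with rfl | rfl | rfl
    · exact huv
    · exact ax
    · exact ay
  have h2 := Finset.card_le_card h1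
  have h3 : ({v, x, y} : Finset V).card = 3 := by
    rw [Finset.card_insert_of_notMem, Finset.card_insert_of_notMem, Finset.card_singleton]
    · simpa using hxy
    · simp only [mem_insert, mem_singleton, not_or]
      exact ⟨fun h => hx h.symm, fun h => hy h.symm⟩
  rw [SimpleGraph.card_neighborFinset_eq_degree] at h2
  omega

end InsertAux

open InsertAux JoinAux

theorem insert_proof : Stmt_Insert := by
  classical
  intro V _ _ G _ hdeg u v huv hu hv hcol
  obtain ⟨sl, s, hinj, hok⟩ := (colourable_induce G _).1 hcol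
  have hne : u ≠ v := huv.ne
  have memW : ∀ w : V, w ∈ ({u, v}ᶜ : Set V) ↔ w ≠ u ∧ w ≠ v := by
    intro w
    simp [not_or]
  -- slots at all vertices outside `{u, v}`
  have hslot : ∀ w, ∃ f : V → Fin 3, (∀ x, x ≠ u → x ≠ v → f x = sl w x) ∧
      ((w ≠ u ∧ w ≠ v) → ∀ x y, G.Adj w x → G.Adj w y → f x = f y → x = y) := by
    intro w
    by_cases hw : w ≠ u ∧ w ≠ v
    · obtain ⟨f1, h1, h1'⟩ := extend_one G w (hdeg w) (fun x => x ≠ u ∧ x ≠ v) u (by simp) (sl w)
        (fun x y hx hy ax ay e => hinj w x y ((memW w).2 hw) ((memW x).2 hx) ((memW y).2 hy)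
          ax ay e)
      obtain ⟨f2, h2, h2'⟩ := extend_one G w (hdeg w) (fun x => (x ≠ u ∧ x ≠ v) ∨ x = u) v
        (by rintro (h | h)
            · exact h.2 rfl
            · exact hne h.symm) f1 h1'
      refine ⟨f2, fun x hx hx' => by rw [h2 x hx', h1 x hx], fun _ x y ax ay e => ?_⟩
      apply h2' x y _ _ ax ay e
      · by_cases hxu : x = u
        · exact Or.inl (Or.inr hxu)
        · by_cases hxv : x = v
          · exact Or.inr hxv
          · exact Or.inl (Or.inl ⟨hxu, hxv⟩)
      · by_cases hxu : y = u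
        · exact Or.inl (Or.inr hxu)
        · by_cases hxv : y = v
          · exact Or.inr hxv
          · exact Or.inl (Or.inl ⟨hxu, hxv⟩)
    · exact ⟨sl w, fun _ _ _ => rfl, fun h => absurd h hw⟩
  choose SL hSL hSLinj using hslot
  have hX : ∃ (X : St) (i : Fin 3), ∀ x, x ≠ v → G.Adj u x → s x = X ∧ SL x u = i := by
    by_cases h : ∃ x, x ≠ v ∧ G.Adj u x
    · obtain ⟨x, hx, ax⟩ := h
      refine ⟨s x, SL x u, fun y hy ay => ?_⟩
      rw [other_unique G u v huv hu y x hy hx ay ax]
      exact ⟨rfl, rfl⟩
    · push Not at h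
      exact ⟨Classical.choice nonempty_St, 0, fun x hx ax => absurd ax (h x hx)⟩
  have hY : ∃ (Y : St) (j : Fin 3), ∀ y, y ≠ u → G.Adj v y → s y = Y ∧ SL y v = j := by
    by_cases h : ∃ x, x ≠ u ∧ G.Adj v x
    · obtain ⟨x, hx, ax⟩ := h
      refine ⟨s x, SL x v, fun y hy ay => ?_⟩
      rw [other_unique G v u huv.symm hv y x hy hx ay ax]
      exact ⟨rfl, rfl⟩
    · push Not at h
      exact ⟨Classical.choice nonempty_St, 0, fun x hx ax => absurd ax (h x hx)⟩
  obtain ⟨X, i, hX⟩ := hX
  obtain ⟨Y, j, hY⟩ := hY
  obtain ⟨a, b, hXa, hab, hbY⟩ := path_lemma X Y i j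
  refine ⟨fun w z => if w = u then (if z = v then 2 else 1) else
      if w = v then (if z = u then 1 else 2) else SL w z,
    fun w => if w = u then a else if w = v then b else s w, ?_, ?_⟩
  · intro w z z' az az' e
    by_cases hwu : w = u
    · subst hwu
      simp only [if_true] at e
      by_cases hz : z = v <;> by_cases hz' : z' = v
      · rw [hz, hz']
      · simp [hz, hz'] at e
      · simp [hz, hz'] at e
      · exact other_unique G w v huv hu z z' hz hz' az az'
    · by_cases hwv : w = v
      · subst hwv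
        simp only [hwu, if_true, if_false] at e
        by_cases hz : z = u <;> by_cases hz' : z' = u
        · rw [hz, hz']
        · simp [hz, hz'] at e
        · simp [hz, hz'] at e
        · exact other_unique G w u huv.symm hv z z' hz hz' az az'
      · simp only [hwu, hwv, if_false] at e
        exact hSLinj w ⟨hwu, hwv⟩ z z' az az' e
  · intro w z h
    by_cases hwu : w = u
    · subst hwu
      by_cases hz : z = v
      · subst hz
        simp only [if_true, h.ne', if_false]
        exact hab
      · have hzw : z ≠ w := h.ne'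
        obtain ⟨h1, h2⟩ := hX z hz h
        simp only [if_true, hz, hzw, if_false]
        rw [h1, h2]
        exact edgeOK_symm hXa
    · by_cases hwv : w = v
      · subst hwv
        by_cases hz : z = u
        · subst hz
          simp only [if_true, h.ne, if_false]
          exact edgeOK_symm hab
        · have hzw : z ≠ w := h.ne'
          obtain ⟨h1, h2⟩ := hY z hz h
          simp only [if_true, hz, hzw, hwu, if_false]
          rw [h1, h2]
          exact hbY
      · by_cases hzu : z = u
        · subst hzu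
          obtain ⟨h1, h2⟩ := hX w hwv h.symm
          simp only [if_true, hwu, hwv, if_false]
          rw [h1, h2]
          exact hXa
        · by_cases hzv : z = v
          · subst hzv
            obtain ⟨h1, h2⟩ := hY w hwu h.symm
            simp only [if_true, hwu, hwv, hzu, if_false]
            rw [h1, h2]
            exact edgeOK_symm hbY
          · simp only [hwu, hwv, hzu, hzv, if_false]
            rw [hSL w z hzu hzv, hSL z w hwu hwv]
            exact hok w z ((memW w).2 ⟨hwu, hwv⟩) ((memW z).2 ⟨hzu, hzv⟩) h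

end Pool.Agent.Trunc
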