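import Pool.Agent.Trunc.Join
import Pool.Agent.Trunc.Insert

/-!
Module Main: every finite graph of maximum degree at most 3 is colourable, from the core case.
-/

namespace Pool.Agent.Trunc.MainAux

open Finset Pool.Agent.Trunc

/-- degree without instances -/
noncomputable def dg {V : Type*} (G : SimpleGraph V) (v : V) : ℕ := (G.neighborSet v).ncard

lemma degree_eq_dg {V : Type*} (G : SimpleGraph V) (v : V) [Fintype (G.neighborSet v)] :
    G.degree v = dg G v := by
  unfold dg
  rw [Set.ncard_eq_toFinset_card', ← SimpleGraph.card_neighborFinset_eq_degree]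
  rfl

lemma colourable_mono {V : Type*} {G G' : SimpleGraph V} (h : G ≤ G') (hG : Colourable G') :
    Colourable G := by
  obtain ⟨sl, s, h1, h2⟩ := hG
  exact ⟨sl, s, fun v w w' a a' e => h1 v w w' (h a) (h a') e, fun v w a => h2 v w (h a)⟩

lemma colourable_of_subsingleton {V : Type*} [Subsingleton V] (G : SimpleGraph V) :
    Colourable G := by
  refine ⟨fun _ _ => 0, fun _ => Classical.choice JoinAux.nonempty_St, ?_, ?_⟩
  · intro v w w' _ _ _
    exact Subsingleton.elim _ _
  · intro v w h
    exact absurd (Subsingleton.elim v w) h.ne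

lemma dg_induce_le {V : Type*} [Finite V] (G : SimpleGraph V) (W : Set V) (v : W) :
    dg (G.induce W) v ≤ dg G v := by
  unfold dg
  rw [← Set.ncard_image_of_injective _ (Subtype.val_injective (p := (· ∈ W)))]
  apply Set.ncard_le_ncard _ (Set.toFinite _)
  rintro _ ⟨x, hx, rfl⟩
  simpa using hx

open Classical in
lemma dg_sup_edge {V : Type*} [Finite V] (G : SimpleGraph V) (u v w : V) :
    dg (G ⊔ SimpleGraph.edge u v) w ≤ dg G w + (if w = u ∨ w = v then 1 else 0) := by
  unfold dg
  by_cases hu : w = u
  · subst hu
    simp only [true_or, if_true]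
    calc ((G ⊔ SimpleGraph.edge w v).neighborSet w).ncard
        ≤ (insert v (G.neighborSet w)).ncard := by
          apply Set.ncard_le_ncard _ (Set.toFinite _)
          intro x hx
          simp only [SimpleGraph.mem_neighborSet, SimpleGraph.sup_adj, SimpleGraph.edge_adj] at hx
          simp only [Set.mem_insert_iff, SimpleGraph.mem_neighborSet]
          rcases hx with hx | ⟨⟨_, h⟩ | ⟨h, h'⟩, h2⟩
          · exact Or.inr hx
          · exact Or.inl h
          · exact absurd h' (fun e => h2 e.symm)
      _ ≤ _ := Set.ncard_insert_le _ _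
  · by_cases hv : w = v
    · subst hv
      simp only [or_true, if_true]
      calc ((G ⊔ SimpleGraph.edge u w).neighborSet w).ncard
          ≤ (insert u (G.neighborSet w)).ncard := by
            apply Set.ncard_le_ncard _ (Set.toFinite _)
            intro x hx
            simp only [SimpleGraph.mem_neighborSet, SimpleGraph.sup_adj,
              SimpleGraph.edge_adj] at hx
            simp only [Set.mem_insert_iff, SimpleGraph.mem_neighborSet]
            rcases hx with hx | ⟨⟨h, _⟩ | ⟨_, h⟩, _⟩
            · exact Or.inr hx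
            · exact absurd h hu
            · exact Or.inl h
        _ ≤ _ := Set.ncard_insert_le _ _
    · simp only [hu, hv, or_self, if_false, add_zero]
      apply Set.ncard_le_ncard _ (Set.toFinite _)
      intro x hx
      simp only [SimpleGraph.mem_neighborSet, SimpleGraph.sup_adj, SimpleGraph.edge_adj] at hx
      simp only [SimpleGraph.mem_neighborSet]
      rcases hx with hx | ⟨⟨h, _⟩ | ⟨h, _⟩, _⟩
      · exact hx
      · exact absurd h hu
      · exact absurd h hv

theorem main_aux (hCore : Stmt_Core) (hJoin : Stmt_Join) (hIns : Stmt_Insert) :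
    ∀ (n : ℕ) (V : Type) [Fintype V] (G : SimpleGraph V), Fintype.card V = n →
      (∀ v, dg G v ≤ 3) → Colourable G := by
  classical
  intro n
  induction n using Nat.strong_induction_on with
  | _ n ih =>
  intro V _ G₀ hn hG₀
  -- a maximal supergraph
  let S : Set (SimpleGraph V) := {G | ∀ v, dg G v ≤ 3}
  have hSfin : S.Finite := Set.toFinite _
  obtain ⟨G, hle, hmax⟩ := hSfin.exists_le_maximal (show G₀ ∈ S from hG₀)
  apply colourable_mono hle
  have hG : ∀ v, dg G v ≤ 3 := hmax.1
  have hdeg : ∀ v, G.degree v ≤ 3 := fun v => by rw [degree_eq_dg]; exact hG v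
  -- induction hypothesis for induced subgraphs
  have hind : ∀ W : Set V, W ≠ Set.univ → Colourable (G.induce W) := by
    intro W hW
    obtain ⟨x, hx⟩ := (Set.ne_univ_iff_exists_notMem W).1 hW
    refine ih (Fintype.card W) ?_ W (G.induce W) rfl (fun v => (dg_induce_le G W v).trans (hG v))
    rw [← hn]
    exact Fintype.card_subtype_lt hx
  -- two vertices of degree at most 2 are adjacent
  have hadj : ∀ u v, u ≠ v → dg G u ≤ 2 → dg G v ≤ 2 → G.Adj u v := by
    intro u v huv hu hv
    by_contra hna
    have hmem : G ⊔ SimpleGraph.edge u v ∈ S := by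
      intro w
      have h1 := dg_sup_edge G u v w
      by_cases hw : w = u ∨ w = v
      · rw [if_pos hw] at h1
        have h2 : dg G w ≤ 2 := by rcases hw with rfl | rfl <;> assumption
        omega
      · rw [if_neg hw] at h1
        have := hG w
        omega
    have h3 := hmax.2 hmem le_sup_left
    apply hna
    apply h3
    rw [SimpleGraph.sup_adj, SimpleGraph.edge_adj]
    exact Or.inr ⟨Or.inl ⟨rfl, rfl⟩, huv⟩
  by_cases hsub : Subsingleton V
  · exact colourable_of_subsingleton G
  by_cases htwo : ∃ u v, u ≠ v ∧ dg G u ≤ 2 ∧ dg G v ≤ 2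
  · obtain ⟨u, v, huv, hu, hv⟩ := htwo
    refine hIns V G hdeg u v (hadj u v huv hu hv) (by rw [degree_eq_dg]; exact hu)
      (by rw [degree_eq_dg]; exact hv) (hind _ ?_)
    intro h
    have : u ∈ ({u, v}ᶜ : Set V) := by rw [h]; exact Set.mem_univ u
    simp at this
  by_cases hcut : ∃ W : Set V, W.Nonempty ∧ W ≠ Set.univ ∧
      ∀ a b a' b' : V, a ∈ W → b ∉ W → G.Adj a b → a' ∈ W → b' ∉ W → G.Adj a' b' →
      a = a' ∧ b = b'
  · obtain ⟨W, hne, hW, hc⟩ := hcut
    refine hJoin V G hdeg W hc (hind W hW) (hind _ ?_)
    intro h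
    obtain ⟨x, hx⟩ := hne
    have : x ∈ Wᶜ := by rw [h]; exact Set.mem_univ x
    exact this hx
  push Not at hcut htwo
  -- every nonempty proper set has two leaving edges
  have hcut' : ∀ W : Set V, W.Nonempty → W ≠ Set.univ → ∃ a b a' b' : V, a ∈ W ∧ b ∉ W ∧
      G.Adj a b ∧ a' ∈ W ∧ b' ∉ W ∧ G.Adj a' b' ∧ (a = a' → b ≠ b') := hcut
  have hge : ∀ v, 2 ≤ dg G v := by
    intro v
    have hne : ({v} : Set V) ≠ Set.univ := by
      intro h
      apply hsub
      constructor
      intro x y
      have hx : x ∈ ({v} : Set V) := by rw [h]; exact Set.mem_univ x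
      have hy : y ∈ ({v} : Set V) := by rw [h]; exact Set.mem_univ y
      rw [Set.mem_singleton_iff.1 hx, Set.mem_singleton_iff.1 hy]
    obtain ⟨a, b, a', b', ha, hb, hab, ha', hb', hab', hd⟩ :=
      hcut' {v} (Set.singleton_nonempty v) hne
    rw [Set.mem_singleton_iff] at ha ha'
    subst ha
    subst ha'
    have hbb := hd rfl
    unfold dg
    have h1 : ({b, b'} : Set V) ⊆ G.neighborSet a' := by
      intro z hz
      rcases hz with rfl | hz
      · exact hab
      · rw [Set.mem_singleton_iff] at hz
        subst hz
        exact hab'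
    have h2 := Set.ncard_le_ncard h1 (Set.toFinite _)
    rw [Set.ncard_pair hbb] at h2
    exact h2
  refine hCore V G (univ.filter fun v => dg G v ≤ 2) ?_ ?_ ?_ ?_
  · rw [Finset.card_le_one]
    intro a ha b hb
    simp only [mem_filter, mem_univ, true_and] at ha hb
    by_contra hab
    have := htwo a b hab ha
    omega
  · intro v hv
    simp only [mem_filter, mem_univ, true_and] at hv
    rw [degree_eq_dg]
    exact le_antisymm hv (hge v)
  · intro v hv
    simp only [mem_filter, mem_univ, true_and, not_le] at hv
    rw [degree_eq_dg]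
    have := hG v
    omega
  · intro W hne hW
    obtain ⟨a, b, a', b', ha, hb, hab, ha', hb', hab', hd⟩ :=
      hcut' (W : Set V) (by simpa using hne) (by
        intro h
        apply hW
        rw [← Finset.coe_eq_univ]
        exact h)
    have : 1 < (univ.filter (fun p : V × V => p.1 ∈ W ∧ p.2 ∉ W ∧ G.Adj p.1 p.2)).card := by
      rw [Finset.one_lt_card]
      refine ⟨(a, b), ?_, (a', b'), ?_, ?_⟩
      · simp only [mem_filter, mem_univ, true_and]
        exact ⟨by simpa using ha, by simpa using hb, hab⟩
      · simp only [mem_filter, mem_univ, true_and]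
        exact ⟨by simpa using ha', by simpa using hb', hab'⟩
      · intro h
        rw [Prod.mk.injEq] at h
        exact hd h.1 h.2
    exact this

end MainAux

open MainAux

theorem main_of (hCore : Stmt_Core) : Stmt_Main := by
  intro V _ _ G _ hG
  exact main_aux hCore join_proof insert_proof (Fintype.card V) V G rfl
    (fun v => by rw [← degree_eq_dg]; exact hG v)

end Pool.Agent.Trunc
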