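import Pool.Agent.Trunc.Defs

namespace Pool.Agent.Trunc

theorem pos_proof : Stmt_Pos := by
  intro V _ _ σ h1 h2 v₀
  set L := Function.minimalPeriod σ v₀ with hL
  have hper : v₀ ∈ Function.periodicPts σ := by
    refine Function.mem_periodicPts.mpr ⟨orderOf σ, orderOf_pos σ, ?_⟩
    show σ^[orderOf σ] v₀ = v₀
    rw [← Equiv.Perm.coe_pow, pow_orderOf_eq_one]; rfl
  have hLpos : 0 < L := Function.minimalPeriod_pos_of_mem_periodicPts hper
  have hLper : σ^[L] v₀ = v₀ := Function.iterate_minimalPeriod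
  have hL3 : 3 ≤ L := by
    by_contra hcon
    have : L = 1 ∨ L = 2 := by omega
    rcases this with h | h
    · rw [h] at hLper; exact h1 v₀ hLper
    · rw [h] at hLper; exact h2 v₀ hLper
  have hmod : ∀ n, σ^[n % L] v₀ = σ^[n] v₀ := fun n => Function.iterate_mod_minimalPeriod_eq
  have : NeZero L := ⟨by omega⟩
  refine ⟨L, fun i => σ^[i.val] v₀, hL3, ?_, ?_, ?_, ?_⟩
  · intro i j hij
    have := Function.iterate_injOn_Iio_minimalPeriod (f := σ) (x := v₀)
      (show i.val ∈ Set.Iio (Function.minimalPeriod σ v₀) from ZMod.val_lt i)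
      (show j.val ∈ Set.Iio (Function.minimalPeriod σ v₀) from ZMod.val_lt j) hij
    exact ZMod.val_injective L this
  · simp
  · intro i
    show σ^[(i + 1).val] v₀ = σ (σ^[i.val] v₀)
    rw [← Function.iterate_succ_apply' σ, ZMod.val_add, ZMod.val_one'' (by omega), hmod]
  · intro w
    constructor
    · intro h
      obtain ⟨n, hn⟩ := h.exists_nat_pow_eq
      refine ⟨(n : ZMod L), ?_⟩
      show σ^[((n : ZMod L)).val] v₀ = w
      rw [ZMod.val_natCast, hmod, ← Equiv.Perm.coe_pow, hn]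
    · rintro ⟨i, hi⟩
      refine ⟨(i.val : ℤ), ?_⟩
      rw [zpow_natCast, Equiv.Perm.coe_pow]
      exact hi

end Pool.Agent.Trunc
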