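import Pool.Agent.Trunc.Defs
import Pool.Agent.Trunc.Assemble

/-!
# The pure scheme
-/

namespace Pool.Agent.Trunc

variable {L : ℕ}

/-- the output of a vertex of type `X` that is not an S-vertex, in terms of the skeleton -/
def outMu (X : Bool) (f : ZMod L → Bool) (p : ZMod L → ZMod 3 × ZMod 3) (i : ZMod L) : ZMod 3 :=
  if f i = X then
    (if f (i + 1) = X then third (p i).1 (p (i + 1)).1 else (p i).2)
  else third (p (i + 1)).1 (p (i + 1)).2

theorem exists_offer (τ : Bool) (x : ZMod 3) : ∃ s : St, Offer τ s ∧ s.c 0 = (τ, x) := by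
  obtain ⟨s, h0, h1, h2, h3, h4, h5⟩ := exists_st (c0 := (τ, x)) (c1 := (τ, x + 1))
    (c2 := (τ, x + 2)) (t0 := (!τ, 0)) (t1 := (!τ, 1)) (t2 := (!τ, 2)) (by
      revert τ x; decide)
  exact ⟨s, ⟨by rw [h0], by rw [h4], by rw [h5]⟩, h0⟩

theorem medge_of {τ : Bool} {s s' : St} (h : Accept τ s) (h' : Offer τ s')
    (hc : s.c 0 = s'.c 0) : MEdge s s' := by
  refine ⟨hc, fun a b ha hb he => ?_⟩
  have h1 : (s.t a).1 = τ := by
    revert ha; revert a; intro a ha he; fin_cases a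
    · exact absurd rfl he
    · exact h.2.1
    · exact h.2.2
  have h2 : (s'.t b).1 = !τ := by
    fin_cases b
    · exact absurd rfl hb
    · exact h'.2.1
    · exact h'.2.2
  rw [he] at h1
  rw [h1] at h2
  cases τ <;> simp at h2

theorem medge_symm {s s' : St} (h : MEdge s s') : MEdge s' s :=
  ⟨h.1.symm, fun a b ha hb he => h.2 b a hb ha he.symm⟩

theorem notS_of_left {f ty : ZMod L → Bool} {i : ZMod L} {X : Bool} (ht : ty i = X)
    (h : f i = X) : ¬ IsS f ty i := fun h' => h'.2 (ht.trans h.symm)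

theorem notS_of_right {f ty : ZMod L → Bool} {i : ZMod L} {X : Bool} (ht : ty i = X)
    (h : f (i + 1) = X) : ¬ IsS f ty i := fun h' => h'.2 (ht.trans (h'.1.trans h).symm)

/-- pass skeleton + correct outputs = skeleton (at one vertex) -/
theorem skel_of_pass {X : Bool} {f ty : ZMod L → Bool} {μ : ZMod L → ZMod 3}
    {p : ZMod L → ZMod 3 × ZMod 3} {i : ZMod L}
    (h : PassStep (f i == X) (f (i + 1) == X) (ty i == X) (p i) (p (i + 1)))
    (hμ : ty i = X → ¬ IsS f ty i → μ i = outMu X f p i) :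
    VStep (f i == X) (f (i + 1) == X) (ty i == X) (μ i) (p i) (p (i + 1)) ∨
      (f i ≠ X ∧ f (i + 1) ≠ X ∧ p (i + 1) = p i) := by
  by_cases h1 : f i = X <;> by_cases h2 : f (i + 1) = X <;> by_cases h3 : ty i = X
  · have hm := hμ h3 (notS_of_left h3 h1)
    simp only [outMu, h1, h2, if_true] at hm
    left
    simp only [h1, h2, h3, beq_self_eq_true, PassStep, VStep] at h ⊢
    exact ⟨h, hm⟩
  · left
    have h3' : (ty i == X) = false := by simp [h3]
    simp only [h1, h2, h3', beq_self_eq_true, PassStep, VStep] at h ⊢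
    exact h
  · have hm := hμ h3 (notS_of_left h3 h1)
    simp only [outMu, h1, h2, if_true, if_false] at hm
    left
    have h2' : (f (i + 1) == X) = false := by simp [h2]
    simp only [h1, h2', h3, beq_self_eq_true, PassStep, VStep] at h ⊢
    exact ⟨h, hm⟩
  · left
    have h3' : (ty i == X) = false := by simp [h3]
    have h2' : (f (i + 1) == X) = false := by simp [h2]
    simp only [h1, h2', h3', beq_self_eq_true, PassStep, VStep] at h ⊢
    exact h
  · have hm := hμ h3 (notS_of_right h3 h2)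
    simp only [outMu, h1, if_false] at hm
    left
    have h1' : (f i == X) = false := by simp [h1]
    simp only [h1', h2, h3, beq_self_eq_true, PassStep, VStep] at h ⊢
    exact ⟨h, hm⟩
  · left
    have h3' : (ty i == X) = false := by simp [h3]
    have h1' : (f i == X) = false := by simp [h1]
    simp only [h1', h2, h3', beq_self_eq_true, PassStep, VStep] at h ⊢
    exact h
  · right
    have h1' : (f i == X) = false := by simp [h1]
    have h2' : (f (i + 1) == X) = false := by simp [h2]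
    simp only [h1', h2', PassStep] at h
    exact ⟨h1, h2, h⟩
  · right
    have h1' : (f i == X) = false := by simp [h1]
    have h2' : (f (i + 1) == X) = false := by simp [h2]
    simp only [h1', h2', PassStep] at h
    exact ⟨h1, h2, h⟩

theorem pure_aux (hF : Stmt_Fill) (hA : Stmt_Assemble) (hL : 1 ≤ L) (f ty : ZMod L → Bool)
    (ch : ZMod L → ZMod L) (hch : ∀ i, ch (ch i) = i)
    (hchord : ∀ i, ch i ≠ i → ty (ch i) = ty i ∧ (IsS f ty i ↔ ¬ IsS f ty (ch i)))
    (hN : ∀ i, ¬ (IsN f ty i ∧ IsN f ty (i + 1)))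
    (p0 : Bool → ZMod L → ZMod 3 × ZMod 3) (w : Bool → ZMod L)
    (hc : ∀ X, ConstSkel X f ty → ∀ i, (p0 X i).1 ≠ (p0 X i).2 ∧
      PassStep (f i == X) (f (i + 1) == X) (ty i == X) (p0 X i) (p0 X (i + 1)))
    (hw : ∀ X, ¬ ConstSkel X f ty → ch (w X) = w X ∧ ActSkel X f ty (w X))
    (o : ZMod L → St) (ho : ∀ i, ch i = i → IsS f ty i → Offer (ty i) (o i)) :
    ∃ s : ZMod L → St, (∀ i, FEdge (s i) (s (i + 1))) ∧
      (∀ i, IsS f ty i → Accept (ty i) (s i)) ∧ (∀ i, ¬ IsS f ty i → Offer (ty i) (s i)) ∧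
      (∀ i, ch i = i → IsS f ty i → MEdge (s i) (o i)) ∧
      (∀ i, ch i ≠ i → MEdge (s i) (s (ch i))) ∧
      (∀ i, ¬ IsS f ty i → ConstSkel (ty i) f ty →
        (s i).c 0 = (ty i, outMu (ty i) f (p0 (ty i)) i)) ∧
      (∀ i, f i ≠ f (i + 1) → f i = (!ty i) → ConstSkel (!ty i) f ty →
        (s i).t 1 = (!ty i, (p0 (!ty i) i).2) ∧
        (s i).t 2 = (!ty i, third (p0 (!ty i) i).1 (p0 (!ty i) i).2)) ∧
      (∀ i, f i ≠ f (i + 1) → f (i + 1) = (!ty i) → ConstSkel (!ty i) f ty →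
        (s i).t 1 = (!ty i, (p0 (!ty i) (i + 1)).2) ∧
        (s i).t 2 = (!ty i, third (p0 (!ty i) (i + 1)).1 (p0 (!ty i) (i + 1)).2)) := by
  classical
  -- the skeletons
  have hP : ∀ X, ∃ P : ZMod L → ZMod 3 × ZMod 3, (ConstSkel X f ty → P = p0 X) ∧
      (∀ i, (P i).1 ≠ (P i).2) ∧
      (∀ i, (PassStep (f i == X) (f (i + 1) == X) (ty i == X) (P i) (P (i + 1))) ∨
        (ty i = X ∧ ch i = i ∧ IsS f ty i ∧ f i ≠ X ∧ f (i + 1) ≠ X ∧
          (P i).2 ≠ ((o i).c 0).2 ∧ (P (i + 1)).1 = third (P i).2 ((o i).c 0).2)) ∧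
      ((∃ i, f i = X) ∨ ∃ i, (ty i = X ∧ ch i = i ∧ IsS f ty i ∧ f i ≠ X ∧ f (i + 1) ≠ X ∧
          (P i).2 ≠ ((o i).c 0).2 ∧ (P (i + 1)).1 = third (P i).2 ((o i).c 0).2)) := by
    intro X
    by_cases hX : ConstSkel X f ty
    · exact ⟨p0 X, fun _ => rfl, fun i => (hc X hX i).1, fun i => Or.inl (hc X hX i).2,
        Or.inl hX.1⟩
    · obtain ⟨h1, h2, h3, h4, h5⟩ := hw X hX
      obtain ⟨P, hP1, hP2, hP3⟩ := h5 ((o (w X)).c 0).2
      have hS : IsS f ty (w X) := by
        refine ⟨?_, ?_⟩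
        · revert h2 h3
          cases f (w X) <;> cases f (w X + 1) <;> cases X <;> simp
        · rw [h4]; exact h2.symm
      refine ⟨P, fun h => absurd h hX, hP1, fun i => ?_, Or.inr ⟨w X, h4, h1, hS, h2, h3, hP2⟩⟩
      by_cases hi : i = w X
      · subst hi
        exact Or.inr ⟨h4, h1, hS, h2, h3, hP2⟩
      · exact Or.inl (hP3 i hi)
  choose P hP0 hP1 hP2 hP3 using hP
  -- the matching colours
  let μ0 : ZMod L → ZMod 3 := fun i =>
    if IsS f ty i then ((o i).c 0).2 else outMu (ty i) f (P (ty i)) i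
  let μ : ZMod L → ZMod 3 := fun i =>
    if IsS f ty i ∧ ch i ≠ i then μ0 (ch i) else μ0 i
  have hμN : ∀ i, ¬ IsS f ty i → μ i = outMu (ty i) f (P (ty i)) i := by
    intro i hi
    simp only [μ, μ0, hi, false_and, if_false]
  have hμS : ∀ i, IsS f ty i → ch i = i → μ i = ((o i).c 0).2 := by
    intro i hi hci
    simp only [μ, μ0, hi, hci, ne_eq, not_true, and_false, if_false, if_true]
  have hμC : ∀ i, ch i ≠ i → μ (ch i) = μ i := by
    intro i hci
    have h1 := (hchord i hci).2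
    have hci' : ch (ch i) ≠ ch i := by rw [hch]; exact hci.symm
    by_cases hi : IsS f ty i
    · have h2 : ¬ IsS f ty (ch i) := h1.1 hi
      simp only [μ, h2, false_and, if_false, hi, ne_eq, hci, not_false_eq_true, and_self, if_true]
    · have h2 : IsS f ty (ch i) := by
        by_contra h3
        exact hi (h1.2 h3)
      have hci'' : ¬ i = ch i := fun h => hci h.symm
      simp only [μ, h2, hi, false_and, if_false, ne_eq, hch, hci'', not_false_eq_true, and_self,
        if_true]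
  have hSk : ∀ X, Skel X f ty μ (P X) := by
    intro X i
    refine ⟨hP1 X i, ?_⟩
    rcases hP2 X i with h | ⟨h1, h2, h3, h4, h5, h6, h7⟩
    · refine skel_of_pass h ?_
      intro ht hs
      rw [hμN i hs, ht]
    · left
      have h4' : (f i == X) = false := by simp [h4]
      have h5' : (f (i + 1) == X) = false := by simp [h5]
      simp only [h4', h5', h1, beq_self_eq_true, VStep]
      rw [hμS i h3 h2]
      exact ⟨h6, h7⟩
  have hfill : ∀ X, ∃ p' : ZMod L → ZMod 3 × ZMod 3, TapeSol X f ty μ p' ∧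
      ∀ i, f i = X → p' i = P X i := by
    intro X
    refine hF L hL X f ty μ (P X) (hSk X) ?_
    rcases hP3 X with h | ⟨i, h1, h2, h3, h4, h5, h6, h7⟩
    · exact Or.inl h
    · right
      refine ⟨i, h4, h5, h1, ?_, ?_⟩
      · rw [hμS i h3 h2]; exact h6
      · rw [hμS i h3 h2]; exact h7
  choose p' hp' hpP using hfill
  obtain ⟨s, hs1, hs2, hs3, hs4, hs5, hs6⟩ := hA L hL f ty μ p' hp' hN
  refine ⟨s, hs1, hs3, hs4, ?_, ?_, ?_, ?_, ?_⟩
  · intro i hci hi
    refine medge_of (hs3 i hi) (ho i hci hi) ?_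
    rw [hs2 i, hμS i hi hci]
    exact Prod.ext_iff.2 ⟨(ho i hci hi).1.symm, rfl⟩
  · intro i hci
    have h1 := hchord i hci
    have hcc : (s i).c 0 = (s (ch i)).c 0 := by
      rw [hs2 i, hs2 (ch i), h1.1, hμC i hci]
    by_cases hi : IsS f ty i
    · refine medge_of (hs3 i hi) ?_ hcc
      have := hs4 (ch i) (h1.2.1 hi)
      rwa [h1.1] at this
    · have h2 : IsS f ty (ch i) := by
        by_contra h3
        exact hi (h1.2.2 h3)
      refine medge_symm (medge_of (hs3 _ h2) ?_ hcc.symm)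
      have := hs4 i hi
      rwa [← h1.1] at this
  · intro i hi hX
    rw [hs2 i, hμN i hi, hP0 _ hX]
  · intro i h1 h2 hX
    obtain ⟨h3, h4⟩ := hs5 i h1 h2
    rw [h3, h4, hpP _ _ h2, hP0 _ hX]
    exact ⟨rfl, rfl⟩
  · intro i h1 h2 hX
    obtain ⟨h3, h4⟩ := hs6 i h1 h2
    rw [h3, h4, hpP _ _ h2, hP0 _ hX]
    exact ⟨rfl, rfl⟩

theorem pure_of (hF : Stmt_Fill) (hA : Stmt_Assemble) : Stmt_Pure := by
  classical
  intro L hL f ty ch hch hchord hN hsk
  have h1 : ∀ X, ∃ p : ZMod L → ZMod 3 × ZMod 3, ConstSkel X f ty → ∀ i, (p i).1 ≠ (p i).2 ∧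
      PassStep (f i == X) (f (i + 1) == X) (ty i == X) (p i) (p (i + 1)) := by
    intro X
    by_cases hX : ConstSkel X f ty
    · obtain ⟨p, hp⟩ := hX.2
      exact ⟨p, fun _ => hp⟩
    · exact ⟨fun _ => (0, 0), fun h => absurd h hX⟩
  have h2 : ∀ X, ∃ w : ZMod L, ¬ ConstSkel X f ty → ch w = w ∧ ActSkel X f ty w := by
    intro X
    rcases hsk X with hX | ⟨w, hw⟩
    · exact ⟨0, fun h => absurd hX h⟩
    · exact ⟨w, fun _ => hw⟩
  choose p0 hp0 using h1
  choose w hw using h2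
  have hd : ∀ i, ∃ s : St, Offer (ty i) s := fun i =>
    ⟨(exists_offer (ty i) 0).choose, (exists_offer (ty i) 0).choose_spec.1⟩
  choose o₀ ho₀ using hd
  obtain ⟨s₀, -, -, hs3, -, -, hs6, hs7, hs8⟩ := pure_aux hF hA hL f ty ch hch hchord hN p0 w
    hp0 hw o₀ (fun i _ _ => ho₀ i)
  refine ⟨s₀, hs3, fun o ho => ?_⟩
  obtain ⟨s, h1, h2, h3, h4, h5, h6, h7, h8⟩ := pure_aux hF hA hL f ty ch hch hchord hN p0 w
    hp0 hw o ho
  refine ⟨s, h1, h2, h3, h4, h5, fun i hi hX => ?_, fun i hi hX => ?_⟩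
  · rw [h6 i hi hX, hs6 i hi hX]
  · by_cases hl : f i = (!ty i)
    · obtain ⟨e1, e2⟩ := h7 i hi hl hX
      obtain ⟨e3, e4⟩ := hs7 i hi hl hX
      exact ⟨e1.trans e3.symm, e2.trans e4.symm⟩
    · have hr : f (i + 1) = (!ty i) := by
        revert hi hl
        cases f i <;> cases f (i + 1) <;> cases ty i <;> simp
      obtain ⟨e1, e2⟩ := h8 i hi hr hX
      obtain ⟨e3, e4⟩ := hs8 i hi hr hX
      exact ⟨e1.trans e3.symm, e2.trans e4.symm⟩

end Pool.Agent.Trunc
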