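import Pool.Agent.Trunc.Defs

/-!
# Small cases of the root lemma (MP_40dd6f_co), by a finite search

`rh_root_of_pure`: the root lemma for a cycle from explicit choices `(U, f, ty₀)` via `Stmt_Pure`, with
`small := True`; the skeleton conditions are checked by a search over closed walks.
-/

namespace Pool.Agent.Trunc

open Finset

/-- The type vector: prescribed on `U`, fixed elsewhere. -/
def rhTy {L : ℕ} (U ty₀ τ : ZMod L → Bool) (i : ZMod L) : Bool := if U i then τ i else ty₀ i

theorem rh_root_of_pure (hP : Stmt_Pure) (L : ℕ) (hL : 1 ≤ L) (ch : ZMod L → ZMod L)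
    (hch : ∀ i, ch (ch i) = i) (U f ty₀ : ZMod L → Bool)
    (h1 : ∀ i, U i = true → ch i = i)
    (h2 : (∃ i, ch i = i) → ∃ i, ch i = i ∧ U i = false)
    (h3 : ∃ a b, ∀ i, U i = true → i = a ∨ i = b)
    (h4 : ∀ i, U i = true → f i ≠ f (i + 1))
    (h5 : ∀ i, ch i = i → U i = false → IsS f ty₀ i)
    (h6 : ∀ i, ch i ≠ i → ty₀ (ch i) = ty₀ i ∧ (IsS f ty₀ i ↔ ¬ IsS f ty₀ (ch i)))
    (h7 : ∀ i, ¬ (IsN f ty₀ i ∧ IsN f ty₀ (i + 1)))
    (h8 : ∀ τ : ZMod L → Bool, ∀ X, ConstSkel X f (rhTy U ty₀ τ) ∨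
      ((∀ i, U i = true → τ i ≠ X) ∧ ∃ w, ch w = w ∧ ActSkel X f (rhTy U ty₀ τ) w)) :
    RootGood L ch := by
  refine ⟨fun i => U i = true, True, ty₀, h1, ?_, fun _ => h3, fun τ => ?_⟩
  · intro h
    obtain ⟨i, hi, hU⟩ := h2 h
    exact ⟨i, hi, by simp [hU]⟩
  set ty := rhTy U ty₀ τ with hty
  have tyU : ∀ i, U i = true → ty i = τ i := fun i hi => by simp [hty, rhTy, hi]
  have tyn : ∀ i, U i = false → ty i = ty₀ i := fun i hi => by simp [hty, rhTy, hi]
  have sU : ∀ i, U i = true → ¬ IsS f ty i := fun i hi h => h4 i hi h.1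
  have sn : ∀ i, U i = false → (IsS f ty i ↔ IsS f ty₀ i) := fun i hi => by
    unfold IsS; rw [tyn i hi]
  have chU : ∀ i, ch i ≠ i → U i = false := fun i hi => by
    by_contra h
    exact hi (h1 i (by simpa using h))
  have chU' : ∀ i, ch i ≠ i → ch (ch i) ≠ ch i := fun i hi h => hi (by rw [hch] at h; exact h.symm)
  have nN : ∀ i, IsN f ty i → IsN f ty₀ i := fun i h => by
    have hU : U i = false := by
      by_contra hc
      exact h4 i (by simpa using hc) h.1
    exact ⟨h.1, by rw [← tyn i hU]; exact h.2⟩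
  obtain ⟨s₀, hs₀, hs⟩ := hP L hL f ty ch hch
    (fun i hi => by
      have e1 := chU i hi
      have e2 := chU (ch i) (chU' i hi)
      rw [tyn i e1, tyn _ e2, sn i e1, sn _ e2]
      exact h6 i hi)
    (fun i h => h7 i ⟨nN i h.1, nN _ h.2⟩)
    (fun X => (h8 τ X).imp id (fun h => h.2))
  refine ⟨s₀, fun i hi => ?_, fun o ho => ?_⟩
  · have := hs₀ i (sU i hi)
    rwa [tyU i hi] at this
  · obtain ⟨s, a1, a2, a3, a4, a5, a6, a7⟩ := hs o (fun i hi hS => by
      have hU : U i = false := by
        by_contra hc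
        exact sU i (by simpa using hc) hS
      rw [tyn i hU]
      exact ho i hi (by simp [hU]))
    refine ⟨s, a1, ?_, a5, ?_⟩
    · intro i hi hU
      have hU' : U i = false := by simpa using hU
      exact a4 i hi ((sn i hU').2 (h5 i hi hU'))
    · intro i hi
      refine ⟨?_, ?_, fun h => absurd trivial h⟩
      · have := a3 i (sU i hi)
        rwa [tyU i hi] at this
      · refine a6 i (sU i hi) ?_
        rcases h8 τ (ty i) with h | h
        · exact h
        · exact absurd (tyU i hi).symm (h.1 i hi)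

/-! ### Closed walks -/

def rhPairs : List (ZMod 3 × ZMod 3) := [(0, 1), (0, 2), (1, 0), (1, 2), (2, 0), (2, 1)]

def rhPass (a b t : Bool) (p q : ZMod 3 × ZMod 3) : Bool :=
  match a, b, t with
  | true, true, false => decide (q = rot p)
  | true, true, true => decide (q.1 ≠ p.1)
  | false, false, _ => decide (q = p)
  | true, false, true => decide (q.1 = third p.1 p.2)
  | true, false, false => decide (q.1 = p.2)
  | false, true, true => decide (q.2 = p.2)
  | false, true, false => decide (p.2 = third q.1 q.2)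

theorem rhPass_spec (a b t : Bool) (p q : ZMod 3 × ZMod 3) (h : rhPass a b t p q = true) :
    PassStep a b t p q := by
  cases a <;> cases b <;> cases t <;> simpa [rhPass, PassStep] using h

def rhReach : List ((ZMod 3 × ZMod 3) → (ZMod 3 × ZMod 3) → Bool) →
    (ZMod 3 × ZMod 3) → (ZMod 3 × ZMod 3) → Bool
  | [], p, q => decide (p = q)
  | R :: l, p, q => rhPairs.any (fun r => R p r && rhReach l r q)

theorem rhPairs_ne (p : ZMod 3 × ZMod 3) (h : p ∈ rhPairs) : p.1 ≠ p.2 := by
  revert p
  decide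

theorem rhReach_spec : ∀ (l : List ((ZMod 3 × ZMod 3) → (ZMod 3 × ZMod 3) → Bool))
    (p q : ZMod 3 × ZMod 3), p.1 ≠ p.2 → rhReach l p q = true →
    ∃ r : ℕ → ZMod 3 × ZMod 3, r 0 = p ∧ r l.length = q ∧ (∀ i, (r i).1 ≠ (r i).2) ∧
      ∀ i (h : i < l.length), l[i] (r i) (r (i + 1)) = true := by
  intro l
  induction l with
  | nil =>
    intro p q hp h
    refine ⟨fun _ => p, rfl, ?_, fun _ => hp, fun i h => absurd h (by simp)⟩
    simpa [rhReach] using h
  | cons R l ih =>
    intro p q hp h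
    rw [rhReach, List.any_eq_true] at h
    obtain ⟨x, hx, hx2⟩ := h
    rw [Bool.and_eq_true] at hx2
    obtain ⟨r, e1, e2, e3, e4⟩ := ih x q (rhPairs_ne x hx) hx2.2
    refine ⟨fun n => Nat.casesOn n p r, rfl, ?_, ?_, ?_⟩
    · simpa using e2
    · rintro (_ | i)
      · exact hp
      · exact e3 i
    · rintro (_ | i) hi
      · simpa [e1] using hx2.1
      · simpa using e4 i (by simpa using hi)

/-- A closed walk with step relations `R i`. -/
theorem rh_closed {L : ℕ} [NeZero L] (R : ZMod L → (ZMod 3 × ZMod 3) → (ZMod 3 × ZMod 3) → Bool)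
    (p₀ : ZMod 3 × ZMod 3) (hp₀ : p₀ ∈ rhPairs)
    (h : rhReach ((List.range L).map (fun i : ℕ => R (i : ZMod L))) p₀ p₀ = true) :
    ∃ p : ZMod L → ZMod 3 × ZMod 3, (∀ i, (p i).1 ≠ (p i).2) ∧
      ∀ i, R i (p i) (p (i + 1)) = true := by
  obtain ⟨r, e1, e2, e3, e4⟩ := rhReach_spec _ p₀ p₀ (rhPairs_ne _ hp₀) h
  simp only [List.length_map, List.length_range] at e2 e4
  refine ⟨fun i => r i.val, fun i => e3 _, fun i => ?_⟩
  have hi : i.val < L := ZMod.val_lt i
  have h1 := e4 i.val hi
  simp only [List.getElem_map, List.getElem_range, ZMod.natCast_val, ZMod.cast_id', id] at h1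
  have h2 : r (i + 1).val = r (i.val + 1) := by
    rcases Nat.lt_or_ge (i.val + 1) L with hlt | hge
    · have : (i + 1).val = i.val + 1 := by
        rw [ZMod.val_add, ZMod.val_one_eq_one_mod, Nat.add_mod_mod, Nat.mod_eq_of_lt hlt]
      rw [this]
    · have hL : i.val + 1 = L := le_antisymm hi hge
      have : (i + 1).val = 0 := by
        rw [ZMod.val_add, ZMod.val_one_eq_one_mod, Nat.add_mod_mod, hL, Nat.mod_self]
      rw [this, hL, e1, e2]
  change R i (r i.val) (r (i + 1).val) = true
  rw [h2]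
  exact h1

def rhConst (L : ℕ) (X : Bool) (f ty : ZMod L → Bool) : Bool :=
  (List.range L).any (fun i : ℕ => f (i : ZMod L) == X) &&
  rhPairs.any (fun p => rhReach ((List.range L).map (fun i : ℕ =>
    rhPass (f (i : ZMod L) == X) (f ((i : ZMod L) + 1) == X) (ty (i : ZMod L) == X))) p p)

theorem rhConst_spec {L : ℕ} [NeZero L] (X : Bool) (f ty : ZMod L → Bool)
    (h : rhConst L X f ty = true) : ConstSkel X f ty := by
  rw [rhConst, Bool.and_eq_true, List.any_eq_true, List.any_eq_true] at h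
  obtain ⟨⟨i, _, hi⟩, p, hp, hp2⟩ := h
  refine ⟨⟨(i : ZMod L), by simpa using hi⟩, ?_⟩
  obtain ⟨q, hq1, hq2⟩ := rh_closed (fun i : ZMod L =>
    rhPass (f i == X) (f (i + 1) == X) (ty i == X)) p hp hp2
  exact ⟨q, fun i => ⟨hq1 i, rhPass_spec _ _ _ _ _ (hq2 i)⟩⟩

def rhAct (L : ℕ) (X : Bool) (f ty : ZMod L → Bool) (w : ZMod L) : Bool :=
  (f w != X) && (f (w + 1) != X) && (ty w == X) &&
  ([0, 1, 2] : List (ZMod 3)).all (fun b => rhPairs.any (fun p =>
    rhReach ((List.range L).map (fun i : ℕ =>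
      if (i : ZMod L) = w then (fun p q => decide (p.2 ≠ b ∧ q.1 = third p.2 b)) else
      rhPass (f (i : ZMod L) == X) (f ((i : ZMod L) + 1) == X) (ty (i : ZMod L) == X))) p p))

theorem rhAct_spec {L : ℕ} [NeZero L] (X : Bool) (f ty : ZMod L → Bool) (w : ZMod L)
    (h : rhAct L X f ty w = true) : ActSkel X f ty w := by
  rw [rhAct, Bool.and_eq_true, Bool.and_eq_true, Bool.and_eq_true, List.all_eq_true] at h
  obtain ⟨⟨⟨h1, h2⟩, h3⟩, h4⟩ := h
  refine ⟨by simpa using h1, by simpa using h2, by simpa using h3, fun b => ?_⟩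
  have hb : b ∈ ([0, 1, 2] : List (ZMod 3)) := by revert b; decide
  have h5 := h4 b hb
  rw [List.any_eq_true] at h5
  obtain ⟨p, hp, hp2⟩ := h5
  obtain ⟨q, hq1, hq2⟩ := rh_closed (fun i : ZMod L =>
    if i = w then (fun p q => decide (p.2 ≠ b ∧ q.1 = third p.2 b)) else
      rhPass (f i == X) (f (i + 1) == X) (ty i == X)) p hp hp2
  refine ⟨q, hq1, ?_, fun i hi => ?_⟩
  · have := hq2 w
    simpa using this
  · have := hq2 i
    simp only [if_neg hi] at this
    exact rhPass_spec _ _ _ _ _ this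

/-! ### The complete check -/

def rhIsS {L : ℕ} (f ty : ZMod L → Bool) (i : ZMod L) : Bool := (f i == f (i + 1)) && (ty i != f i)
def rhIsN {L : ℕ} (f ty : ZMod L → Bool) (i : ZMod L) : Bool := (f i == f (i + 1)) && (ty i == f i)

theorem rhIsS_iff {L : ℕ} (f ty : ZMod L → Bool) (i : ZMod L) :
    rhIsS f ty i = true ↔ IsS f ty i := by simp [rhIsS, IsS]
theorem rhIsN_iff {L : ℕ} (f ty : ZMod L → Bool) (i : ZMod L) :
    rhIsN f ty i = true ↔ IsN f ty i := by simp [rhIsN, IsN]

/-- all elements of `ZMod L` -/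
def rhAll (L : ℕ) : List (ZMod L) := (List.range L).map (fun i : ℕ => (i : ZMod L))

theorem mem_rhAll {L : ℕ} [NeZero L] (i : ZMod L) : i ∈ rhAll L := by
  rw [rhAll, List.mem_map]
  exact ⟨i.val, List.mem_range.2 (ZMod.val_lt i), ZMod.natCast_zmod_val i⟩

def rhOK (L : ℕ) (ch : ZMod L → ZMod L) (U f ty₀ : ZMod L → Bool) (a b : ZMod L) : Bool :=
  (rhAll L).all (fun i =>
    decide (ch (ch i) = i) &&
    (!(U i) || (decide (ch i = i) && decide (i = a ∨ i = b) && (f i != f (i + 1)))) &&
    (!(decide (ch i = i)) || U i || rhIsS f ty₀ i) &&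
    (decide (ch i = i) || ((ty₀ (ch i) == ty₀ i) && (rhIsS f ty₀ i != rhIsS f ty₀ (ch i)))) &&
    !(rhIsN f ty₀ i && rhIsN f ty₀ (i + 1))) &&
  ((rhAll L).all (fun i => !(decide (ch i = i))) ||
    (rhAll L).any (fun i => decide (ch i = i) && !(U i))) &&
  [true, false].all (fun x => [true, false].all (fun y => [true, false].all (fun X =>
    rhConst L X f (rhTy U ty₀ (fun i => if i = a then x else y)) ||
    ((rhAll L).all (fun i => !(U i) || ((if i = a then x else y) != X)) &&
      (rhAll L).any (fun w => decide (ch w = w) &&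
        rhAct L X f (rhTy U ty₀ (fun i => if i = a then x else y)) w)))))

theorem root_of_check (hP : Stmt_Pure) (L : ℕ) [NeZero L] (ch : ZMod L → ZMod L)
    (U f ty₀ : ZMod L → Bool) (a b : ZMod L) (h : rhOK L ch U f ty₀ a b = true) :
    RootGood L ch := by
  rw [rhOK, Bool.and_eq_true, Bool.and_eq_true, List.all_eq_true] at h
  obtain ⟨⟨hA, hB⟩, hC⟩ := h
  have hA' : ∀ i : ZMod L, _ := fun i => hA i (mem_rhAll i)
  simp only [Bool.and_eq_true, Bool.or_eq_true, Bool.not_eq_true', decide_eq_true_eq,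
    decide_eq_false_iff_not, bne_iff_ne, ne_eq, beq_iff_eq] at hA'
  refine rh_root_of_pure hP L (Nat.one_le_iff_ne_zero.2 (NeZero.ne L)) ch
    (fun i => (hA' i).1.1.1.1) U f ty₀ ?_ ?_ ⟨a, b, ?_⟩ ?_ ?_ ?_ ?_ ?_
  · intro i hi
    rcases (hA' i).1.1.1.2 with h | h
    · rw [hi] at h; exact absurd h (by simp)
    · exact h.1.1
  · rintro ⟨j, hj⟩
    rw [Bool.or_eq_true] at hB
    rcases hB with hB | hB
    · rw [List.all_eq_true] at hB
      have := hB j (mem_rhAll j)
      simp [hj] at this
    · rw [List.any_eq_true] at hB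
      obtain ⟨i, _, hi⟩ := hB
      exact ⟨i, by simpa using hi⟩
  · intro i hi
    rcases (hA' i).1.1.1.2 with h | h
    · rw [hi] at h; exact absurd h (by simp)
    · exact h.1.2
  · intro i hi
    rcases (hA' i).1.1.1.2 with h | h
    · rw [hi] at h; exact absurd h (by simp)
    · exact h.2
  · intro i hi hU
    rcases (hA' i).1.1.2 with (h | h) | h
    · exact absurd hi h
    · rw [hU] at h; exact absurd h (by simp)
    · exact (rhIsS_iff _ _ _).1 h
  · intro i hi
    rcases (hA' i).1.2 with h | h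
    · exact absurd h hi
    · refine ⟨h.1, ?_⟩
      rw [← rhIsS_iff, ← rhIsS_iff]
      have := h.2
      revert this
      cases rhIsS f ty₀ i <;> cases rhIsS f ty₀ (ch i) <;> simp
  · intro i hi
    have := (hA' i).2
    rw [(rhIsN_iff _ _ _).2 hi.1, (rhIsN_iff _ _ _).2 hi.2] at this
    simp at this
  · intro τ X
    have hU2 : ∀ i, U i = true → i = a ∨ i = b := by
      intro i hi
      rcases (hA' i).1.1.1.2 with h | h
      · rw [hi] at h; exact absurd h (by simp)
      · exact h.1.2
    have e : rhTy U ty₀ τ = rhTy U ty₀ (fun i => if i = a then τ a else τ b) := by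
      funext i
      unfold rhTy
      by_cases hi : U i = true
      · rw [if_pos hi, if_pos hi]
        change τ i = if i = a then τ a else τ b
        by_cases ha : i = a
        · simp [ha]
        · rcases hU2 i hi with h | h
          · exact absurd h ha
          · rw [if_neg ha, h]
      · rw [if_neg hi, if_neg hi]
    simp only [List.all_eq_true] at hC
    have h3 := hC (τ a) (by cases τ a <;> simp) (τ b) (by cases τ b <;> simp) X
      (by cases X <;> simp)
    rw [Bool.or_eq_true, Bool.and_eq_true] at h3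
    rw [e]
    rcases h3 with h3 | ⟨h3, h4⟩
    · exact Or.inl (rhConst_spec _ _ _ h3)
    · right
      refine ⟨fun i hi => ?_, ?_⟩
      · rw [List.all_eq_true] at h3
        have h5 := h3 i (mem_rhAll i)
        rw [hi] at h5
        by_cases ha : i = a
        · simpa [ha] using h5
        · rcases hU2 i hi with h | h
          · exact absurd h ha
          · rw [if_neg ha] at h5
            rw [h]; simpa using h5
      · rw [List.any_eq_true] at h4
        obtain ⟨w, _, hw⟩ := h4
        rw [Bool.and_eq_true] at hw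
        exact ⟨w, by simpa using hw.1, rhAct_spec _ _ _ _ hw.2⟩

/-! ### From a table of choices -/

/-- An entry of the table: the chord involution, `U`, `f`, `ty₀`, and two vertices covering `U`. -/
abbrev RhEntry (L : ℕ) : Type :=
  List (ZMod L) × List Bool × List Bool × List Bool × ZMod L × ZMod L

def rhEntryOK (L : ℕ) (e : RhEntry L) : Bool :=
  rhOK L (fun i => e.1.getD i.val 0) (fun i => e.2.1.getD i.val false)
    (fun i => e.2.2.1.getD i.val false) (fun i => e.2.2.2.1.getD i.val false)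
    e.2.2.2.2.1 e.2.2.2.2.2

theorem root_of_entry (hP : Stmt_Pure) (L : ℕ) [NeZero L] (ch : ZMod L → ZMod L) (e : RhEntry L)
    (he : rhEntryOK L e = true) (h : ∀ i, ch i = e.1.getD i.val 0) : RootGood L ch := by
  have hch : ch = fun i => e.1.getD i.val 0 := funext h
  rw [hch]
  exact root_of_check hP L _ _ _ _ _ _ he

theorem rootHyp_L {L : ℕ} {ch : ZMod L → ZMod L} {h s : ℕ} (H : RootHyp L ch h s) :
    L = 2 * h + s := by
  obtain ⟨h1, _, _, h4, h5⟩ := H
  have : NeZero L := ⟨by omega⟩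
  have h6 : Nat.card {i // ch i = i} + Nat.card {i // ¬ ch i = i} = L := by
    rw [← Nat.card_sum, Nat.card_congr (Equiv.sumCompl _), Nat.card_zmod]
  have h7 : Nat.card {i // ¬ ch i = i} = 2 * h := h4
  omega

theorem rh_adj {L : ℕ} {ch : ZMod L → ZMod L} {h s : ℕ} (H : RootHyp L ch h s) (i : ZMod L) :
    ch i ≠ i + 1 ∧ ch i ≠ i - 1 := by
  refine ⟨H.2.2.1 i, fun h => ?_⟩
  have h2 := H.2.1 i
  rw [h] at h2
  exact H.2.2.1 (i - 1) (by rw [h2]; ring)

theorem rh_inv {L : ℕ} {ch : ZMod L → ZMod L} {h s : ℕ} (H : RootHyp L ch h s) (i j : ZMod L) :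
    ch i = j ↔ ch j = i :=
  ⟨fun h => by rw [← h, H.2.1], fun h => by rw [← h, H.2.1]⟩

def rhTab04 : List (RhEntry 4) :=
  [([0, 1, 2, 3], [true, false, true, false],
    [false, true, true, false], [false, false, false, true], 0, 2)]

def rhTab12 : List (RhEntry 4) :=
  [([0, 3, 2, 1], [true, false, false, false],
    [false, true, false, false], [false, true, true, true], 0, 0),
   ([2, 1, 0, 3], [false, true, false, false],
    [false, false, true, false], [true, false, true, true], 1, 1)]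

def rhTab20 : List (RhEntry 4) :=
  [([2, 3, 0, 1], [false, false, false, false],
    [false, false, false, true], [true, true, true, true], 0, 0)]

def rhTab13 : List (RhEntry 5) :=
  [([0, 1, 4, 3, 2], [true, false, false, false, false],
    [false, true, true, false, false], [false, false, true, true, true], 0, 0),
   ([0, 3, 2, 1, 4], [true, false, false, false, false],
    [false, true, true, true, false], [false, false, false, false, true], 0, 0),
   ([0, 4, 2, 3, 1], [false, false, true, false, false],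
    [false, false, false, true, true], [true, true, false, false, true], 2, 2),
   ([2, 1, 0, 3, 4], [false, false, false, true, false],
    [false, true, true, true, false], [false, false, false, false, true], 3, 3),
   ([3, 1, 2, 0, 4], [false, true, false, false, false],
    [false, false, true, true, false], [true, false, false, true, true], 1, 1)]

def rhTab22 : List (RhEntry 6) :=
  [([0, 1, 4, 5, 2, 3], [true, false, false, false, false, false],
    [false, true, true, true, false, false], [false, false, true, true, true, true], 0, 0),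
   ([0, 3, 4, 1, 2, 5], [true, false, false, false, false, false],
    [false, true, true, false, false, false], [false, false, true, false, true, true], 0, 0),
   ([0, 3, 5, 1, 4, 2], [false, false, false, false, false, false],
    [false, false, false, false, true, true], [true, true, true, true, false, true], 0, 0),
   ([0, 4, 2, 5, 1, 3], [false, false, false, false, false, false],
    [false, false, true, true, false, false], [true, true, false, true, true, true], 0, 0),
   ([0, 4, 5, 3, 1, 2], [false, false, false, false, false, false],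
    [false, false, false, true, true, false], [true, true, true, false, true, true], 0, 0),
   ([0, 5, 4, 3, 2, 1], [false, false, false, false, false, false],
    [false, false, false, true, true, true], [true, true, false, false, false, true], 0, 0),
   ([2, 1, 0, 5, 4, 3], [false, false, false, false, false, false],
    [false, false, false, true, true, true], [true, true, true, false, false, false], 0, 0),
   ([2, 3, 0, 1, 4, 5], [false, false, false, false, true, false],
    [false, false, false, true, true, false], [true, false, true, false, false, true], 4, 4),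
   ([2, 4, 0, 3, 1, 5], [false, false, false, false, false, false],
    [false, false, false, true, true, false], [true, true, true, false, true, true], 0, 0),
   ([2, 5, 0, 3, 4, 1], [false, false, false, true, false, false],
    [false, false, true, true, false, false], [false, true, false, false, true, true], 3, 3),
   ([3, 1, 4, 0, 2, 5], [false, false, false, false, false, false],
    [false, true, true, false, false, false], [true, false, true, true, true, true], 0, 0),
   ([3, 1, 5, 0, 4, 2], [false, false, false, false, false, false],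
    [false, false, false, false, true, true], [true, true, true, true, false, true], 0, 0),
   ([3, 4, 2, 0, 1, 5], [false, false, false, false, false, false],
    [false, false, true, true, false, false], [true, true, false, true, true, true], 0, 0),
   ([3, 5, 2, 0, 4, 1], [false, false, false, false, false, false],
    [false, false, false, false, true, true], [true, true, true, true, false, true], 0, 0),
   ([4, 1, 2, 5, 0, 3], [false, true, false, false, false, false],
    [false, false, true, true, true, false], [true, false, false, true, true, true], 1, 1),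
   ([4, 1, 5, 3, 0, 2], [false, false, false, false, false, false],
    [false, false, false, true, true, false], [true, true, true, false, true, true], 0, 0),
   ([4, 3, 2, 1, 0, 5], [false, false, false, false, false, false],
    [false, false, true, true, true, false], [true, false, false, false, true, true], 0, 0),
   ([4, 5, 2, 3, 0, 1], [false, false, true, false, false, false],
    [false, false, false, true, true, true], [true, true, false, false, true, true], 2, 2)]

def rhTab30 : List (RhEntry 6) :=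
  [([2, 4, 0, 5, 1, 3], [false, false, false, false, false, false],
    [false, false, false, true, true, false], [true, true, true, true, true, true], 0, 0),
   ([3, 4, 5, 0, 1, 2], [false, false, false, false, false, false],
    [false, false, false, false, true, true], [true, false, true, true, false, true], 0, 0),
   ([3, 5, 4, 0, 2, 1], [false, false, false, false, false, false],
    [false, false, false, false, true, true], [true, true, false, true, false, true], 0, 0),
   ([4, 3, 5, 1, 0, 2], [false, false, false, false, false, false],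
    [false, false, false, false, true, true], [false, true, true, true, false, true], 0, 0)]

theorem rhTab04_ok : rhTab04.all (rhEntryOK 4) = true := by decide +kernel
theorem rhTab12_ok : rhTab12.all (rhEntryOK 4) = true := by decide +kernel
theorem rhTab20_ok : rhTab20.all (rhEntryOK 4) = true := by decide +kernel
theorem rhTab13_ok : rhTab13.all (rhEntryOK 5) = true := by decide +kernel
theorem rhTab22_ok : rhTab22.all (rhEntryOK 6) = true := by decide +kernel
theorem rhTab30_ok : rhTab30.all (rhEntryOK 6) = true := by decide +kernel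

theorem rh_enum4 (tab : List (RhEntry 4)) (n : ℕ)
    (hd : ∀ c0 : ZMod 4, c0 ≠ 1 ∧ c0 ≠ 3 → ∀ c1 : ZMod 4, c1 ≠ 2 ∧ c1 ≠ 0 →
      ∀ c2 : ZMod 4, c2 ≠ 3 ∧ c2 ≠ 1 ∧ (c0 = 2 ↔ c2 = 0) →
      ∀ c3 : ZMod 4, c3 ≠ 0 ∧ c3 ≠ 2 ∧ (c1 = 3 ↔ c3 = 1) →
      (if c0 ≠ 0 then 1 else 0) + (if c1 ≠ 1 then 1 else 0) + (if c2 ≠ 2 then 1 else 0) +
        (if c3 ≠ 3 then 1 else 0) = n → (tab.map (fun e => e.1)).contains [c0, c1, c2, c3] = true)
    (hP : Stmt_Pure) (htab : tab.all (rhEntryOK 4) = true) (h s : ℕ) (hn : 2 * h = n)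
    (hL : 2 * h + s = 4) : Stmt_RootHS h s := by
  intro L ch H
  have := rootHyp_L H
  rw [hL] at this
  subst this
  have hcard := H.2.2.2.1
  rw [Nat.card_eq_fintype_card, Fintype.card_subtype, Finset.card_filter] at hcard
  have hs := Fin.sum_univ_four (fun i => (fun j : ZMod 4 => if ch j ≠ j then 1 else 0) i)
  have hc : (if ch 0 ≠ 0 then 1 else 0) + (if ch 1 ≠ 1 then 1 else 0) +
      (if ch 2 ≠ 2 then 1 else 0) + (if ch 3 ≠ 3 then 1 else 0) = n :=
    hs.symm.trans (hcard.trans hn)
  have hm := hd (ch 0) (rh_adj H 0) (ch 1) (rh_adj H 1) (ch 2)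
    ⟨(rh_adj H 2).1, (rh_adj H 2).2, rh_inv H 0 2⟩ (ch 3)
    ⟨(rh_adj H 3).1, (rh_adj H 3).2, rh_inv H 1 3⟩ hc
  rw [List.contains_iff_mem, List.mem_map] at hm
  obtain ⟨e, he, he2⟩ := hm
  refine root_of_entry hP 4 ch e (List.all_eq_true.1 htab e he) ?_
  rw [he2]
  intro i
  fin_cases i <;> rfl

theorem rootHS04_proof (hP : Stmt_Pure) : Stmt_RootHS 0 4 :=
  rh_enum4 rhTab04 0 (by decide +kernel) hP rhTab04_ok 0 4 rfl rfl

theorem rootHS12_proof (hP : Stmt_Pure) : Stmt_RootHS 1 2 :=
  rh_enum4 rhTab12 2 (by decide +kernel) hP rhTab12_ok 1 2 rfl rfl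

theorem rootHS20_proof (hP : Stmt_Pure) : Stmt_RootHS 2 0 :=
  rh_enum4 rhTab20 4 (by decide +kernel) hP rhTab20_ok 2 0 rfl rfl

theorem rh_enum5 (tab : List (RhEntry 5)) (n : ℕ)
    (hd : ∀ c0 : ZMod 5, c0 ≠ 1 ∧ c0 ≠ 4 → ∀ c1 : ZMod 5, c1 ≠ 2 ∧ c1 ≠ 0 →
      ∀ c2 : ZMod 5, c2 ≠ 3 ∧ c2 ≠ 1 ∧ (c0 = 2 ↔ c2 = 0) →
      ∀ c3 : ZMod 5, c3 ≠ 4 ∧ c3 ≠ 2 ∧ (c0 = 3 ↔ c3 = 0) ∧ (c1 = 3 ↔ c3 = 1) →
      ∀ c4 : ZMod 5, c4 ≠ 0 ∧ c4 ≠ 3 ∧ (c1 = 4 ↔ c4 = 1) ∧ (c2 = 4 ↔ c4 = 2) →
      (if c0 ≠ 0 then 1 else 0) + (if c1 ≠ 1 then 1 else 0) + (if c2 ≠ 2 then 1 else 0) +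
        (if c3 ≠ 3 then 1 else 0) + (if c4 ≠ 4 then 1 else 0) = n →
      (tab.map (fun e => e.1)).contains [c0, c1, c2, c3, c4] = true)
    (hP : Stmt_Pure) (htab : tab.all (rhEntryOK 5) = true) (h s : ℕ) (hn : 2 * h = n)
    (hL : 2 * h + s = 5) : Stmt_RootHS h s := by
  intro L ch H
  have := rootHyp_L H
  rw [hL] at this
  subst this
  have hcard := H.2.2.2.1
  rw [Nat.card_eq_fintype_card, Fintype.card_subtype, Finset.card_filter] at hcard
  have hs := Fin.sum_univ_five (fun i => (fun j : ZMod 5 => if ch j ≠ j then 1 else 0) i)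
  have hc : (if ch 0 ≠ 0 then 1 else 0) + (if ch 1 ≠ 1 then 1 else 0) +
      (if ch 2 ≠ 2 then 1 else 0) + (if ch 3 ≠ 3 then 1 else 0) + (if ch 4 ≠ 4 then 1 else 0)
      = n := hs.symm.trans (hcard.trans hn)
  have hm := hd (ch 0) (rh_adj H 0) (ch 1) (rh_adj H 1) (ch 2)
    ⟨(rh_adj H 2).1, (rh_adj H 2).2, rh_inv H 0 2⟩ (ch 3)
    ⟨(rh_adj H 3).1, (rh_adj H 3).2, rh_inv H 0 3, rh_inv H 1 3⟩ (ch 4)
    ⟨(rh_adj H 4).1, (rh_adj H 4).2, rh_inv H 1 4, rh_inv H 2 4⟩ hc
  rw [List.contains_iff_mem, List.mem_map] at hm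
  obtain ⟨e, he, he2⟩ := hm
  refine root_of_entry hP 5 ch e (List.all_eq_true.1 htab e he) ?_
  rw [he2]
  intro i
  fin_cases i <;> rfl

theorem rootHS13_proof (hP : Stmt_Pure) : Stmt_RootHS 1 3 :=
  rh_enum5 rhTab13 2 (by decide +kernel) hP rhTab13_ok 1 3 rfl rfl

theorem rh_enum6 (tab : List (RhEntry 6)) (n : ℕ)
    (hd : ∀ c0 : ZMod 6, c0 ≠ 1 ∧ c0 ≠ 5 → ∀ c1 : ZMod 6, c1 ≠ 2 ∧ c1 ≠ 0 →
      ∀ c2 : ZMod 6, c2 ≠ 3 ∧ c2 ≠ 1 ∧ (c0 = 2 ↔ c2 = 0) →
      ∀ c3 : ZMod 6, c3 ≠ 4 ∧ c3 ≠ 2 ∧ (c0 = 3 ↔ c3 = 0) ∧ (c1 = 3 ↔ c3 = 1) →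
      ∀ c4 : ZMod 6, c4 ≠ 5 ∧ c4 ≠ 3 ∧ (c0 = 4 ↔ c4 = 0) ∧ (c1 = 4 ↔ c4 = 1) ∧
        (c2 = 4 ↔ c4 = 2) →
      ∀ c5 : ZMod 6, c5 ≠ 0 ∧ c5 ≠ 4 ∧ (c1 = 5 ↔ c5 = 1) ∧ (c2 = 5 ↔ c5 = 2) ∧
        (c3 = 5 ↔ c5 = 3) →
      (if c0 ≠ 0 then 1 else 0) + (if c1 ≠ 1 then 1 else 0) + (if c2 ≠ 2 then 1 else 0) +
        (if c3 ≠ 3 then 1 else 0) + (if c4 ≠ 4 then 1 else 0) + (if c5 ≠ 5 then 1 else 0) = n →
      (tab.map (fun e => e.1)).contains [c0, c1, c2, c3, c4, c5] = true)
    (hP : Stmt_Pure) (htab : tab.all (rhEntryOK 6) = true) (h s : ℕ) (hn : 2 * h = n)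
    (hL : 2 * h + s = 6) : Stmt_RootHS h s := by
  intro L ch H
  have := rootHyp_L H
  rw [hL] at this
  subst this
  have hcard := H.2.2.2.1
  rw [Nat.card_eq_fintype_card, Fintype.card_subtype, Finset.card_filter] at hcard
  have hs := Fin.sum_univ_six (fun i => (fun j : ZMod 6 => if ch j ≠ j then 1 else 0) i)
  have hc : (if ch 0 ≠ 0 then 1 else 0) + (if ch 1 ≠ 1 then 1 else 0) +
      (if ch 2 ≠ 2 then 1 else 0) + (if ch 3 ≠ 3 then 1 else 0) + (if ch 4 ≠ 4 then 1 else 0) +
      (if ch 5 ≠ 5 then 1 else 0) = n := hs.symm.trans (hcard.trans hn)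
  have hm := hd (ch 0) (rh_adj H 0) (ch 1) (rh_adj H 1) (ch 2)
    ⟨(rh_adj H 2).1, (rh_adj H 2).2, rh_inv H 0 2⟩ (ch 3)
    ⟨(rh_adj H 3).1, (rh_adj H 3).2, rh_inv H 0 3, rh_inv H 1 3⟩ (ch 4)
    ⟨(rh_adj H 4).1, (rh_adj H 4).2, rh_inv H 0 4, rh_inv H 1 4, rh_inv H 2 4⟩ (ch 5)
    ⟨(rh_adj H 5).1, (rh_adj H 5).2, rh_inv H 1 5, rh_inv H 2 5, rh_inv H 3 5⟩ hc
  rw [List.contains_iff_mem, List.mem_map] at hm
  obtain ⟨e, he, he2⟩ := hm
  refine root_of_entry hP 6 ch e (List.all_eq_true.1 htab e he) ?_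
  rw [he2]
  intro i
  fin_cases i <;> rfl

set_option synthInstance.maxSize 100000 in
set_option synthInstance.maxHeartbeats 4000000 in
theorem rootHS22_proof (hP : Stmt_Pure) : Stmt_RootHS 2 2 :=
  rh_enum6 rhTab22 4 (by decide +kernel) hP rhTab22_ok 2 2 rfl rfl

set_option synthInstance.maxSize 100000 in
set_option synthInstance.maxHeartbeats 4000000 in
theorem rootHS30_proof (hP : Stmt_Pure) : Stmt_RootHS 3 0 :=
  rh_enum6 rhTab30 6 (by decide +kernel) hP rhTab30_ok 3 0 rfl rfl

end Pool.Agent.Trunc
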