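import Pool.Agent.Trunc.RootPure

namespace Pool.Agent.Trunc

open Finset

/-- `RootHS 0 3`. -/
theorem rootHS03_of (hPure : Stmt_Pure) (hZero : Stmt_SkelZero) : Stmt_RootHS 0 3 := by
  classical
  intro L ch hyp
  obtain ⟨hL, hinv, hadj, hcB, hcA⟩ := hyp
  have : NeZero L := ⟨by omega⟩
  have hB : (univ.filter (fun i : ZMod L => ch i ≠ i)).card = 0 := by
    rw [← Fintype.card_subtype, ← Nat.card_eq_fintype_card, hcB]
  have hA : (univ.filter (fun i : ZMod L => ch i = i)).card = 3 := by
    rw [← hcA, Nat.card_eq_fintype_card, Fintype.card_subtype]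
  have hall : ∀ i, ch i = i := by
    intro i
    by_contra hi
    rw [Finset.card_eq_zero] at hB
    have : i ∈ univ.filter (fun i : ZMod L => ch i ≠ i) := by simp [hi]
    rw [hB] at this
    simp at this
  have hL3 : L = 3 := by
    have h1 : (univ.filter (fun i : ZMod L => ch i = i)) = univ := by
      ext i; simp [hall i]
    rw [h1, card_univ, ZMod.card] at hA
    exact hA
  obtain ⟨z1, z2, z3⟩ := hZero L (by omega) true (fun _ => true) (fun _ => false)
    (fun _ => rfl)
  refine root_of_pure hPure (by omega) hinv (fun _ => False) False (fun _ => false)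
    (fun _ => true) (fun _ _ => false) (fun _ h => h.elim) ?_ False.elim
    (fun _ _ h => h.elim) ?_ ?_ ?_ ?_ (fun _ _ h => h.elim)
  · rintro ⟨i, hi⟩; exact ⟨i, hi, fun h => h⟩
  · intro _ i _ _; exact ⟨⟨rfl, Bool.false_ne_true⟩, rfl⟩
  · intro _ i hi; exact absurd (hall i) hi
  · intro _ i hi; exact absurd hi.1.2 Bool.false_ne_true
  · intro _ X
    cases X
    · exact Or.inr ⟨0, hall 0, z3 0 rfl⟩
    · exact Or.inl (z1 (by rw [hL3]) (fun _ => by decide))

end Pool.Agent.Trunc
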