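import Pool.Agent.Trunc.RootBig

namespace Pool.Agent.Trunc

open Finset

/-- Two crossing chords. -/
theorem exists_crossing {L : ℕ} [NeZero L] (hL : 3 ≤ L) (ch : ZMod L → ZMod L)
    (hinv : ∀ i, ch (ch i) = i)
    (hadj : ∀ i, ch i ≠ i + 1) (hall : ∀ i, ch i ≠ i) :
    ∃ a x : ZMod L, a.val < x.val ∧ x.val < (ch a).val ∧
      ((ch a).val < (ch x).val ∨ (ch x).val < a.val) := by
  classical
  -- minimal chord
  have hne : ∃ d : ℕ, ∃ a : ZMod L, a.val < (ch a).val ∧ (ch a).val - a.val = d := by
    rcases lt_or_ge (0 : ZMod L).val (ch 0).val with h | h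
    · exact ⟨_, 0, h, rfl⟩
    · exfalso
      exact hall 0 (ZMod.val_injective L (by rw [ZMod.val_zero] at h ⊢; omega))
  obtain ⟨a, ha, hd⟩ := Nat.find_spec hne
  have hmin : ∀ i : ZMod L, i.val < (ch i).val → (ch a).val - a.val ≤ (ch i).val - i.val := by
    intro i hi
    rw [hd]
    exact Nat.find_min' hne ⟨i, hi, rfl⟩
  have hbL : (ch a).val < L := ZMod.val_lt _
  have hx : (a + 1 : ZMod L).val = a.val + 1 := by
    rw [ZMod.val_add, ZMod.val_one'' (by omega), Nat.mod_eq_of_lt (by omega)]
  have hxb : (a + 1 : ZMod L).val < (ch a).val := by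
    have : (a + 1 : ZMod L).val ≠ (ch a).val := fun h =>
      hadj a (ZMod.val_injective L h).symm
    omega
  refine ⟨a, a + 1, by omega, hxb, ?_⟩
  by_contra hcon
  push Not at hcon
  obtain ⟨h1, h2⟩ := hcon
  -- ch (a+1) lies in [a, ch a]
  have hxa : ch (a + 1) ≠ a := fun h => by
    have := hinv (a + 1); rw [h] at this; exact hadj a this
  have hxb' : ch (a + 1) ≠ ch a := fun h => by
    have h3 : a + 1 = a := by rw [← hinv (a + 1), h, hinv]
    have h4 := congrArg ZMod.val h3
    omega
  have h3 : (ch (a + 1)).val ≠ a.val := fun h => hxa (ZMod.val_injective L h)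
  have h4 : (ch (a + 1)).val ≠ (ch a).val := fun h => hxb' (ZMod.val_injective L h)
  have h5 : (ch (a + 1)).val ≠ (a + 1 : ZMod L).val := fun h =>
    hall (a + 1) (ZMod.val_injective L h)
  have h6 := hmin (a + 1) (by omega)
  omega

/-- Flipping the side assignment on an arc. -/
theorem flip_arc {L : ℕ} [NeZero L] (hL : 3 ≤ L) (f : ZMod L → Bool) (x y : ZMod L)
    (hxy : x.val < y.val) (i : ZMod L) :
    ((f i ^^ decide (x.val < i.val ∧ i.val ≤ y.val)) ≠
      (f (i + 1) ^^ decide (x.val < (i + 1).val ∧ (i + 1).val ≤ y.val))) ↔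
    (if i = x ∨ i = y then f i = f (i + 1) else f i ≠ f (i + 1)) := by
  have hyL : y.val < L := ZMod.val_lt _
  have hiL : i.val < L := ZMod.val_lt _
  have key : ∀ (p q : Bool) (P Q : Prop) [Decidable P] [Decidable Q],
      ((p ^^ decide P) ≠ (q ^^ decide Q)) ↔ (if ¬ (P ↔ Q) then p = q else p ≠ q) := by
    intro p q P Q _ _
    by_cases hP : P <;> by_cases hQ : Q <;> cases p <;> cases q <;> simp [hP, hQ]
  rw [key]
  have : (¬ ((x.val < i.val ∧ i.val ≤ y.val) ↔
      (x.val < (i + 1).val ∧ (i + 1).val ≤ y.val))) ↔ (i = x ∨ i = y) := by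
    have e1 : i = x ↔ i.val = x.val := ⟨fun h => by rw [h], fun h => ZMod.val_injective L h⟩
    have e2 : i = y ↔ i.val = y.val := ⟨fun h => by rw [h], fun h => ZMod.val_injective L h⟩
    rw [e1, e2]
    rcases Nat.lt_or_ge (i.val + 1) L with h | h
    · have e : (i + 1 : ZMod L).val = i.val + 1 := by
        rw [ZMod.val_add, ZMod.val_one'' (by omega), Nat.mod_eq_of_lt h]
      rw [e]; omega
    · have e : (i + 1 : ZMod L).val = 0 := by
        rw [ZMod.val_add, ZMod.val_one'' (by omega)]
        have : i.val + 1 = L := by omega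
        rw [this, Nat.mod_self]
      rw [e]; omega
  simp only [this]

/-- `RootHam`. -/
theorem rootHam_of (hPure : Stmt_Pure) (hAlt : Stmt_Alt) (hBig : Stmt_SkelBig) :
    Stmt_RootHam := by
  classical
  intro L h ch hyp hodd h5
  obtain ⟨hL, hinv, hadj, hcB, hcA⟩ := hyp
  have : NeZero L := ⟨by omega⟩
  have hall : ∀ i, ch i ≠ i := by
    intro i hi
    rw [Nat.card_eq_fintype_card, Fintype.card_eq_zero_iff] at hcA
    exact hcA.elim ⟨i, hi⟩
  have hB : (univ.filter (fun i : ZMod L => ch i ≠ i)).card = 2 * h := by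
    rw [← hcB, Nat.card_eq_fintype_card, Fintype.card_subtype]
  have hP : (univ.filter (fun i : ZMod L => i.val < (ch i).val)).card = h := by
    have := card_lower_ends ch hinv
    omega
  obtain ⟨a, x, hax, hxb, hcross⟩ := exists_crossing hL ch hinv hadj hall
  set b := ch a with hb
  have hba : ch b = a := by rw [hb, hinv]
  set y := ch x with hy
  have hyx : ch y = x := by rw [hy, hinv]
  have hab : a ≠ b := fun h => hall a h.symm
  have hxa : x ≠ a := fun h => by rw [h] at hax; exact lt_irrefl _ hax
  have hxb' : x ≠ b := fun h => by rw [h] at hxb; exact lt_irrefl _ hxb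
  have hya : y ≠ a := fun h => by rw [h] at hcross; omega
  have hyb : y ≠ b := fun h => by rw [h] at hcross; omega
  have hxy : x ≠ y := fun h => hall x h.symm
  -- it is enough to find a good side assignment
  have key : ∀ (M : ZMod L → Prop) (f : ZMod L → Bool), (∀ i, (f i ≠ f (i + 1) ↔ M i)) →
      ¬ M a → ¬ M b → (∀ i, i ≠ a → i ≠ b → (M i ↔ ¬ M (ch i))) →
      4 ≤ Nat.card {i // M i} → f a ≠ f b → RootGood L ch := by
    intro M f hf hMa hMb hM h4 hfab
    have hcf : 4 ≤ Nat.card {i : ZMod L // f i ≠ f (i + 1)} := by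
      have : Nat.card {i : ZMod L // f i ≠ f (i + 1)} = Nat.card {i : ZMod L // M i} :=
        Nat.card_congr (Equiv.subtypeEquivRight hf)
      rw [this]; exact h4
    have hC : ∀ ty X, ConstSkel X f ty := fun ty X => hBig L (by omega) f ty hcf X
    have hfa : f a = f (a + 1) := by by_contra hc; exact hMa ((hf a).mp hc)
    have hfb : f b = f (b + 1) := by by_contra hc; exact hMb ((hf b).mp hc)
    set ty : ZMod L → Bool := fun i => if i = a then f a else if M i then !f (ch i) else !f i
      with hty
    have htya : ty a = f a := by simp [hty]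
    have htyM : ∀ i, i ≠ a → M i → ty i = !f (ch i) := by
      intro i hi hM; simp [hty, hi, hM]
    have htyN : ∀ i, i ≠ a → ¬ M i → ty i = !f i := by
      intro i hi hM; simp [hty, hi, hM]
    have hnotS : ∀ i, i = a ∨ M i → ¬ IsS f ty i := by
      rintro i (hi | hi) h
      · exact h.2 (by rw [hi, htya])
      · exact ((hf i).mpr hi) h.1
    have hS : ∀ i, i ≠ a → ¬ M i → IsS f ty i := by
      intro i hi hMi
      refine ⟨by by_contra hc; exact hMi ((hf i).mp hc), ?_⟩
      rw [htyN i hi hMi]; cases f i <;> decide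
    refine root_of_pure hPure (by omega) hinv (fun _ => False) False (fun _ => true) f
      (fun _ => ty) (fun _ h => h.elim) ?_ False.elim (fun _ _ h => h.elim) ?_ ?_ ?_ ?_ ?_
    · rintro ⟨i, hi⟩; exact absurd hi (hall i)
    · intro _ i hi; exact absurd hi (hall i)
    · intro _ i _
      by_cases hia : i = a
      · subst hia
        refine ⟨?_, ?_⟩
        · rw [← hb, htya, htyN b hab.symm hMb]
          revert hfab; cases f i <;> cases f b <;> decide
        · constructor
          · intro h; exact absurd h (hnotS _ (Or.inl rfl))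
          · intro h; exact absurd (hS b hab.symm hMb) h
      · by_cases hib : i = b
        · rw [hib, hba]
          refine ⟨?_, ?_⟩
          · rw [htya, htyN b hab.symm hMb]
            revert hfab; cases f a <;> cases f b <;> decide
          · constructor
            · intro _; exact hnotS _ (Or.inl rfl)
            · intro _; exact hS b hab.symm hMb
        · have hca : ch i ≠ a := fun h => hib (by rw [← hinv i, h])
          by_cases hMi : M i
          · have hMc := (hM i hia hib).mp hMi
            refine ⟨?_, ?_⟩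
            · rw [htyN _ hca hMc, htyM i hia hMi]
            · constructor
              · intro h; exact absurd h (hnotS _ (Or.inr hMi))
              · intro h; exact absurd (hS _ hca hMc) h
          · have hMc : M (ch i) := by
              by_contra hc; exact hMi ((hM i hia hib).mpr hc)
            refine ⟨?_, ?_⟩
            · rw [htyM _ hca hMc, hinv, htyN i hia hMi]
            · constructor
              · intro _; exact hnotS _ (Or.inr hMc)
              · intro _; exact hS i hia hMi
    · intro _ i hN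
      have hNo : ∀ j, IsN f ty j → j = a := by
        rintro j ⟨e1, e2⟩
        by_contra hja
        have hMj : ¬ M j := fun h => (hf j).mpr h e1
        rw [htyN j hja hMj] at e2
        revert e2; cases f j <;> decide
      have e1 := hNo _ hN.1
      have e2 := hNo _ hN.2
      rw [e1] at e2
      have e3 : a.val = (a + 1 : ZMod L).val := by rw [e2]
      have hbL : b.val < L := ZMod.val_lt _
      rw [ZMod.val_add, ZMod.val_one'' (by omega), Nat.mod_eq_of_lt (by omega)] at e3
      omega
    · intro _ X; exact Or.inl (hC _ X)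
    · intro _ _ h; exact h.elim
  -- first choice
  set M1 : ZMod L → Prop := fun i => i.val < (ch i).val ∧ i ≠ a with hM1
  have hM1a : ¬ M1 a := fun h => h.2 rfl
  have hM1b : ¬ M1 b := fun h => by
    have := h.1; rw [hba] at this; omega
  have hM1c : ∀ i, i ≠ a → i ≠ b → (M1 i ↔ ¬ M1 (ch i)) := by
    intro i hia hib
    have hca : ch i ≠ a := fun h => hib (by rw [← hinv i, h])
    have hne : i.val ≠ (ch i).val := fun h => hall i (ZMod.val_injective L h).symm
    simp only [hM1, hinv, hia, hca, ne_eq, not_false_eq_true, and_true]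
    omega
  have hcM1 : Nat.card {i // M1 i} = h - 1 := by
    rw [Nat.card_eq_fintype_card, Fintype.card_subtype]
    have : univ.filter M1 = (univ.filter (fun i : ZMod L => i.val < (ch i).val)).erase a := by
      ext i; simp [hM1, and_comm]
    rw [this, card_erase_of_mem, hP]
    simp only [mem_filter, mem_univ, true_and]
    rw [← hb]
    omega
  obtain ⟨f1, -, hf1⟩ := hAlt L (by omega) M1 (by
    rw [hcM1]; obtain ⟨k, hk⟩ := hodd; exact ⟨k, by omega⟩) 0 true
  by_cases hfab : f1 a = f1 b
  swap
  · exact key M1 f1 hf1 hM1a hM1b hM1c (by omega) hfab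
  -- second choice: move the mixed vertex to the other end of the chord `x y`
  obtain ⟨p, q, hpq, hpqxy, hsep⟩ : ∃ p q : ZMod L, p.val < q.val ∧
      ((p = x ∧ q = y) ∨ (p = y ∧ q = x)) ∧
      (decide (p.val < a.val ∧ a.val ≤ q.val) ≠ decide (p.val < b.val ∧ b.val ≤ q.val)) := by
    rcases hcross with hc | hc
    · refine ⟨x, y, by omega, Or.inl ⟨rfl, rfl⟩, ?_⟩
      have e1 : ¬ (x.val < a.val ∧ a.val ≤ y.val) := by omega
      have e2 : (x.val < b.val ∧ b.val ≤ y.val) := by omega
      simp [e1, e2]
    · refine ⟨y, x, by omega, Or.inr ⟨rfl, rfl⟩, ?_⟩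
      have e1 : (y.val < a.val ∧ a.val ≤ x.val) := by omega
      have e2 : ¬ (y.val < b.val ∧ b.val ≤ x.val) := by omega
      simp [e1, e2]
  have hpq' : ∀ i, (i = p ∨ i = q) ↔ (i = x ∨ i = y) := by
    intro i
    rcases hpqxy with ⟨rfl, rfl⟩ | ⟨rfl, rfl⟩
    · rfl
    · exact or_comm
  set f2 : ZMod L → Bool := fun i => (f1 i ^^ decide (p.val < i.val ∧ i.val ≤ q.val)) with hf2
  set M2 : ZMod L → Prop := fun i => if i = x ∨ i = y then ¬ M1 i else M1 i with hM2
  have hf2M : ∀ i, (f2 i ≠ f2 (i + 1) ↔ M2 i) := by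
    intro i
    have := flip_arc hL f1 p q hpq i
    simp only [hf2, hM2]
    rw [this]
    by_cases hi : i = x ∨ i = y
    · rw [if_pos ((hpq' i).mpr hi), if_pos hi, ← hf1 i]
      exact not_not.symm
    · rw [if_neg (fun h => hi ((hpq' i).mp h)), if_neg hi, ← hf1 i]
  have hMaxy : ¬ (a = x ∨ a = y) := by
    rintro (h | h)
    · exact hxa h.symm
    · exact hya h.symm
  have hMbxy : ¬ (b = x ∨ b = y) := by
    rintro (h | h)
    · exact hxb' h.symm
    · exact hyb h.symm
  have hswap : ∀ i, (ch i = x ∨ ch i = y) ↔ (i = x ∨ i = y) := by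
    intro i
    have e1 : ch i = x ↔ i = y := ⟨fun h => by rw [← hinv i, h], fun h => by rw [h, hyx]⟩
    have e2 : ch i = y ↔ i = x := ⟨fun h => by rw [← hinv i, h, hyx], fun h => by rw [h]⟩
    rw [e1, e2]; exact or_comm
  have hxM : M1 x ↔ ¬ M1 y := hM1c x hxa hxb'
  refine key M2 f2 hf2M ?_ ?_ ?_ ?_ ?_
  · simp only [hM2]; rw [if_neg hMaxy]; exact hM1a
  · simp only [hM2]; rw [if_neg hMbxy]; exact hM1b
  · intro i hia hib
    have := hM1c i hia hib
    simp only [hM2]
    by_cases hi : i = x ∨ i = y
    · rw [if_pos hi, if_pos ((hswap i).mpr hi)]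
      constructor
      · intro h1 h2; exact h1 (this.mpr h2)
      · intro h1 h2; exact h1 (fun h3 => (this.mp h2) h3)
    · rw [if_neg hi, if_neg (fun h => hi ((hswap i).mp h))]
      exact this
  · -- cardinality
    have : Nat.card {i // M2 i} = Nat.card {i // M1 i} := by
      refine Nat.card_congr ?_
      refine (Equiv.subtypeEquiv (Equiv.swap x y) ?_)
      intro i
      simp only [hM2]
      by_cases hix : i = x
      · subst hix
        rw [Equiv.swap_apply_left, if_pos (Or.inl rfl), hxM, not_not]
      · by_cases hiy : i = y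
        · rw [hiy, Equiv.swap_apply_right, if_pos (Or.inr rfl), hxM]
        · rw [Equiv.swap_apply_of_ne_of_ne hix hiy, if_neg (by tauto)]
    rw [this, hcM1]; omega
  · simp only [hf2]
    rw [hfab]
    intro h
    apply hsep
    revert h
    cases f1 b <;> cases decide (p.val < a.val ∧ a.val ≤ q.val) <;>
      cases decide (p.val < b.val ∧ b.val ≤ q.val) <;> decide

end Pool.Agent.Trunc
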