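import Pool.Agent.Trunc.SkelTwo

/-! [SkelBig] -/

open Finset

namespace Pool.Agent.Trunc

/-- image of a set of pairs under one step -/
def TS (a b t : Bool) (S : ZMod 3 × ZMod 3 → Prop) (q : ZMod 3 × ZMod 3) : Prop :=
  q.1 ≠ q.2 ∧ ∃ p, S p ∧ PassStep a b t p q

/-- levels of largeness -/
def Lev : ℕ → (ZMod 3 × ZMod 3 → Prop) → Prop
  | 0, S => ∃ p, p.1 ≠ p.2 ∧ S p
  | 1, S => ∃ ρ, ∀ l, ρ ≠ l → S (ρ, l)
  | 2, S => ∃ ρ, (∀ q : ZMod 3 × ZMod 3, q.1 ≠ q.2 → q.1 ≠ ρ → S q) ∨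
      (∀ q : ZMod 3 × ZMod 3, q.1 ≠ q.2 → q.2 ≠ ρ → S q) ∨
      (∀ q : ZMod 3 × ZMod 3, q.1 ≠ q.2 → third q.1 q.2 ≠ ρ → S q)
  | 3, S => ∀ η, ∃ ρ, ρ ≠ η ∧ S (ρ, η)
  | _ + 4, S => ∀ q : ZMod 3 × ZMod 3, q.1 ≠ q.2 → S q

theorem exit_step (t : Bool) (p : ZMod 3 × ZMod 3) (l : ZMod 3) :
    PassStep true false t p (exitVal t p, l) := by
  cases t <;> exact rfl

theorem entry_step (t : Bool) (r : ZMod 3) (q : ZMod 3 × ZMod 3) :
    PassStep false true t (r, entryVal t q) q := by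
  cases t <;> exact rfl

theorem pred_exists : ∀ (a b t : Bool) (q : ZMod 3 × ZMod 3), q.1 ≠ q.2 →
    ∃ p : ZMod 3 × ZMod 3, p.1 ≠ p.2 ∧ PassStep a b t p q := by
  intro a b t
  cases a <;> cases b <;> cases t <;> simp only [PassStep] <;> decide

theorem rotPred : ∀ q : ZMod 3 × ZMod 3, q.1 ≠ q.2 →
    rot (third q.1 q.2, q.1) = q ∧ third q.1 q.2 ≠ q.1 ∧
      third (third q.1 q.2) q.1 = q.2 := by
  decide

theorem exit_fact : ∀ (t : Bool) (ρ η : ZMod 3),
    (∃ p : ZMod 3 × ZMod 3, p.1 ≠ p.2 ∧ p.1 ≠ ρ ∧ exitVal t p ≠ η) ∧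
    (∃ p : ZMod 3 × ZMod 3, p.1 ≠ p.2 ∧ p.2 ≠ ρ ∧ exitVal t p ≠ η) ∧
    (∃ p : ZMod 3 × ZMod 3, p.1 ≠ p.2 ∧ third p.1 p.2 ≠ ρ ∧ exitVal t p ≠ η) := by
  decide

theorem Lev_step (k : ℕ) (a b t : Bool) (S : ZMod 3 × ZMod 3 → Prop) (h : Lev k S)
    (hpar : a = true ↔ Even k) : Lev (k + if a ≠ b then 1 else 0) (TS a b t S) := by
  match k, h, hpar with
  | 0, h, hpar =>
    have ha : a = true := hpar.2 (by decide)
    subst ha
    obtain ⟨p, hp, hS⟩ := h
    cases b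
    · show ∃ ρ, ∀ l, ρ ≠ l → TS true false t S (ρ, l)
      exact ⟨exitVal t p, fun l hl => ⟨hl, p, hS, exit_step t p l⟩⟩
    · show ∃ q : ZMod 3 × ZMod 3, q.1 ≠ q.2 ∧ TS true true t S q
      exact ⟨rot p, rot_ne hp, rot_ne hp, p, hS, passStep_rot t p hp⟩
  | 1, h, hpar =>
    have ha : a = false := by
      cases a
      · rfl
      · exact absurd (hpar.1 rfl) (by decide)
    subst ha
    obtain ⟨ρ, hρ⟩ := h
    cases b
    · show ∃ ρ, ∀ l, ρ ≠ l → TS false false t S (ρ, l)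
      exact ⟨ρ, fun l hl => ⟨hl, (ρ, l), hρ l hl, rfl⟩⟩
    · show ∃ ρ, (∀ q : ZMod 3 × ZMod 3, q.1 ≠ q.2 → q.1 ≠ ρ → TS false true t S q) ∨
        (∀ q : ZMod 3 × ZMod 3, q.1 ≠ q.2 → q.2 ≠ ρ → TS false true t S q) ∨
        (∀ q : ZMod 3 × ZMod 3, q.1 ≠ q.2 → third q.1 q.2 ≠ ρ → TS false true t S q)
      refine ⟨ρ, ?_⟩
      cases t
      · right; right
        intro q hq hq'
        exact ⟨hq, (ρ, entryVal false q), hρ _ (fun e => hq' e.symm), entry_step _ _ _⟩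
      · right; left
        intro q hq hq'
        exact ⟨hq, (ρ, entryVal true q), hρ _ (fun e => hq' e.symm), entry_step _ _ _⟩
  | 2, h, hpar =>
    have ha : a = true := hpar.2 (by decide)
    subst ha
    obtain ⟨ρ, hρ⟩ := h
    cases b
    · show ∀ η, ∃ ρ, ρ ≠ η ∧ TS true false t S (ρ, η)
      intro η
      obtain ⟨⟨p1, h11, h12, h13⟩, ⟨p2, h21, h22, h23⟩, ⟨p3, h31, h32, h33⟩⟩ :=
        exit_fact t ρ η
      rcases hρ with h | h | h
      · exact ⟨exitVal t p1, h13, h13, p1, h p1 h11 h12, exit_step _ _ _⟩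
      · exact ⟨exitVal t p2, h23, h23, p2, h p2 h21 h22, exit_step _ _ _⟩
      · exact ⟨exitVal t p3, h33, h33, p3, h p3 h31 h32, exit_step _ _ _⟩
    · show ∃ ρ, (∀ q : ZMod 3 × ZMod 3, q.1 ≠ q.2 → q.1 ≠ ρ → TS true true t S q) ∨
        (∀ q : ZMod 3 × ZMod 3, q.1 ≠ q.2 → q.2 ≠ ρ → TS true true t S q) ∨
        (∀ q : ZMod 3 × ZMod 3, q.1 ≠ q.2 → third q.1 q.2 ≠ ρ → TS true true t S q)
      refine ⟨ρ, ?_⟩
      have key : ∀ q : ZMod 3 × ZMod 3, q.1 ≠ q.2 → S (third q.1 q.2, q.1) →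
          TS true true t S q := by
        intro q hq hS
        obtain ⟨h1, h2, _⟩ := rotPred q hq
        refine ⟨hq, _, hS, ?_⟩
        have := passStep_rot t (third q.1 q.2, q.1) h2
        rw [h1] at this
        exact this
      rcases hρ with h | h | h
      · right; right
        intro q hq hq'
        obtain ⟨h1, h2, h3⟩ := rotPred q hq
        exact key q hq (h _ h2 hq')
      · left
        intro q hq hq'
        obtain ⟨h1, h2, h3⟩ := rotPred q hq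
        exact key q hq (h _ h2 hq')
      · right; left
        intro q hq hq'
        obtain ⟨h1, h2, h3⟩ := rotPred q hq
        refine key q hq (h _ h2 ?_)
        show third (third q.1 q.2) q.1 ≠ ρ
        rw [h3]
        exact hq'
  | 3, h, hpar =>
    have ha : a = false := by
      cases a
      · rfl
      · exact absurd (hpar.1 rfl) (by decide)
    subst ha
    cases b
    · show ∀ η, ∃ ρ, ρ ≠ η ∧ TS false false t S (ρ, η)
      intro η
      obtain ⟨ρ, h1, h2⟩ := h η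
      exact ⟨ρ, h1, h1, (ρ, η), h2, rfl⟩
    · show ∀ q : ZMod 3 × ZMod 3, q.1 ≠ q.2 → TS false true t S q
      intro q hq
      obtain ⟨ρ, h1, h2⟩ := h (entryVal t q)
      exact ⟨hq, _, h2, entry_step _ _ _⟩
  | k + 4, h, hpar =>
    have key : ∀ q : ZMod 3 × ZMod 3, q.1 ≠ q.2 → TS a b t S q := by
      intro q hq
      obtain ⟨p, hp1, hp2⟩ := pred_exists a b t q hq
      exact ⟨hq, p, h p hp1, hp2⟩
    have e : (k + 4 + if a ≠ b then 1 else 0) = (k + if a ≠ b then 1 else 0) + 4 := by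
      split_ifs <;> omega
    rw [e]
    exact key

section

variable {L : ℕ} (X : Bool) (f ty : ZMod L → Bool) (v : ZMod L)

/-- pairs reachable at the edge `j` from `p₀` -/
def Reach (p₀ : ZMod 3 × ZMod 3) : ℕ → ZMod 3 × ZMod 3 → Prop
  | 0 => fun q => q = p₀
  | j + 1 => TS (f (v + (j : ZMod L)) == X) (f (v + ((j + 1 : ℕ) : ZMod L)) == X)
      (ty (v + (j : ZMod L)) == X) (Reach p₀ j)

theorem reach_path (p₀ : ZMod 3 × ZMod 3) (hp₀ : p₀.1 ≠ p₀.2) (j : ℕ) :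
    ∀ q, Reach X f ty v p₀ j q → ∃ P : ℕ → ZMod 3 × ZMod 3, P 0 = p₀ ∧ P j = q ∧
      (∀ i, (P i).1 ≠ (P i).2) ∧ ∀ i, i < j →
        PassStep (f (v + (i : ZMod L)) == X) (f (v + ((i + 1 : ℕ) : ZMod L)) == X)
          (ty (v + (i : ZMod L)) == X) (P i) (P (i + 1)) := by
  induction j with
  | zero =>
    intro q hq
    have hq' : q = p₀ := hq
    subst hq'
    exact ⟨fun _ => q, rfl, rfl, fun _ => hp₀, fun i hi => absurd hi (Nat.not_lt_zero _)⟩
  | succ j ih =>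
    intro q hq
    obtain ⟨h1, p, h2, h3⟩ := hq
    obtain ⟨P, hP0, hPj, hPd, hPs⟩ := ih p h2
    refine ⟨fun i => if i ≤ j then P i else q, by simp [hP0], by simp, ?_, ?_⟩
    · intro i
      dsimp only
      split_ifs
      · exact hPd i
      · exact h1
    · intro i hi
      dsimp only
      rcases Nat.lt_or_ge i j with h | h
      · rw [if_pos (le_of_lt h), if_pos (show i + 1 ≤ j from h)]
        exact hPs i h
      · have : i = j := by omega
        subst this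
        rw [if_pos le_rfl, if_neg (by omega), hPj]
        exact h3

/-- number of mixed vertices before the edge `j` -/
def kap (j : ℕ) : ℕ :=
  ∑ i ∈ range j, if (f (v + (i : ZMod L)) ≠ f (v + ((i + 1 : ℕ) : ZMod L))) then 1 else 0

theorem bool_iff (x y z : Bool) : ((x == z) ≠ (y == z)) ↔ x ≠ y := by
  revert x y z
  decide

theorem reach_Lev (p₀ : ZMod 3 × ZMod 3) (hp₀ : p₀.1 ≠ p₀.2) (hv : f v = X) (j : ℕ) :
    Lev (kap f v j) (Reach X f ty v p₀ j) ∧
      ((f (v + (j : ZMod L)) == X) = true ↔ Even (kap f v j)) := by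
  induction j with
  | zero =>
    refine ⟨⟨p₀, hp₀, rfl⟩, ?_⟩
    simp [kap, hv]
  | succ j ih =>
    obtain ⟨ih1, ih2⟩ := ih
    have e : kap f v (j + 1) = kap f v j +
        if ((f (v + (j : ZMod L)) == X) ≠ (f (v + ((j + 1 : ℕ) : ZMod L)) == X))
          then 1 else 0 := by
      rw [kap, sum_range_succ, ← kap]
      congr 1
      have := bool_iff (f (v + (j : ZMod L))) (f (v + ((j + 1 : ℕ) : ZMod L))) X
      by_cases h : f (v + (j : ZMod L)) ≠ f (v + ((j + 1 : ℕ) : ZMod L))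
      · rw [if_pos h, if_pos (this.2 h)]
      · rw [if_neg h, if_neg (fun h' => h (this.1 h'))]
    refine ⟨?_, ?_⟩
    · rw [e]
      exact Lev_step _ _ _ _ _ ih1 ih2
    · rw [e]
      revert ih2
      generalize (f (v + (j : ZMod L)) == X) = x
      generalize (f (v + ((j + 1 : ℕ) : ZMod L)) == X) = y
      generalize kap f v j = m
      intro h
      cases x <;> cases y <;> simp_all [Nat.even_add_one]

theorem kap_card (hL : 1 ≤ L) :
    kap f v L = Nat.card {i : ZMod L // f i ≠ f (i + 1)} := by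
  haveI : NeZero L := ⟨by omega⟩
  rw [Nat.card_eq_fintype_card, Fintype.card_subtype, card_filter]
  rw [← Equiv.sum_comp (Equiv.addLeft v) (fun i => if f i ≠ f (i + 1) then 1 else 0)]
  rw [kap]
  refine sum_nbij' (fun j => (j : ZMod L)) (fun i => i.val) ?_ ?_ ?_ ?_ ?_
  · intro j _
    exact mem_univ _
  · intro i _
    exact mem_range.2 (ZMod.val_lt i)
  · intro j hj
    rw [mem_range] at hj
    show (j : ZMod L).val = j
    rw [ZMod.val_natCast, Nat.mod_eq_of_lt hj]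
  · intro i _
    exact ZMod.natCast_zmod_val i
  · intro j _
    have e : v + ((j + 1 : ℕ) : ZMod L) = v + (j : ZMod L) + 1 := by push_cast; ring
    rw [e]
    rfl

end

theorem skelBig_proof : Stmt_SkelBig := by
  intro L hL f ty h4 X
  haveI : NeZero L := ⟨by omega⟩
  have hex : ∃ v, f v = X := by
    have : 0 < Nat.card {i : ZMod L // f i ≠ f (i + 1)} := by omega
    obtain ⟨⟨i, hi⟩⟩ := (Nat.card_pos_iff.1 this).1
    by_cases h : f i = X
    · exact ⟨i, h⟩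
    · refine ⟨i + 1, ?_⟩
      revert h hi
      generalize f i = x
      generalize f (i + 1) = y
      revert x y X
      decide
  obtain ⟨v, hv⟩ := hex
  refine ⟨⟨v, hv⟩, ?_⟩
  have hp : ((0, 1) : ZMod 3 × ZMod 3).1 ≠ ((0, 1) : ZMod 3 × ZMod 3).2 := by decide
  obtain ⟨h1, _⟩ := reach_Lev X f ty v (0, 1) hp hv L
  have hk := kap_card f v hL
  obtain ⟨m, hm⟩ : ∃ m, kap f v L = m + 4 := ⟨kap f v L - 4, by omega⟩
  rw [hm] at h1
  obtain ⟨P, hP0, hPL, hPd, hPs⟩ := reach_path X f ty v (0, 1) hp L _ (h1 (0, 1) hp)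
  obtain ⟨p, _, hp2⟩ := cyc hL v P
    (fun i p q => p.1 ≠ p.2 ∧ PassStep (f i == X) (f (i + 1) == X) (ty i == X) p q)
    (by rw [hP0, hPL]) (by
      intro j hj
      refine ⟨hPd j, ?_⟩
      have e : v + (j : ZMod L) + 1 = v + ((j + 1 : ℕ) : ZMod L) := by push_cast; ring
      rw [e]
      exact hPs j hj)
  exact ⟨p, hp2⟩

end Pool.Agent.Trunc
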