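import Pool.Agent.Trunc.SkelLib

/-! [SkelTwo] -/

namespace Pool.Agent.Trunc

def exitVal (b : Bool) (q : ZMod 3 × ZMod 3) : ZMod 3 := if b then third q.1 q.2 else q.2

def entryVal (a : Bool) (q : ZMod 3 × ZMod 3) : ZMod 3 := if a then q.2 else third q.1 q.2

theorem skelTwo_F1 : ∀ (m : Fin 3) (a b : Bool), ModOK (m.val + 1) a b →
    ∃ q : ZMod 3 × ZMod 3, q.1 ≠ q.2 ∧ exitVal b (rot^[m.val] q) ≠ entryVal a q := by
  intro m a b
  fin_cases m <;> cases a <;> cases b <;> simp only [ModOK] <;> decide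

theorem skelTwo_F2 : ∀ (m₁ m₂ : Fin 3) (a b : Bool),
    ∃ q q' : ZMod 3 × ZMod 3, q.1 ≠ q.2 ∧ q'.1 ≠ q'.2 ∧ q'.1 ≠ (rot^[m₁.val] q).1 ∧
      exitVal b (rot^[m₂.val] q') ≠ entryVal a q := by
  intro m₁ m₂ a b
  fin_cases m₁ <;> fin_cases m₂ <;> cases a <;> cases b <;> decide

theorem skelTwo_F3 : ∀ (m : Fin 3) (a b : Bool) (c : ZMod 3),
    ∃ (q : ZMod 3 × ZMod 3) (l : ZMod 3), q.1 ≠ q.2 ∧ l ≠ c ∧ exitVal b (rot^[m.val] q) ≠ l ∧
      third l c ≠ entryVal a q := by
  intro m a b
  fin_cases m <;> cases a <;> cases b <;> decide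

theorem rot_iter_step (a b : ℕ) (h : b = a + 1) (q : ZMod 3 × ZMod 3) :
    rot^[b] q = rot (rot^[a] q) := by
  subst h
  exact Function.iterate_succ_apply' rot a q

theorem passStep_rot (t : Bool) (q : ZMod 3 × ZMod 3) (h : q.1 ≠ q.2) :
    PassStep true true t q (rot q) := by
  cases t
  · exact rfl
  · show (rot q).1 ≠ q.1
    exact fun e => h e.symm

section

variable {L n : ℕ} {v : ZMod L} {X : Bool} {f ty : ZMod L → Bool}

theorem skelTwo_const (hn : 1 ≤ n) (hnL : n < L)
    (hX : ∀ j : ℕ, 1 ≤ j → j ≤ n → f (v + (j : ZMod L)) = X)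
    (hY : ∀ j : ℕ, n < j → j ≤ L → f (v + (j : ZMod L)) = !X)
    (Q : ℕ → ZMod 3 × ZMod 3) (hQ : ∀ j, 1 ≤ j → j ≤ n → (Q j).1 ≠ (Q j).2)
    (hs : ∀ j, 1 ≤ j → j < n →
      PassStep true true (ty (v + (j : ZMod L)) == X) (Q j) (Q (j + 1)))
    (hne : exitVal (ty (v + (n : ZMod L)) == X) (Q n) ≠ entryVal (ty v == X) (Q 1)) :
    ConstSkel X f ty := by
  refine ⟨⟨v + (1 : ℕ), hX 1 le_rfl hn⟩, ?_⟩
  set c : ZMod 3 × ZMod 3 := (exitVal (ty (v + (n : ZMod L)) == X) (Q n),
    entryVal (ty v == X) (Q 1)) with hc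
  set P : ℕ → ZMod 3 × ZMod 3 := fun j => if 1 ≤ j ∧ j ≤ n then Q j else c with hP
  have P0 : P 0 = c := by simp [hP]
  have PL : P L = c := by
    simp only [hP]
    rw [if_neg (by omega)]
  have Pin : ∀ j, 1 ≤ j → j ≤ n → P j = Q j := by
    intro j h1 h2
    simp only [hP]
    rw [if_pos ⟨h1, h2⟩]
  have Pout : ∀ j, n < j → P j = c := by
    intro j h1
    simp only [hP]
    rw [if_neg (by omega)]
  have hdist : ∀ j, (P j).1 ≠ (P j).2 := by
    intro j
    simp only [hP]
    split_ifs with h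
    · exact hQ j h.1 h.2
    · exact hne
  have hv : f v = !X := by
    have := hY L hnL le_rfl
    simpa using this
  obtain ⟨p, hp1, hp2⟩ := cyc (L := L) (by omega) v P
    (fun i p q => p.1 ≠ p.2 ∧ PassStep (f i == X) (f (i + 1) == X) (ty i == X) p q)
    (by rw [P0, PL]) (by
      intro j hj
      refine ⟨hdist j, ?_⟩
      have e : v + (j : ZMod L) + 1 = v + ((j + 1 : ℕ) : ZMod L) := by push_cast; ring
      rw [e]
      rcases Nat.eq_zero_or_pos j with h0 | h0
      · subst h0
        have h1 := hX 1 le_rfl hn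
        have h2 : f (v + ((0 : ℕ) : ZMod L)) = !X := by simpa using hv
        rw [P0, Pin 1 le_rfl hn, h2]
        simp only [zero_add]
        rw [h1]
        have e1 : ((!X) == X) = false := by cases X <;> rfl
        have e2 : (X == X) = true := by cases X <;> rfl
        have e3 : v + ((0 : ℕ) : ZMod L) = v := by simp
        rw [e1, e2, e3]
        cases ht : (ty v == X)
        · show c.2 = third (Q 1).1 (Q 1).2
          rw [hc, ht]
          rfl
        · show (Q 1).2 = c.2
          rw [hc, ht]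
          rfl
      · rcases lt_trichotomy j n with h | h | h
        · rw [Pin j h0 (le_of_lt h), Pin (j + 1) (by omega) h, hX j h0 (le_of_lt h),
            hX (j + 1) (by omega) h]
          have e2 : (X == X) = true := by cases X <;> rfl
          rw [e2]
          exact hs j h0 h
        · subst h
          rw [Pin j h0 le_rfl, Pout (j + 1) (by omega), hX j h0 le_rfl,
            hY (j + 1) (by omega) (by omega)]
          have e1 : ((!X) == X) = false := by cases X <;> rfl
          have e2 : (X == X) = true := by cases X <;> rfl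
          rw [e1, e2]
          cases ht : (ty (v + (j : ZMod L)) == X)
          · show c.1 = (Q j).2
            rw [hc, ht]
            rfl
          · show c.1 = third (Q j).1 (Q j).2
            rw [hc, ht]
            rfl
        · rw [Pout j h, Pout (j + 1) (by omega), hY j h (le_of_lt hj),
            hY (j + 1) (by omega) (by omega)]
          have e1 : ((!X) == X) = false := by cases X <;> rfl
          rw [e1]
          exact rfl)
  exact ⟨p, hp2⟩

theorem skelTwo_mod (hn : 1 ≤ n) (hnL : n < L)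
    (hX : ∀ j : ℕ, 1 ≤ j → j ≤ n → f (v + (j : ZMod L)) = X)
    (hY : ∀ j : ℕ, n < j → j ≤ L → f (v + (j : ZMod L)) = !X)
    (hm : ModOK n (ty v == X) (ty (v + (n : ZMod L)) == X)) : ConstSkel X f ty := by
  have hm' : ModOK ((n - 1) % 3 + 1) (ty v == X) (ty (v + (n : ZMod L)) == X) := by
    revert hm
    generalize (ty v == X) = a
    generalize (ty (v + (n : ZMod L)) == X) = b
    cases a <;> cases b <;> simp only [ModOK] <;> omega
  obtain ⟨q, hq1, hq2⟩ := skelTwo_F1 ⟨(n - 1) % 3, Nat.mod_lt _ (by norm_num)⟩ _ _ hm'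
  refine skelTwo_const hn hnL hX hY (fun j => rot^[j - 1] q) (fun j _ _ => rot_iter_ne _ hq1)
    ?_ ?_
  · intro j h1 h2
    have : rot^[j + 1 - 1] q = rot (rot^[j - 1] q) :=
        rot_iter_step _ _ (by omega) _
    show PassStep true true _ (rot^[j - 1] q) (rot^[j + 1 - 1] q)
    rw [this]
    exact passStep_rot _ _ (rot_iter_ne _ hq1)
  · show exitVal _ (rot^[n - 1] q) ≠ entryVal _ (rot^[1 - 1] q)
    rw [rot_iter_mod (n - 1)]
    exact hq2

theorem skelTwo_N (hn : 1 ≤ n) (hnL : n < L)
    (hX : ∀ j : ℕ, 1 ≤ j → j ≤ n → f (v + (j : ZMod L)) = X)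
    (hY : ∀ j : ℕ, n < j → j ≤ L → f (v + (j : ZMod L)) = !X)
    (hm : ∃ j : ℕ, 1 ≤ j ∧ j < n ∧ ty (v + (j : ZMod L)) = X) : ConstSkel X f ty := by
  obtain ⟨k, hk1, hk2, hk3⟩ := hm
  obtain ⟨q, q', hq1, hq2, hq3, hq4⟩ := skelTwo_F2 ⟨(k - 1) % 3, Nat.mod_lt _ (by norm_num)⟩
    ⟨(n - k - 1) % 3, Nat.mod_lt _ (by norm_num)⟩ (ty v == X) (ty (v + (n : ZMod L)) == X)
  refine skelTwo_const hn hnL hX hY
    (fun j => if j ≤ k then rot^[j - 1] q else rot^[j - k - 1] q') ?_ ?_ ?_
  · intro j _ _
    split_ifs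
    · exact rot_iter_ne _ hq1
    · exact rot_iter_ne _ hq2
  · intro j h1 h2
    rcases lt_trichotomy j k with h | h | h
    · rw [if_pos (le_of_lt h), if_pos (show j + 1 ≤ k from h)]
      have : rot^[j + 1 - 1] q = rot (rot^[j - 1] q) :=
        rot_iter_step _ _ (by omega) _
      rw [this]
      exact passStep_rot _ _ (rot_iter_ne _ hq1)
    · subst h
      rw [if_pos le_rfl, if_neg (by omega), hk3]
      have e2 : (X == X) = true := by cases X <;> rfl
      rw [e2]
      show (rot^[j + 1 - j - 1] q').1 ≠ (rot^[j - 1] q).1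
      have e : j + 1 - j - 1 = 0 := by omega
      rw [e, rot_iter_mod (j - 1)]
      exact hq3
    · rw [if_neg (by omega), if_neg (by omega)]
      have : rot^[j + 1 - k - 1] q' = rot (rot^[j - k - 1] q') :=
        rot_iter_step _ _ (by omega) _
      rw [this]
      exact passStep_rot _ _ (rot_iter_ne _ hq2)
  · rw [if_neg (by omega), if_pos hk1, rot_iter_mod (n - k - 1)]
    exact hq4

theorem skelTwo_act (hn : 1 ≤ n) (hnL : n < L)
    (hX : ∀ j : ℕ, 1 ≤ j → j ≤ n → f (v + (j : ZMod L)) = X)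
    (hY : ∀ j : ℕ, n < j → j ≤ L → f (v + (j : ZMod L)) = !X)
    (k : ℕ) (hk1 : n < k) (hk2 : k < L) (hk3 : ty (v + (k : ZMod L)) = X) :
    ActSkel X f ty (v + (k : ZMod L)) := by
  have hXX : (!X) ≠ X := by cases X <;> decide
  have ek : v + (k : ZMod L) + 1 = v + ((k + 1 : ℕ) : ZMod L) := by push_cast; ring
  refine ⟨?_, ?_, hk3, ?_⟩
  · rw [hY k hk1 (le_of_lt hk2)]
    exact hXX
  · rw [ek, hY (k + 1) (by omega) (by omega)]
    exact hXX
  intro b
  obtain ⟨q, l, hq, hlb, hρ, hη⟩ := skelTwo_F3 ⟨(n - 1) % 3, Nat.mod_lt _ (by norm_num)⟩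
    (ty v == X) (ty (v + (n : ZMod L)) == X) b
  set c : ZMod 3 × ZMod 3 := (exitVal (ty (v + (n : ZMod L)) == X) (rot^[(n - 1) % 3] q), l)
    with hc
  set c' : ZMod 3 × ZMod 3 := (third l b, entryVal (ty v == X) q) with hc'
  set P : ℕ → ZMod 3 × ZMod 3 := fun j =>
    if j = 0 then c' else if j ≤ n then rot^[j - 1] q else if j ≤ k then c else c' with hP
  have P0 : P 0 = c' := by simp [hP]
  have Pout' : ∀ j, k < j → P j = c' := by
    intro j h1
    simp only [hP]
    rw [if_neg (by omega), if_neg (by omega), if_neg (by omega)]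
  have Pin : ∀ j, 1 ≤ j → j ≤ n → P j = rot^[j - 1] q := by
    intro j h1 h2
    simp only [hP]
    rw [if_neg (by omega), if_pos h2]
  have Pout : ∀ j, n < j → j ≤ k → P j = c := by
    intro j h1 h2
    simp only [hP]
    rw [if_neg (by omega), if_neg (by omega), if_pos h2]
  have hdist : ∀ j, (P j).1 ≠ (P j).2 := by
    intro j
    simp only [hP]
    split_ifs with h h1 h2
    · exact hη
    · exact rot_iter_ne _ hq
    · exact hρ
    · exact hη
  have hv : f v = !X := by
    have := hY L hnL le_rfl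
    simpa using this
  have e1 : ((!X) == X) = false := by cases X <;> rfl
  have e2 : (X == X) = true := by cases X <;> rfl
  haveI : NeZero L := ⟨by omega⟩
  have hinj : ∀ j, j < L → v + (j : ZMod L) = v + (k : ZMod L) → j = k := by
    intro j hj h
    have h' := add_left_cancel h
    have := congrArg ZMod.val h'
    rw [ZMod.val_natCast, ZMod.val_natCast, Nat.mod_eq_of_lt hj, Nat.mod_eq_of_lt hk2] at this
    exact this
  obtain ⟨p, hp1, hp2⟩ := cyc (L := L) (by omega) v P
    (fun i p q => p.1 ≠ p.2 ∧ (i = v + (k : ZMod L) → p.2 ≠ b ∧ q.1 = third p.2 b) ∧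
      (i ≠ v + (k : ZMod L) → PassStep (f i == X) (f (i + 1) == X) (ty i == X) p q))
    (by rw [P0, Pout' L hk2]) (by
      intro j hj
      refine ⟨hdist j, ?_, ?_⟩
      · intro h
        have := hinj j hj h
        subst this
        rw [Pout j hk1 le_rfl, Pout' (j + 1) (by omega)]
        exact ⟨hlb, rfl⟩
      intro hjk
      have hjk' : j ≠ k := fun h => hjk (by rw [h])
      have e : v + (j : ZMod L) + 1 = v + ((j + 1 : ℕ) : ZMod L) := by push_cast; ring
      rw [e]
      rcases Nat.eq_zero_or_pos j with h0 | h0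
      · subst h0
        have h1 := hX 1 le_rfl hn
        have h2 : f (v + ((0 : ℕ) : ZMod L)) = !X := by simpa using hv
        rw [P0, Pin (0 + 1) (by omega) (by omega), h2]
        simp only [zero_add]
        rw [h1]
        have e3 : v + ((0 : ℕ) : ZMod L) = v := by simp
        rw [e1, e2, e3]
        cases ht : (ty v == X)
        · show c'.2 = third q.1 q.2
          rw [hc', ht]
          rfl
        · show q.2 = c'.2
          rw [hc', ht]
          rfl
      · rcases lt_trichotomy j n with h | h | h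
        · rw [Pin j h0 (le_of_lt h), Pin (j + 1) (by omega) h, hX j h0 (le_of_lt h),
            hX (j + 1) (by omega) h, e2]
          have : rot^[j + 1 - 1] q = rot (rot^[j - 1] q) :=
        rot_iter_step _ _ (by omega) _
          rw [this]
          exact passStep_rot _ _ (rot_iter_ne _ hq)
        · subst h
          rw [Pin j h0 le_rfl, Pout (j + 1) (by omega) (by omega), hX j h0 le_rfl,
            hY (j + 1) (by omega) (by omega), e1, e2]
          cases ht : (ty (v + (j : ZMod L)) == X)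
          · show c.1 = (rot^[j - 1] q).2
            rw [hc, ht, rot_iter_mod (j - 1)]
            rfl
          · show c.1 = third (rot^[j - 1] q).1 (rot^[j - 1] q).2
            rw [hc, ht, rot_iter_mod (j - 1)]
            rfl
        · rw [hY j h (le_of_lt hj), hY (j + 1) (by omega) (by omega), e1]
          rcases lt_or_gt_of_ne hjk' with h5 | h5
          · rw [Pout j h (by omega), Pout (j + 1) (by omega) (by omega)]
            exact rfl
          · rw [Pout' j h5, Pout' (j + 1) (by omega)]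
            exact rfl)
  exact ⟨p, fun i => (hp2 i).1, (hp2 _).2.1 rfl, fun i hi => (hp2 i).2.2 hi⟩

end

theorem skelTwo_proof : Stmt_SkelTwo := by
  intro L n hn hnL v X f ty hX hY
  refine ⟨?_, ?_⟩
  · rintro (h | h)
    · exact skelTwo_N hn hnL hX hY h
    · exact skelTwo_mod hn hnL hX hY h
  · intro j h1 h2 h3
    exact skelTwo_act hn hnL hX hY j h1 h2 h3

end Pool.Agent.Trunc
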