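import Pool.Agent.Trunc.Defs

/-!
# [SkelZero]: skeletons when there are no mixed vertices
-/

namespace Pool.Agent.Trunc

namespace SkelZero

theorem rot_ne (p : ZMod 3 × ZMod 3) (h : p.1 ≠ p.2) : (rot p).1 ≠ (rot p).2 := by
  revert p
  decide

theorem rot_fst_ne (p : ZMod 3 × ZMod 3) (h : p.1 ≠ p.2) : (rot p).1 ≠ p.1 := by
  revert p
  decide

theorem rot_iter_ne (p : ZMod 3 × ZMod 3) (h : p.1 ≠ p.2) (n : ℕ) :
    (rot^[n] p).1 ≠ (rot^[n] p).2 := by
  induction n with
  | zero => exact h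
  | succ n ih =>
    rw [Function.iterate_succ_apply']
    exact rot_ne _ ih

theorem rot3 (p : ZMod 3 × ZMod 3) (h : p.1 ≠ p.2) : rot (rot (rot p)) = p := by
  revert p
  decide

theorem rot_iter_mod (n : ℕ) : rot^[n] ((0 : ZMod 3), (1 : ZMod 3)) = rot^[n % 3] (0, 1) := by
  induction n using Nat.strong_induction_on with
  | _ n ih =>
    by_cases hn : n < 3
    · rw [Nat.mod_eq_of_lt hn]
    · obtain ⟨m, rfl⟩ : ∃ m, n = m + 3 := ⟨n - 3, by omega⟩
      rw [Nat.add_mod_right, ← ih m (by omega)]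
      rw [Function.iterate_succ_apply', Function.iterate_succ_apply',
        Function.iterate_succ_apply']
      exact rot3 _ (rot_iter_ne _ (by decide) m)

/-- The rotating pairs that start at the edge `i0`. -/
theorem rotating (L : ℕ) (hL : 1 ≤ L) (i0 : ZMod L) :
    ∃ p : ZMod L → ZMod 3 × ZMod 3, (∀ i, (p i).1 ≠ (p i).2) ∧
      (∀ i, i ≠ i0 - 1 → p (i + 1) = rot (p i)) ∧ p i0 = (0, 1) ∧
      p (i0 - 1) = rot^[L - 1] (0, 1) := by
  have : NeZero L := ⟨by omega⟩
  have hL1 : ((L - 1 : ℕ) : ZMod L) = -1 := by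
    rw [Nat.cast_sub hL]
    simp
  refine ⟨fun i => rot^[(i - i0).val] (0, 1), fun i => rot_iter_ne _ (by decide) _, ?_, ?_, ?_⟩
  · intro i hi
    have hlt := ZMod.val_lt (i - i0)
    have hk : (i - i0).val + 1 < L := by
      by_contra hcon
      apply hi
      have hval1 : (i - i0).val = L - 1 := by omega
      have h2 : (((i - i0).val : ℕ) : ZMod L) = i - i0 := ZMod.natCast_zmod_val _
      rw [hval1, hL1] at h2
      have : i = i0 + (i - i0) := by ring
      rw [this, ← h2]
      ring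
    have hval : (i + 1 - i0).val = (i - i0).val + 1 := by
      have : i + 1 - i0 = (((i - i0).val + 1 : ℕ) : ZMod L) := by
        push_cast
        rw [ZMod.natCast_zmod_val]
        ring
      rw [this, ZMod.val_natCast, Nat.mod_eq_of_lt hk]
    simp only [hval]
    rw [Function.iterate_succ_apply']
  · simp
  · have : i0 - 1 - i0 = ((L - 1 : ℕ) : ZMod L) := by
      rw [hL1]
      ring
    simp only [this]
    rw [ZMod.val_natCast, Nat.mod_eq_of_lt (by omega)]

end SkelZero

open SkelZero in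
theorem skelZero_proof : Stmt_SkelZero := by
  intro L hL X f ty hf
  have hne : NeZero L := ⟨by omega⟩
  have hfX : ∀ i, (f i == X) = true := fun i => by simp [hf i]
  refine ⟨?_, ?_, ?_⟩
  · intro hmod hty
    refine ⟨⟨0, hf 0⟩, ?_⟩
    obtain ⟨p, h1, h2, h3, h4⟩ := rotating L hL 0
    refine ⟨p, fun i => ⟨h1 i, ?_⟩⟩
    have hti : (ty i == X) = false := by simpa using hty i
    rw [hfX, hfX, hti]
    simp only [PassStep]
    by_cases hi : i = 0 - 1
    · have h5 : i + 1 = 0 := by rw [hi]; ring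
      rw [h5, hi, h3, h4, rot_iter_mod]
      have : (L - 1) % 3 = 2 := by omega
      rw [this]
      decide
    · exact h2 i hi
  · rintro hmod ⟨w, hw⟩
    refine ⟨⟨0, hf 0⟩, ?_⟩
    obtain ⟨p, h1, h2, h3, h4⟩ := rotating L hL (w + 1)
    have hw1 : w + 1 - 1 = w := by ring
    rw [hw1] at h2 h4
    refine ⟨p, fun i => ⟨h1 i, ?_⟩⟩
    rw [hfX, hfX]
    by_cases hi : i = w
    · have hti : (ty i == X) = true := by simp [hi, hw]
      rw [hti, hi]
      simp only [PassStep]
      rw [h3, h4, rot_iter_mod]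
      have : (L - 1) % 3 = 1 ∨ (L - 1) % 3 = 2 := by omega
      rcases this with h | h <;> rw [h] <;> decide
    · rw [h2 i hi]
      rcases hb : (ty i == X) with _ | _
      · simp only [PassStep]
      · simp only [PassStep]
        exact rot_fst_ne _ (h1 i)
  · intro w hw
    have hfX' : ∀ i, (f i == !X) = false := fun i => by rw [hf i]; cases X <;> rfl
    refine ⟨by rw [hf]; cases X <;> decide, by rw [hf]; cases X <;> decide, hw, fun b => ?_⟩
    have key : ∀ b : ZMod 3, ∃ y : ZMod 3, y ≠ b ∧ third y b ≠ y := by decide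
    obtain ⟨y, hy1, hy2⟩ := key b
    refine ⟨fun _ => (third y b, y), fun _ => hy2, ⟨hy1, rfl⟩, ?_⟩
    intro i _
    rw [hfX', hfX']
    rcases (ty i == !X) with _ | _ <;> simp only [PassStep]

end Pool.Agent.Trunc
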