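import Pool.Agent.Trunc.StMk

/-! Module Sym: rotation and reflection invariance (helper13). -/

namespace Pool.Agent.Trunc

/-- the mirror image of a state: the slots 1 and 2 are exchanged -/
def St.mirror (s : St) : St where
  c i := s.c (Equiv.swap 1 2 i)
  t i := s.t (Equiv.swap 1 2 i)
  inj_c := s.inj_c.comp (Equiv.injective _)
  inj_t := s.inj_t.comp (Equiv.injective _)
  ne _ _ := s.ne _ _

@[simp] theorem St.mirror_c0 (s : St) : s.mirror.c 0 = s.c 0 := by
  show s.c (Equiv.swap 1 2 0) = s.c 0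
  rw [show Equiv.swap (1 : Fin 3) 2 0 = 0 by decide]
@[simp] theorem St.mirror_c1 (s : St) : s.mirror.c 1 = s.c 2 := by
  show s.c (Equiv.swap 1 2 1) = s.c 2
  rw [show Equiv.swap (1 : Fin 3) 2 1 = 2 by decide]
@[simp] theorem St.mirror_c2 (s : St) : s.mirror.c 2 = s.c 1 := by
  show s.c (Equiv.swap 1 2 2) = s.c 1
  rw [show Equiv.swap (1 : Fin 3) 2 2 = 1 by decide]
@[simp] theorem St.mirror_t0 (s : St) : s.mirror.t 0 = s.t 0 := by
  show s.t (Equiv.swap 1 2 0) = s.t 0
  rw [show Equiv.swap (1 : Fin 3) 2 0 = 0 by decide]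
@[simp] theorem St.mirror_t1 (s : St) : s.mirror.t 1 = s.t 2 := by
  show s.t (Equiv.swap 1 2 1) = s.t 2
  rw [show Equiv.swap (1 : Fin 3) 2 1 = 2 by decide]
@[simp] theorem St.mirror_t2 (s : St) : s.mirror.t 2 = s.t 1 := by
  show s.t (Equiv.swap 1 2 2) = s.t 1
  rw [show Equiv.swap (1 : Fin 3) 2 2 = 1 by decide]

theorem fedge_mirror {s s' : St} (h : FEdge s' s) : FEdge s.mirror s'.mirror := by
  rw [fedge_iff] at h ⊢
  simp only [St.mirror_c2, St.mirror_c1, St.mirror_t0, St.mirror_t1, St.mirror_t2]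
  obtain ⟨h1, h2, h3, h4, h5⟩ := h
  exact ⟨h1.symm, h2.symm, h4.symm, h3.symm, h5.symm⟩

theorem offer_mirror {τ : Bool} {s : St} (h : Offer τ s) : Offer τ s.mirror :=
  ⟨by simpa using h.1, by simpa using h.2.2, by simpa using h.2.1⟩

theorem accept_mirror {τ : Bool} {s : St} (h : Accept τ s) : Accept τ s.mirror :=
  ⟨by simpa using h.1, by simpa using h.2.2, by simpa using h.2.1⟩

theorem medge_mirror_left {s s' : St} (h : MEdge s s') : MEdge s.mirror s' := by
  rw [medge_iff] at h ⊢
  simp only [St.mirror_c0, St.mirror_t1, St.mirror_t2]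
  obtain ⟨h1, h2, h3, h4, h5⟩ := h
  exact ⟨h1, h4, h5, h2, h3⟩

theorem medge_mirror {s s' : St} (h : MEdge s s') : MEdge s.mirror s'.mirror := by
  rw [medge_iff] at h ⊢
  simp only [St.mirror_c0, St.mirror_t1, St.mirror_t2]
  obtain ⟨h1, h2, h3, h4, h5⟩ := h
  exact ⟨h1, h5, h4, h3, h2⟩

theorem cycleGood_rot (L : ℕ) (ch : ZMod L → ZMod L) (K Z : ZMod L → Prop) (τK : ZMod L → Bool)
    (r : ZMod L) (h : CycleGood L (fun i => ch (i + r) - r) (fun i => K (i + r))
      (fun i => Z (i + r)) (fun i => τK (i + r))) : CycleGood L ch K Z τK := by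
  obtain ⟨τS, h⟩ := h
  refine ⟨fun i => τS (i - r), fun o ho => ?_⟩
  obtain ⟨s, h1, h2, h3, h4⟩ := h (fun i => o (i + r)) (fun i hi hK => by
    have h5 := ho (i + r) (by simpa [sub_eq_iff_eq_add] using hi) hK
    simpa using h5)
  refine ⟨fun i => s (i - r), fun i => ?_, fun i hi => ?_, fun i hi hK => ?_, fun i hi => ?_⟩
  · have := h1 (i - r)
    rwa [show i - r + 1 = i + 1 - r by ring] at this
  · have := h2 (i - r) (by simpa using hi)
    simpa using this
  · have := h3 (i - r) (by simpa using hi) (by simpa using hK)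
    simpa using this
  · have := h4 (i - r) (by simpa using hi)
    simpa using this

theorem cycleGood_refl (L : ℕ) (ch : ZMod L → ZMod L) (K Z : ZMod L → Prop) (τK : ZMod L → Bool)
    (h : CycleGood L (fun i => - ch (-i)) (fun i => K (-i)) (fun i => Z (-i))
      (fun i => τK (-i))) : CycleGood L ch K Z τK := by
  obtain ⟨τS, h⟩ := h
  refine ⟨fun i => τS (-i), fun o ho => ?_⟩
  obtain ⟨s, h1, h2, h3, h4⟩ := h (fun i => o (-i)) (fun i hi hK => by
    have h5 := ho (-i) (by rw [← neg_eq_iff_eq_neg]; exact hi) hK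
    simpa using h5)
  refine ⟨fun i => (s (-i)).mirror, fun i => ?_, fun i hi => ?_, fun i hi hK => ?_,
    fun i hi => ?_⟩
  · have := h1 (-i - 1)
    rw [show -i - 1 + 1 = -i by ring] at this
    have h5 := fedge_mirror this
    rwa [show -i - 1 = -(i + 1) by ring] at h5
  · have := h2 (-i) (by simpa using hi)
    exact offer_mirror (by simpa using this)
  · have := h3 (-i) (by simpa using hi) (by simpa using hK)
    refine ⟨medge_mirror_left (by simpa using this.1), fun hZ => accept_mirror ?_⟩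
    exact this.2 (by simpa using hZ)
  · have := h4 (-i) (by simpa using hi)
    exact medge_mirror (by simpa using this)

theorem rootGood_rot (L : ℕ) (ch : ZMod L → ZMod L) (r : ZMod L)
    (h : RootGood L (fun i => ch (i + r) - r)) : RootGood L ch := by
  obtain ⟨U, small, τS, hU, hS, hs, h⟩ := h
  refine ⟨fun i => U (i - r), small, fun i => τS (i - r), fun i hi => ?_, ?_, ?_, fun τU => ?_⟩
  · have := hU _ hi
    simpa using this
  · rintro ⟨i, hi⟩
    obtain ⟨j, hj, hj'⟩ := hS ⟨i - r, by simpa using hi⟩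
    exact ⟨j + r, by simpa [sub_eq_iff_eq_add] using hj, by simpa using hj'⟩
  · intro hsm
    obtain ⟨a, b, hab⟩ := hs hsm
    refine ⟨a + r, b + r, fun i hi => ?_⟩
    rcases hab _ hi with h5 | h5
    · exact Or.inl (by rw [← h5]; ring)
    · exact Or.inr (by rw [← h5]; ring)
  · obtain ⟨oU, hoU, h⟩ := h (fun i => τU (i + r))
    refine ⟨fun i => oU (i - r), fun i hi => by simpa using hoU (i - r) hi, fun o ho => ?_⟩
    obtain ⟨s, h1, h3, h4, h5⟩ := h (fun i => o (i + r)) (fun i hi hK => by
      have h5 := ho (i + r) (by simpa [sub_eq_iff_eq_add] using hi) (by simpa using hK)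
      simpa using h5)
    refine ⟨fun i => s (i - r), fun i => ?_, fun i hi hK => ?_, fun i hi => ?_, fun i hi => ?_⟩
    · have := h1 (i - r)
      rwa [show i - r + 1 = i + 1 - r by ring] at this
    · have := h3 (i - r) (by simpa using hi) (by simpa using hK)
      simpa using this
    · have := h4 (i - r) (by simpa using hi)
      simpa using this
    · have := h5 (i - r) hi
      simpa using this

theorem rootGood_refl (L : ℕ) (ch : ZMod L → ZMod L)
    (h : RootGood L (fun i => - ch (-i))) : RootGood L ch := by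
  obtain ⟨U, small, τS, hU, hS, hs, h⟩ := h
  refine ⟨fun i => U (-i), small, fun i => τS (-i), fun i hi => ?_, ?_, ?_, fun τU => ?_⟩
  · have := hU _ hi
    simpa using this
  · rintro ⟨i, hi⟩
    obtain ⟨j, hj, hj'⟩ := hS ⟨-i, by simpa using hi⟩
    exact ⟨-j, by rw [← neg_eq_iff_eq_neg]; exact hj, by simpa using hj'⟩
  · intro hsm
    obtain ⟨a, b, hab⟩ := hs hsm
    refine ⟨-a, -b, fun i hi => ?_⟩
    rcases hab _ hi with h5 | h5
    · exact Or.inl (by rw [← h5]; ring)
    · exact Or.inr (by rw [← h5]; ring)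
  · obtain ⟨oU, hoU, h⟩ := h (fun i => τU (-i))
    refine ⟨fun i => (oU (-i)).mirror, fun i hi => ?_, fun o ho => ?_⟩
    · have := hoU (-i) hi
      exact offer_mirror (by simpa using this)
    obtain ⟨s, h1, h3, h4, h5⟩ := h (fun i => o (-i)) (fun i hi hK => by
      have h5 := ho (-i) (by rw [← neg_eq_iff_eq_neg]; exact hi) (by simpa using hK)
      simpa using h5)
    refine ⟨fun i => (s (-i)).mirror, fun i => ?_, fun i hi hK => ?_, fun i hi => ?_,
      fun i hi => ?_⟩
    · have := h1 (-i - 1)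
      rw [show -i - 1 + 1 = -i by ring] at this
      have h5 := fedge_mirror this
      rwa [show -i - 1 = -(i + 1) by ring] at h5
    · have := h3 (-i) (by simpa using hi) (by simpa using hK)
      exact medge_mirror_left (by simpa using this)
    · have := h4 (-i) (by simpa using hi)
      exact medge_mirror (by simpa using this)
    · obtain ⟨h6, h7, h8⟩ := h5 (-i) hi
      refine ⟨offer_mirror (by simpa using h6), by simpa using h7, fun hns => ?_⟩
      obtain ⟨h9, h10⟩ := h8 hns
      simp only [St.mirror_t1, St.mirror_t2]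
      exact ⟨h10, h9⟩

theorem sym_proof : Stmt_Sym := fun L ch K Z τK =>
  ⟨fun r h => cycleGood_rot L ch K Z τK r h, fun h => cycleGood_refl L ch K Z τK h,
    fun r h => rootGood_rot L ch r h, fun h => rootGood_refl L ch h⟩

end Pool.Agent.Trunc
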