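import Pool.Agent.Trunc.Defs

/-!
# [SRun]: a run of accepting vertices
-/

namespace Pool.Agent.Trunc

namespace SRun

theorem third_ne_left (x y : ZMod 3) (h : x ≠ y) : third x y ≠ x := by
  revert x y
  decide

theorem third_ne_right (x y : ZMod 3) (h : x ≠ y) : third x y ≠ y := by
  revert x y
  decide

theorem choice (x y b : ZMod 3) (h : x ≠ y) : ∃ l, l ≠ x ∧ l ≠ b ∧ third l b ≠ y := by
  revert x y b
  decide

/-- The accepting state. -/
def acc (τ : Bool) (a : ZMod 3 × ZMod 3) (b l : ZMod 3) (ha : a.1 ≠ a.2) (hl : l ≠ b) : St where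
  c := ![(τ, b), (!τ, a.1), (!τ, a.2)]
  t := ![(!τ, third a.1 a.2), (τ, third l b), (τ, l)]
  inj_c := by
    intro i j h
    have ha' := ha.symm
    fin_cases i <;> fin_cases j <;> simp_all
  inj_t := by
    have h1 := third_ne_left l b hl
    have h2 := h1.symm
    intro i j h
    fin_cases i <;> fin_cases j <;> simp_all
  ne := by
    have h1 := third_ne_left a.1 a.2 ha
    have h2 := third_ne_right a.1 a.2 ha
    have h3 := third_ne_right l b hl
    intro i j
    fin_cases i <;> fin_cases j <;> simp <;>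
      first | exact h1.symm | exact h2.symm | exact h3.symm | exact hl.symm

theorem fedge_of (τ : Bool) (s s' : St) (u v x l : ZMod 3) (hc : s.c 2 = s'.c 1)
    (h : (s.t 0 = (!τ, u) ∧ s.t 1 = (τ, x)) ∨ (s.t 1 = (!τ, u) ∧ s.t 0 = (τ, x)))
    (h' : (s'.t 0 = (!τ, v) ∧ s'.t 2 = (τ, l)) ∨ (s'.t 2 = (!τ, v) ∧ s'.t 0 = (τ, l)))
    (huv : u ≠ v) (hxl : x ≠ l) : FEdge s s' := by
  refine ⟨hc, ?_⟩
  intro p q hp hq
  have hp' : p = 0 ∨ p = 1 := by
    clear hq
    revert p
    decide
  have hq' : q = 0 ∨ q = 2 := by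
    clear hp'
    revert q
    decide
  rcases hp' with rfl | rfl <;> rcases hq' with rfl | rfl <;>
    rcases h with ⟨h2, h2'⟩ | ⟨h2, h2'⟩ <;> rcases h' with ⟨h4, h4'⟩ | ⟨h4, h4'⟩ <;>
    simp [*]

end SRun

open SRun in
theorem sRun_proof : Stmt_SRun := by
  intro τ n
  induction n with
  | zero =>
    intro b a x y sL sR ha hxy h1 h2 h3 h4
    refine ⟨fun i => if i = 0 then sL else sR, by simp, by simp, ?_, fun i hi hi' => by omega⟩
    intro i hi
    have : i = 0 := by omega
    subst this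
    simp only [Function.iterate_zero, id_eq] at h3 h4
    have ht := third_ne_right a.1 a.2 ha
    exact fedge_of τ sL sR a.2 (third a.1 a.2) x y (by rw [h1, h3]) h2 h4 ht.symm hxy
  | succ n ih =>
    intro b a x y sL sR ha hxy h1 h2 h3 h4
    obtain ⟨l, hl1, hl2, hl3⟩ := choice x y (b 1) hxy
    have ht := third_ne_right a.1 a.2 ha
    obtain ⟨s, g1, g2, g3, g4⟩ := ih (fun i => b (i + 1)) (rot a) (third l (b 1)) y
      (acc τ a (b 1) l ha hl2) sR ht.symm hl3 rfl (Or.inl ⟨rfl, rfl⟩) h3 h4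
    refine ⟨fun i => match i with | 0 => sL | (j + 1) => s j, rfl, g2, ?_, ?_⟩
    · intro i hi
      cases i with
      | zero =>
        show FEdge sL (s 0)
        rw [g1]
        exact fedge_of τ sL _ a.2 (third a.1 a.2) x l h1 h2 (Or.inl ⟨rfl, rfl⟩) ht.symm hl1.symm
      | succ j => exact g3 j (by omega)
    · intro i hi hi'
      cases i with
      | zero => omega
      | succ j =>
        cases j with
        | zero =>
          show Accept τ (s 0) ∧ (s 0).c 0 = (τ, b 1)
          rw [g1]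
          exact ⟨⟨rfl, rfl, rfl⟩, rfl⟩
        | succ k => exact g4 (k + 1) (by omega) (by omega)

/-- alias -/
theorem srun_proof : Stmt_SRun := sRun_proof

end Pool.Agent.Trunc
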