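import Pool.Agent.Trunc.StMk
import Pool.Agent.Trunc.SRun
import Pool.Agent.Trunc.Sym

/-! Module TOne: the exceptional case of one K-letter, `L ≡ 1 (mod 3)` (helper13). -/

namespace Pool.Agent.Trunc

/-- closing up a run to a cycle -/
theorem cyc_of_run (L p n : ℕ) (hL : L = p + n + 1) (sp s' : ℕ → St) (h0 : s' 0 = sp p)
    (h1 : s' (n + 1) = sp 0) (hsp : ∀ j < p, FEdge (sp j) (sp (j + 1)))
    (hs' : ∀ i ≤ n, FEdge (s' i) (s' (i + 1))) :
    ∃ s : ZMod L → St, (∀ i, FEdge (s i) (s (i + 1))) ∧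
      (∀ j ≤ p, s ((j : ℕ) : ZMod L) = sp j) ∧
      (∀ j, 1 ≤ j → j ≤ n → s ((p + j : ℕ) : ZMod L) = s' j) := by
  have : NeZero L := ⟨by omega⟩
  have key : ∀ j : ℕ, j < L → ((j : ℕ) : ZMod L).val = j := fun j hj => ZMod.val_cast_of_lt hj
  refine ⟨fun i => if i.val ≤ p then sp i.val else s' (i.val - p), ?_, ?_, ?_⟩
  · intro i
    obtain ⟨j, hj, rfl⟩ : ∃ j : ℕ, j < L ∧ i = (j : ZMod L) :=
      ⟨i.val, ZMod.val_lt i, (ZMod.natCast_zmod_val i).symm⟩
    rcases Nat.lt_or_ge (j + 1) L with hj1 | hj1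
    · have h2 : ((j : ZMod L) + 1).val = j + 1 := by
        rw [← Nat.cast_succ]; exact key _ hj1
      simp only [h2, key j hj]
      rcases Nat.lt_or_ge j p with h3 | h3
      · rw [if_pos (by omega), if_pos (by omega)]
        exact hsp j h3
      · rw [if_neg (by omega : ¬ j + 1 ≤ p)]
        rcases Nat.eq_or_lt_of_le h3 with h4 | h4
        · subst h4
          rw [if_pos le_rfl, ← h0]
          have := hs' 0 (by omega)
          simpa using this
        · rw [if_neg (by omega)]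
          have := hs' (j - p) (by omega)
          rwa [show j - p + 1 = j + 1 - p by omega] at this
    · have h2 : j + 1 = L := by omega
      have h3 : (j : ZMod L) + 1 = 0 := by
        rw [← Nat.cast_succ, show j.succ = L from h2]; exact ZMod.natCast_self L
      simp only [h3, ZMod.val_zero, key j hj]
      rw [if_pos (Nat.zero_le _)]
      rcases Nat.lt_or_ge p j with h4 | h4
      · rw [if_neg (by omega)]
        have := hs' n le_rfl
        rw [h1] at this
        rwa [show j - p = n by omega]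
      · obtain rfl : n = 0 := by omega
        obtain rfl : j = p := by omega
        rw [if_pos le_rfl, ← h0]
        have := hs' 0 le_rfl
        rwa [h1] at this
  · intro j hj
    simp only [key j (by omega)]
    rw [if_pos hj]
  · intro j hj1 hj2
    simp only [key (p + j) (by omega)]
    rw [if_neg (by omega), Nat.add_sub_cancel_left]

/-- every element of `ZMod L` is a natural number below `L` -/
theorem zmod_cases (L : ℕ) (hL : 0 < L) (i : ZMod L) : ∃ j : ℕ, j < L ∧ i = (j : ZMod L) := by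
  have : NeZero L := ⟨by omega⟩
  exact ⟨i.val, ZMod.val_lt i, (ZMod.natCast_zmod_val i).symm⟩

theorem natCast_ne_of_lt {L : ℕ} {j k : ℕ} (hj : j < L) (hk : k < L) (h : j ≠ k) :
    (j : ZMod L) ≠ (k : ZMod L) := by
  intro h2
  have h3 := (ZMod.natCast_eq_natCast_iff' j k L).1 h2
  rw [Nat.mod_eq_of_lt hj, Nat.mod_eq_of_lt hk] at h3
  exact h h3

theorem accept_offer_medge {t : Bool} {s s' : St} (h : Accept t s) (h' : Offer t s')
    (hc : s.c 0 = s'.c 0) : MEdge s s' := by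
  rw [medge_iff]
  obtain ⟨_, h2, h3⟩ := h
  obtain ⟨_, h5, h6⟩ := h'
  have key : ∀ x y : Col, x.1 = t → y.1 = !t → x ≠ y := by
    intro x y hx hy hxy
    rw [hxy, hy] at hx
    cases t <;> simp at hx
  exact ⟨hc, key _ _ h2 h5, key _ _ h2 h6, key _ _ h3 h5, key _ _ h3 h6⟩

/-- what an offer looks like -/
theorem offer_data {t : Bool} {s : St} (h : Offer t s) : ∃ c a b : ZMod 3, s.c 0 = (t, c) ∧
    s.t 1 = (!t, a) ∧ s.t 2 = (!t, b) ∧ a ≠ b := by
  obtain ⟨h1, h2, h3⟩ := h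
  refine ⟨(s.c 0).2, (s.t 1).2, (s.t 2).2, Prod.ext h1 rfl, Prod.ext h2 rfl, Prod.ext h3 rfl, ?_⟩
  intro h4
  have h5 : s.t 1 = s.t 2 := Prod.ext (by rw [h2, h3]) h4
  have := s.inj_t h5
  exact absurd this (by decide)

theorem zm3_two (c : ZMod 3) : ∃ f al : ZMod 3, f ≠ c ∧ al ≠ c ∧ f ≠ al := by
  revert c; decide

theorem zm3_pick (b q1 q2 : ZMod 3) (h : q1 ≠ q2) : ∃ a1 a2 : ZMod 3, a1 ≠ b ∧ a1 ≠ a2 ∧
    ((a1 = q1 ∧ a2 = q2) ∨ (a1 = q2 ∧ a2 = q1)) := by
  revert b q1 q2 h; decide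

theorem tOne_rot3 (a : ZMod 3 × ZMod 3) : rot (rot (rot a)) = a := by
  revert a; decide

theorem tOne_rot_iter_mod (n : ℕ) (a : ZMod 3 × ZMod 3) : rot^[n] a = rot^[n % 3] a := by
  conv_lhs => rw [← Nat.div_add_mod n 3]
  rw [Nat.add_comm, Function.iterate_add_apply]
  congr 1
  rw [Function.iterate_mul]
  have : (rot^[3]) = id := by
    funext x
    exact tOne_rot3 x
  rw [this, Function.iterate_id, id]

theorem tOne_ne_left (x y : ZMod 3) (h : x ≠ y) : x ≠ third x y := by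
  revert x y
  decide

theorem tOne_ne_right (x y : ZMod 3) (h : x ≠ y) : y ≠ third x y := by
  revert x y
  decide

theorem third_fact1 : ∀ a1 a2 : ZMod 3, third (third a1 a2) (third a2 (third a1 a2)) = a2 := by
  decide

theorem third_fact2 : ∀ a1 a2 : ZMod 3, third a2 (third a1 a2) = a1 := by decide

/-! ### state tables -/

theorem nd1 : ∀ (X : Bool) (c f al a1 a2 : ZMod 3), (f ≠ c ∧ al ≠ c ∧ f ≠ al ∧ a1 ≠ a2) →
    [((X, c) : Col), (X, f), (!X, a1), (!X, a2), (X, al), (!X, third a1 a2)].Nodup := by decide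

theorem nd0 : ∀ (X : Bool) (c f al a1 a2 : ZMod 3), (f ≠ c ∧ al ≠ c ∧ f ≠ al ∧ a1 ≠ a2) →
    [((X, al) : Col), (!X, third a1 a2), (X, f), (X, c), (!X, a1), (!X, a2)].Nodup := by decide

/-- case (i) -/
theorem tOne_i (L : ℕ) (hL : 4 ≤ L) (hL3 : L % 3 = 1) (Z : ZMod L → Prop) (hZ : ¬ Z 1)
    (τK : ZMod L → Bool) : CycleGood L id (fun i => i = 0) Z τK := by
  obtain ⟨X, hX⟩ : ∃ X, τK 0 = X := ⟨_, rfl⟩
  refine ⟨fun _ => X, fun o ho => ?_⟩
  have hL1 : (1 : ZMod L) ≠ 0 := by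
    have := natCast_ne_of_lt (L := L) (j := 1) (k := 0) (by omega) (by omega) (by omega)
    simpa using this
  obtain ⟨c, a1, a2, hc, ht1, ht2, ha⟩ := offer_data (ho 1 rfl hL1)
  obtain ⟨f, al, hf, hal, hfal⟩ := zm3_two c
  obtain ⟨s1, e1, e2, e3, e4, e5, e6⟩ := exists_St _ _ _ _ _ _
    (nd1 X c f al a1 a2 ⟨hf, hal, hfal, ha⟩)
  obtain ⟨s0, d1, d2, d3, d4, d5, d6⟩ := exists_St _ _ _ _ _ _
    (nd0 X c f al a1 a2 ⟨hf, hal, hfal, ha⟩)
  have hr : rot^[L - 2] (a1, a2) = (third a1 a2, third a2 (third a1 a2)) := by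
    rw [tOne_rot_iter_mod, show (L - 2) % 3 = 2 by omega]; rfl
  have hq : third (third a1 a2) (third a2 (third a1 a2)) = a2 := third_fact1 a1 a2
  obtain ⟨s', g0, g1, g2, g3⟩ := srun_proof X (L - 2)
    (fun j => ((o ((1 + j : ℕ) : ZMod L)).c 0).2) (a1, a2) al c s1 s0 ha hal
    (by rw [e3]) (Or.inl ⟨by rw [e4], by rw [e5]⟩) (by rw [hr, d2])
    (Or.inr ⟨by rw [hr, d6, hq], by rw [d4]⟩)
  obtain ⟨s, hs1, hs2, hs3⟩ := cyc_of_run L 1 (L - 2) (by omega)
    (fun j => if j = 0 then s0 else s1) s' (by simpa using g0) (by simpa using g1)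
    (by
      intro j hj
      obtain rfl : j = 0 := by omega
      simp only [if_true, Nat.zero_add, one_ne_zero, if_false, fedge_iff, d3, e2, d4, d5, e4, e6]
      have h5 := tOne_ne_left a1 a2 ha
      refine ⟨trivial, ?_, ?_, ?_, ?_⟩ <;> simp [ha, h5])
    g2
  have hs0 : s 0 = s0 := by simpa using hs2 0 (by omega)
  have hs1' : s 1 = s1 := by simpa using hs2 1 (by omega)
  refine ⟨s, hs1, ?_, ?_, ?_⟩
  · rintro i rfl
    rw [hs0, hX]
    exact ⟨by rw [d1], by rw [d5], by rw [d6]⟩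
  · intro i _ hi
    obtain ⟨j, hj, rfl⟩ := zmod_cases L (by omega) i
    have hj0 : j ≠ 0 := by
      rintro rfl
      exact hi (by simp)
    rcases Nat.eq_or_lt_of_le (Nat.one_le_iff_ne_zero.2 hj0) with h1 | h1
    · subst h1
      simp only [Nat.cast_one, hs1']
      refine ⟨?_, fun h => absurd h hZ⟩
      rw [medge_iff, e1, hc, e5, e6, ht1, ht2]
      have h5 := tOne_ne_left a1 a2 ha
      have h6 := tOne_ne_right a1 a2 ha
      refine ⟨rfl, ?_, ?_, ?_, ?_⟩ <;> simp [h5.symm, h6.symm]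
    · obtain ⟨k, rfl⟩ : ∃ k, j = 1 + k := ⟨j - 1, by omega⟩
      rw [hs3 k (by omega) (by omega)]
      obtain ⟨h2, h3⟩ := g3 k (by omega) (by omega)
      have h4 := ho ((1 + k : ℕ) : ZMod L) rfl hi
      refine ⟨accept_offer_medge h2 h4 ?_, fun _ => h2⟩
      rw [h3]
      exact Prod.ext h4.1.symm rfl
  · intro i hi
    exact absurd rfl hi

theorem nd2a : ∀ (X : Bool) (c be al a1 a2 : ZMod 3), (be ≠ c ∧ al ≠ c ∧ be ≠ al ∧ a1 ≠ a2) →
    [((!X, c) : Col), (!X, be), (X, a1), (X, a2), (!X, al), (X, third a1 a2)].Nodup := by decide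

theorem nd2b : ∀ (X : Bool) (c be al a1 b : ZMod 3), (be ≠ c ∧ al ≠ c ∧ be ≠ al ∧ a1 ≠ b) →
    [((X, b) : Col), (!X, al), (!X, be), (!X, c), (X, a1), (X, third b a1)].Nodup := by decide

theorem nd2c : ∀ (X : Bool) (c be al a1 a2 : ZMod 3), (be ≠ c ∧ al ≠ c ∧ be ≠ al ∧ a1 ≠ a2) →
    [((X, third a1 a2) : Col), (X, a2), (!X, al), (X, a1), (!X, be), (!X, c)].Nodup := by decide

/-- case (iii) -/
theorem tOne_iii (L : ℕ) (hL : 4 ≤ L) (hL3 : L % 3 = 1) (Z : ZMod L → Prop) (hZ : ¬ Z 2)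
    (τK : ZMod L → Bool) : CycleGood L id (fun i => i = 0) Z τK := by
  obtain ⟨X, hX⟩ : ∃ X, τK 0 = X := ⟨_, rfl⟩
  refine ⟨fun i => if i = 1 then X else !X, fun o ho => ?_⟩
  have hL1 : (1 : ZMod L) ≠ 0 := by
    have := natCast_ne_of_lt (L := L) (j := 1) (k := 0) (by omega) (by omega) (by omega)
    simpa using this
  have hL2 : (2 : ZMod L) ≠ 0 := by
    have := natCast_ne_of_lt (L := L) (j := 2) (k := 0) (by omega) (by omega) (by omega)
    simpa using this
  have hL21 : (2 : ZMod L) ≠ 1 := by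
    have := natCast_ne_of_lt (L := L) (j := 2) (k := 1) (by omega) (by omega) (by omega)
    simpa using this
  have ho1 := ho 1 rfl hL1
  simp only [if_true] at ho1
  have ho2 := ho 2 rfl hL2
  simp only [hL21, if_false] at ho2
  obtain ⟨b, u1, u2, hb, _, _, _⟩ := offer_data ho1
  obtain ⟨c, q1, q2, hc, ht1, ht2, hq12⟩ := offer_data ho2
  rw [Bool.not_not] at ht1 ht2
  obtain ⟨a1, a2, ha1b, ha, hq⟩ := zm3_pick b q1 q2 hq12
  obtain ⟨be, al, hbe, hal, hbeal⟩ := zm3_two c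
  obtain ⟨s2, e1, e2, e3, e4, e5, e6⟩ := exists_St _ _ _ _ _ _
    (nd2a X c be al a1 a2 ⟨hbe, hal, hbeal, ha⟩)
  obtain ⟨s1, f1, f2, f3, f4, f5, f6⟩ := exists_St _ _ _ _ _ _
    (nd2b X c be al a1 b ⟨hbe, hal, hbeal, ha1b⟩)
  obtain ⟨s0, d1, d2, d3, d4, d5, d6⟩ := exists_St _ _ _ _ _ _
    (nd2c X c be al a1 a2 ⟨hbe, hal, hbeal, ha⟩)
  have hr : rot^[L - 3] (a1, a2) = (a2, third a1 a2) := by
    rw [tOne_rot_iter_mod, show (L - 3) % 3 = 1 by omega]; rfl
  have hq' : third a2 (third a1 a2) = a1 := third_fact2 a1 a2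
  obtain ⟨s', g0, g1, g2, g3⟩ := srun_proof (!X) (L - 3)
    (fun j => ((o ((2 + j : ℕ) : ZMod L)).c 0).2) (a1, a2) al c s2 s0 ha hal
    (by rw [e3, Bool.not_not]) (Or.inl ⟨by rw [e4, Bool.not_not], by rw [e5]⟩)
    (by rw [hr, d2, Bool.not_not])
    (Or.inl ⟨by rw [hr, d4, hq', Bool.not_not], by rw [d6]⟩)
  have h5 := tOne_ne_left a1 a2 ha
  have h6 := tOne_ne_right a1 a2 ha
  have h7 : a1 ≠ third b a1 := tOne_ne_right b a1 ha1b.symm
  obtain ⟨s, hs1, hs2, hs3⟩ := cyc_of_run L 2 (L - 3) (by omega)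
    (fun j => if j = 0 then s0 else if j = 1 then s1 else s2) s' (by simpa using g0)
    (by simpa using g1)
    (by
      intro j hj
      rcases Nat.lt_or_ge j 1 with h1 | h1
      · obtain rfl : j = 0 := by omega
        simp only [if_true, Nat.zero_add, one_ne_zero, if_false, fedge_iff, d3, f2, d4, d5, f4,
          f6]
        refine ⟨trivial, ?_, ?_, ?_, ?_⟩ <;> simp [h7, hbe]
      · obtain rfl : j = 1 := by omega
        simp only [if_true, Nat.reduceAdd, one_ne_zero, OfNat.ofNat_ne_zero,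
          OfNat.ofNat_ne_one, if_false, fedge_iff, f3, e2, f4, f5, e4, e6]
        refine ⟨trivial, ?_, ?_, ?_, ?_⟩ <;> simp [ha, h5])
    g2
  have hs0 : s 0 = s0 := by simpa using hs2 0 (by omega)
  have hs1' : s 1 = s1 := by simpa using hs2 1 (by omega)
  have hs2' : s 2 = s2 := by simpa using hs2 2 (by omega)
  refine ⟨s, hs1, ?_, ?_, ?_⟩
  · rintro i rfl
    rw [hs0, hX]
    exact ⟨by rw [d1], by rw [d5], by rw [d6]⟩
  · intro i _ hi
    obtain ⟨j, hj, rfl⟩ := zmod_cases L (by omega) i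
    have hj0 : j ≠ 0 := by
      rintro rfl
      exact hi (by simp)
    rcases Nat.lt_or_ge j 2 with h1 | h1
    · obtain rfl : j = 1 := by omega
      simp only [Nat.cast_one, hs1', if_true]
      have h8 : Accept X s1 := ⟨by rw [f1], by rw [f5], by rw [f6]⟩
      exact ⟨accept_offer_medge h8 ho1 (by rw [f1, hb]), fun _ => h8⟩
    rcases Nat.eq_or_lt_of_le h1 with h1 | h1
    · subst h1
      simp only [Nat.cast_ofNat, hs2', hL21, if_false]
      refine ⟨?_, fun h => absurd h hZ⟩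
      rw [medge_iff, e1, hc, e5, e6, ht1, ht2]
      rcases hq with ⟨rfl, rfl⟩ | ⟨rfl, rfl⟩ <;>
        refine ⟨rfl, ?_, ?_, ?_, ?_⟩ <;> simp [h5.symm, h6.symm]
    · obtain ⟨k, rfl⟩ : ∃ k, j = 2 + k := ⟨j - 2, by omega⟩
      rw [hs3 k (by omega) (by omega)]
      obtain ⟨h2, h3⟩ := g3 k (by omega) (by omega)
      have h4 := ho ((2 + k : ℕ) : ZMod L) rfl hi
      have h8 : ((2 + k : ℕ) : ZMod L) ≠ 1 := by
        have := natCast_ne_of_lt (L := L) (j := 2 + k) (k := 1) hj (by omega) (by omega)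
        simpa using this
      simp only [h8, if_false] at h4 ⊢
      refine ⟨accept_offer_medge h2 h4 ?_, fun _ => h2⟩
      rw [h3]
      exact Prod.ext h4.1.symm rfl
  · intro i hi
    exact absurd rfl hi

theorem tOne_proof : Stmt_TOne := by
  intro L hL hL3 Z hZ τK
  by_cases h1 : Z 1
  · by_cases h2 : Z (-1)
    · apply tOne_iii L hL hL3 Z ?_ τK
      intro h3
      obtain ⟨a, b, hab⟩ := hZ
      have e1 : (1 : ZMod L) ≠ 2 := by
        have := natCast_ne_of_lt (L := L) (j := 1) (k := 2) (by omega) (by omega) (by omega)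
        simpa using this
      have e2 : (2 : ZMod L) ≠ -1 := by
        intro h
        have h4 : ((3 : ℕ) : ZMod L) = ((0 : ℕ) : ZMod L) := by
          push_cast
          have : (3 : ZMod L) = 2 + 1 := by norm_num
          rw [this, h]; ring
        exact natCast_ne_of_lt (L := L) (j := 3) (k := 0) (by omega) (by omega) (by omega) h4
      have e3 : (1 : ZMod L) ≠ -1 := by
        intro h
        have h4 : ((2 : ℕ) : ZMod L) = ((0 : ℕ) : ZMod L) := by
          push_cast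
          have : (2 : ZMod L) = 1 + 1 := by norm_num
          rw [this]
          nth_rewrite 2 [h]
          ring
        exact natCast_ne_of_lt (L := L) (j := 2) (k := 0) (by omega) (by omega) (by omega) h4
      rcases hab _ h1 with rfl | rfl <;> rcases hab _ h2 with h2' | h2' <;>
        rcases hab _ h3 with h3' | h3' <;> first
        | exact e3 h2'.symm
        | exact e1 h3'.symm
        | exact e2 (by rw [h3', h2'])
    · apply cycleGood_refl
      have := tOne_i L hL hL3 (fun i => Z (-i)) h2 (fun i => τK (-i))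
      have e1 : (fun i : ZMod L => - id (-i)) = id := by funext i; simp
      have e2 : (fun i : ZMod L => -i = 0) = (fun i => i = 0) := by funext i; simp
      rw [e1, e2]
      exact this
  · exact tOne_i L hL hL3 Z h1 τK

end Pool.Agent.Trunc
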