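import Pool.Agent.Trunc.TTwoLib

/-! Module TTwo: two adjacent K-letters of different types (helper39). -/

namespace Pool.Agent.Trunc

theorem t39_nd6 : ∀ (X : Bool) (c f al a1 a2 : ZMod 3), c ≠ f ∧ c ≠ al ∧ f ≠ al ∧ a1 ≠ a2 →
    [((X, al) : Col), (!X, a2), (X, f), (X, c), (!X, a1), (!X, third a1 a2)].Nodup := by decide

theorem t39_nd7 : ∀ (X : Bool) (c f al a1 a2 : ZMod 3), c ≠ f ∧ c ≠ al ∧ f ≠ al ∧ a1 ≠ a2 →
    [((X, al) : Col), (!X, third a1 a2), (X, f), (!X, a2), (!X, a1), (X, c)].Nodup := by decide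

theorem t39_nd8 : ∀ (X : Bool) (c z a1 a2 : ZMod 3), z ≠ c ∧ a1 ≠ a2 →
    [((!X, a1) : Col), (!X, third a1 a2), (!X, a2), (X, third z c), (X, z), (X, c)].Nodup := by
  decide

theorem t39_remain : ∀ a1 a2 x : ZMod 3, a1 ≠ a2 → x ≠ third a1 a2 → x ≠ a2 → x = a1 := by decide

/-- The last vertex of a run. -/
theorem t39_last {X : Bool} {s aux : St} {u v w : ZMod 3} (huv : u ≠ v) (hw : third u v = w)
    (hF : FEdge s aux) (hA : Accept X s)
    (hc : aux.c 1 = (!X, w)) {c : ZMod 3}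
    (ht : aux.t 0 = (!X, v) ∧ aux.t 2 = (X, c)) :
    s.c 2 = (!X, w) ∧ s.t 0 = (!X, u) ∧ ∃ z, s.t 1 = (X, z) ∧ z ≠ c := by
  rw [fedge_iff] at hF
  obtain ⟨h1, h2, h3, h4, h5⟩ := hF
  rw [hc] at h1
  rw [ht.1] at h2 h4
  rw [ht.2] at h3 h5
  obtain ⟨k1, k2, k3⟩ := hA
  have e1 : s.t 1 = (X, (s.t 1).2) := Prod.ext k2 rfl
  have hz : (s.t 1).2 ≠ c := by
    intro h
    apply h5
    rw [e1, h]
  refine ⟨h1, ?_, _, e1, hz⟩
  -- the six colours of `s`
  have hside : (s.t 0).1 = !X := by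
    by_contra hne
    have h6 : (s.t 0).1 = X := by
      have key : ∀ a b : Bool, a ≠ !b → a = b := by decide
      exact key _ _ hne
    -- four colours of side X
    have f1 : (s.c 0).2 ≠ (s.t 0).2 := fun h => s.ne 0 0 (Prod.ext (by rw [k1, h6]) h)
    have f2 : (s.c 0).2 ≠ (s.t 1).2 := fun h => s.ne 0 1 (Prod.ext (by rw [k1, k2]) h)
    have f3 : (s.c 0).2 ≠ (s.t 2).2 := fun h => s.ne 0 2 (Prod.ext (by rw [k1, k3]) h)
    have f4 : (s.t 0).2 ≠ (s.t 1).2 := fun h =>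
      absurd (s.inj_t (Prod.ext (by rw [h6, k2]) h)) (by decide)
    have f5 : (s.t 0).2 ≠ (s.t 2).2 := fun h =>
      absurd (s.inj_t (Prod.ext (by rw [h6, k3]) h)) (by decide)
    have f6 : (s.t 1).2 ≠ (s.t 2).2 := fun h =>
      absurd (s.inj_t (Prod.ext (by rw [k2, k3]) h)) (by decide)
    have key : ∀ a b c d : ZMod 3, ¬ (a ≠ b ∧ a ≠ c ∧ a ≠ d ∧ b ≠ c ∧ b ≠ d ∧ c ≠ d) := by decide
    exact key _ _ _ _ ⟨f1, f2, f3, f4, f5, f6⟩
  have e2 : s.t 0 = (!X, (s.t 0).2) := Prod.ext hside rfl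
  have g1 : (s.t 0).2 ≠ w := by
    intro h
    apply s.ne 2 0
    rw [h1, e2, h]
  have g2 : (s.t 0).2 ≠ v := by
    intro h
    apply h2
    rw [e2, h]
  have := t39_remain u v (s.t 0).2 huv (by rw [hw]; exact g1) g2
  rw [e2, this]

theorem t39_zc : ∀ z c : ZMod 3, z ≠ c → z ≠ third z c ∧ c ≠ third z c := by decide

/-- The final assembly for two K-letters. -/
theorem t39_two_aux (L n p : ℕ) (hL : 5 ≤ L) (hn : 1 ≤ n) (hnp : n + p + 1 = L - 2) (hp : p ≤ 1)
    (Z : ZMod L → Prop) (τK : ZMod L → Bool) (τS : ZMod L → Bool) (X : Bool)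
    (hX : τK 0 = X) (hX' : τK (-1) = !X) (o : ZMod L → St) (s0 s1 sm : St) (r : ℕ → St)
    (hr0 : p = 0 → r 0 = s1)
    (h01 : FEdge s0 s1) (h12 : p = 1 → FEdge s1 (r 0)) (hr : ∀ i < n, FEdge (r i) (r (i + 1)))
    (hrm : FEdge (r n) sm) (hm0 : FEdge sm s0) (hO0 : Offer X s0) (hOm : Offer (!X) sm)
    (hM1 : MEdge s1 (o 1) ∧ (Z 1 → Accept (τS 1) s1))
    (hM2 : p = 1 → MEdge (r 0) (o 2) ∧ (Z 2 → Accept (τS 2) (r 0)))
    (hMr : ∀ j, 1 ≤ j → j ≤ n → MEdge (r j) (o ((j + p + 1 : ℕ) : ZMod L)) ∧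
      (Z ((j + p + 1 : ℕ) : ZMod L) → Accept (τS ((j + p + 1 : ℕ) : ZMod L)) (r j))) :
    ∃ s : ZMod L → St, (∀ i, FEdge (s i) (s (i + 1))) ∧
      (∀ i, (i = 0 ∨ i = -1) → Offer (τK i) (s i)) ∧
      (∀ i, ¬ (i = 0 ∨ i = -1) → MEdge (s i) (o i) ∧ (Z i → Accept (τS i) (s i))) := by
  have : NeZero L := ⟨by omega⟩
  have em1 : (-1 : ZMod L) = ((L - 1 : ℕ) : ZMod L) := by
    rw [Nat.cast_sub (by omega), ZMod.natCast_self]
    simp
  let S : ℕ → St := fun j => if j = 0 ∨ j = L then s0 else if j = 1 then s1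
    else if j = L - 1 then sm else r (j - p - 1)
  have hS0 : S 0 = s0 := by simp [S]
  have hS1 : S 1 = s1 := by
    show (if 1 = 0 ∨ 1 = L then s0 else if 1 = 1 then s1
      else if 1 = L - 1 then sm else r (1 - p - 1)) = s1
    rw [if_neg (by omega), if_pos rfl]
  have hSm : S (L - 1) = sm := by
    show (if L - 1 = 0 ∨ L - 1 = L then s0 else if L - 1 = 1 then s1
      else if L - 1 = L - 1 then sm else r (L - 1 - p - 1)) = sm
    rw [if_neg (by omega), if_neg (by omega), if_pos rfl]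
  have hSL : S L = S 0 := by
    rw [hS0]
    simp [S]
  have hSj : ∀ j, 2 ≤ j → j < L - 1 → S j = r (j - p - 1) := by
    intro j hj hj'
    simp only [S]
    rw [if_neg (by omega), if_neg (by omega), if_neg (by omega)]
  have hFS : ∀ j < L, FEdge (S j) (S (j + 1)) := by
    intro j hj
    rcases Nat.lt_or_ge j 1 with h | h
    · obtain rfl : j = 0 := by omega
      rw [hS0, hS1]
      exact h01
    rcases Nat.lt_or_ge j 2 with h2 | h2
    · obtain rfl : j = 1 := by omega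
      rw [hS1, hSj 2 le_rfl (by omega)]
      interval_cases p
      · have := hr 0 (by omega)
        rw [hr0 rfl] at this
        exact this
      · exact h12 rfl
    rcases Nat.lt_or_ge j (L - 2) with h3 | h3
    · rw [hSj j h2 (by omega), hSj (j + 1) (by omega) (by omega),
        show j + 1 - p - 1 = (j - p - 1) + 1 by omega]
      exact hr _ (by omega)
    rcases Nat.lt_or_ge j (L - 1) with h4 | h4
    · rw [hSj j h2 (by omega), show j + 1 = L - 1 by omega, hSm, show j - p - 1 = n by omega]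
      exact hrm
    · obtain rfl : j = L - 1 := by omega
      rw [hSm, show L - 1 + 1 = L by omega, hSL, hS0]
      exact hm0
  refine ⟨fun i => S i.val, fun i => t39_close L (by omega) S hFS hSL i, ?_, ?_⟩
  · rintro i (rfl | rfl)
    · simp only [ZMod.val_zero, hS0, hX]
      exact hO0
    · have : (-1 : ZMod L).val = L - 1 := by
        rw [em1, ZMod.val_natCast_of_lt (by omega)]
      simp only [this, hSm, hX']
      exact hOm
  · intro i hi
    beta_reduce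
    have hv := ZMod.val_lt i
    have hv0 : i.val ≠ 0 := by
      rw [Ne, ZMod.val_eq_zero]
      exact fun h => hi (Or.inl h)
    have hvm : i.val ≠ L - 1 := by
      intro h
      apply hi
      right
      rw [em1]
      exact (t39_val_eq (by omega) i (L - 1) (by omega)).1 h
    by_cases h1 : i.val = 1
    · have hi1 : i = 1 := by
        have := (t39_val_eq (by omega) i 1 (by omega)).1 h1
        simpa using this
      subst hi1
      rw [h1, hS1]
      exact hM1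
    · rw [hSj _ (by omega) (by omega)]
      by_cases h2 : i.val = 2 ∧ p = 1
      · have hi2 : i = 2 := by
          have := (t39_val_eq (by omega) i 2 (by omega)).1 h2.1
          simpa using this
        subst hi2
        rw [h2.1, h2.2]
        exact hM2 h2.2
      · have h3 := hMr (i.val - p - 1) (by omega) (by omega)
        have h4 : i.val - p - 1 + p + 1 = i.val := by omega
        rw [h4, ZMod.natCast_val, ZMod.cast_id] at h3
        exact h3

theorem t39_two_i (L : ℕ) (hL : 5 ≤ L) (hmod : L % 3 = 2) (Z : ZMod L → Prop) (hZ : ¬ Z 1)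
    (τK : ZMod L → Bool) (hτ : τK 0 ≠ τK (-1)) :
    CycleGood L id (fun i => i = 0 ∨ i = -1) Z τK := by
  have : NeZero L := ⟨by omega⟩
  have em1 : (-1 : ZMod L) = ((L - 1 : ℕ) : ZMod L) := by
    rw [Nat.cast_sub (by omega), ZMod.natCast_self]
    simp
  refine ⟨fun _ => τK 0, fun o ho => ?_⟩
  have h10 : ¬ ((1 : ZMod L) = 0 ∨ (1 : ZMod L) = -1) := by
    rintro (h | h)
    · exact t39_ne_cast (L := L) (m := 1) (n := 0) (by omega) (by omega) (by omega) (by simpa using h)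
    · rw [em1] at h
      exact t39_ne_cast (L := L) (m := 1) (n := L - 1) (by omega) (by omega) (by omega)
        (by simpa using h)
  obtain ⟨c, a1, a2, hc, ht1, ht2, ha⟩ := t39_offer (ho 1 rfl h10)
  beta_reduce at hc ht1 ht2
  have hX' : τK (-1) = !(τK 0) := by
    cases h : τK 0 <;> cases h' : τK (-1) <;> simp_all
  generalize hX : τK 0 = X at *
  obtain ⟨f, al, hcf, hca, hfa⟩ := t39_pick c
  obtain ⟨s1, s1c0, s1c1, s1c2, s1t0, s1t1, s1t2⟩ := exists_St _ _ _ _ _ _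
    (t39_nd1 X c f al a1 a2 ⟨hcf, hca, hfa, ha⟩)
  obtain ⟨s0, s0c0, s0c1, s0c2, s0t0, s0t1, s0t2⟩ := exists_St _ _ _ _ _ _
    (t39_nd6 X c f al a1 a2 ⟨hcf, hca, hfa, ha⟩)
  obtain ⟨aux, xc0, xc1, xc2, xt0, xt1, xt2⟩ := exists_St _ _ _ _ _ _
    (t39_nd7 X c f al a1 a2 ⟨hcf, hca, hfa, ha⟩)
  have h3r := t39_ner a1 a2 ha
  have h3l := t39_nel a1 a2 ha
  have hrot : rot^[L - 3] (a1, a2) = (third a1 a2, a1) := by
    rw [t39_rotn, show (L - 3) % 3 = 2 by omega]
    show rot (rot (a1, a2)) = _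
    rw [t39_rot1, t39_rot1]
    have := (t39_third a1 a2).2
    rw [this]
  obtain ⟨r, hr0, hr1, hr2, hr3⟩ := sRun_proof X (L - 3)
    (fun j => ((o ((j + 1 : ℕ) : ZMod L)).c 0).2) (a1, a2) al c s1 aux ha hca.symm s1c2
    (Or.inl ⟨s1t0, s1t1⟩) (by rw [hrot]; exact xc1)
    (Or.inl ⟨by rw [hrot]; simp only [(t39_third a1 a2).1]; exact xt0, xt2⟩)
  obtain ⟨l1, l2, z, l3, hz⟩ := t39_last (w := third a1 a2) ha rfl (by
    have := hr2 (L - 3) le_rfl
    rw [hr1] at this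
    exact this) (hr3 (L - 3) (by omega) le_rfl).1 xc1 ⟨xt0, xt2⟩
  obtain ⟨sm, smc0, smc1, smc2, smt0, smt1, smt2⟩ := exists_St _ _ _ _ _ _
    (t39_nd8 X c z a1 a2 ⟨hz, ha⟩)
  obtain ⟨hz1, hz2⟩ := t39_zc z c hz
  have hF01 : FEdge s0 s1 := by
    rw [fedge_iff, s0c2, s1c1, s0t0, s0t1, s1t0, s1t2]
    refine ⟨rfl, ?_, ?_, ?_, ?_⟩ <;> simp [ha, h3l]
  have hFm : FEdge (r (L - 3)) sm := by
    rw [fedge_iff, l1, smc1, l2, l3, smt0, smt2]
    refine ⟨rfl, ?_, ?_, ?_, ?_⟩ <;> simp [hz, hz1]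
  have hFm0 : FEdge sm s0 := by
    rw [fedge_iff, smc2, s0c1, smt0, smt1, s0t0, s0t2]
    refine ⟨rfl, ?_, ?_, ?_, ?_⟩ <;> simp [hz, hz2.symm]
  obtain ⟨s, hs1, hs2, hs3⟩ := t39_two_aux L (L - 3) 0 hL (by omega) (by omega) (by omega) Z τK
    (fun _ => X) X hX hX' o s0 s1 sm r (fun _ => hr0) hF01 (fun h => absurd h (by omega))
    (fun i hi => hr2 i hi.le) hFm hFm0
    ⟨by rw [s0c0], by rw [s0t1], by rw [s0t2]⟩
    ⟨by rw [smc0], by rw [smt1, Bool.not_not], by rw [smt2, Bool.not_not]⟩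
    ⟨by
      rw [medge_iff, s1c0, s1t1, s1t2, hc, ht1, ht2]
      refine ⟨rfl, ?_, ?_, ?_, ?_⟩ <;> simp [h3r.symm, h3l.symm], fun h => absurd h hZ⟩
    (fun h => absurd h (by omega))
    (by
      intro j hj1 hj2
      have h3 := hr3 j hj1 hj2
      have hne : ¬ ((((j + 0 + 1 : ℕ) : ZMod L)) = 0 ∨ (((j + 0 + 1 : ℕ) : ZMod L)) = -1) := by
        rintro (h | h)
        · exact t39_ne_cast (L := L) (m := j + 0 + 1) (n := 0) (by omega) (by omega) (by omega)
            (by simpa using h)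
        · rw [em1] at h
          exact t39_ne_cast (L := L) (m := j + 0 + 1) (n := L - 1) (by omega) (by omega)
            (by omega) h
      have h4 := ho _ rfl hne
      refine ⟨t39_medge h3.1 h4 ?_, fun _ => h3.1⟩
      rw [h3.2]
      exact Prod.ext h4.1.symm rfl)
  refine ⟨s, hs1, hs2, fun i _ hi => hs3 i hi, fun i hi => absurd rfl hi⟩

theorem t39_nd9 : ∀ (X : Bool) (c be al a1 a2 : ZMod 3), c ≠ be ∧ c ≠ al ∧ be ≠ al ∧ a1 ≠ a2 →
    [((X, c) : Col), (X, be), (!X, a1), (!X, a2), (X, al), (!X, third a1 a2)].Nodup := by decide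

theorem t39_nd10 : ∀ (X : Bool) (c be al a1 b : ZMod 3), c ≠ be ∧ c ≠ al ∧ be ≠ al ∧ a1 ≠ b →
    [((!X, b) : Col), (X, al), (X, be), (X, c), (!X, a1), (!X, third b a1)].Nodup := by decide

theorem t39_nd11 : ∀ (X : Bool) (c be al a1 b : ZMod 3), c ≠ be ∧ c ≠ al ∧ be ≠ al ∧ a1 ≠ b →
    [((X, c) : Col), (!X, a1), (X, al), (X, be), (!X, b), (!X, third a1 b)].Nodup := by decide

theorem t39_nd12 : ∀ (X : Bool) (c be al a1 a2 : ZMod 3), c ≠ be ∧ c ≠ al ∧ be ≠ al ∧ a1 ≠ a2 →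
    [((X, c) : Col), (!X, a2), (X, al), (!X, a1), (!X, third a1 a2), (X, be)].Nodup := by decide

theorem t39_nd13 : ∀ (X : Bool) (be z a1 a2 : ZMod 3), z ≠ be ∧ a1 ≠ a2 →
    [((!X, third a1 a2) : Col), (!X, a2), (!X, a1), (X, third z be), (X, z), (X, be)].Nodup := by
  decide

theorem t39_third' : ∀ a1 a2 : ZMod 3, third (third a1 a2) a1 = a2 := by decide

theorem t39_two_iii (L : ℕ) (hL : 5 ≤ L) (hmod : L % 3 = 2) (Z : ZMod L → Prop) (hZ : ¬ Z 2)
    (τK : ZMod L → Bool) (hτ : τK 0 ≠ τK (-1)) :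
    CycleGood L id (fun i => i = 0 ∨ i = -1) Z τK := by
  classical
  have : NeZero L := ⟨by omega⟩
  have em1 : (-1 : ZMod L) = ((L - 1 : ℕ) : ZMod L) := by
    rw [Nat.cast_sub (by omega), ZMod.natCast_self]
    simp
  have hno : ∀ j : ℕ, 1 ≤ j → j < L - 1 → ¬ (((j : ℕ) : ZMod L) = 0 ∨ ((j : ℕ) : ZMod L) = -1) := by
    intro j hj1 hj2
    rintro (h | h)
    · exact t39_ne_cast (L := L) (m := j) (n := 0) (by omega) (by omega) (by omega)
        (by simpa using h)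
    · rw [em1] at h
      exact t39_ne_cast (L := L) (m := j) (n := L - 1) (by omega) (by omega) (by omega) h
  refine ⟨fun i => if i = 1 then !(τK 0) else τK 0, fun o ho => ?_⟩
  have h10 : ¬ ((1 : ZMod L) = 0 ∨ (1 : ZMod L) = -1) := by
    have := hno 1 le_rfl (by omega)
    simpa using this
  have h20 : ¬ ((2 : ZMod L) = 0 ∨ (2 : ZMod L) = -1) := by
    have := hno 2 (by omega) (by omega)
    simpa using this
  have h21 : (2 : ZMod L) ≠ 1 := by
    have := t39_ne_cast (L := L) (m := 2) (n := 1) (by omega) (by omega) (by omega)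
    simpa using this
  have ho1 := ho 1 rfl h10
  have ho2 := ho 2 rfl h20
  beta_reduce at ho1 ho2
  rw [if_pos rfl] at ho1
  rw [if_neg h21] at ho2
  have hX' : τK (-1) = !(τK 0) := by
    cases h : τK 0 <;> cases h' : τK (-1) <;> simp_all
  generalize hX : τK 0 = X at *
  obtain ⟨b, _, _, hc1, _, _, _⟩ := t39_offer ho1
  obtain ⟨c, a, a', hc2, ht1, ht2, ha'⟩ := t39_offer ho2
  obtain ⟨a1, a2, ha, hab, hQ⟩ := t39_pick2 a a' b ha'
  obtain ⟨be, al, hcb, hca, hba⟩ := t39_pick c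
  obtain ⟨s2, s2c0, s2c1, s2c2, s2t0, s2t1, s2t2⟩ := exists_St _ _ _ _ _ _
    (t39_nd9 X c be al a1 a2 ⟨hcb, hca, hba, ha⟩)
  obtain ⟨s1, s1c0, s1c1, s1c2, s1t0, s1t1, s1t2⟩ := exists_St _ _ _ _ _ _
    (t39_nd10 X c be al a1 b ⟨hcb, hca, hba, hab⟩)
  obtain ⟨s0, s0c0, s0c1, s0c2, s0t0, s0t1, s0t2⟩ := exists_St _ _ _ _ _ _
    (t39_nd11 X c be al a1 b ⟨hcb, hca, hba, hab⟩)
  obtain ⟨aux, xc0, xc1, xc2, xt0, xt1, xt2⟩ := exists_St _ _ _ _ _ _
    (t39_nd12 X c be al a1 a2 ⟨hcb, hca, hba, ha⟩)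
  have h3r := t39_ner a1 a2 ha
  have h3l := t39_nel a1 a2 ha
  obtain ⟨h5, h6⟩ := t39_tb a1 b hab
  have hrot : rot^[L - 4] (a1, a2) = (a2, third a1 a2) := by
    rw [t39_rotn, show (L - 4) % 3 = 1 by omega]
    exact t39_rot1 a1 a2
  obtain ⟨r, hr0, hr1, hr2, hr3⟩ := sRun_proof X (L - 4)
    (fun j => ((o ((j + 2 : ℕ) : ZMod L)).c 0).2) (a1, a2) al be s2 aux ha hba.symm s2c2
    (Or.inl ⟨s2t0, s2t1⟩) (by rw [hrot]; exact xc1)
    (Or.inl ⟨by rw [hrot]; simp only [(t39_third a1 a2).2]; exact xt0, xt2⟩)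
  obtain ⟨l1, l2, z, l3, hz⟩ := t39_last (u := third a1 a2) (v := a1) (w := a2) h3l.symm
    (t39_third' a1 a2) (by
    have := hr2 (L - 4) le_rfl
    rw [hr1] at this
    exact this) (hr3 (L - 4) (by omega) le_rfl).1 xc1 ⟨xt0, xt2⟩
  obtain ⟨sm, smc0, smc1, smc2, smt0, smt1, smt2⟩ := exists_St _ _ _ _ _ _
    (t39_nd13 X be z a1 a2 ⟨hz, ha⟩)
  obtain ⟨hz1, hz2⟩ := t39_zc z be hz
  have hF01 : FEdge s0 s1 := by
    rw [fedge_iff, s0c2, s1c1, s0t0, s0t1, s1t0, s1t2]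
    refine ⟨rfl, ?_, ?_, ?_, ?_⟩ <;> simp [hcb.symm, h6]
  have hF12 : FEdge s1 s2 := by
    rw [fedge_iff, s1c2, s2c1, s1t0, s1t1, s2t0, s2t2]
    refine ⟨rfl, ?_, ?_, ?_, ?_⟩ <;> simp [ha, h3l]
  have hFm : FEdge (r (L - 4)) sm := by
    rw [fedge_iff, l1, smc1, l2, l3, smt0, smt2]
    refine ⟨rfl, ?_, ?_, ?_, ?_⟩ <;> simp [hz, hz1]
  have hFm0 : FEdge sm s0 := by
    rw [fedge_iff, smc2, s0c1, smt0, smt1, s0t0, s0t2]
    refine ⟨rfl, ?_, ?_, ?_, ?_⟩ <;> simp [hz, hz2.symm]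
  obtain ⟨s, hs1, hs2, hs3⟩ := t39_two_aux L (L - 4) 1 hL (by omega) (by omega) (by omega) Z τK
    (fun i => if i = 1 then !X else X) X hX hX' o s0 s1 sm r (fun h => absurd h (by omega)) hF01
    (fun _ => by rw [hr0]; exact hF12)
    (fun i hi => hr2 i hi.le) hFm hFm0
    ⟨by rw [s0c0], by rw [s0t1], by rw [s0t2]⟩
    ⟨by rw [smc0], by rw [smt1, Bool.not_not], by rw [smt2, Bool.not_not]⟩
    (by
      rw [if_pos rfl]
      have hacc : Accept (!X) s1 := ⟨by rw [s1c0], by rw [s1t1], by rw [s1t2]⟩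
      exact ⟨t39_medge hacc ho1 (by rw [s1c0, hc1]), fun _ => hacc⟩)
    (fun _ => ⟨by
      rw [hr0, medge_iff, s2c0, s2t1, s2t2, hc2, ht1, ht2]
      rcases hQ with ⟨hq1, hq2⟩ | ⟨hq1, hq2⟩ <;> rw [hq1, hq2] <;>
        refine ⟨rfl, ?_, ?_, ?_, ?_⟩ <;> simp [h3r.symm, h3l.symm], fun h => absurd h hZ⟩)
    (by
      intro j hj1 hj2
      have h3 := hr3 j hj1 hj2
      have hne := hno (j + 1 + 1) (by omega) (by omega)
      have hne1 : ((j + 1 + 1 : ℕ) : ZMod L) ≠ 1 := by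
        have := t39_ne_cast (L := L) (m := j + 1 + 1) (n := 1) (by omega) (by omega) (by omega)
        simpa using this
      have h4 := ho _ rfl hne
      beta_reduce at h4
      rw [if_neg hne1] at h4
      rw [if_neg hne1]
      refine ⟨t39_medge h3.1 h4 ?_, fun _ => h3.1⟩
      rw [h3.2]
      exact Prod.ext h4.1.symm rfl)
  refine ⟨s, hs1, hs2, fun i _ hi => hs3 i hi, fun i hi => absurd rfl hi⟩

theorem ttwo_proof : Stmt_TTwo := by
  intro L hL hmod Z hZ τK hτ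
  have : NeZero L := ⟨by omega⟩
  by_cases h1 : Z 1
  swap
  · exact t39_two_i L hL hmod Z h1 τK hτ
  by_cases h2 : Z (-2)
  swap
  · refine (sym_proof L id (fun i => i = 0 ∨ i = -1) Z τK).2.1 ?_
    refine (sym_proof L _ _ _ _).1 1 ?_
    have e1 : (fun i : ZMod L => (fun i : ZMod L => - id (-i)) (i + 1) - 1) = id := by
      funext i; simp
    have e2 : (fun i : ZMod L => (fun i : ZMod L => (fun i : ZMod L => i = 0 ∨ i = -1) (-i))
        (i + 1)) = (fun i => i = 0 ∨ i = -1) := by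
      funext i
      apply propext
      constructor
      · rintro (h | h)
        · right; linear_combination -h
        · left; linear_combination -h
      · rintro (h | h)
        · right; rw [h]; ring
        · left; rw [h]; ring
    rw [e1, e2]
    refine t39_two_i L hL hmod _ ?_ _ ?_
    · beta_reduce
      rw [show -(1 + 1 : ZMod L) = -2 by ring]
      exact h2
    · beta_reduce
      rw [show -(0 + 1 : ZMod L) = -1 by ring, show -(-1 + 1 : ZMod L) = 0 by ring]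
      exact hτ.symm
  · refine t39_two_iii L hL hmod Z ?_ τK hτ
    intro h3
    obtain ⟨a, b, hab⟩ := hZ
    have em2 : (-2 : ZMod L) = ((L - 2 : ℕ) : ZMod L) := by
      rw [Nat.cast_sub (by omega), ZMod.natCast_self]
      simp
    have n1 : (1 : ZMod L) ≠ -2 := by
      rw [em2]
      have := t39_ne_cast (L := L) (m := 1) (n := L - 2) (by omega) (by omega) (by omega)
      simpa using this
    have n2 : (2 : ZMod L) ≠ -2 := by
      rw [em2]
      have := t39_ne_cast (L := L) (m := 2) (n := L - 2) (by omega) (by omega) (by omega)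
      simpa using this
    have n3 : (2 : ZMod L) ≠ 1 := by
      have := t39_ne_cast (L := L) (m := 2) (n := 1) (by omega) (by omega) (by omega)
      simpa using this
    rcases hab _ h1 with e1 | e1 <;> rcases hab _ h2 with e2 | e2 <;> rcases hab _ h3 with e3 | e3 <;>
      first
      | exact n1 (e1.trans e2.symm)
      | exact n2 (e3.trans e2.symm)
      | exact n3 (e3.trans e1.symm)

end Pool.Agent.Trunc
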