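import Pool.Agent.Trunc.Alt
import Pool.Agent.Trunc.Assemble
import Pool.Agent.Trunc.Cases
import Pool.Agent.Trunc.Core
import Pool.Agent.Trunc.CoreCM
import Pool.Agent.Trunc.CoreQ
import Pool.Agent.Trunc.CoreR
import Pool.Agent.Trunc.CycleBig
import Pool.Agent.Trunc.CycleKH10
import Pool.Agent.Trunc.CycleKH11
import Pool.Agent.Trunc.CycleKH12
import Pool.Agent.Trunc.CycleKH20
import Pool.Agent.Trunc.CycleKH21
import Pool.Agent.Trunc.Fill
import Pool.Agent.Trunc.FinalAux
import Pool.Agent.Trunc.Main
import Pool.Agent.Trunc.PThree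
import Pool.Agent.Trunc.Pos
import Pool.Agent.Trunc.Pure
import Pool.Agent.Trunc.RootBig
import Pool.Agent.Trunc.RootHS
import Pool.Agent.Trunc.RootHS03
import Pool.Agent.Trunc.RootHam
import Pool.Agent.Trunc.SkelBig
import Pool.Agent.Trunc.SkelTwo
import Pool.Agent.Trunc.SkelZero
import Pool.Agent.Trunc.Sym
import Pool.Agent.Trunc.TOne
import Pool.Agent.Trunc.TTwo

/-!
# Assembly of all modules, up to the orientation of the 2-factor
-/

namespace Pool.Agent.Trunc

theorem pure_proof : Stmt_Pure := pure_of fill_proof assemble_proof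

theorem pthree_proof : Stmt_PThree := PThree_proof pure_proof skelTwo_proof

theorem cycle_proof : Stmt_Cycle :=
  cycle_of (CycleKH10_proof pure_proof skelZero_proof tOne_proof sym_proof)
    (cycleKH20_of pure_proof skelTwo_proof ttwo_proof sym_proof)
    (CycleKH30_proof pure_proof skelTwo_proof sym_proof)
    (cycleKH11_of pure_proof skelTwo_proof)
    (cycleKH21_proof pure_proof skelTwo_proof pthree_proof sym_proof)
    (cycleKH12_proof pure_proof skelTwo_proof pthree_proof sym_proof)
    (cycleBig_of pure_proof alt_proof skelBig_proof)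

theorem root_proof : Stmt_Root :=
  root_of (rootHS03_of pure_proof skelZero_proof) (rootHS04_proof pure_proof)
    (rootHS12_proof pure_proof) (rootHS13_proof pure_proof) (rootHS22_proof pure_proof)
    (rootHS20_proof pure_proof) (rootHS30_proof pure_proof)
    (rootBig_of pure_proof alt_proof skelBig_proof)
    (rootHam_of pure_proof alt_proof skelBig_proof)

theorem coreCM_proof : Stmt_CoreCM :=
  CoreCM_proof root_proof pos_proof (CoreQ_proof cycle_proof pos_proof) coreR_proof

theorem main_of_orient (hO : Stmt_Orient) : Stmt_Main :=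
  main_of (Core_proof coreCM_proof hO)

end Pool.Agent.Trunc
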