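import Mathlib

/-!
# Truncations of cubic graphs and the strong chromatic index
-/

namespace Pool.Agent.Trunc

section Graph

variable {V : Type*}

/-- The truncation `T(G)`: its vertices are the darts of `G`; the darts leaving the same vertex
are joined to each other (a triangle if `G` is cubic) and every dart is joined to its reversal. -/
def truncation (G : SimpleGraph V) : SimpleGraph G.Dart where
  Adj d e := d ≠ e ∧ (d.fst = e.fst ∨ e = d.symm)
  symm := ⟨by
    rintro d e ⟨h1, h2⟩
    refine ⟨h1.symm, ?_⟩
    rcases h2 with h2 | h2
    · exact Or.inl h2.symm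
    · exact Or.inr (by rw [h2, SimpleGraph.Dart.symm_symm])⟩
  loopless := ⟨by rintro d ⟨h, _⟩; exact h rfl⟩

/-- Strong edge colouring: two distinct edges get different colours whenever they share an
endpoint or some edge joins an endpoint of the one to an endpoint of the other. -/
def IsStrongEdgeColoring (H : SimpleGraph V) {α : Type*} (c : H.edgeSet → α) : Prop :=
  ∀ e f : H.edgeSet, e ≠ f →
    (∃ x ∈ (e : Sym2 V), ∃ y ∈ (f : Sym2 V), x = y ∨ H.Adj x y) → c e ≠ c f

/-- The strong chromatic index. -/
noncomputable def strongChromaticIndex (H : SimpleGraph V) : ℕ :=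
  sInf {k : ℕ | ∃ c : H.edgeSet → Fin k, IsStrongEdgeColoring H c}

end Graph

end Pool.Agent.Trunc
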