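import Pool.Agent.Trunc.Defs

/-!
Module Join: gluing two colourings along at most one edge; general tools on states.
-/

namespace Pool.Agent.Trunc.JoinAux

open Finset Pool.Agent.Trunc

lemma edgeOK_symm {s s' : St} {i j : Fin 3} (h : EdgeOK s i s' j) : EdgeOK s' j s i :=
  ⟨h.1.symm, fun a b ha hb e => h.2 b a hb ha e.symm⟩

lemma edgeOK_map {s s' : St} {i j : Fin 3} (h : EdgeOK s i s' j) (π : Equiv.Perm Col) :
    EdgeOK (s.map π) i (s'.map π) j :=
  ⟨congrArg π h.1, fun a b ha hb e => h.2 a b ha hb (π.injective e)⟩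

/-- A state as a bijection. -/
noncomputable def stEquiv (s : St) : Fin 3 ⊕ Fin 3 ≃ Col :=
  Equiv.ofBijective (Sum.elim s.c s.t) <| by
    rw [Fintype.bijective_iff_injective_and_card]
    refine ⟨?_, by decide⟩
    intro x y h
    rcases x with x | x <;> rcases y with y | y <;> simp only [Sum.elim_inl, Sum.elim_inr] at h
    · rw [s.inj_c h]
    · exact absurd h (s.ne x y)
    · exact absurd h.symm (s.ne y x)
    · rw [s.inj_t h]

lemma stEquiv_inl (s : St) (i : Fin 3) : stEquiv s (Sum.inl i) = s.c i := rfl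
lemma stEquiv_inr (s : St) (i : Fin 3) : stEquiv s (Sum.inr i) = s.t i := rfl

/-- Swap the two summands except for the index `i`. -/
def flipExc (i : Fin 3) : Equiv.Perm (Fin 3 ⊕ Fin 3) where
  toFun x := match x with
    | Sum.inl a => if a = i then Sum.inl a else Sum.inr a
    | Sum.inr a => if a = i then Sum.inr a else Sum.inl a
  invFun x := match x with
    | Sum.inl a => if a = i then Sum.inl a else Sum.inr a
    | Sum.inr a => if a = i then Sum.inr a else Sum.inl a
  left_inv x := by
    rcases x with a | a <;> by_cases h : a = i <;> simp [h]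
  right_inv x := by
    rcases x with a | a <;> by_cases h : a = i <;> simp [h]

/-- Any two states can be made compatible along given slots by recolouring the first one. -/
lemma exists_recolour (s s' : St) (i j : Fin 3) : ∃ π : Equiv.Perm Col, EdgeOK (s.map π) i s' j := by
  let σ : Equiv.Perm (Fin 3) := Equiv.swap i j
  let π : Equiv.Perm Col :=
    (((stEquiv s).symm.trans (flipExc i)).trans (Equiv.sumCongr σ σ)).trans (stEquiv s')
  refine ⟨π, ?_, ?_⟩
  · have h1 : (stEquiv s).symm (s.c i) = Sum.inl i := by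
      rw [← stEquiv_inl s, Equiv.symm_apply_apply]
    change stEquiv s' (Equiv.sumCongr σ σ (flipExc i ((stEquiv s).symm (s.c i)))) = s'.c j
    rw [h1]
    simp [flipExc, σ, stEquiv_inl]
  · intro a b ha hb
    have h1 : (stEquiv s).symm (s.t a) = Sum.inr a := by
      rw [← stEquiv_inr s, Equiv.symm_apply_apply]
    change stEquiv s' (Equiv.sumCongr σ σ (flipExc i ((stEquiv s).symm (s.t a)))) ≠ s'.t b
    rw [h1]
    simp only [flipExc, Equiv.coe_fn_mk, if_neg ha, Equiv.sumCongr_apply, Sum.map_inl,
      stEquiv_inl]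
    exact s'.ne _ _

theorem nonempty_St : Nonempty St :=
  ⟨{ c := fun i => (false, i), t := fun i => (true, i),
     inj_c := fun i j h => (Prod.ext_iff.1 h).2
     inj_t := fun i j h => (Prod.ext_iff.1 h).2
     ne := fun i j h => by simpa using (Prod.ext_iff.1 h).1 }⟩

/-- Colourability of an induced subgraph, in terms of functions on the whole vertex set. -/
lemma colourable_induce {V : Type*} (G : SimpleGraph V) (W : Set V) :
    Colourable (G.induce W) ↔ ∃ (sl : V → V → Fin 3) (s : V → St),
      (∀ v w w', v ∈ W → w ∈ W → w' ∈ W → G.Adj v w → G.Adj v w' → sl v w = sl v w' → w = w') ∧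
      ∀ v w, v ∈ W → w ∈ W → G.Adj v w → EdgeOK (s v) (sl v w) (s w) (sl w v) := by
  classical
  have := nonempty_St
  constructor
  · rintro ⟨sl, s, h1, h2⟩
    refine ⟨fun v w => if h : v ∈ W ∧ w ∈ W then sl ⟨v, h.1⟩ ⟨w, h.2⟩ else 0,
      fun v => if h : v ∈ W then s ⟨v, h⟩ else Classical.arbitrary St, ?_, ?_⟩
    · intro v w w' hv hw hw' a1 a2 e
      simp only [hv, hw, hw', and_self, dif_pos] at e
      have := h1 ⟨v, hv⟩ ⟨w, hw⟩ ⟨w', hw'⟩ (by simpa using a1) (by simpa using a2) e
      exact congrArg Subtype.val this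
    · intro v w hv hw a
      simp only [hv, hw, and_self, dif_pos]
      exact h2 ⟨v, hv⟩ ⟨w, hw⟩ (by simpa using a)
  · rintro ⟨sl, s, h1, h2⟩
    refine ⟨fun v w => sl v w, fun v => s v, ?_, ?_⟩
    · intro v w w' a1 a2 e
      exact Subtype.ext (h1 v w w' v.2 w.2 w'.2 (by simpa using a1) (by simpa using a2) e)
    · intro v w a
      exact h2 v w v.2 w.2 (by simpa using a)

/-- A free slot at `a` for the edge `ab` leaving `W`. -/
lemma exists_free_slot {V : Type*} [Fintype V] [DecidableEq V] (G : SimpleGraph V)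
    [DecidableRel G.Adj] (a : V) (ha : G.degree a ≤ 3) (P : V → Prop) (b : V) (hb : ¬ P b)
    (hab : G.Adj a b) (f : V → Fin 3) : ∃ i : Fin 3, ∀ w, P w → G.Adj a w → f w ≠ i := by
  classical
  let T := (G.neighborFinset a).filter P
  have h1 : T.card < 3 := by
    have : T ⊂ G.neighborFinset a := by
      rw [Finset.ssubset_iff_of_subset (Finset.filter_subset _ _)]
      exact ⟨b, by simpa using hab, by simp [hb]⟩
    have h2 := Finset.card_lt_card this
    rw [SimpleGraph.card_neighborFinset_eq_degree] at h2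
    omega
  have h2 : (T.image f).card < (Finset.univ : Finset (Fin 3)).card := by
    refine lt_of_le_of_lt Finset.card_image_le ?_
    simpa using h1
  obtain ⟨i, _, hi⟩ := Finset.exists_mem_notMem_of_card_lt_card h2
  refine ⟨i, fun w hw haw e => hi ?_⟩
  rw [Finset.mem_image]
  exact ⟨w, by simp [T, hw, haw], e⟩

end JoinAux

open JoinAux

theorem join_proof : Stmt_Join := by
  classical
  intro V _ _ G _ hdeg W hcross hW hWc
  obtain ⟨sl1, s1, i1, e1⟩ := (colourable_induce G W).1 hW
  obtain ⟨sl2, s2, i2, e2⟩ := (colourable_induce G Wᶜ).1 hWc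
  by_cases hex : ∃ a b, a ∈ W ∧ b ∉ W ∧ G.Adj a b
  · obtain ⟨a, b, ha, hb, hab⟩ := hex
    obtain ⟨i, hi⟩ := exists_free_slot G a (hdeg a) (· ∈ W) b hb hab (sl1 a)
    obtain ⟨j, hj⟩ := exists_free_slot G b (hdeg b) (· ∉ W) a (by simpa using ha) hab.symm (sl2 b)
    obtain ⟨π, hπ⟩ := exists_recolour (s1 a) (s2 b) i j
    have huniq : ∀ v w, v ∈ W → w ∉ W → G.Adj v w → v = a ∧ w = b :=
      fun v w hv hw h => hcross v w a b hv hw h ha hb hab
    refine ⟨fun v w => if v ∈ W then (if w ∈ W then sl1 v w else i)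
        else (if w ∈ W then j else sl2 v w),
      fun v => if v ∈ W then (s1 v).map π else s2 v, ?_, ?_⟩
    · intro v w w' a1 a2 e
      by_cases hv : v ∈ W
      · by_cases hw : w ∈ W <;> by_cases hw' : w' ∈ W <;> simp only [hv, hw, hw', if_true, if_false] at e
        · exact i1 v w w' hv hw hw' a1 a2 e
        · obtain ⟨rfl, rfl⟩ := huniq v w' hv hw' a2
          exact absurd e (hi w hw a1)
        · obtain ⟨rfl, rfl⟩ := huniq v w hv hw a1
          exact absurd e.symm (hi w' hw' a2)
        · rw [(huniq v w hv hw a1).2, (huniq v w' hv hw' a2).2]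
      · by_cases hw : w ∈ W <;> by_cases hw' : w' ∈ W <;> simp only [hv, hw, hw', if_true, if_false] at e
        · rw [(huniq w v hw hv a1.symm).1, (huniq w' v hw' hv a2.symm).1]
        · obtain ⟨rfl, rfl⟩ := huniq w v hw hv a1.symm
          exact absurd e.symm (hj w' hw' a2)
        · obtain ⟨rfl, rfl⟩ := huniq w' v hw' hv a2.symm
          exact absurd e (hj w hw a1)
        · exact i2 v w w' hv hw hw' a1 a2 e
    · intro v w h
      by_cases hv : v ∈ W <;> by_cases hw : w ∈ W <;> simp only [hv, hw, if_true, if_false]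
      · exact edgeOK_map (e1 v w hv hw h) π
      · obtain ⟨rfl, rfl⟩ := huniq v w hv hw h
        exact hπ
      · obtain ⟨rfl, rfl⟩ := huniq w v hw hv h.symm
        exact edgeOK_symm hπ
      · exact e2 v w hv hw h
  · push Not at hex
    have hsame : ∀ v w, G.Adj v w → (v ∈ W ↔ w ∈ W) := by
      intro v w h
      constructor
      · intro hv
        by_contra hw
        exact hex v w hv hw h
      · intro hw
        by_contra hv
        exact hex w v hw hv h.symm
    refine ⟨fun v w => if v ∈ W then sl1 v w else sl2 v w,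
      fun v => if v ∈ W then s1 v else s2 v, ?_, ?_⟩
    · intro v w w' a1 a2 e
      by_cases hv : v ∈ W
      · simp only [hv, if_true] at e
        exact i1 v w w' hv ((hsame v w a1).1 hv) ((hsame v w' a2).1 hv) a1 a2 e
      · simp only [hv, if_false] at e
        exact i2 v w w' hv (fun h => hv ((hsame v w a1).2 h)) (fun h => hv ((hsame v w' a2).2 h))
          a1 a2 e
    · intro v w h
      by_cases hv : v ∈ W
      · have hw := (hsame v w h).1 hv
        simp only [hv, hw, if_true]
        exact e1 v w hv hw h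
      · have hw : w ∉ W := fun h' => hv ((hsame v w h).2 h')
        simp only [hv, hw, if_false]
        exact e2 v w hv hw h

end Pool.Agent.Trunc
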