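import Pool.Agent.Trunc.Defs

/-! Tools for the modules CycleKH 2 1 and CycleKH 1 2 (helper87). -/

namespace Pool.Agent.Trunc.KH

theorem hyp_rot {L : ℕ} {ch : ZMod L → ZMod L} {K Z : ZMod L → Prop} (h : CycleHyp L ch K Z)
    (r : ZMod L) :
    CycleHyp L (fun i => ch (i + r) - r) (fun i => K (i + r)) (fun i => Z (i + r)) := by
  obtain ⟨h1, h2, h3, h4, a, b, h5⟩ := h
  refine ⟨h1, fun i => ?_, fun i hi => ?_, fun i hi => ?_, a - r, b - r, fun i hi => ?_⟩
  · show ch (ch (i + r) - r + r) - r = i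
    rw [sub_add_cancel, h2, add_sub_cancel_right]
  · apply h3 (i + r)
    have hi' : ch (i + r) - r = i + 1 := hi
    rw [sub_eq_iff_eq_add] at hi'
    rw [hi']
    ring
  · show ch (i + r) - r = i
    rw [h4 (i + r) hi, add_sub_cancel_right]
  · rcases h5 (i + r) hi with h | h
    · left; rw [← h, add_sub_cancel_right]
    · right; rw [← h, add_sub_cancel_right]

/-- The pure scheme gives `CycleGood`. -/
theorem pure_good (hP : Stmt_Pure) (L : ℕ) (hL : 1 ≤ L) (ch : ZMod L → ZMod L)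
    (K Z : ZMod L → Prop) (τK : ZMod L → Bool) (f ty : ZMod L → Bool)
    (h1 : ∀ i, ch (ch i) = i)
    (hK : ∀ i, K i → ty i = τK i ∧ ¬ IsS f ty i)
    (hS : ∀ i, ch i = i → ¬ K i → IsS f ty i)
    (hc : ∀ i, ch i ≠ i → ty (ch i) = ty i ∧ (IsS f ty i ↔ ¬ IsS f ty (ch i)))
    (hN : ∀ i, ¬ (IsN f ty i ∧ IsN f ty (i + 1)))
    (hsk : ∀ X, ConstSkel X f ty ∨ ∃ w, ch w = w ∧ ActSkel X f ty w) :
    CycleGood L ch K Z τK := by
  refine ⟨ty, fun o ho => ?_⟩
  obtain ⟨s0, -, h⟩ := hP L hL f ty ch h1 hc hN hsk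
  obtain ⟨s, hs1, hs2, hs3, hs4, hs5, -, -⟩ :=
    h o (fun i hi hi' => ho i hi (fun hk => (hK i hk).2 hi'))
  exact ⟨s, hs1, fun i hi => by rw [← (hK i hi).1]; exact hs3 i (hK i hi).2,
    fun i hi hi' => ⟨hs4 i hi (hS i hi hi'), fun _ => hs2 i (hS i hi hi')⟩, hs5⟩

theorem exists_two {α : Type*} {P : α → Prop} (h : Nat.card {i // P i} = 2) :
    ∃ a b, a ≠ b ∧ P a ∧ P b ∧ ∀ i, P i → i = a ∨ i = b := by
  obtain ⟨x, y, hxy, h2⟩ := Nat.card_eq_two_iff.1 h
  refine ⟨x.1, y.1, fun h => hxy (Subtype.ext h), x.2, y.2, fun i hi => ?_⟩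
  have : (⟨i, hi⟩ : {i // P i}) ∈ ({x, y} : Set {i // P i}) := by rw [h2]; trivial
  rcases this with h | h
  · left; rw [← h]
  · right; rw [Set.mem_singleton_iff] at h; rw [← h]

theorem exists_one {α : Type*} {P : α → Prop} (h : Nat.card {i // P i} = 1) :
    ∃ a, P a ∧ ∀ i, P i → i = a := by
  obtain ⟨h1, ⟨x⟩⟩ := Nat.card_eq_one_iff_unique.1 h
  exact ⟨x.1, x.2, fun i hi => congrArg Subtype.val (h1.elim ⟨i, hi⟩ x)⟩

/-- one chord -/
theorem one_chord {α : Type*} {ch : α → α} (h1 : ∀ i, ch (ch i) = i)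
    (h : Nat.card {i // ch i ≠ i} = 2) : ∃ c, ch c ≠ c ∧ ∀ i, ch i ≠ i → i = c ∨ i = ch c := by
  obtain ⟨a, b, hab, ha, hb, hall⟩ := exists_two h
  refine ⟨a, ha, fun i hi => ?_⟩
  have h2 : ch (ch a) ≠ ch a := by rw [h1]; exact ha.symm
  have h3 : ch a = b := by
    rcases hall _ h2 with h | h
    · exact absurd h ha
    · exact h
  rw [h3]
  exact hall i hi

/-- two chords -/
theorem two_chords {α : Type*} {ch : α → α} (h1 : ∀ i, ch (ch i) = i)
    (h : Nat.card {i // ch i ≠ i} = 4) : ∃ c e, ch c ≠ c ∧ ch e ≠ e ∧ e ≠ c ∧ e ≠ ch c ∧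
      ∀ i, ch i ≠ i → i = c ∨ i = ch c ∨ i = e ∨ i = ch e := by
  classical
  have hfin : Finite {i // ch i ≠ i} := Nat.finite_of_card_ne_zero (by rw [h]; norm_num)
  obtain ⟨S, hS⟩ : ∃ S : Finset α, ∀ i, i ∈ S ↔ ch i ≠ i := by
    have hf : {i | ch i ≠ i}.Finite := hfin
    exact ⟨hf.toFinset, fun i => by simp⟩
  have hcard : S.card = 4 := by
    rw [← h, Nat.card_congr (Equiv.subtypeEquivRight (fun i => (hS i).symm)),
      Nat.card_eq_fintype_card, Fintype.card_coe]
  obtain ⟨c, hc⟩ : ∃ c, c ∈ S := by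
    apply Finset.card_pos.1
    omega
  have hc' := (hS c).1 hc
  have hcS : ch c ∈ S := (hS _).2 (by rw [h1]; exact hc'.symm)
  obtain ⟨e, he, he2⟩ : ∃ e ∈ S, e ∉ ({c, ch c} : Finset α) := by
    by_contra hcon
    push Not at hcon
    have := Finset.card_le_card (show S ⊆ {c, ch c} from fun x hx => hcon x hx)
    have h2 := Finset.card_le_two (a := c) (b := ch c)
    omega
  have he' := (hS e).1 he
  have heS : ch e ∈ S := (hS _).2 (by rw [h1]; exact he'.symm)
  simp only [Finset.mem_insert, Finset.mem_singleton, not_or] at he2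
  refine ⟨c, e, hc', he', he2.1, he2.2, fun i hi => ?_⟩
  have hT : ({c, ch c, e, ch e} : Finset α) = S := by
    apply Finset.eq_of_subset_of_card_le
    · intro x hx
      simp only [Finset.mem_insert, Finset.mem_singleton] at hx
      rcases hx with rfl | rfl | rfl | rfl <;> assumption
    · rw [hcard]
      have e1 : ch e ≠ c := fun h => he2.2 (by rw [← h, h1])
      have e2 : ch e ≠ ch c := fun h => he2.1 (by rw [← h1 e, h, h1])
      rw [Finset.card_insert_of_notMem, Finset.card_insert_of_notMem,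
        Finset.card_insert_of_notMem, Finset.card_singleton]
      · simp only [Finset.mem_singleton]; exact he'.symm
      · simp only [Finset.mem_insert, Finset.mem_singleton, not_or]
        exact ⟨fun h => he2.2 h.symm, fun h => e2 h.symm⟩
      · simp only [Finset.mem_insert, Finset.mem_singleton, not_or]
        exact ⟨fun h => hc' h.symm, fun h => he2.1 h.symm, fun h => e1 h.symm⟩
  have hi2 := (hS i).2 hi
  rw [← hT] at hi2
  simpa only [Finset.mem_insert, Finset.mem_singleton] using hi2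

/-- a vertex outside a small list -/
theorem exists_out {L : ℕ} [NeZero L] (l : List (ZMod L)) (h : l.length < L) :
    ∃ i : ZMod L, i ∉ l := by
  classical
  by_contra hcon
  push Not at hcon
  have h1 : (Finset.univ : Finset (ZMod L)) ⊆ l.toFinset := fun x _ => by
    rw [List.mem_toFinset]; exact hcon x
  have h2 := Finset.card_le_card h1
  rw [Finset.card_univ, ZMod.card] at h2
  have h3 := l.toFinset_card_le
  omega

end Pool.Agent.Trunc.KH
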