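import Pool.Agent.Trunc.Defs

/-!
# Module PThree
-/

namespace Pool.Agent.Trunc

theorem val_add_natCast' {L : ℕ} [NeZero L] (v : ZMod L) (j : ℕ) :
    (v + (j : ZMod L)).val = (v.val + j) % L := by
  rw [ZMod.val_add, ZMod.val_natCast, Nat.add_mod_mod]

theorem val_add_one' {L : ℕ} [NeZero L] (i : ZMod L) :
    ((i + 1 : ZMod L).val = i.val + 1 ∧ i.val + 1 < L) ∨
      ((i + 1 : ZMod L).val = 0 ∧ i.val + 1 = L) := by
  have h := val_add_natCast' i 1
  rw [Nat.cast_one] at h
  have h1 := ZMod.val_lt i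
  rcases Nat.lt_or_ge (i.val + 1) L with h2 | h2
  · left
    rw [Nat.mod_eq_of_lt h2] at h
    exact ⟨h, h2⟩
  · right
    have h3 : i.val + 1 = L := by omega
    rw [h3, Nat.mod_self] at h
    exact ⟨h, h3⟩

theorem pThree_of (hPure : Stmt_Pure) (hTwo : Stmt_SkelTwo) : Stmt_PThree := by
  classical
  intro L ch K Z hyp N M₁ M₂ h1 h2 h3 h4 hKN hch0 hK0 hK hM1 hM2 hch τK
  obtain ⟨hL, hinv, hne, hKch, hZ⟩ := hyp
  have : NeZero L := ⟨by omega⟩
  have hM1v := ZMod.val_lt M₁
  have hM2v := ZMod.val_lt M₂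
  have hNv := ZMod.val_lt N
  set X : Bool := τK N with hX
  set f : ZMod L → Bool := fun i => if M₁.val < i.val ∧ i.val ≤ M₂.val then !X else X with hf
  have fval : ∀ i : ZMod L, (f i = !X ∧ M₁.val < i.val ∧ i.val ≤ M₂.val) ∨
      (f i = X ∧ ¬ (M₁.val < i.val ∧ i.val ≤ M₂.val)) := by
    intro i
    by_cases h : M₁.val < i.val ∧ i.val ≤ M₂.val
    · left; exact ⟨by simp [hf, h], h⟩
    · right; exact ⟨by simp only [hf, if_neg h], h⟩
  have valne : ∀ i j : ZMod L, i ≠ j → i.val ≠ j.val := fun i j h h' => h (ZMod.val_injective L h')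
  -- mixed vertices
  have mixed : ∀ i : ZMod L, f i ≠ f (i + 1) ↔ (i = M₁ ∨ i = M₂) := by
    intro i
    have hi := ZMod.val_lt i
    constructor
    · intro h
      by_contra hcon
      push Not at hcon
      have e1 := valne _ _ hcon.1
      have e2 := valne _ _ hcon.2
      rcases fval i with ⟨ha, hb⟩ | ⟨ha, hb⟩ <;> rcases fval (i + 1) with ⟨hc, hd⟩ | ⟨hc, hd⟩ <;>
        rcases val_add_one' i with ⟨he, he'⟩ | ⟨he, he'⟩ <;> rw [he] at hd <;>
        first
        | omega
        | exact h (ha.trans hc.symm)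
    · intro h
      have hXX : X ≠ !X := by cases X <;> simp
      rcases h with rfl | rfl <;>
      rcases fval i with ⟨ha, hb⟩ | ⟨ha, hb⟩ <;> rcases fval (i + 1) with ⟨hc, hd⟩ | ⟨hc, hd⟩ <;>
        rcases val_add_one' i with ⟨he, he'⟩ | ⟨he, he'⟩ <;> rw [he] at hd <;>
        first
        | omega
        | exact fun h' => hXX (ha.symm.trans (h'.trans hc))
        | exact fun h' => hXX.symm (ha.symm.trans (h'.trans hc))
  have hNM1 : N ≠ M₁ := fun h => by rw [h] at h4; omega
  have hNM2 : N ≠ M₂ := fun h => by rw [h] at h4; omega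
  have h01 : (0 : ZMod L) ≠ M₁ := fun h => by rw [← h] at h1; simp at h1
  have h02 : (0 : ZMod L) ≠ M₂ := fun h => by rw [← h] at h2; simp at h2
  have h0N : (0 : ZMod L) ≠ N := fun h => by rw [← h] at h3; simp at h3
  set ty : ZMod L → Bool := fun i =>
    if i = M₁ ∨ i = M₂ then (if K i then τK i else !f (ch i)) else
      (if K i then τK i else !f i) with hty
  have tyK : ∀ i, K i → ty i = τK i := by
    intro i hi
    simp only [hty]
    split_ifs <;> rfl
  have tyM : ∀ i, (i = M₁ ∨ i = M₂) → ¬ K i → ty i = !f (ch i) := by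
    intro i hi hki
    simp only [hty, if_pos hi, if_neg hki]
  have tyS : ∀ i, ¬ (i = M₁ ∨ i = M₂) → ¬ K i → ty i = !f i := by
    intro i hi hki
    simp only [hty, if_neg hi, if_neg hki]
  have fN : f N = X := by
    rcases fval N with ⟨_, hb⟩ | ⟨ha, _⟩
    · omega
    · exact ha
  have f0 : f 0 = X := by
    rcases fval 0 with ⟨_, hb⟩ | ⟨ha, _⟩
    · simp at hb
    · exact ha
  have tyN : ty N = X := tyK N hKN
  have ty0 : ty 0 = !X := by
    rw [tyS 0 (by push Not; exact ⟨h01, h02⟩) hK0, f0]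
  -- IsS characterisation
  have notM : ∀ i, ¬ (i = M₁ ∨ i = M₂) → f i = f (i + 1) := by
    intro i hi
    by_contra h
    exact hi ((mixed i).1 h)
  have isS_of : ∀ i, ¬ (i = M₁ ∨ i = M₂) → ¬ K i → IsS f ty i := by
    intro i hi hki
    refine ⟨notM i hi, ?_⟩
    rw [tyS i hi hki]
    cases f i <;> simp
  have notS_M : ∀ i, (i = M₁ ∨ i = M₂) → ¬ IsS f ty i := fun i hi h => (mixed i).2 hi h.1
  have notS_K : ∀ i, K i → ¬ IsS f ty i := by
    intro i hi hS
    rcases hK i hi with rfl | h | h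
    · exact hS.2 (by rw [tyN, fN])
    · exact notS_M i (Or.inl h) hS
    · exact notS_M i (Or.inr h) hS
  have isN_eq : ∀ i, IsN f ty i → i = N := by
    intro i hi
    by_contra hiN
    have hnm : ¬ (i = M₁ ∨ i = M₂) := fun h => (mixed i).2 h hi.1
    have hnk : ¬ K i := by
      intro hk
      rcases hK i hk with h | h | h
      · exact hiN h
      · exact hnm (Or.inl h)
      · exact hnm (Or.inr h)
    have := (isS_of i hnm hnk).2
    exact this hi.2
  have h10 : (1 : ZMod L) ≠ 0 := by
    intro h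
    have h5 := congrArg ZMod.val h
    have : Fact (1 < L) := ⟨by omega⟩
    rw [ZMod.val_one, ZMod.val_zero] at h5
    exact absurd h5 (by norm_num)
  -- apply Pure
  have hP := hPure L (by omega) f ty ch hinv ?_ ?_ ?_
  · obtain ⟨s₀, -, hs⟩ := hP
    refine ⟨ty, fun o ho => ?_⟩
    obtain ⟨s, hs1, hs2, hs3, hs4, hs5, -, -⟩ := hs o (fun i hi hS => ho i hi (fun hk => notS_K i hk hS))
    refine ⟨s, hs1, fun i hi => ?_, fun i hi hki => ?_, hs5⟩
    · rw [← tyK i hi]
      exact hs3 i (notS_K i hi)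
    · have hnm : ¬ (i = M₁ ∨ i = M₂) := by
        rintro (rfl | rfl)
        · rcases hM1 with h | h
          · exact hki h
          · exact h hi
        · rcases hM2 with h | h
          · exact hki h
          · exact h hi
      have hS := isS_of i hnm hki
      exact ⟨hs4 i hi hS, fun _ => hs2 i hS⟩
  · intro i hi
    have h5 := hch i hi
    have hki : ¬ K i := fun h => hi (hKch i h)
    have hki' : ¬ K (ch i) := fun h => by
      have h6 := hKch _ h
      rw [hinv] at h6
      exact hi h6.symm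
    by_cases hM : (i = M₁ ∨ i = M₂)
    · have h6 := h5.1 hM
      refine ⟨?_, ?_⟩
      · rw [tyM i hM hki, tyS _ h6 hki']
      · exact ⟨fun h => absurd h (notS_M i hM), fun h => absurd (isS_of _ h6 hki') h⟩
    · have h6 : (ch i = M₁ ∨ ch i = M₂) := by
        by_contra h7
        exact hM (h5.2 h7)
      refine ⟨?_, ?_⟩
      · rw [tyM _ h6 hki', hinv, tyS i hM hki]
      · exact ⟨fun _ => notS_M _ h6, fun _ => isS_of i hM hki⟩
  · rintro i ⟨ha, hb⟩
    have h5 := isN_eq i ha
    have h6 := isN_eq _ hb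
    rw [h5] at h6
    exact h10 (by simpa using h6)
  · intro Y
    by_cases hY : Y = X
    · left
      rw [hY]
      have h5 := hTwo L (L - (M₂.val - M₁.val)) (by omega) (by omega) M₂ X f ty ?_ ?_
      · refine h5.1 (Or.inl ?_)
        rcases h4 with h6 | h6
        · refine ⟨L + N.val - M₂.val, by omega, by omega, ?_⟩
          have h7 : M₂ + ((L + N.val - M₂.val : ℕ) : ZMod L) = N := by
            apply ZMod.val_injective L
            rw [val_add_natCast']
            have h8 : M₂.val + (L + N.val - M₂.val) = N.val + L := by omega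
            rw [h8, Nat.add_mod_right, Nat.mod_eq_of_lt hNv]
          rw [h7, tyN]
        · refine ⟨N.val - M₂.val, by omega, by omega, ?_⟩
          have h7 : M₂ + ((N.val - M₂.val : ℕ) : ZMod L) = N := by
            apply ZMod.val_injective L
            rw [val_add_natCast']
            have h8 : M₂.val + (N.val - M₂.val) = N.val := by omega
            rw [h8, Nat.mod_eq_of_lt hNv]
          rw [h7, tyN]
      · intro j hj1 hj2
        rcases fval (M₂ + (j : ZMod L)) with ⟨_, hb⟩ | ⟨ha, _⟩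
        · exfalso
          rw [val_add_natCast'] at hb
          rcases Nat.lt_or_ge (M₂.val + j) L with h8 | h8
          · rw [Nat.mod_eq_of_lt h8] at hb
            omega
          · rw [Nat.mod_eq_sub_mod h8, Nat.mod_eq_of_lt (by omega)] at hb
            omega
        · exact ha
      · intro j hj1 hj2
        rcases fval (M₂ + (j : ZMod L)) with ⟨ha, _⟩ | ⟨_, hb⟩
        · exact ha
        · exfalso
          rw [val_add_natCast'] at hb
          rw [Nat.mod_eq_sub_mod (by omega), Nat.mod_eq_of_lt (by omega)] at hb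
          omega
    · right
      have hY' : Y = !X := Bool.eq_not.2 hY
      rw [hY']
      have h5 := hTwo L (M₂.val - M₁.val) (by omega) (by omega) M₁ (!X) f ty ?_ ?_
      · refine ⟨0, hch0, ?_⟩
        have h6 := h5.2 (L - M₁.val) (by omega) (by omega)
        have h7 : M₁ + ((L - M₁.val : ℕ) : ZMod L) = 0 := by
          apply ZMod.val_injective L
          rw [val_add_natCast']
          have h8 : M₁.val + (L - M₁.val) = L := by omega
          rw [h8, Nat.mod_self, ZMod.val_zero]
        rw [h7] at h6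
        exact h6 ty0
      · intro j hj1 hj2
        rcases fval (M₁ + (j : ZMod L)) with ⟨ha, _⟩ | ⟨_, hb⟩
        · exact ha
        · exfalso
          rw [val_add_natCast', Nat.mod_eq_of_lt (by omega)] at hb
          omega
      · intro j hj1 hj2
        rw [Bool.not_not]
        rcases fval (M₁ + (j : ZMod L)) with ⟨_, hb⟩ | ⟨ha, _⟩
        · exfalso
          rw [val_add_natCast'] at hb
          rcases Nat.lt_or_ge (M₁.val + j) L with h8 | h8
          · rw [Nat.mod_eq_of_lt h8] at hb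
            omega
          · rw [Nat.mod_eq_sub_mod h8, Nat.mod_eq_of_lt (by omega)] at hb
            omega
        · exact ha

theorem PThree_proof (hPure : Stmt_Pure) (hTwo : Stmt_SkelTwo) : Stmt_PThree :=
  pThree_of hPure hTwo

/-- A convenient form of the use of `Stmt_Pure` in the cycle lemma. -/
theorem cycleGood_of_pure (hPure : Stmt_Pure) {L : ℕ} (hL : 1 ≤ L) {ch : ZMod L → ZMod L}
    {K Z : ZMod L → Prop} {τK : ZMod L → Bool} (hinv : ∀ i, ch (ch i) = i) (f ty : ZMod L → Bool)
    (h1 : ∀ i, K i → ty i = τK i ∧ ¬ IsS f ty i) (h2 : ∀ i, ch i = i → ¬ K i → IsS f ty i)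
    (h3 : ∀ i, ch i ≠ i → ty (ch i) = ty i ∧ (IsS f ty i ↔ ¬ IsS f ty (ch i)))
    (h4 : ∀ i, ¬ (IsN f ty i ∧ IsN f ty (i + 1)))
    (h5 : ∀ X, ConstSkel X f ty ∨ ∃ w, ch w = w ∧ ActSkel X f ty w) :
    CycleGood L ch K Z τK := by
  obtain ⟨s₀, -, hs⟩ := hPure L hL f ty ch hinv h3 h4 h5
  refine ⟨ty, fun o ho => ?_⟩
  obtain ⟨s, hs1, hs2, hs3, hs4, hs5, -, -⟩ :=
    hs o (fun i hi hS => ho i hi (fun hk => (h1 i hk).2 hS))
  refine ⟨s, hs1, fun i hi => ?_, fun i hi hki => ?_, hs5⟩
  · rw [← (h1 i hi).1]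
    exact hs3 i (h1 i hi).2
  · exact ⟨hs4 i hi (h2 i hi hki), fun _ => hs2 i (h2 i hi hki)⟩

end Pool.Agent.Trunc
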