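import Pool.Agent.Trunc.Defs

namespace Pool.Agent.Trunc

/-- The pure scheme for the root cycle.  `ty τU` are the types of the vertices, for given types
`τU` of the `U`-vertices. -/
theorem root_of_pure (hPure : Stmt_Pure) {L : ℕ} (hL : 1 ≤ L) {ch : ZMod L → ZMod L}
    (hinv : ∀ i, ch (ch i) = i)
    (U : ZMod L → Prop) (small : Prop) (τS : ZMod L → Bool)
    (f : ZMod L → Bool) (ty : (ZMod L → Bool) → ZMod L → Bool)
    (hU : ∀ i, U i → ch i = i) (hS : (∃ i, ch i = i) → ∃ i, ch i = i ∧ ¬ U i)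
    (hsmall : small → ∃ a b, ∀ i, U i → i = a ∨ i = b)
    (hUty : ∀ τU i, U i → ty τU i = τU i ∧ f i ≠ f (i + 1))
    (hSty : ∀ τU i, ch i = i → ¬ U i → IsS f (ty τU) i ∧ ty τU i = τS i)
    (hch : ∀ τU i, ch i ≠ i → ty τU (ch i) = ty τU i ∧
      (IsS f (ty τU) i ↔ ¬ IsS f (ty τU) (ch i)))
    (hN : ∀ τU i, ¬ (IsN f (ty τU) i ∧ IsN f (ty τU) (i + 1)))
    (hX : ∀ τU X, ConstSkel X f (ty τU) ∨ ∃ w, ch w = w ∧ ActSkel X f (ty τU) w)
    (hUC : ∀ τU i, U i → ConstSkel (τU i) f (ty τU) ∧ (¬ small → ConstSkel (!τU i) f (ty τU))) :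
    RootGood L ch := by
  refine ⟨U, small, τS, hU, hS, hsmall, ?_⟩
  intro τU
  obtain ⟨s₀, hs₀, hmain⟩ := hPure L hL f (ty τU) ch hinv (hch τU) (hN τU) (hX τU)
  have hUS : ∀ i, U i → ¬ IsS f (ty τU) i := fun i hi h => (hUty τU i hi).2 h.1
  refine ⟨s₀, fun i hi => ?_, ?_⟩
  · have := hs₀ i (hUS i hi)
    rwa [(hUty τU i hi).1] at this
  intro o ho
  obtain ⟨s, h1, h2, h3, h4, h5, h6, h7⟩ := hmain o (fun i hi hiS => by
    have hnU : ¬ U i := fun h => hUS i h hiS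
    rw [(hSty τU i hi hnU).2]
    exact ho i hi hnU)
  refine ⟨s, h1, fun i hi hnU => h4 i hi (hSty τU i hi hnU).1, h5, fun i hi => ?_⟩
  obtain ⟨e1, e2⟩ := hUty τU i hi
  obtain ⟨c1, c2⟩ := hUC τU i hi
  refine ⟨?_, ?_, ?_⟩
  · have := h3 i (hUS i hi)
    rwa [e1] at this
  · exact h6 i (hUS i hi) (by rw [e1]; exact c1)
  · intro hns
    exact h7 i e2 (by rw [e1]; exact c2 hns)

end Pool.Agent.Trunc
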