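import Pool.Agent.Trunc.Defs

/-! Cyclic walks: common part of SkelTwo and SkelBig. -/

namespace Pool.Agent.Trunc

theorem zmod_eq_val {L : ℕ} (hL : 1 ≤ L) (v i : ZMod L) :
    (i - v).val < L ∧ v + (((i - v).val : ℕ) : ZMod L) = i := by
  haveI : NeZero L := ⟨by omega⟩
  refine ⟨ZMod.val_lt _, ?_⟩
  rw [ZMod.natCast_zmod_val]
  ring

/-- A closed sequence gives a function on the cycle. -/
theorem cyc {α : Type*} {L : ℕ} (hL : 1 ≤ L) (v : ZMod L) (P : ℕ → α)
    (R : ZMod L → α → α → Prop) (h0 : P L = P 0)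
    (h : ∀ j, j < L → R (v + (j : ZMod L)) (P j) (P (j + 1))) :
    ∃ p : ZMod L → α, (∀ j, j ≤ L → p (v + (j : ZMod L)) = P j) ∧
      ∀ i, R i (p i) (p (i + 1)) := by
  haveI : NeZero L := ⟨by omega⟩
  have key : ∀ j, j ≤ L → P ((v + (j : ZMod L) - v).val) = P j := by
    intro j hj
    have e : (v + (j : ZMod L) - v) = (j : ZMod L) := by ring
    rw [e, ZMod.val_natCast]
    rcases Nat.lt_or_ge j L with h1 | h1
    · rw [Nat.mod_eq_of_lt h1]
    · have : j = L := le_antisymm hj h1
      subst this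
      rw [Nat.mod_self, h0]
  refine ⟨fun i => P ((i - v).val), key, fun i => ?_⟩
  obtain ⟨h1, h2⟩ := zmod_eq_val hL v i
  have h3 := h _ h1
  rw [h2] at h3
  have h4 := key ((i - v).val + 1) h1
  have e : v + (((i - v).val + 1 : ℕ) : ZMod L) = i + 1 := by
    push_cast
    rw [← add_assoc, h2]
  rw [e] at h4
  show R i (P ((i - v).val)) (P ((i + 1 - v).val))
  rw [h4]
  exact h3

theorem rot3 (p : ZMod 3 × ZMod 3) : rot (rot (rot p)) = p := by
  revert p
  decide

theorem rot_ne {p : ZMod 3 × ZMod 3} (h : p.1 ≠ p.2) : (rot p).1 ≠ (rot p).2 := by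
  revert p
  decide

theorem rot_iter_mod (n : ℕ) (p : ZMod 3 × ZMod 3) : rot^[n] p = rot^[n % 3] p := by
  conv_lhs => rw [← Nat.div_add_mod n 3]
  rw [add_comm, Function.iterate_add_apply, Function.iterate_mul]
  have : (rot^[3]) = id := by
    funext q
    simp only [Function.iterate_succ, Function.comp, Function.iterate_zero, id]
    exact rot3 q
  rw [this, Function.iterate_id, id]

theorem rot_iter_ne (n : ℕ) {p : ZMod 3 × ZMod 3} (h : p.1 ≠ p.2) :
    (rot^[n] p).1 ≠ (rot^[n] p).2 := by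
  induction n with
  | zero => exact h
  | succ n ih => rw [Function.iterate_succ_apply']; exact rot_ne ih

end Pool.Agent.Trunc
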