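import Pool.Agent.Trunc.SRun
import Pool.Agent.Trunc.Sym

/-! Lemmas for the module TTwo (helper39). -/

namespace Pool.Agent.Trunc

theorem t39_medge {τ : Bool} {s o : St} (hs : Accept τ s) (ho : Offer τ o)
    (hc : s.c 0 = o.c 0) : MEdge s o := by
  obtain ⟨h1, h2, h3⟩ := hs
  obtain ⟨h4, h5, h6⟩ := ho
  have hb : τ ≠ !τ := by cases τ <;> decide
  rw [medge_iff]
  refine ⟨hc, ?_, ?_, ?_, ?_⟩
  · intro h; exact hb ((h2.symm.trans (congrArg Prod.fst h)).trans h5)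
  · intro h; exact hb ((h2.symm.trans (congrArg Prod.fst h)).trans h6)
  · intro h; exact hb ((h3.symm.trans (congrArg Prod.fst h)).trans h5)
  · intro h; exact hb ((h3.symm.trans (congrArg Prod.fst h)).trans h6)

/-- From a walk to a cycle. -/
theorem t39_close (L : ℕ) (hL : 1 ≤ L) (S : ℕ → St) (hS : ∀ j < L, FEdge (S j) (S (j + 1)))
    (h0 : S L = S 0) (i : ZMod L) : FEdge (S i.val) (S (i + 1).val) := by
  have : NeZero L := ⟨by omega⟩
  have hv := ZMod.val_lt i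
  have e : i + 1 = ((i.val + 1 : ℕ) : ZMod L) := by
    push_cast
    rw [ZMod.natCast_val, ZMod.cast_id]
  by_cases h : i.val + 1 < L
  · have : (i + 1).val = i.val + 1 := by rw [e, ZMod.val_natCast_of_lt h]
    rw [this]
    exact hS _ hv
  · have e1 : i.val + 1 = L := by omega
    have e2 : i + 1 = 0 := by rw [e, e1, ZMod.natCast_self]
    rw [e2, ZMod.val_zero, ← h0]
    have := hS _ hv
    rwa [e1] at this

theorem t39_val_eq {L : ℕ} (hL : 1 ≤ L) (i : ZMod L) (n : ℕ) (hn : n < L) :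
    i.val = n ↔ i = (n : ZMod L) := by
  have : NeZero L := ⟨by omega⟩
  constructor
  · intro h
    rw [← h, ZMod.natCast_val, ZMod.cast_id]
  · intro h
    rw [h, ZMod.val_natCast_of_lt hn]

theorem t39_ne_cast {L : ℕ} {m n : ℕ} (hm : m < L) (hn : n < L) (h : m ≠ n) :
    ((m : ℕ) : ZMod L) ≠ (n : ZMod L) := by
  intro he
  apply h
  have := congrArg ZMod.val he
  rwa [ZMod.val_natCast_of_lt hm, ZMod.val_natCast_of_lt hn] at this

/-- The data of an offer. -/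
theorem t39_offer {τ : Bool} {o : St} (h : Offer τ o) :
    ∃ c a1 a2 : ZMod 3, o.c 0 = (τ, c) ∧ o.t 1 = (!τ, a1) ∧ o.t 2 = (!τ, a2) ∧ a1 ≠ a2 := by
  obtain ⟨h1, h2, h3⟩ := h
  refine ⟨(o.c 0).2, (o.t 1).2, (o.t 2).2, ?_, ?_, ?_, ?_⟩
  · rw [← h1]
  · rw [← h2]
  · rw [← h3]
  · intro h4
    have : o.t 1 = o.t 2 := Prod.ext (by rw [h2, h3]) h4
    have := o.inj_t this
    exact absurd this (by decide)

theorem t39_ner : ∀ a1 a2 : ZMod 3, a1 ≠ a2 → a2 ≠ third a1 a2 := by decide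

theorem t39_nel : ∀ a1 a2 : ZMod 3, a1 ≠ a2 → a1 ≠ third a1 a2 := by decide

theorem t39_pick (c : ZMod 3) : ∃ f al : ZMod 3, c ≠ f ∧ c ≠ al ∧ f ≠ al := by
  revert c; decide

theorem t39_pick2 : ∀ a a' b : ZMod 3, a ≠ a' → ∃ a1 a2 : ZMod 3, a1 ≠ a2 ∧ a1 ≠ b ∧
    ((a = a1 ∧ a' = a2) ∨ (a = a2 ∧ a' = a1)) := by decide

theorem t39_rot1 : ∀ a1 a2 : ZMod 3, rot (a1, a2) = (a2, third a1 a2) := by decide

theorem t39_third : ∀ a1 a2 : ZMod 3, third (third a1 a2) a1 = a2 ∧ third a2 (third a1 a2) = a1 := by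
  decide

theorem t39_rot3 (p : ZMod 3 × ZMod 3) : rot (rot (rot p)) = p := by
  revert p; decide

theorem t39_rotn (n : ℕ) (p : ZMod 3 × ZMod 3) : rot^[n] p = rot^[n % 3] p := by
  have h3 : ∀ k : ℕ, rot^[3 * k] p = p := by
    intro k
    induction k with
    | zero => rfl
    | succ k ih =>
      rw [show 3 * (k + 1) = 3 * k + 3 by ring, Function.iterate_add_apply]
      have : rot^[3] p = p := t39_rot3 p
      rw [this, ih]
  conv_lhs => rw [← Nat.mod_add_div n 3, Function.iterate_add_apply, h3]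

theorem t39_nd1 : ∀ (X : Bool) (c f al a1 a2 : ZMod 3), c ≠ f ∧ c ≠ al ∧ f ≠ al ∧ a1 ≠ a2 →
    [((X, c) : Col), (X, f), (!X, a1), (!X, a2), (X, al), (!X, third a1 a2)].Nodup := by decide

theorem t39_nd2 : ∀ (X : Bool) (c f al a1 a2 : ZMod 3), c ≠ f ∧ c ≠ al ∧ f ≠ al ∧ a1 ≠ a2 →
    [((X, al) : Col), (!X, third a1 a2), (X, f), (X, c), (!X, a1), (!X, a2)].Nodup := by decide

theorem t39_nd3 : ∀ (X : Bool) (c be al a1 a2 : ZMod 3), c ≠ be ∧ c ≠ al ∧ be ≠ al ∧ a1 ≠ a2 →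
    [((!X, c) : Col), (!X, be), (X, a1), (X, a2), (!X, al), (X, third a1 a2)].Nodup := by decide

theorem t39_nd4 : ∀ (X : Bool) (c be al a1 b : ZMod 3), c ≠ be ∧ c ≠ al ∧ be ≠ al ∧ a1 ≠ b →
    [((X, b) : Col), (!X, al), (!X, be), (!X, c), (X, a1), (X, third b a1)].Nodup := by decide

theorem t39_nd5 : ∀ (X : Bool) (c be al a1 a2 : ZMod 3), c ≠ be ∧ c ≠ al ∧ be ≠ al ∧ a1 ≠ a2 →
    [((X, third a1 a2) : Col), (X, a2), (!X, al), (X, a1), (!X, be), (!X, c)].Nodup := by decide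

theorem t39_tb : ∀ a1 b : ZMod 3, a1 ≠ b → a1 ≠ third b a1 ∧ b ≠ third b a1 := by decide

end Pool.Agent.Trunc
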