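import Pool.Agent.Trunc.Defs

/-! Walks around a cycle `ZMod L`. -/

set_option autoImplicit false

namespace Pool.Agent.Trunc

section walk

variable {L : ℕ} {A : Type} (R : ZMod L → A → A → Prop)

/-- `Rch R v p k q`: `q` is reachable from `p` by the `k` steps at `v, v+1, …, v+k-1`. -/
def Rch (v : ZMod L) (p : A) : ℕ → A → Prop
  | 0 => fun q => q = p
  | k + 1 => fun q => ∃ r, Rch v p k r ∧ R (v + (k : ZMod L)) r q

theorem Rch.seq {v : ZMod L} {p : A} : ∀ {n : ℕ} {q : A}, Rch R v p n q →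
    ∃ w : ℕ → A, w 0 = p ∧ w n = q ∧ ∀ k, k < n → R (v + (k : ZMod L)) (w k) (w (k + 1)) := by
  intro n
  induction n with
  | zero =>
    intro q h
    exact ⟨fun _ => p, rfl, h.symm, fun k hk => absurd hk (Nat.not_lt_zero _)⟩
  | succ n ih =>
    rintro q ⟨r, hr, hs⟩
    obtain ⟨w, h0, hn, hw⟩ := ih hr
    refine ⟨fun k => if k ≤ n then w k else q, by simp [h0], by simp, ?_⟩
    intro k hk
    rcases Nat.lt_or_ge k n with h | h
    · have h1 : k ≤ n := h.le
      have h2 : k + 1 ≤ n := h
      simp only [h1, h2, if_true]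
      exact hw k h
    · have hkn : k = n := by omega
      subst hkn
      simp only [le_refl, if_true]
      have : ¬ (k + 1 ≤ k) := by omega
      simp only [this, if_false, hn]
      exact hs

theorem Rch.append {v : ZMod L} {p q : A} {n : ℕ} (h : Rch R v p n q) :
    ∀ {m : ℕ} {r : A}, Rch R (v + (n : ZMod L)) q m r → Rch R v p (n + m) r := by
  intro m
  induction m with
  | zero => intro r hr; rw [show r = q from hr]; exact h
  | succ m ih =>
    rintro r ⟨s, hs, hr⟩
    refine ⟨s, ih hs, ?_⟩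
    have : v + ((n + m : ℕ) : ZMod L) = v + (n : ZMod L) + (m : ZMod L) := by push_cast; ring
    show R (v + ((n + m : ℕ) : ZMod L)) s r
    rw [this]; exact hr

/-- closing up a sequence -/
theorem closed_of_seq (hL : 1 ≤ L) (v : ZMod L) (w : ℕ → A)
    (h : ∀ k, k < L → R (v + (k : ZMod L)) (w k) (w (k + 1))) (hc : w L = w 0) :
    ∃ p : ZMod L → A, (∀ k, k < L → p (v + (k : ZMod L)) = w k) ∧ ∀ i, R i (p i) (p (i + 1)) := by
  have : NeZero L := ⟨by omega⟩
  have key : ∀ k, k < L → w ((v + (k : ZMod L) - v).val) = w k := by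
    intro k hk
    rw [add_sub_cancel_left, ZMod.val_natCast, Nat.mod_eq_of_lt hk]
  refine ⟨fun i => w ((i - v).val), key, ?_⟩
  intro i
  have hi : v + (((i - v).val : ℕ) : ZMod L) = i := by
    rw [ZMod.natCast_zmod_val]; ring
  have hlt : (i - v).val < L := ZMod.val_lt _
  have h1 := h _ hlt
  rw [hi] at h1
  rcases Nat.lt_or_ge ((i - v).val + 1) L with h2 | h2
  · have : (i + 1 - v).val = (i - v).val + 1 := by
      have e : i + 1 - v = (((i - v).val + 1 : ℕ) : ZMod L) := by
        push_cast; rw [ZMod.natCast_zmod_val]; ring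
      rw [e, ZMod.val_natCast, Nat.mod_eq_of_lt h2]
    simp only [this]; exact h1
  · have e3 : (i - v).val + 1 = L := by omega
    have : (i + 1 - v).val = 0 := by
      have e : i + 1 - v = (((i - v).val + 1 : ℕ) : ZMod L) := by
        push_cast; rw [ZMod.natCast_zmod_val]; ring
      rw [e, e3, ZMod.natCast_self, ZMod.val_zero]
    simp only [this]
    rw [e3, hc] at h1
    exact h1

theorem closed_of_Rch (hL : 1 ≤ L) {v : ZMod L} {p : A} (h : Rch R v p L p) :
    ∃ P : ZMod L → A, P v = p ∧ ∀ i, R i (P i) (P (i + 1)) := by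
  obtain ⟨w, h0, hn, hw⟩ := h.seq
  obtain ⟨P, hP, hR⟩ := closed_of_seq R hL v w hw (by rw [hn, h0])
  refine ⟨P, ?_, hR⟩
  have := hP 0 (by omega)
  rw [Nat.cast_zero, add_zero] at this
  rw [this, h0]

end walk

end Pool.Agent.Trunc
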